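import Pool.Agent.V5helper61.GM.AlgBase

/-!
# The algebraic theorem for a commutative group
-/

set_option autoImplicit false

namespace Pool.Agent.V5helper60.GM

open Subgroup Pool.Agent.V5helper61.GM

theorem alg_comm (p : ℕ) [Fact p.Prime] (V : Type) [CommGroup V] [Finite V] (hV : ∀ v : V, v ^ p = 1)
    (DD : Subgroup (MulAut V)) (hp : ¬ p ∣ Nat.card DD) (hcom : ∀ h ∈ DD, ∀ h' ∈ DD, h * h' = h' * h)
    (φ : V →* V) (hφ : ∀ δ ∈ DD, ∀ v, δ (φ v) = φ (δ v)) (N : ℕ) (hN : ∀ v, φ^[N] v = 1)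
    (U : Subgroup V) (hUD : ∀ δ ∈ DD, ∀ v ∈ U, δ v ∈ U) (hU : ∀ v ∈ U, φ v ∈ U)
    (q : ℕ) (hq : 0 < q) (w0 : ℕ)
    (hw : ∀ B' B : Subgroup V, U ≤ B' → B' ≤ B → (∀ δ ∈ DD, ∀ v ∈ B', δ v ∈ B') →
      (∀ δ ∈ DD, ∀ v ∈ B, δ v ∈ B) → (∀ v ∈ B, φ v ∈ B') → B' ≠ B → w0 ≤ B'.relIndex B)
    (hv : ∃ v, φ^[q - 1] v ∉ U) :
    ∃ (P : Subgroup V) (w : ℕ), U ≤ P ∧ (∀ δ ∈ DD, ∀ v ∈ P, δ v ∈ P) ∧ (∀ v ∈ P, φ v ∈ P) ∧
      (∀ v, φ^[q] v ∈ P) ∧ w0 ≤ w ∧ P.index = w ^ q ∧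
      ∀ b : V, ∃ S : Subgroup V, P ≤ S ∧ (∀ δ ∈ DD, ∀ v ∈ S, δ v ∈ S) ∧ b ∈ S ∧ P.relIndex S ≤ w := by
  have _ : Finite DD := inferInstance
  have _ := Fintype.ofFinite DD
  obtain ⟨C, hUC, hqC, hCD, htop, hw0⟩ := exists_C hV hp hφ hN hUD hU hq hw hv
  obtain ⟨s, hs⟩ := exists_max hV hp hcom C hCD
  have hPD : ∀ δ ∈ DD, ∀ v ∈ chn φ C q q, δ v ∈ chn φ C q q := by
    intro δ hδ v hv i h1 h2
    rw [← it_comm (hφ δ hδ)]
    exact hCD δ hδ _ (hv i h1 h2)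
  refine ⟨chn φ C q q, C.index, ?_, hPD, ?_, ?_, hw0, index_chn hqC htop q le_rfl, ?_⟩
  · intro u hu i _ _
    exact hUC (it_stable hU i u hu)
  · intro v hv i h1 h2
    rw [← Function.iterate_succ_apply]
    by_cases h3 : i + 1 < q
    · exact hv (i + 1) h3 (by omega)
    · have : i + 1 = q := by omega
      rw [Nat.succ_eq_add_one, this]
      exact hqC v
  · intro v i h1 h2
    rw [← Function.iterate_add_apply, add_comm, Function.iterate_add_apply]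
    exact hqC _
  · intro b
    have key : ∀ v : V, (chn φ C q q).relIndex (ev DD v).range ≤ C.index := by
      intro v
      have h1 : C.comap (ev DD s) ≤ (chn φ C q q).comap (ev DD v) := by
        intro a ha i h2 h3
        rw [ev_it DD hφ]
        exact hs a ha _
      have h2 := Subgroup.index_dvd_of_le h1
      rw [index_comap, index_comap] at h2
      have h3 := Nat.le_of_dvd (Nat.pos_of_ne_zero (rel_ne _ _)) h2
      have h4 : C.relIndex (ev DD s).range ≤ C.index := by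
        rw [← relIndex_top_right C]
        exact relIndex_le_of_le_right le_top (rel_ne _ _)
      exact h3.trans h4
    refine ⟨chn φ C q q ⊔ (ev DD b).range, le_sup_left, ?_, ?_, ?_⟩
    · intro h hh v hv
      obtain ⟨x, hx, y', hy', rfl⟩ := Subgroup.mem_sup.1 hv
      rw [map_mul]
      exact Subgroup.mul_mem_sup (hPD h hh x hx) (ev_stable DD b h hh y' hy')
    · exact Subgroup.mem_sup_right (mem_ev_self DD b)
    · rw [relIndex_sup_left]
      exact key b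

end Pool.Agent.V5helper60.GM
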