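import Pool.Agent.V5helper60.GM.Fld

/-!
# The `μ`-invariant and one layer
-/

set_option autoImplicit false

namespace Pool.Agent.V5helper60.GM

open IntermediateField Module Pool.Agent.Q60.MU Pool.Agent.W5h77.MB Pool.Agent.W5h33.DF

/-- `d(K R) ≤ C`, `d(K^ab R) ≥ E + 1` and `C < p ^ (r (p ^ m - 2)) (E + 1)`. -/
def Gap (p : ℕ) (K : IntermediateField ℚ Qb) (r m : ℕ) (R : IntermediateField ℚ Qb) (C E : ℕ) : Prop :=
  DegLe p (K ⊔ R) C ∧ ¬ DegLe p (abPart K ⊔ R) E ∧ C < p ^ (r * (p ^ m - 2)) * (E + 1)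

/-- `d(K⁺ R) ≤ C` and `C ^ 2 < p ^ (r (p ^ m - 2))`, where `K⁺` is the real subfield. -/
def RealGap (p : ℕ) (ι : Qb →+* ℂ) (K : IntermediateField ℚ Qb) (r m : ℕ)
    (R : IntermediateField ℚ Qb) (C : ℕ) : Prop :=
  DegLe p ((K ⊓ realSub ι) ⊔ R) C ∧ C ^ 2 < p ^ (r * (p ^ m - 2))

theorem large {p : ℕ} (hp : p.Prime) {r : ℕ} (hr : 0 < r) {C m : ℕ} (hm : C + 2 ≤ m) :
    C < p ^ (r * (p ^ m - 2)) := by
  have h1 : m < p ^ m := Nat.lt_pow_self hp.one_lt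
  have h2 : p ^ m - 2 ≤ r * (p ^ m - 2) := Nat.le_mul_of_pos_left _ hr
  have h3 : p ^ m - 2 < p ^ (p ^ m - 2) := Nat.lt_pow_self hp.one_lt
  have h4 : p ^ (p ^ m - 2) ≤ p ^ (r * (p ^ m - 2)) := Nat.pow_le_pow_right hp.pos h2
  omega

section
variable {p : ℕ} [hp : Fact p.Prime] {K : IntermediateField ℚ Qb} [FiniteDimensional ℚ K]

/-- If `μ = 0`, the ranks are small in all large layers. -/
theorem gap_of_mu {r : ℕ} (hr : 0 < r) (h : MuZero p K) :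
    ∃ m₀ : ℕ, ∀ m ≥ m₀, ∀ R : IntermediateField ℚ Qb, IsLayer p m R → ∃ C E, Gap p K r m R C E := by
  obtain ⟨C, hC⟩ := h
  refine ⟨C + 2, fun m hm R hR => ⟨C, 0, hC m R hR, ?_, ?_⟩⟩
  · have hfR := layer_fd hp.out hR
    have hfA : FiniteDimensional ℚ (abPart K) := fd_of_le (abPart_le K)
    exact not_degLe_zero _
  · rw [zero_add, mul_one]
    exact large hp.out hr hm

theorem realGap_of_mu [hKg : IsGalois ℚ K] (ι : Qb →+* ℂ) {r : ℕ} (hr : 0 < r) (h : MuZero p K) :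
    ∃ m₀ : ℕ, ∀ m ≥ m₀, ∀ R : IntermediateField ℚ Qb, IsLayer p m R →
      ∃ C, RealGap p ι K r m R C := by
  obtain ⟨C, hC⟩ := mu_down hp.out (F := K ⊓ realSub ι) inf_le_left h
  exact ⟨C ^ 2 + 2, fun m hm R hR => ⟨C, hC m R hR, large hp.out hr hm⟩⟩

variable [hKg : IsGalois ℚ K] {k : IntermediateField ℚ Qb}

/-- The bound for the layers above a given one, real version. -/
theorem realGap_bound (hALG : S_ALG) (hTR : S_TR) (hOP : S_OP) (hPM : S_PM) (hp2 : p ≠ 2)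
    (ι : Qb →+* ℂ) (hk : finrank ℚ k = 2) (hki : ¬ k ≤ realSub ι)
    (hab : ∀ σ ∈ k.fixingSubgroup, ∀ τ ∈ k.fixingSubgroup, ∀ x ∈ K, σ (τ x) = τ (σ x))
    (hpK : ¬ p ∣ finrank ℚ K) {r : ℕ} (hr : NoSmall p K r) {m m' : ℕ}
    {R R' : IntermediateField ℚ Qb} (hR : IsLayer p m R) (hR' : IsLayer p m' R') (hRR : R ≤ R')
    {C T : ℕ} (hC : RealGap p ι K r m R C) (hT : DegLe p (abPart K ⊔ R') T) :
    DegLe p (K ⊔ R') (C ^ 2 * p ^ finrank ℚ K * T) := by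
  classical
  have hfR := layer_fd hp.out hR
  have hfA : FiniteDimensional ℚ (abPart K) := fd_of_le (abPart_le K)
  have hex : ∃ T₀, DegLe p (abPart K ⊔ R) T₀ := by
    refine degLe_base hR' (F := abPart K ⊔ R) (C := T) ?_
    rw [sup_assoc, sup_eq_right.2 hRR]
    exact hT
  have h2 : DegLe p (abPart K ⊔ R) (Nat.find hex) := Nat.find_spec hex
  have h3 : Nat.find hex ≠ 0 := fun h => not_degLe_zero (p := p) (abPart K ⊔ R) (h ▸ h2)
  obtain ⟨E, hE⟩ := Nat.exists_eq_succ_of_ne_zero h3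
  have h4 : ¬ DegLe p (abPart K ⊔ R) E :=
    Nat.find_min hex (by rw [hE]; exact Nat.lt_succ_self E)
  rw [hE] at h2
  have h5 := real_field hPM hp2 ι hk hki hab hpK hR hC.1 h2
  have h6 := gap hALG hTR hOP hp2 hk hab hpK hr hR hR' hRR h5 h4
    (Nat.mul_lt_mul_of_pos_right hC.2 (Nat.succ_pos E)) hT
  rwa [Nat.succ_eq_add_one, mul_right_comm, Nat.mul_div_cancel _ (Nat.succ_pos E)] at h6

end

end Pool.Agent.V5helper60.GM
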