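import Pool.Agent.V5helper60.GM.Fld3
import Pool.Agent.V5helper65.GM.LAY
import Pool.Agent.V5helper81.GM.LAY2

/-!
# The `μ`-invariant and one layer, all primes
-/

set_option autoImplicit false

namespace Pool.Agent.V5helper60.GM

open IntermediateField Module Pool.Agent.Q60.MU Pool.Agent.W5h77.MB Pool.Agent.W5h33.DF

/-- `R` is the layer of degree `p ^ m` of the cyclotomic `ℤ_p`-extension of `ℚ`: it has the degree
`p ^ m`, it is contained in a field of `p ^ N`-th roots of unity, and it is real (which is a condition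
only for `p = 2`). -/
def RealLayer (p : ℕ) (ι : Qb →+* ℂ) (m : ℕ) (R : IntermediateField ℚ Qb) : Prop :=
  IsLayer p m R ∧ R ≤ realSub ι

/-- `μ = 0` for the cyclotomic `ℤ_p`-extension of `F`: the elementary abelian unramified
`p`-extensions of the layers `F R` have bounded degree. -/
def MuVanishes (p : ℕ) (ι : Qb →+* ℂ) (F : IntermediateField ℚ Qb) : Prop :=
  ∃ C : ℕ, ∀ (m : ℕ) (R : IntermediateField ℚ Qb), RealLayer p ι m R → DegLe p (F ⊔ R) C

/-- `d(K R) ≤ C`, `d(F R) ≥ E + 1` and `C < p ^ (r (p ^ m - t)) (E + 1)`. -/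
def GapOver (p : ℕ) (F K : IntermediateField ℚ Qb) (r t m : ℕ) (R : IntermediateField ℚ Qb)
    (C E : ℕ) : Prop :=
  DegLe p (K ⊔ R) C ∧ ¬ DegLe p (F ⊔ R) E ∧ C < p ^ (r * (p ^ m - t)) * (E + 1)

theorem large' {p : ℕ} (hp : p.Prime) {r t : ℕ} (hr : 0 < r) {C m : ℕ} (hm : C + t ≤ m) :
    C < p ^ (r * (p ^ m - t)) := by
  have h1 : m < p ^ m := Nat.lt_pow_self hp.one_lt
  have h2 : p ^ m - t ≤ r * (p ^ m - t) := Nat.le_mul_of_pos_left _ hr
  have h3 : p ^ m - t < p ^ (p ^ m - t) := Nat.lt_pow_self hp.one_lt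
  have h4 : p ^ (p ^ m - t) ≤ p ^ (r * (p ^ m - t)) := Nat.pow_le_pow_right hp.pos h2
  omega

section
variable {p : ℕ} [hp : Fact p.Prime] (ι : Qb →+* ℂ)

theorem exists_realLayer (m : ℕ) : ∃ R, RealLayer p ι m R := by
  by_cases hp2 : p = 2
  · subst hp2
    exact Pool.Agent.V5helper81.GM.t_LAY2 ι m
  · obtain ⟨R, hR⟩ := Pool.Agent.V5helper65.GM.t_LAY p hp.out hp2 m
    exact ⟨R, hR, layer_real hp.out hp2 hR ι⟩

variable {ι} {F K : IntermediateField ℚ Qb} [FiniteDimensional ℚ K]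

/-- It suffices to consider the layers above a given one. -/
theorem muVanishes_of_above {m : ℕ} {R : IntermediateField ℚ Qb} (hR : RealLayer p ι m R)
    (h : ∃ C : ℕ, ∀ (m' : ℕ) (R' : IntermediateField ℚ Qb), RealLayer p ι m' R' → R ≤ R' →
      DegLe p (K ⊔ R') C) : MuVanishes p ι K := by
  obtain ⟨C, hC⟩ := h
  have hfR := layer_fd hp.out hR.1
  refine ⟨C * R.fixingSubgroup.index, fun m' R' hR' => ?_⟩
  have hfR' := layer_fd hp.out hR'.1
  obtain ⟨m'', hR''⟩ := layer_sup hR.1 hR'.1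
  have h0 := hC m'' _ ⟨hR'', sup_le hR.2 hR'.2⟩ le_sup_left
  have hRn := layer_normal hp.out hR.1
  rw [← rankLe_iff] at h0 ⊢
  rw [fixingSubgroup_sup, fixingSubgroup_sup] at h0
  rw [fixingSubgroup_sup]
  have h1 : (K.fixingSubgroup ⊓ (R.fixingSubgroup ⊓ R'.fixingSubgroup)).relIndex
      (K.fixingSubgroup ⊓ R'.fixingSubgroup) =
      R.fixingSubgroup.relIndex (K.fixingSubgroup ⊓ R'.fixingSubgroup) := by
    rw [← Subgroup.inf_relIndex_right, ← Subgroup.inf_relIndex_right R.fixingSubgroup]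
    congr 1
    ext x
    simp only [Subgroup.mem_inf]
    tauto
  have h2 : R.fixingSubgroup.relIndex (K.fixingSubgroup ⊓ R'.fixingSubgroup) ∣
      R.fixingSubgroup.index := Subgroup.relIndex_dvd_index_of_normal _ _
  have h3 : (K.fixingSubgroup ⊓ (R.fixingSubgroup ⊓ R'.fixingSubgroup)).relIndex
      (K.fixingSubgroup ⊓ R'.fixingSubgroup) ≠ 0 := by
    rw [h1]
    intro h
    rw [h] at h2
    exact index_ne_zero' R (Nat.eq_zero_of_zero_dvd h2)
  refine (RankLe.of_le (inf_le_inf_left _ inf_le_right) (by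
    rw [Subgroup.coe_inf, Subgroup.coe_inf]
    exact K.fixingSubgroup_isOpen.inter (R.fixingSubgroup_isOpen.inter R'.fixingSubgroup_isOpen))
    h3 h0).mono ?_
  rw [h1]
  exact Nat.mul_le_mul_left _ (Nat.le_of_dvd (Nat.pos_of_ne_zero (index_ne_zero' R)) h2)

/-- Subfields. -/
theorem muVanishes_down (hFK : F ≤ K) (h : MuVanishes p ι K) : MuVanishes p ι F := by
  obtain ⟨C, hC⟩ := h
  refine ⟨C * K.fixingSubgroup.index, fun m R hR => ?_⟩
  have hfR := layer_fd hp.out hR.1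
  have hfF : FiniteDimensional ℚ F := fd_of_le hFK
  have h0 := hC m R hR
  rw [← rankLe_iff] at h0 ⊢
  rw [fixingSubgroup_sup] at h0 ⊢
  have h1 : (K.fixingSubgroup ⊓ R.fixingSubgroup).relIndex (F.fixingSubgroup ⊓ R.fixingSubgroup) =
      K.fixingSubgroup.relIndex (F.fixingSubgroup ⊓ R.fixingSubgroup) := by
    have hle : K.fixingSubgroup ≤ F.fixingSubgroup := fixingSubgroup_le hFK
    rw [← Subgroup.inf_relIndex_right, ← Subgroup.inf_relIndex_right K.fixingSubgroup]
    congr 1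
    ext x
    simp only [Subgroup.mem_inf]
    tauto
  have hK0 : K.fixingSubgroup.relIndex ⊤ ≠ 0 := by
    rw [Subgroup.relIndex_top_right]
    exact index_ne_zero' K
  have h2 : K.fixingSubgroup.relIndex (F.fixingSubgroup ⊓ R.fixingSubgroup) ≤
      K.fixingSubgroup.index := by
    rw [← Subgroup.relIndex_top_right]
    exact Subgroup.relIndex_le_of_le_right le_top hK0
  have h3 : (K.fixingSubgroup ⊓ R.fixingSubgroup).relIndex
      (F.fixingSubgroup ⊓ R.fixingSubgroup) ≠ 0 := by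
    rw [h1]
    exact fun h => hK0 (Subgroup.relIndex_eq_zero_of_le_right le_top h)
  refine (RankLe.of_le (inf_le_inf_right _ (fixingSubgroup_le hFK)) (by
    rw [Subgroup.coe_inf]
    exact K.fixingSubgroup_isOpen.inter R.fixingSubgroup_isOpen) h3 h0).mono ?_
  rw [h1]
  exact Nat.mul_le_mul_left _ h2

/-- If `μ = 0`, the ranks are small in all large layers. -/
theorem gapOver_of_mu (hFK : F ≤ K) {r : ℕ} (t : ℕ) (hr : 0 < r) (h : MuVanishes p ι K) :
    ∃ m₀ : ℕ, ∀ m ≥ m₀, ∀ R : IntermediateField ℚ Qb, RealLayer p ι m R →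
      ∃ C E, GapOver p F K r t m R C E := by
  obtain ⟨C, hC⟩ := h
  refine ⟨C + t, fun m hm R hR => ⟨C, 0, hC m R hR, ?_, ?_⟩⟩
  · have hfR := layer_fd hp.out hR.1
    have hfF : FiniteDimensional ℚ F := fd_of_le hFK
    exact not_degLe_zero _
  · rw [zero_add, mul_one]
    exact large' hp.out hr hm

end

end Pool.Agent.V5helper60.GM
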