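import Pool.Agent.V5helper60.GM.Fld5

/-!
# Stabilization of the ranks: the criterion
-/

set_option autoImplicit false

namespace Pool.Agent.V5helper60.GM

open IntermediateField Module Pool.Agent.Q60.MU Pool.Agent.W5h77.MB Pool.Agent.W5h33.DF
open scoped Pointwise commutatorElement

theorem degLe_mono {p : ℕ} {E : IntermediateField ℚ Qb} {C C' : ℕ} (h : DegLe p E C) (hC : C ≤ C') :
    DegLe p E C' := fun M h1 h2 h3 h4 h5 h6 =>
  (h M h1 h2 h3 h4 h5 h6).trans (Nat.mul_le_mul_right _ hC)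

theorem degIs_exists {p : ℕ} {E : IntermediateField ℚ Qb} {C : ℕ} (h : DegLe p E C) :
    ∃ c, c ≤ C ∧ DegIs p E c := by
  classical
  have hex : ∃ c, DegLe p E c := ⟨C, h⟩
  exact ⟨Nat.find hex, Nat.find_min' hex h, Nat.find_spec hex, fun c' hc' => Nat.find_min hex hc'⟩

theorem DegIs.le {p : ℕ} {E : IntermediateField ℚ Qb} {c C : ℕ} (h : DegIs p E c)
    (hC : DegLe p E C) : c ≤ C := by
  by_contra hlt
  exact h.2 C (not_le.1 hlt) hC

theorem DegIs.succ {p : ℕ} {E : IntermediateField ℚ Qb} [FiniteDimensional ℚ E] {c : ℕ}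
    (h : DegIs p E c) : ∃ c', c = c' + 1 ∧ ¬ DegLe p E c' := by
  rcases c with - | c
  · exact absurd h.1 (not_degLe_zero E)
  · exact ⟨c, rfl, h.2 c (Nat.lt_succ_self c)⟩

section
variable {p : ℕ} [hp : Fact p.Prime] {ι : Qb →+* ℂ} {B F K : IntermediateField ℚ Qb}
  [hfK : FiniteDimensional ℚ K]

theorem exists_degreeOver {m : ℕ} {R : IntermediateField ℚ Qb} (hfB : FiniteDimensional ℚ B)
    (hR : RealLayer p ι m R) : ∃ q, DegreeOver B R q ∧ p ^ m ≤ q * finrank ℚ B := by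
  have hfR := layer_fd hp.out hR.1
  have h1 : finrank ℚ (B ⊔ R : IntermediateField ℚ Qb) = (B ⊔ R).fixingSubgroup.index :=
    finrank_eq_fixingSubgroup_index Qb (B ⊔ R)
  have h2 : finrank ℚ B = B.fixingSubgroup.index := finrank_eq_fixingSubgroup_index Qb B
  have h6 : R.fixingSubgroup.index = p ^ m := by
    rw [← hR.1.1, finrank_eq_fixingSubgroup_index Qb R]
  have h3 := Subgroup.relIndex_mul_index (fixingSubgroup_le (le_sup_left : B ≤ B ⊔ R))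
  have h4 : (B ⊔ R).fixingSubgroup.relIndex B.fixingSubgroup * finrank ℚ B =
      finrank ℚ (B ⊔ R : IntermediateField ℚ Qb) := by
    rw [h1, h2, h3]
  refine ⟨_, h4.symm, ?_⟩
  rw [h4, h1, ← h6]
  refine Nat.le_of_dvd (Nat.pos_of_ne_zero (index_ne_zero' (B ⊔ R)))
    (Subgroup.index_dvd_of_le (fixingSubgroup_le le_sup_right))

/-- The quotient `d(K R) / d(F R)` does not decrease. -/
theorem mono_deg (hBF : B ≤ F) (hFK : F ≤ K)
    (hKn : (K.fixingSubgroup.subgroupOf B.fixingSubgroup).Normal)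
    (hFn : (F.fixingSubgroup.subgroupOf B.fixingSubgroup).Normal)
    (hKp : ¬ p ∣ (K.fixingSubgroup.subgroupOf B.fixingSubgroup).index)
    (hram : TotRam p ι K) {m₀ m : ℕ}
    {R₀ R : IntermediateField ℚ Qb} (hR₀ : RealLayer p ι m₀ R₀) (hR : RealLayer p ι m R)
    (hRR₀ : R₀ ≤ R) {c₀ e₀ c e : ℕ} (hc₀ : DegIs p (K ⊔ R₀) c₀) (he₀ : DegIs p (F ⊔ R₀) e₀)
    (hc : DegIs p (K ⊔ R) c) (he : DegIs p (F ⊔ R) e) : c₀ * e ≤ c * e₀ := by
  have hfR₀ := layer_fd hp.out hR₀.1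
  have hfR := layer_fd hp.out hR.1
  have hfF : FiniteDimensional ℚ F := fd_of_le hFK
  obtain ⟨c₀', rfl, hc₀'⟩ := hc₀.succ
  obtain ⟨e', rfl, he'⟩ := he.succ
  exact mono_field hBF hFK hKn hFn hKp hram hR₀ hR hRR₀ hc.1 he' hc₀' he₀.1

/-- Small growth between two layers gives a bound for all larger layers. -/
theorem growth_bound (hBF : B ≤ F) (hFK : F ≤ K)
    (hKn : (K.fixingSubgroup.subgroupOf B.fixingSubgroup).Normal)
    (hFn : (F.fixingSubgroup.subgroupOf B.fixingSubgroup).Normal)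
    (hKp : ¬ p ∣ (K.fixingSubgroup.subgroupOf B.fixingSubgroup).index)
    (hram : TotRam p ι K) {r : ℕ}
    (hr : KillsSmall p r B.fixingSubgroup (K.fixingSubgroup.subgroupOf B.fixingSubgroup)
      (F.fixingSubgroup.subgroupOf B.fixingSubgroup)) {m₀ m : ℕ}
    {R₀ R : IntermediateField ℚ Qb} (hR₀ : RealLayer p ι m₀ R₀) (hR : RealLayer p ι m R)
    (hRR₀ : R₀ ≤ R) (hg : SmallGrowth p B F K r R₀ R) :
    ∃ c e, e ≠ 0 ∧ DegIs p (K ⊔ R) c ∧ DegIs p (F ⊔ R) e ∧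
      ∀ (m' : ℕ) (R' : IntermediateField ℚ Qb) (T : ℕ), RealLayer p ι m' R' → R ≤ R' →
        DegLe p (F ⊔ R') T → DegLe p (K ⊔ R') (c * T / e) := by
  have hfR₀ := layer_fd hp.out hR₀.1
  have hfR := layer_fd hp.out hR.1
  have hfF : FiniteDimensional ℚ F := fd_of_le hFK
  obtain ⟨c₀, e₀, c, e, q₀, q, hc₀, he₀, hc, he, hq₀, hq, hlt⟩ := hg
  obtain ⟨c₀', rfl, hc₀'⟩ := hc₀.succ
  obtain ⟨e', rfl, he'⟩ := he.succ
  exact ⟨c, e' + 1, Nat.succ_ne_zero _, hc, he, fun m' R' T hR' hRR hT =>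
    stab_field hBF hFK hKn hFn hKp hram hr hR₀ hR hR' hRR₀ hRR hq₀ hq hc.1 he' hc₀' he₀.1 hlt hT⟩

/-- The quotient is constant. -/
theorem growth_const (hBF : B ≤ F) (hFK : F ≤ K)
    (hKn : (K.fixingSubgroup.subgroupOf B.fixingSubgroup).Normal)
    (hFn : (F.fixingSubgroup.subgroupOf B.fixingSubgroup).Normal)
    (hKp : ¬ p ∣ (K.fixingSubgroup.subgroupOf B.fixingSubgroup).index)
    (hram : TotRam p ι K) {r : ℕ}
    (hr : KillsSmall p r B.fixingSubgroup (K.fixingSubgroup.subgroupOf B.fixingSubgroup)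
      (F.fixingSubgroup.subgroupOf B.fixingSubgroup)) {m₀ m m' : ℕ}
    {R₀ R R' : IntermediateField ℚ Qb} (hR₀ : RealLayer p ι m₀ R₀) (hR : RealLayer p ι m R)
    (hR' : RealLayer p ι m' R') (hRR₀ : R₀ ≤ R) (hRR : R ≤ R')
    (hg : SmallGrowth p B F K r R₀ R) {c e e' : ℕ} (hc : DegIs p (K ⊔ R) c)
    (he : DegIs p (F ⊔ R) e) (he' : DegIs p (F ⊔ R') e') :
    ∃ c', DegIs p (K ⊔ R') c' ∧ c' * e = c * e' := by
  obtain ⟨c₁, e₁, he0, hc₁, he₁, h⟩ := growth_bound hBF hFK hKn hFn hKp hram hr hR₀ hR hRR₀ hg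
  have h1 : c₁ = c := le_antisymm (hc₁.le hc.1) (hc.le hc₁.1)
  have h2 : e₁ = e := le_antisymm (he₁.le he.1) (he.le he₁.1)
  subst h1
  subst h2
  obtain ⟨c', hc'le, hc'⟩ := degIs_exists (h m' R' e' hR' hRR he'.1)
  refine ⟨c', hc', le_antisymm ?_ ?_⟩
  · exact (Nat.mul_le_mul_right _ hc'le).trans (Nat.div_mul_le_self _ _)
  · exact mono_deg hBF hFK hKn hFn hKp hram hR hR' hRR hc he hc' he'

/-- If `μ = 0` the growth is small. -/
theorem growth_of_mu (hBF : B ≤ F) (hFK : F ≤ K) {r : ℕ} (hr0 : 0 < r) (h : MuVanishes p ι K) :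
    ∃ N : ℕ, ∀ (m₀ m : ℕ) (R₀ R : IntermediateField ℚ Qb) (q₀ q : ℕ), RealLayer p ι m₀ R₀ →
      RealLayer p ι m R → DegreeOver B R₀ q₀ → DegreeOver B R q → q₀ + N ≤ q →
        SmallGrowth p B F K r R₀ R := by
  have hfF : FiniteDimensional ℚ F := fd_of_le hFK
  obtain ⟨C', hC'⟩ := muVanishes_down hFK h
  obtain ⟨C, hC⟩ := h
  refine ⟨C * C', fun m₀ m R₀ R q₀ q hR₀ hR hq₀ hq hN => ?_⟩
  have hfR₀ := layer_fd hp.out hR₀.1
  have hfR := layer_fd hp.out hR.1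
  obtain ⟨c₀, hc₀le, hc₀⟩ := degIs_exists (hC m₀ R₀ hR₀)
  obtain ⟨c, hcle, hc⟩ := degIs_exists (hC m R hR)
  obtain ⟨e₀, he₀le, he₀⟩ := degIs_exists (hC' m₀ R₀ hR₀)
  obtain ⟨e, hele, he⟩ := degIs_exists (hC' m R hR)
  refine ⟨c₀, e₀, c, e, q₀, q, hc₀, he₀, hc, he, hq₀, hq, ?_⟩
  obtain ⟨c₁, rfl, -⟩ := hc₀.succ
  obtain ⟨e₁, rfl, -⟩ := he.succ
  have h1 : c * e₀ ≤ C * C' := Nat.mul_le_mul hcle he₀le
  have h2 : C * C' ≤ r * (q - q₀) := by
    have h3 : q - q₀ ≤ r * (q - q₀) := Nat.le_mul_of_pos_left _ hr0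
    omega
  have h3 : r * (q - q₀) < p ^ (r * (q - q₀)) := Nat.lt_pow_self hp.out.one_lt
  have h4 : 1 ≤ (c₁ + 1) * (e₁ + 1) := Nat.mul_pos (Nat.succ_pos _) (Nat.succ_pos _)
  calc c * e₀ < p ^ (r * (q - q₀)) := lt_of_le_of_lt (h1.trans h2) h3
    _ = p ^ (r * (q - q₀)) * 1 := (mul_one _).symm
    _ ≤ _ := Nat.mul_le_mul_left _ h4

/-- There are two layers with a large difference of the degrees. -/
theorem exists_pair (ι : Qb →+* ℂ) (hfB : FiniteDimensional ℚ B) (N : ℕ) :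
    ∃ (m : ℕ) (R : IntermediateField ℚ Qb) (q : ℕ), RealLayer p ι m R ∧ DegreeOver B R q ∧
      DegreeOver B ⊥ 1 ∧ 1 + N ≤ q := by
  obtain ⟨R, hR⟩ := exists_realLayer (p := p) ι ((1 + N) * finrank ℚ B)
  obtain ⟨q, hq, hle⟩ := exists_degreeOver hfB hR
  refine ⟨_, R, q, hR, hq, ?_, ?_⟩
  · unfold DegreeOver
    rw [sup_bot_eq, one_mul]
  · have h1 : (1 + N) * finrank ℚ B < p ^ ((1 + N) * finrank ℚ B) := Nat.lt_pow_self hp.out.one_lt
    have h2 : 0 < finrank ℚ B := finrank_pos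
    exact (Nat.lt_of_mul_lt_mul_right (h1.trans_le hle)).le

end

end Pool.Agent.V5helper60.GM
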