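import Pool.Agent.W5h33.DF.Alg

/-!
# Project GM: a gap theorem for the `p`-ranks in the cyclotomic tower (MP_b78433_nt)

Statements of two more steps.
-/

set_option autoImplicit false

namespace Pool.Agent.V5helper60.GM

open Pool.Agent.W5h33.DF

/-- **Job TR** (about 100 lines; `actSub` and `mem_actSub` are in `Pool.Agent.W5h33.DF.Alg`, which imports only
Mathlib).

`X = B / B'` is an elementary abelian `p`-group of order `p^n`, so a vector space over `ZMod p` with a basis of
`n` elements. `G` acts on it linearly, and `K` acts trivially, so there is a homomorphism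
`f : G / K → GL_n(ZMod p)` with kernel (of the composition with `G → G / K`) the subgroup `actSub` of the
elements which act trivially. As the image of `f` is commutative, the commutators act trivially. -/
def S_TR : Prop :=
  ∀ (p : ℕ) [Fact p.Prime] (G : Type) [Group G] (V : Type) [CommGroup V] [Finite V],
  (∀ v : V, v ^ p = 1) → ∀ (ρ : G →* MulAut V) (B' B : Subgroup V), B' ≤ B →
  (∀ g, ∀ v ∈ B', ρ g v ∈ B') → ∀ (hB : ∀ g, ∀ v ∈ B, ρ g v ∈ B), ∀ n : ℕ, B'.relIndex B = p ^ n →
  ∀ (K : Subgroup G) [K.Normal], (∀ k ∈ K, ∀ v ∈ B, ρ k v * v⁻¹ ∈ B') →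
  (∀ f : G ⧸ K →* Matrix.GeneralLinearGroup (Fin n) (ZMod p), ∀ a b, f a * f b = f b * f a) →
  commutator G ≤ actSub ρ B B' hB

/-- **Job GLN** (Mathlib only, about 60 lines).

Let `c = f a * f b * (f a)⁻¹ * (f b)⁻¹ = f ⁅a, b⁆`. Its order divides the order of `⁅a, b⁆`, so the order of the
commutator subgroup, and the order of `GL_n(ZMod p)`, which is `∏_{i < n} (p^n - p^i)` (`Matrix.card_GL_field`), where
`p^n - p^i = p^i (p^(n-i) - 1)`. So every prime divisor `ℓ` of the order of `c` is `p` or divides `p^j - 1` for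
some `0 < j ≤ n < r`, against the hypothesis. So `c = 1`. -/
def S_GLN : Prop :=
  ∀ (p : ℕ) [Fact p.Prime] (G : Type) [Group G] [Finite G] (r : ℕ),
  (∀ l : ℕ, l.Prime → l ∣ Nat.card (commutator G) → l ≠ p ∧ ∀ j, 0 < j → j < r → ¬ l ∣ p ^ j - 1) →
  ∀ n : ℕ, n < r → ∀ f : G →* Matrix.GeneralLinearGroup (Fin n) (ZMod p),
    ∀ a b, f a * f b = f b * f a

end Pool.Agent.V5helper60.GM
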