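import Pool.Agent.V5helper60.GM.Asm5
import Pool.Agent.V5helper23.GM.PM
import Pool.Agent.V5helper69.GM.GLN

/-!
# Stabilization of the ranks: the fields of Q1
-/

set_option autoImplicit false

namespace Pool.Agent.V5helper60.GM

open IntermediateField Module Pool.Agent.Q60.MU Pool.Agent.W5h77.MB Pool.Agent.W5h33.DF
open scoped Pointwise commutatorElement

section
variable {p : ℕ} [hp : Fact p.Prime] {ι : Qb →+* ℂ} {B F K k : IntermediateField ℚ Qb}
  [hfK : FiniteDimensional ℚ K]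

omit hp hfK in
theorem normal_of_galoisOver (h : GaloisOver B K) :
    (K.fixingSubgroup.subgroupOf B.fixingSubgroup).Normal := by
  refine ⟨fun n hn g => ?_⟩
  rw [Subgroup.mem_subgroupOf, IntermediateField.mem_fixingSubgroup_iff]
  intro x hx
  have h1 : ((g⁻¹ : B.fixingSubgroup) : Gal(Qb/ℚ)) x ∈ K := h.2 _ (g⁻¹).2 x hx
  have h2 : (n : Gal(Qb/ℚ)) (((g⁻¹ : B.fixingSubgroup) : Gal(Qb/ℚ)) x) =
      ((g⁻¹ : B.fixingSubgroup) : Gal(Qb/ℚ)) x :=
    (IntermediateField.mem_fixingSubgroup_iff K _).1 hn _ h1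
  show (g : Gal(Qb/ℚ)) ((n : Gal(Qb/ℚ)) (((g⁻¹ : B.fixingSubgroup) : Gal(Qb/ℚ)) x)) = x
  rw [h2]
  show ((g : Gal(Qb/ℚ)) * (g : Gal(Qb/ℚ))⁻¹) x = x
  rw [mul_inv_cancel]
  rfl

theorem index_of_coprime (hBK : B ≤ K) (h : CoprimeDegree p B K) :
    ¬ p ∣ (K.fixingSubgroup.subgroupOf B.fixingSubgroup).index := by
  have hfB : FiniteDimensional ℚ B := fd_of_le hBK
  obtain ⟨n, hn, hpn⟩ := h
  have h1 := Subgroup.relIndex_mul_index (fixingSubgroup_le hBK)
  rw [← finrank_eq_fixingSubgroup_index Qb K, ← finrank_eq_fixingSubgroup_index Qb B, hn] at h1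
  have h2 := Nat.eq_of_mul_eq_mul_right finrank_pos h1
  show ¬ p ∣ K.fixingSubgroup.relIndex B.fixingSubgroup
  rwa [h2]

theorem coprime_of_index (hBK : B ≤ K)
    (h : ¬ p ∣ K.fixingSubgroup.relIndex B.fixingSubgroup) : CoprimeDegree p B K := by
  have hfB : FiniteDimensional ℚ B := fd_of_le hBK
  have h1 := Subgroup.relIndex_mul_index (fixingSubgroup_le hBK)
  rw [← finrank_eq_fixingSubgroup_index Qb K, ← finrank_eq_fixingSubgroup_index Qb B] at h1
  exact ⟨_, h1.symm, h⟩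

/-- A field between `k` and an abelian extension of `k`. -/
theorem galoisOver_of_abelian (hkF : k ≤ F) (hFK : F ≤ K)
    (hab : ∀ σ ∈ k.fixingSubgroup, ∀ τ ∈ k.fixingSubgroup, ∀ x ∈ K, σ (τ x) = τ (σ x)) :
    GaloisOver k F := by
  refine ⟨hkF, fun σ hσ x hx => ?_⟩
  rw [← InfiniteGalois.fixedField_fixingSubgroup F]
  rw [IntermediateField.mem_fixedField_iff]
  intro τ hτ
  have h1 := hab σ hσ τ (fixingSubgroup_le hkF hτ) x (hFK hx)
  rw [(IntermediateField.mem_fixingSubgroup_iff F _).1 hτ x hx] at h1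
  exact h1.symm

theorem galoisOver_sup {m : ℕ} {R : IntermediateField ℚ Qb} (hR : RealLayer p ι m R)
    (h : GaloisOver B F) : GaloisOver (B ⊔ R) (F ⊔ R) := by
  have hRn := layer_normal hp.out hR.1
  refine ⟨sup_le_sup_right h.1 R, fun σ hσ x hx => ?_⟩
  rw [fixingSubgroup_sup] at hσ
  rw [← InfiniteGalois.fixedField_fixingSubgroup (F ⊔ R), IntermediateField.mem_fixedField_iff]
  intro τ hτ
  rw [fixingSubgroup_sup] at hτ
  have h1 : σ⁻¹ * τ * σ ∈ (F ⊔ R).fixingSubgroup := by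
    rw [fixingSubgroup_sup]
    refine ⟨?_, ?_⟩
    · show σ⁻¹ * τ * σ ∈ F.fixingSubgroup
      rw [IntermediateField.mem_fixingSubgroup_iff]
      intro y hy
      show σ⁻¹ (τ (σ y)) = y
      rw [(IntermediateField.mem_fixingSubgroup_iff F _).1 hτ.1 _ (h.2 σ hσ.1 y hy)]
      show (σ⁻¹ * σ) y = y
      rw [inv_mul_cancel]
      rfl
    · have h2 := hRn.conj_mem τ hτ.2 σ⁻¹
      rwa [inv_inv] at h2
  have h2 := (IntermediateField.mem_fixingSubgroup_iff _ _).1 h1 x hx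
  have h3 : σ ((σ⁻¹ * τ * σ) x) = τ (σ x) := by
    show (σ * (σ⁻¹ * τ * σ)) x = (τ * σ) x
    congr 1
    group
  rw [← h3, h2]

theorem coprime_sup {m : ℕ} {R : IntermediateField ℚ Qb} (hR : RealLayer p ι m R)
    (h : GaloisOver B K) (hc : CoprimeDegree p B K) : CoprimeDegree p (B ⊔ R) (K ⊔ R) := by
  have hfR := layer_fd hp.out hR.1
  have hKn := normal_of_galoisOver h
  refine coprime_of_index (sup_le_sup_right h.1 R) fun hdvd => index_of_coprime h.1 hc ?_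
  rw [fixingSubgroup_sup, fixingSubgroup_sup, rel_inf inf_le_right] at hdvd
  refine hdvd.trans ?_
  rw [← Subgroup.relIndex_subgroupOf (H := K.fixingSubgroup)
    (inf_le_left : B.fixingSubgroup ⊓ R.fixingSubgroup ≤ B.fixingSubgroup)]
  exact Subgroup.relIndex_dvd_index_of_normal _ _

/-- Abelian extensions of quadratic fields. -/
theorem pow_mem_of_quadratic (hk : finrank ℚ k = 2) (hkK : k ≤ K) (h : GaloisOver k K) {n : ℕ}
    (hn : finrank ℚ K = n * finrank ℚ k) (g : Gal(Qb/ℚ)) : g ^ (2 * n) ∈ K.fixingSubgroup := by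
  have hfk : FiniteDimensional ℚ k := fd_of_le hkK
  have hKn := normal_of_galoisOver h
  have h2 : k.fixingSubgroup.index = 2 := by
    rw [← finrank_eq_fixingSubgroup_index, hk]
  obtain ⟨hkn, -⟩ := quad_group hk
  have h3 : g ^ 2 ∈ k.fixingSubgroup := by
    rw [← h2]
    exact k.fixingSubgroup.pow_index_mem g
  have h4 : (K.fixingSubgroup.subgroupOf k.fixingSubgroup).index = n := by
    have h1 := Subgroup.relIndex_mul_index (fixingSubgroup_le hkK)
    rw [← finrank_eq_fixingSubgroup_index Qb K, ← finrank_eq_fixingSubgroup_index Qb k, hn] at h1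
    exact Nat.eq_of_mul_eq_mul_right finrank_pos h1
  have h5 := (K.fixingSubgroup.subgroupOf k.fixingSubgroup).pow_index_mem
    (⟨g ^ 2, h3⟩ : k.fixingSubgroup)
  rw [h4] at h5
  rw [pow_mul]
  exact h5

theorem killsSmall_abPart [hKg : IsGalois ℚ K] {r : ℕ} (h : NoSmall p K r) :
    KillsSmall p r (⊥ : IntermediateField ℚ Qb).fixingSubgroup
      (K.fixingSubgroup.subgroupOf (⊥ : IntermediateField ℚ Qb).fixingSubgroup)
      ((abPart K).fixingSubgroup.subgroupOf (⊥ : IntermediateField ℚ Qb).fixingSubgroup) := by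
  have hKn : K.fixingSubgroup.Normal := (InfiniteGalois.normal_iff_isGalois K).2 hKg
  have hbot : ∀ g : Gal(Qb/ℚ), g ∈ (⊥ : IntermediateField ℚ Qb).fixingSubgroup := by
    intro g
    rw [IntermediateField.mem_fixingSubgroup_iff]
    intro x hx
    obtain ⟨y, rfl⟩ := IntermediateField.mem_bot.1 hx
    exact g.commutes y
  intro n hn f hf
  let j : Gal(Qb/ℚ) →* (⊥ : IntermediateField ℚ Qb).fixingSubgroup :=
    { toFun := fun g => ⟨g, hbot g⟩
      map_one' := rfl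
      map_mul' := fun _ _ => rfl }
  let f' : Gal(Qb/ℚ) ⧸ K.fixingSubgroup →* Matrix.GeneralLinearGroup (Fin n) (ZMod p) :=
    QuotientGroup.lift K.fixingSubgroup (f.comp j) fun x hx => hf hx
  have h1 := noSmall_quot h n hn f'
  have h2 : ∀ a b : Gal(Qb/ℚ), f (j a) * f (j b) = f (j b) * f (j a) := fun a b => h1 a b
  have h3 : (abPart K).fixingSubgroup ≤ (f.comp j).ker := by
    rw [fix_abPart]
    refine sup_le (fun x hx => hf hx) ?_
    rw [commutator_def, Subgroup.commutator_le]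
    intro a _ b _
    rw [MonoidHom.mem_ker, map_commutatorElement, commutatorElement_eq_one_iff_mul_comm]
    exact h2 a b
  intro x hx
  exact h3 hx

theorem killsSmall_prime (hBF : B ≤ F) (hFK : F ≤ K) (h : GaloisOver B K) (hc : CoprimeDegree p B K)
    {r : ℕ} (hpr : ∀ n l j : ℕ, finrank ℚ K = n * finrank ℚ F → l.Prime → l ∣ n → 0 < j → j < r →
      ¬ l ∣ p ^ j - 1) :
    KillsSmall p r B.fixingSubgroup (K.fixingSubgroup.subgroupOf B.fixingSubgroup)
      (F.fixingSubgroup.subgroupOf B.fixingSubgroup) := by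
  have hfF : FiniteDimensional ℚ F := fd_of_le hFK
  have hKn := normal_of_galoisOver h
  apply killsSmall_of_prime
  have h1 := Subgroup.relIndex_subgroupOf (H := K.fixingSubgroup) (fixingSubgroup_le hBF)
  have h2 := Subgroup.relIndex_mul_index (fixingSubgroup_le hFK)
  rw [← finrank_eq_fixingSubgroup_index Qb K, ← finrank_eq_fixingSubgroup_index Qb F] at h2
  rw [h1]
  intro l hl hdvd
  refine ⟨?_, fun j hj hjr => hpr _ l j h2.symm hl hdvd hj hjr⟩
  rintro rfl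
  apply index_of_coprime h.1 hc
  have h3 := Subgroup.relIndex_mul_relIndex _ _ _ (fixingSubgroup_le hFK) (fixingSubgroup_le hBF)
  show l ∣ K.fixingSubgroup.relIndex B.fixingSubgroup
  rw [← h3]
  exact hdvd.mul_right _

/-- The growth is small if the rank of the real subfield is small. -/
theorem real_growth [hKg : IsGalois ℚ K] (hp2 : p ≠ 2) (hk : finrank ℚ k = 2) (hki : ¬ k ≤ realSub ι)
    (hab : ∀ σ ∈ k.fixingSubgroup, ∀ τ ∈ k.fixingSubgroup, ∀ x ∈ K, σ (τ x) = τ (σ x))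
    (hpK : ¬ p ∣ finrank ℚ K) {r m : ℕ} {R : IntermediateField ℚ Qb} (hR : RealLayer p ι m R)
    {C T : ℕ} (hC : DegLe p ((K ⊓ realSub ι) ⊔ R) C) (hCr : C ^ 2 < p ^ (r * (p ^ m - 1)))
    (hT : DegLe p (abPart K ⊔ R) T) : SmallGrowth p ⊥ (abPart K) K r ⊥ R := by
  have hfR := layer_fd hp.out hR.1
  have hfA : FiniteDimensional ℚ (abPart K) := fd_of_le (abPart_le K)
  have hKn : K.fixingSubgroup.Normal := (InfiniteGalois.normal_iff_isGalois K).2 hKg
  obtain ⟨e, -, he⟩ := degIs_exists hT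
  have hK := real_field Pool.Agent.V5helper23.GM.t_PM hp2 ι hk hki hab hpK hR.1 hC he.1
  obtain ⟨c, hcle, hc⟩ := degIs_exists hK
  obtain ⟨C₁, hC₁⟩ := degLe_base hR.1 hc.1
  obtain ⟨c₀, -, hc₀⟩ := degIs_exists hC₁
  have hup : DegLe p (abPart K) c₀ := by
    rw [← rankLe_iff]
    refine rank_up (K := K.fixingSubgroup) (fixingSubgroup_le (abPart_le K)) K.fixingSubgroup_isOpen
      ?_ ?_
    · rwa [← finrank_eq_fixingSubgroup_index Qb K]
    · rw [rankLe_iff]
      exact hc₀.1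
  obtain ⟨e₀, he₀le, he₀⟩ := degIs_exists hup
  have hq₀ : DegreeOver ⊥ ⊥ 1 := by
    unfold DegreeOver
    rw [sup_bot_eq, one_mul]
  have hq : DegreeOver ⊥ R (p ^ m) := by
    unfold DegreeOver
    rw [bot_sup_eq, hR.1.1, IntermediateField.finrank_bot, mul_one]
  refine ⟨c₀, e₀, c, e, 1, p ^ m, ?_, ?_, hc, he, hq₀, hq, ?_⟩
  · rwa [sup_bot_eq]
  · rwa [sup_bot_eq]
  obtain ⟨c₁, rfl, -⟩ := hc₀.succ
  obtain ⟨e₁, rfl, -⟩ := he.succ
  calc c * e₀ ≤ C ^ 2 * (e₁ + 1) * (c₁ + 1) := Nat.mul_le_mul hcle he₀le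
    _ = C ^ 2 * ((c₁ + 1) * (e₁ + 1)) := by ring
    _ < p ^ (r * (p ^ m - 1)) * ((c₁ + 1) * (e₁ + 1)) :=
      Nat.mul_lt_mul_of_pos_right hCr (Nat.mul_pos (Nat.succ_pos _) (Nat.succ_pos _))

theorem galois_bot [hKg : IsGalois ℚ K] : GaloisOver ⊥ K ∧ GaloisOver ⊥ (abPart K) := by
  have hKn : K.fixingSubgroup.Normal := (InfiniteGalois.normal_iff_isGalois K).2 hKg
  have hGK : GaloisOver ⊥ K := by
    refine ⟨bot_le, fun σ _ x hx => ?_⟩
    rw [← InfiniteGalois.fixedField_fixingSubgroup K, IntermediateField.mem_fixedField_iff]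
    intro τ hτ
    have h1 := hKn.conj_mem τ hτ σ⁻¹
    rw [inv_inv] at h1
    have h2 := (IntermediateField.mem_fixingSubgroup_iff _ _).1 h1 x hx
    have h3 : σ ((σ⁻¹ * τ * σ) x) = τ (σ x) := by
      show (σ * (σ⁻¹ * τ * σ)) x = (τ * σ) x
      congr 1
      group
    rw [← h3, h2]
  refine ⟨hGK, bot_le, fun σ hσ x hx => ?_⟩
  rw [mem_abPart] at hx ⊢
  refine ⟨hGK.2 σ hσ x hx.1, fun a b => ?_⟩
  have h1 := hx.2 (a * b) σ
  have h2 := hx.2 (b * a) σ
  have h3 : a (b (σ x)) = σ (a (b x)) := h1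
  have h4 : b (a (σ x)) = σ (b (a x)) := h2
  rw [h3, h4, hx.2 a b]

theorem ram_bot [hKg : IsGalois ℚ K] (hpK : ¬ p ∣ finrank ℚ K) :
    CoprimeDegree p ⊥ K ∧ TotRam p ι K := by
  refine ⟨⟨finrank ℚ K, by rw [IntermediateField.finrank_bot, mul_one], hpK⟩, ?_⟩
  have hKn : K.fixingSubgroup.Normal := (InfiniteGalois.normal_iff_isGalois K).2 hKg
  have h := totRam_of_pow (p := p) (ι := ι) (K := K) (Rs := ⊥) (n := finrank ℚ K) (s := 0) hpK
    (fun g => by
      rw [pow_zero, mul_one, finrank_eq_fixingSubgroup_index Qb K]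
      exact K.fixingSubgroup.pow_index_mem g) layer_bot
  rwa [sup_bot_eq] at h

/-- The bound by the rank of one layer of the real subfield. -/
theorem real_stab [hKg : IsGalois ℚ K] (hp2 : p ≠ 2) (hk : finrank ℚ k = 2) (hki : ¬ k ≤ realSub ι)
    (hab : ∀ σ ∈ k.fixingSubgroup, ∀ τ ∈ k.fixingSubgroup, ∀ x ∈ K, σ (τ x) = τ (σ x))
    (hpK : ¬ p ∣ finrank ℚ K) {r : ℕ} (hr : NoSmall p K r) {m m' : ℕ}
    {R R' : IntermediateField ℚ Qb} (hR : IsLayer p m R) (hR' : IsLayer p m' R') (hRR : R ≤ R')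
    {C T : ℕ} (hC : DegLe p ((K ⊓ realSub ι) ⊔ R) C) (hCr : C ^ 2 < p ^ (r * (p ^ m - 1)))
    (hT : DegLe p (abPart K ⊔ R') T) : DegLe p (K ⊔ R') (C ^ 2 * T) := by
  have hfR := layer_fd hp.out hR
  have hfA : FiniteDimensional ℚ (abPart K) := fd_of_le (abPart_le K)
  have hRr : RealLayer p ι m R := ⟨hR, layer_real hp.out hp2 hR ι⟩
  have hR'r : RealLayer p ι m' R' := ⟨hR', layer_real hp.out hp2 hR' ι⟩
  obtain ⟨T₀, hT₀⟩ := degLe_base hR' (F := abPart K ⊔ R) (C := T) (by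
    rw [sup_assoc, sup_eq_right.2 hRR]
    exact hT)
  have hg := real_growth (ι := ι) hp2 hk hki hab hpK hRr hC hCr hT₀
  obtain ⟨hGK, hGF⟩ := galois_bot (K := K)
  obtain ⟨hcop, hram⟩ := ram_bot (p := p) (ι := ι) (K := K) hpK
  obtain ⟨c, e, he0, hc, he, h⟩ := growth_bound hGF.1 (abPart_le K) (normal_of_galoisOver hGK)
    (normal_of_galoisOver hGF) (index_of_coprime hGK.1 hcop) hram (killsSmall_abPart hr)
    layer_bot hRr bot_le hg
  refine degLe_mono (h m' R' T hR'r hRR hT) ?_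
  have h1 := real_field Pool.Agent.V5helper23.GM.t_PM hp2 ι hk hki hab hpK hR hC he.1
  have h2 : c ≤ C ^ 2 * e := hc.le h1
  calc c * T / e ≤ C ^ 2 * e * T / e := Nat.div_le_div_right (Nat.mul_le_mul_right _ h2)
    _ = C ^ 2 * T := by
      rw [mul_right_comm, Nat.mul_div_cancel _ (Nat.pos_of_ne_zero he0)]

theorem large1 {r : ℕ} (hr : 0 < r) {C m : ℕ} (hm : C + 1 ≤ m) :
    C < p ^ (r * (p ^ m - 1)) := by
  have h1 : m < p ^ m := Nat.lt_pow_self hp.out.one_lt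
  have h2 : p ^ m - 1 ≤ r * (p ^ m - 1) := Nat.le_mul_of_pos_left _ hr
  have h3 : p ^ m - 1 < p ^ (p ^ m - 1) := Nat.lt_pow_self hp.out.one_lt
  have h4 : p ^ (p ^ m - 1) ≤ p ^ (r * (p ^ m - 1)) := Nat.pow_le_pow_right hp.out.pos h2
  omega

end

end Pool.Agent.V5helper60.GM
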