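import Pool.Agent.V5helper60.GM.Asm6

/-!
# Stabilization of the ranks: the final form
-/

set_option autoImplicit false

namespace Pool.Agent.V5helper60.GM

open IntermediateField Module Pool.Agent.Q60.MU Pool.Agent.W5h77.MB Pool.Agent.W5h33.DF

section
variable {p : ℕ} [hp : Fact p.Prime] {ι : Qb →+* ℂ} {B F K k : IntermediateField ℚ Qb}

theorem criterion_raw [hfK : FiniteDimensional ℚ K] (hK : GaloisOver B K) (hF : GaloisOver B F)
    (hFK : F ≤ K) (hc : CoprimeDegree p B K) (hram : TotRam p ι K) {r : ℕ}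
    (hr : RepsTrivial p r B.fixingSubgroup (K.fixingSubgroup.subgroupOf B.fixingSubgroup)
      (F.fixingSubgroup.subgroupOf B.fixingSubgroup)) (hr0 : 0 < r) :
    (MuVanishes p ι K ↔ MuVanishes p ι F ∧ ∃ m₀ m R₀ R, RealLayer p ι m₀ R₀ ∧ RealLayer p ι m R ∧
      R₀ ≤ R ∧ SmallGrowth p B F K r R₀ R) ∧
    (MuVanishes p ι K ↔ MuVanishes p ι F ∧ ∃ N, ∀ m₀ m R₀ R q₀ q, RealLayer p ι m₀ R₀ →
      RealLayer p ι m R → R₀ ≤ R → DegreeOver B R₀ q₀ → DegreeOver B R q → q₀ + N ≤ q →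
        SmallGrowth p B F K r R₀ R) := by
  have hfB : FiniteDimensional ℚ B := fd_of_le hK.1
  have h1 : ∀ m₀ m R₀ R, RealLayer p ι m₀ R₀ → RealLayer p ι m R → R₀ ≤ R →
      SmallGrowth p B F K r R₀ R → MuVanishes p ι F → MuVanishes p ι K := by
    rintro m₀ m R₀ R hR₀ hR hle hg ⟨T, hT⟩
    obtain ⟨c, e, -, -, -, h⟩ := growth_bound hF.1 hFK (normal_of_galoisOver hK)
      (normal_of_galoisOver hF) (index_of_coprime hK.1 hc) hram hr hR₀ hR hle hg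
    exact muVanishes_of_above hR ⟨_, fun m' R' hR' hRR => h m' R' T hR' hRR (hT m' R' hR')⟩
  have h2 : MuVanishes p ι K → ∃ N, ∀ m₀ m R₀ R q₀ q, RealLayer p ι m₀ R₀ →
      RealLayer p ι m R → R₀ ≤ R → DegreeOver B R₀ q₀ → DegreeOver B R q → q₀ + N ≤ q →
      SmallGrowth p B F K r R₀ R := by
    intro h
    obtain ⟨N, hN⟩ := growth_of_mu (r := r) hF.1 hFK hr0 h
    exact ⟨N, fun m₀ m R₀ R q₀ q a b _ d e f => hN m₀ m R₀ R q₀ q a b d e f⟩
  have h3 : (∃ N, ∀ m₀ m R₀ R q₀ q, RealLayer p ι m₀ R₀ →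
      RealLayer p ι m R → R₀ ≤ R → DegreeOver B R₀ q₀ → DegreeOver B R q → q₀ + N ≤ q →
      SmallGrowth p B F K r R₀ R) → ∃ m₀ m R₀ R, RealLayer p ι m₀ R₀ ∧ RealLayer p ι m R ∧
    R₀ ≤ R ∧ SmallGrowth p B F K r R₀ R := by
    rintro ⟨N, hN⟩
    obtain ⟨m, R, q, hR, hq, hq₀, hle⟩ := exists_pair (p := p) (B := B) ι hfB N
    exact ⟨0, m, ⊥, R, layer_bot, hR, bot_le, hN 0 m ⊥ R 1 q layer_bot hR bot_le hq₀ hq hle⟩
  refine ⟨⟨fun h => ⟨muVanishes_down hFK h, h3 (h2 h)⟩, ?_⟩,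
    ⟨fun h => ⟨muVanishes_down hFK h, h2 h⟩, ?_⟩⟩
  · rintro ⟨h, m₀, m, R₀, R, hR₀, hR, hle, hg⟩
    exact h1 m₀ m R₀ R hR₀ hR hle hg h
  · rintro ⟨h, hN⟩
    obtain ⟨m₀, m, R₀, R, hR₀, hR, hle, hg⟩ := h3 hN
    exact h1 m₀ m R₀ R hR₀ hR hle hg h

/-- Total ramification for abelian extensions of quadratic fields. -/
theorem ram_quadratic [hfK : FiniteDimensional ℚ K] (hp2 : p ≠ 2) (hk : finrank ℚ k = 2)
    (hG : GaloisOver k K) (hc : CoprimeDegree p k K) : TotRam p ι K := by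
  obtain ⟨n, hn, hpn⟩ := hc
  have hpow := pow_mem_of_quadratic hk hG.1 hG hn
  have h := totRam_of_pow (p := p) (ι := ι) (K := K) (Rs := ⊥) (n := 2 * n) (s := 0) (by
    rw [hp.out.dvd_mul]
    rintro (h | h)
    · exact hp2 ((Nat.prime_dvd_prime_iff_eq hp.out Nat.prime_two).1 h)
    · exact hpn h) (fun g => by rw [pow_zero, mul_one]; exact hpow g) layer_bot
  rwa [sup_bot_eq] at h

theorem ram_quadratic_sup [hfK : FiniteDimensional ℚ K] (hk : finrank ℚ k = 2)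
    (hG : GaloisOver k K) (hc : CoprimeDegree p k K) {R₁ : IntermediateField ℚ Qb}
    (hR₁ : RealLayer p ι 1 R₁) : TotRam p ι (K ⊔ R₁) := by
  obtain ⟨n, hn, hpn⟩ := hc
  have hpow := pow_mem_of_quadratic hk hG.1 hG hn
  by_cases hp2 : p = 2
  · refine totRam_of_pow hpn (fun g => ?_) hR₁
    have h := hpow g
    rw [pow_one, hp2, mul_comm n 2]
    exact h
  · refine totRam_of_pow (n := 2 * n) ?_ (fun g => ?_) hR₁
    · rw [hp.out.dvd_mul]
      rintro (h | h)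
      · exact hp2 ((Nat.prime_dvd_prime_iff_eq hp.out Nat.prime_two).1 h)
      · exact hpn h
    · rw [pow_mul]
      exact pow_mem (hpow g) _

end

end Pool.Agent.V5helper60.GM
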