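import Pool.Agent.V5helper60.GM.Def5

/-!
# Concavity of the ranks: definitions
-/

set_option autoImplicit false

namespace Pool.Agent.V5helper60.GM

open IntermediateField Module Pool.Agent.Q60.MU Pool.Agent.W5h77.MB

/-- `R₀ ≤ R` are layers of the cyclotomic `ℤ_p`-extension of `ℚ`. -/
def Layers (p : ℕ) (ι : Qb →+* ℂ) (R₀ R : IntermediateField ℚ Qb) : Prop :=
  (∃ m, RealLayer p ι m R₀) ∧ (∃ m, RealLayer p ι m R) ∧ R₀ ≤ R

/-- `[B R : B] = q`, `d(K R) = c` and `d(F R) = e`. -/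
def Values (p : ℕ) (B F K R : IntermediateField ℚ Qb) (q c e : ℕ) : Prop :=
  DegreeOver B R q ∧ DegIs p (K ⊔ R) c ∧ DegIs p (F ⊔ R) e

/-- `d(K R) / d(F R) < p ^ (g (q - q₀)) d(K R₀) / d(F R₀)`, `q = [B R : B]`, `q₀ = [B R₀ : B]`. -/
def GrowthLt (p : ℕ) (B F K : IntermediateField ℚ Qb) (g : ℕ) (R₀ R : IntermediateField ℚ Qb) :
    Prop :=
  ∃ q₀ c₀ e₀ q c e : ℕ, Values p B F K R₀ q₀ c₀ e₀ ∧ Values p B F K R q c e ∧
    c * e₀ < p ^ (g * (q - q₀)) * (c₀ * e)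

/-- `d(K R) ≤ C p ^ (s [B R : B])` for all layers `R`. -/
def RateLe (p : ℕ) (ι : Qb →+* ℂ) (B K : IntermediateField ℚ Qb) (s : ℕ) : Prop :=
  ∃ C : ℕ, ∀ (R : IntermediateField ℚ Qb) (q : ℕ), Layers p ι R R → DegreeOver B R q →
    DegLe p (K ⊔ R) (C * p ^ (s * q))

end Pool.Agent.V5helper60.GM
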