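import Pool.Agent.V5helper60.GM.Fld6
import Pool.Agent.V5helper60.GM.Def8

/-!
# Concavity of the ranks: assembly
-/

set_option autoImplicit false

namespace Pool.Agent.V5helper60.GM

open IntermediateField Module Pool.Agent.Q60.MU Pool.Agent.W5h77.MB Pool.Agent.W5h33.DF

section
variable {p : ℕ} [hp : Fact p.Prime] {ι : Qb →+* ℂ} {B F K : IntermediateField ℚ Qb}

/-- The layers are totally ordered. -/
theorem layers_le {m m' : ℕ} {R R' : IntermediateField ℚ Qb} (hR : RealLayer p ι m R)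
    (hR' : RealLayer p ι m' R') (hm : m ≤ m') : R ≤ R' := by
  obtain ⟨m'', hR''⟩ := realLayer_sup hR hR'
  have hfR := layer_fd hp.out hR.1
  have hfR' := layer_fd hp.out hR'.1
  have hfR'' := layer_fd hp.out hR''.1
  have hRn := layer_normal hp.out hR.1
  have hR'n := layer_normal hp.out hR'.1
  obtain ⟨c, hc⟩ := real_cyclic ι hR''.1 hR''.2
  have hdvd : ∀ (m : ℕ) (S : IntermediateField ℚ Qb), RealLayer p ι m S → S ≤ R ⊔ R' →
      ∀ i : ℤ, c ^ i ∈ S.fixingSubgroup → ((p ^ m : ℕ) : ℤ) ∣ i := by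
    intro m S hS hle i hi
    have hfS := layer_fd hp.out hS.1
    have hSn := layer_normal hp.out hS.1
    have hidx : S.fixingSubgroup.index = p ^ m := by
      rw [← hS.1.1, finrank_eq_fixingSubgroup_index Qb S]
    have h1 : orderOf (QuotientGroup.mk' S.fixingSubgroup c) = p ^ m := by
      have h2 : Subgroup.zpowers (QuotientGroup.mk' S.fixingSubgroup c) = ⊤ := by
        rw [eq_top_iff]
        rintro x -
        obtain ⟨g', rfl⟩ := QuotientGroup.mk'_surjective S.fixingSubgroup x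
        obtain ⟨i', hi'⟩ := hc g'
        refine Subgroup.mem_zpowers_iff.2 ⟨i', ?_⟩
        have h3 : QuotientGroup.mk' S.fixingSubgroup (g' * (c ^ i')⁻¹) = 1 :=
          (QuotientGroup.eq_one_iff _).2 (fixingSubgroup_le hle hi')
        rw [map_mul, map_inv, map_zpow, mul_inv_eq_one] at h3
        exact h3.symm
      rw [← Nat.card_zpowers, h2, Subgroup.card_top, ← hidx]
      rfl
    rw [← h1, orderOf_dvd_iff_zpow_eq_one, ← map_zpow]
    exact (QuotientGroup.eq_one_iff _).2 hi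
  have hle : R'.fixingSubgroup ≤ R.fixingSubgroup := by
    intro x hx
    obtain ⟨i, hi⟩ := hc x
    have hi1 : x * (c ^ i)⁻¹ ∈ R'.fixingSubgroup := fixingSubgroup_le le_sup_right hi
    have hi2 : x * (c ^ i)⁻¹ ∈ R.fixingSubgroup := fixingSubgroup_le le_sup_left hi
    have hci : c ^ i ∈ R'.fixingSubgroup := by
      have h2 := R'.fixingSubgroup.mul_mem (R'.fixingSubgroup.inv_mem hi1) hx
      have h3 : (x * (c ^ i)⁻¹)⁻¹ * x = c ^ i := by group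
      rwa [h3] at h2
    have h4 := hdvd m' R' hR' le_sup_right i hci
    have h5 : ((p ^ m : ℕ) : ℤ) ∣ i := by
      refine dvd_trans ?_ h4
      exact_mod_cast pow_dvd_pow p hm
    obtain ⟨j, rfl⟩ := h5
    have h6 : c ^ (p ^ m) ∈ R.fixingSubgroup := by
      have hidx : R.fixingSubgroup.index = p ^ m := by
        rw [← hR.1.1, finrank_eq_fixingSubgroup_index Qb R]
      rw [← hidx]
      exact R.fixingSubgroup.pow_index_mem c
    have h7 : c ^ (((p ^ m : ℕ) : ℤ) * j) ∈ R.fixingSubgroup := by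
      rw [zpow_mul, zpow_natCast]
      exact R.fixingSubgroup.zpow_mem h6 j
    have h8 := R.fixingSubgroup.mul_mem hi2 h7
    rwa [inv_mul_cancel_right] at h8
  rw [← InfiniteGalois.fixedField_fixingSubgroup R, ← InfiniteGalois.fixedField_fixingSubgroup R']
  exact IntermediateField.fixedField_le hle

theorem layers_total {R R' : IntermediateField ℚ Qb} (hR : ∃ m, RealLayer p ι m R)
    (hR' : ∃ m, RealLayer p ι m R') : R ≤ R' ∨ R' ≤ R := by
  obtain ⟨m, hR⟩ := hR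
  obtain ⟨m', hR'⟩ := hR'
  rcases Nat.le_total m m' with h | h
  · exact Or.inl (layers_le hR hR' h)
  · exact Or.inr (layers_le hR' hR h)

theorem degreeOver_le [FiniteDimensional ℚ B] {m m' : ℕ} {R R' : IntermediateField ℚ Qb}
    (hR : RealLayer p ι m R) (hR' : RealLayer p ι m' R') (h : R ≤ R') {q q' : ℕ}
    (hq : DegreeOver B R q) (hq' : DegreeOver B R' q') : q ≤ q' := by
  have hfR := layer_fd hp.out hR.1
  have hfR' := layer_fd hp.out hR'.1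
  unfold DegreeOver at hq hq'
  rw [finrank_eq_fixingSubgroup_index Qb (B ⊔ R)] at hq
  rw [finrank_eq_fixingSubgroup_index Qb (B ⊔ R')] at hq'
  have h1 : (B ⊔ R).fixingSubgroup.index ≤ (B ⊔ R').fixingSubgroup.index :=
    Nat.le_of_dvd (Nat.pos_of_ne_zero (index_ne_zero' (B ⊔ R')))
      (Subgroup.index_dvd_of_le (fixingSubgroup_le (sup_le_sup_left h B)))
  rw [hq, hq'] at h1
  exact Nat.le_of_mul_le_mul_right h1 finrank_pos

/-- The rank of a lower layer. -/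
theorem degLe_down [FiniteDimensional ℚ K] {m m' : ℕ} {R R' : IntermediateField ℚ Qb}
    (hR : RealLayer p ι m R) (hR' : RealLayer p ι m' R') (hle : R' ≤ R) {C : ℕ}
    (h : DegLe p (K ⊔ R) C) : DegLe p (K ⊔ R') (C * R.fixingSubgroup.index) := by
  have hfR := layer_fd hp.out hR.1
  have hfR' := layer_fd hp.out hR'.1
  have hRn := layer_normal hp.out hR.1
  have h0 : DegLe p (K ⊔ (R ⊔ R')) C := by
    rwa [sup_eq_left.2 hle]
  rw [← rankLe_iff] at h0 ⊢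
  rw [fixingSubgroup_sup, fixingSubgroup_sup] at h0
  rw [fixingSubgroup_sup]
  have h1 : (K.fixingSubgroup ⊓ (R.fixingSubgroup ⊓ R'.fixingSubgroup)).relIndex
      (K.fixingSubgroup ⊓ R'.fixingSubgroup) =
      R.fixingSubgroup.relIndex (K.fixingSubgroup ⊓ R'.fixingSubgroup) := by
    rw [← Subgroup.inf_relIndex_right, ← Subgroup.inf_relIndex_right R.fixingSubgroup]
    congr 1
    ext x
    simp only [Subgroup.mem_inf]
    tauto
  have h2 : R.fixingSubgroup.relIndex (K.fixingSubgroup ⊓ R'.fixingSubgroup) ∣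
      R.fixingSubgroup.index := Subgroup.relIndex_dvd_index_of_normal _ _
  have h3 : (K.fixingSubgroup ⊓ (R.fixingSubgroup ⊓ R'.fixingSubgroup)).relIndex
      (K.fixingSubgroup ⊓ R'.fixingSubgroup) ≠ 0 := by
    rw [h1]
    intro h
    rw [h] at h2
    exact index_ne_zero' R (Nat.eq_zero_of_zero_dvd h2)
  refine (RankLe.of_le (inf_le_inf_left _ inf_le_right) (by
    rw [Subgroup.coe_inf, Subgroup.coe_inf]
    exact K.fixingSubgroup_isOpen.inter (R.fixingSubgroup_isOpen.inter R'.fixingSubgroup_isOpen))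
    h3 h0).mono ?_
  rw [h1]
  exact Nat.mul_le_mul_left _ (Nat.le_of_dvd (Nat.pos_of_ne_zero (index_ne_zero' R)) h2)

variable [hfK : FiniteDimensional ℚ K]

theorem above_raw (hK : GaloisOver B K) (hF : GaloisOver B F)
    (hFK : F ≤ K) (hc : CoprimeDegree p B K) (hram : TotRam p ι K) {r : ℕ}
    (hr : RepsTrivial p r B.fixingSubgroup (K.fixingSubgroup.subgroupOf B.fixingSubgroup)
      (F.fixingSubgroup.subgroupOf B.fixingSubgroup)) {g s : ℕ} {R₀ R R' : IntermediateField ℚ Qb}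
    (h1 : Layers p ι R₀ R) (h2 : Layers p ι R R') (hg : GrowthLt p B F K g R₀ R)
    (hgs : g ≤ s + 1 ∨ g ≤ r) {q c e q' T : ℕ} (hv : Values p B F K R q c e)
    (hq' : DegreeOver B R' q') (hT : DegLe p (F ⊔ R') T) :
    DegLe p (K ⊔ R') (c * p ^ (s * (q' - q)) * T / e) := by
  have hfB : FiniteDimensional ℚ B := fd_of_le hK.1
  have hfF : FiniteDimensional ℚ F := fd_of_le hFK
  obtain ⟨⟨m₀, hR₀⟩, ⟨m, hR⟩, hle₀⟩ := h1
  obtain ⟨-, ⟨m', hR'⟩, hle⟩ := h2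
  have hfR₀ := layer_fd hp.out hR₀.1
  have hfR := layer_fd hp.out hR.1
  obtain ⟨q₀, c₀, e₀, q₁, c₁, e₁, ⟨hq₀, hc₀, he₀⟩, ⟨hq₁, hc₁, he₁⟩, hlt⟩ := hg
  obtain ⟨hq, hcc, hee⟩ := hv
  have k1 : q₁ = q := Nat.eq_of_mul_eq_mul_right finrank_pos (hq₁.symm.trans hq)
  have k2 : c₁ = c := le_antisymm (hc₁.le hcc.1) (hcc.le hc₁.1)
  have k3 : e₁ = e := le_antisymm (he₁.le hee.1) (hee.le he₁.1)
  subst k1
  subst k2
  subst k3
  obtain ⟨c₀', rfl, hc₀'⟩ := hc₀.succ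
  obtain ⟨e', rfl, he'⟩ := hee.succ
  exact rate_field hF.1 hFK (normal_of_galoisOver hK) (normal_of_galoisOver hF)
    (index_of_coprime hK.1 hc) hram hr hR₀ hR hR' hle₀ hle hq₀ hq hq' hcc.1 he' hc₀' he₀.1 hlt hgs hT

theorem rate_of_pair (hK : GaloisOver B K) (hF : GaloisOver B F)
    (hFK : F ≤ K) (hc : CoprimeDegree p B K) (hram : TotRam p ι K) {r : ℕ}
    (hr : RepsTrivial p r B.fixingSubgroup (K.fixingSubgroup.subgroupOf B.fixingSubgroup)
      (F.fixingSubgroup.subgroupOf B.fixingSubgroup)) {g s : ℕ} {R₀ R : IntermediateField ℚ Qb}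
    (h1 : Layers p ι R₀ R) (hg : GrowthLt p B F K g R₀ R) (hgs : g ≤ s + 1 ∨ g ≤ r)
    (hmu : MuVanishes p ι F) : RateLe p ι B K s := by
  have hfB : FiniteDimensional ℚ B := fd_of_le hK.1
  obtain ⟨T, hT⟩ := hmu
  have hg' := hg
  obtain ⟨q₀, c₀, e₀, q, c, e, -, hv, -⟩ := hg'
  obtain ⟨m, hR⟩ := h1.2.1
  refine ⟨c * T + c * R.fixingSubgroup.index, fun R' q' hR' hq' => ?_⟩
  obtain ⟨⟨m', hR'⟩, -, -⟩ := hR'
  have hpos : 1 ≤ p ^ (s * q') := pow_pos hp.out.pos _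
  rcases layers_total ⟨m, hR⟩ ⟨m', hR'⟩ with h | h
  · refine degLe_mono (above_raw hK hF hFK hc hram hr h1 ⟨⟨m, hR⟩, ⟨m', hR'⟩, h⟩ hg hgs hv hq'
      (hT m' R' hR')) ((Nat.div_le_self _ _).trans ?_)
    calc c * p ^ (s * (q' - q)) * T = (c * T) * p ^ (s * (q' - q)) := by ring
      _ ≤ (c * T + c * R.fixingSubgroup.index) * p ^ (s * q') :=
        Nat.mul_le_mul (Nat.le_add_right _ _) (Nat.pow_le_pow_right hp.out.pos
          (Nat.mul_le_mul_left _ (Nat.sub_le _ _)))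
  · refine degLe_mono (degLe_down hR hR' h hv.2.1.1) ?_
    calc c * R.fixingSubgroup.index = (c * R.fixingSubgroup.index) * 1 := (mul_one _).symm
      _ ≤ (c * T + c * R.fixingSubgroup.index) * p ^ (s * q') :=
        Nat.mul_le_mul (Nat.le_add_left _ _) hpos

theorem pair_of_rate (hK : GaloisOver B K) (hFK : F ≤ K) {s : ℕ} (hmu : MuVanishes p ι F)
    (h : RateLe p ι B K s) {R₀ : IntermediateField ℚ Qb} (hR₀ : ∃ m, RealLayer p ι m R₀) :
    ∃ N : ℕ, ∀ R q, Layers p ι R₀ R → DegreeOver B R q → N ≤ q →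
      GrowthLt p B F K (s + 1) R₀ R := by
  have hfB : FiniteDimensional ℚ B := fd_of_le hK.1
  have hfF : FiniteDimensional ℚ F := fd_of_le hFK
  obtain ⟨T, hT⟩ := hmu
  obtain ⟨C, hC⟩ := h
  obtain ⟨m₀, hR₀⟩ := hR₀
  have hfR₀ := layer_fd hp.out hR₀.1
  obtain ⟨q₀, hq₀, -⟩ := exists_degreeOver hfB hR₀
  refine ⟨C * T * p ^ ((s + 1) * q₀), fun R q hR hq hN => ?_⟩
  obtain ⟨-, ⟨m, hR⟩, hle⟩ := hR
  have hfR := layer_fd hp.out hR.1
  obtain ⟨c₀, -, hc₀⟩ := degIs_exists (hC R₀ q₀ ⟨⟨m₀, hR₀⟩, ⟨m₀, hR₀⟩, le_rfl⟩ hq₀)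
  obtain ⟨c, hcle, hc⟩ := degIs_exists (hC R q ⟨⟨m, hR⟩, ⟨m, hR⟩, le_rfl⟩ hq)
  obtain ⟨e₀, he₀le, he₀⟩ := degIs_exists (hT m₀ R₀ hR₀)
  obtain ⟨e, hele, he⟩ := degIs_exists (hT m R hR)
  refine ⟨q₀, c₀, e₀, q, c, e, ⟨hq₀, hc₀, he₀⟩, ⟨hq, hc, he⟩, ?_⟩
  obtain ⟨c₁, rfl, -⟩ := hc₀.succ
  obtain ⟨e₁, rfl, -⟩ := he.succ
  have hqq := degreeOver_le hR₀ hR hle hq₀ hq
  have h1 : C * T * p ^ ((s + 1) * q₀) < p ^ q := lt_of_le_of_lt hN (Nat.lt_pow_self hp.out.one_lt)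
  have h2 : c * e₀ * p ^ ((s + 1) * q₀) < p ^ ((s + 1) * (q - q₀)) * p ^ ((s + 1) * q₀) := by
    calc c * e₀ * p ^ ((s + 1) * q₀) ≤ C * p ^ (s * q) * T * p ^ ((s + 1) * q₀) :=
          Nat.mul_le_mul_right _ (Nat.mul_le_mul hcle he₀le)
      _ = (C * T * p ^ ((s + 1) * q₀)) * p ^ (s * q) := by ring
      _ < p ^ q * p ^ (s * q) := Nat.mul_lt_mul_of_pos_right h1 (pow_pos hp.out.pos _)
      _ = p ^ ((s + 1) * (q - q₀)) * p ^ ((s + 1) * q₀) := by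
        rw [← pow_add, ← pow_add]
        congr 1
        rw [← Nat.mul_add, Nat.sub_add_cancel hqq]
        ring
  have h3 := Nat.lt_of_mul_lt_mul_right h2
  calc c * e₀ < p ^ ((s + 1) * (q - q₀)) * 1 := by rwa [mul_one]
    _ ≤ p ^ ((s + 1) * (q - q₀)) * ((c₁ + 1) * (e₁ + 1)) :=
      Nat.mul_le_mul_left _ (Nat.mul_pos (Nat.succ_pos _) (Nat.succ_pos _))

theorem rate_zero (hBK : B ≤ K) : RateLe p ι B K 0 ↔ MuVanishes p ι K := by
  have hfB : FiniteDimensional ℚ B := fd_of_le hBK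
  constructor
  · rintro ⟨C, hC⟩
    refine ⟨C, fun m R hR => ?_⟩
    obtain ⟨q, hq, -⟩ := exists_degreeOver hfB hR
    have h := hC R q ⟨⟨m, hR⟩, ⟨m, hR⟩, le_rfl⟩ hq
    rwa [zero_mul, pow_zero, mul_one] at h
  · rintro ⟨C, hC⟩
    refine ⟨C, fun R q hR _ => ?_⟩
    obtain ⟨⟨m, hR⟩, -, -⟩ := hR
    rw [zero_mul, pow_zero, mul_one]
    exact hC m R hR

omit hfK in
theorem growthLt_mono {g g' : ℕ} (h : g ≤ g') {R₀ R : IntermediateField ℚ Qb}
    (hg : GrowthLt p B F K g R₀ R) : GrowthLt p B F K g' R₀ R := by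
  obtain ⟨q₀, c₀, e₀, q, c, e, hv₀, hv, hlt⟩ := hg
  exact ⟨q₀, c₀, e₀, q, c, e, hv₀, hv, hlt.trans_le (Nat.mul_le_mul_right _
    (Nat.pow_le_pow_right hp.out.pos (Nat.mul_le_mul_right _ h)))⟩

omit hfK in
theorem rate_mono {s s' : ℕ} (h : s ≤ s') (hr : RateLe p ι B K s) : RateLe p ι B K s' := by
  obtain ⟨C, hC⟩ := hr
  exact ⟨C, fun R q hR hq => degLe_mono (hC R q hR hq) (Nat.mul_le_mul_left _
    (Nat.pow_le_pow_right hp.out.pos (Nat.mul_le_mul_right _ h)))⟩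

theorem large_layer (ι : Qb →+* ℂ) (hBK : B ≤ K) (N : ℕ) :
    ∃ R q, Layers p ι ⊥ R ∧ DegreeOver B R q ∧ N ≤ q := by
  have hfB : FiniteDimensional ℚ B := fd_of_le hBK
  obtain ⟨m, R, q, hR, hq, -, hle⟩ := exists_pair (p := p) (B := B) ι hfB N
  exact ⟨R, q, ⟨⟨0, layer_bot⟩, ⟨m, hR⟩, bot_le⟩, hq, (Nat.le_add_left N 1).trans hle⟩

/-- The criterion in the final form. -/
theorem criterion8 (hK : GaloisOver B K) (hF : GaloisOver B F)
    (hFK : F ≤ K) (hc : CoprimeDegree p B K) (hram : TotRam p ι K) {r : ℕ}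
    (hr : RepsTrivial p r B.fixingSubgroup (K.fixingSubgroup.subgroupOf B.fixingSubgroup)
      (F.fixingSubgroup.subgroupOf B.fixingSubgroup)) :
    (0 < r → (MuVanishes p ι K ↔ MuVanishes p ι F ∧
      ∃ R₀ R, Layers p ι R₀ R ∧ GrowthLt p B F K r R₀ R)) ∧
    (MuVanishes p ι F → ∀ s : ℕ,
      (RateLe p ι B K s ↔ ∃ R₀ R, Layers p ι R₀ R ∧ GrowthLt p B F K (s + 1) R₀ R) ∧
      (RateLe p ι B K s ↔ ∀ R₀, Layers p ι R₀ R₀ → ∃ N, ∀ R q, Layers p ι R₀ R →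
        DegreeOver B R q → N ≤ q → GrowthLt p B F K (s + 1) R₀ R) ∧
      (s < r → (RateLe p ι B K s ↔ MuVanishes p ι K))) := by
  have hb : Layers p ι ⊥ ⊥ := ⟨⟨0, layer_bot⟩, ⟨0, layer_bot⟩, le_rfl⟩
  have h1 : ∀ s, MuVanishes p ι F → (∀ R₀, Layers p ι R₀ R₀ → ∃ N, ∀ R q, Layers p ι R₀ R →
      DegreeOver B R q → N ≤ q → GrowthLt p B F K (s + 1) R₀ R) →
      ∃ R₀ R, Layers p ι R₀ R ∧ GrowthLt p B F K (s + 1) R₀ R := by
    intro s _ h
    obtain ⟨N, hN⟩ := h ⊥ hb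
    obtain ⟨R, q, hR, hq, hle⟩ := large_layer (p := p) ι hK.1 N
    exact ⟨⊥, R, hR, hN R q hR hq hle⟩
  have h2 : ∀ s, MuVanishes p ι F → RateLe p ι B K s →
      ∀ R₀, Layers p ι R₀ R₀ → ∃ N, ∀ R q, Layers p ι R₀ R →
      DegreeOver B R q → N ≤ q → GrowthLt p B F K (s + 1) R₀ R := fun s hmu h R₀ hR₀ =>
    pair_of_rate hK hFK hmu h hR₀.1
  have h3 : ∀ s, MuVanishes p ι F → (∃ R₀ R, Layers p ι R₀ R ∧ GrowthLt p B F K (s + 1) R₀ R) →
      RateLe p ι B K s := by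
    rintro s hmu ⟨R₀, R, hR, hg⟩
    exact rate_of_pair hK hF hFK hc hram hr hR hg (Or.inl le_rfl) hmu
  refine ⟨fun hr0 => ⟨fun h => ?_, ?_⟩, fun hmu s => ⟨⟨fun h => h1 s hmu (h2 s hmu h), h3 s hmu⟩,
    ⟨h2 s hmu, fun h => h3 s hmu (h1 s hmu h)⟩, fun hs => ⟨fun h => ?_, fun h => ?_⟩⟩⟩
  · have hmu := muVanishes_down hFK h
    obtain ⟨R₀, R, hR, hg⟩ := h1 0 hmu (h2 0 hmu ((rate_zero hK.1).2 h))
    exact ⟨hmu, R₀, R, hR, growthLt_mono (by omega) hg⟩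
  · rintro ⟨hmu, R₀, R, hR, hg⟩
    exact (rate_zero hK.1).1 (rate_of_pair (s := 0) hK hF hFK hc hram hr hR hg (Or.inr le_rfl) hmu)
  · obtain ⟨R₀, R, hR, hg⟩ := h1 s hmu (h2 s hmu h)
    exact (rate_zero hK.1).1 (rate_of_pair (s := 0) hK hF hFK hc hram hr hR hg (Or.inr hs) hmu)
  · exact rate_mono (Nat.zero_le s) ((rate_zero hK.1).2 h)

theorem above_deg (hK : GaloisOver B K) (hF : GaloisOver B F)
    (hFK : F ≤ K) (hc : CoprimeDegree p B K) (hram : TotRam p ι K) {r : ℕ}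
    (hr : RepsTrivial p r B.fixingSubgroup (K.fixingSubgroup.subgroupOf B.fixingSubgroup)
      (F.fixingSubgroup.subgroupOf B.fixingSubgroup)) {g s : ℕ} {R₀ R R' : IntermediateField ℚ Qb}
    (h1 : Layers p ι R₀ R) (h2 : Layers p ι R R') (hg : GrowthLt p B F K g R₀ R)
    (hgs : g ≤ s + 1 ∨ g ≤ r) {q c e q' e' : ℕ} (hv : Values p B F K R q c e)
    (hq' : DegreeOver B R' q') (he' : DegIs p (F ⊔ R') e') :
    ∃ c', DegIs p (K ⊔ R') c' ∧ c' * e ≤ p ^ (s * (q' - q)) * (c * e') := by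
  obtain ⟨c', hle, hc'⟩ := degIs_exists (above_raw hK hF hFK hc hram hr h1 h2 hg hgs hv hq' he'.1)
  refine ⟨c', hc', (Nat.mul_le_mul_right _ hle).trans ((Nat.div_mul_le_self _ _).trans ?_)⟩
  exact (by ring : c * p ^ (s * (q' - q)) * e' = p ^ (s * (q' - q)) * (c * e')).le

end

end Pool.Agent.V5helper60.GM
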