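import Pool.Agent.V5helper60.GM.Main5

/-!
# Concavity and growth: group-theoretical form
-/

set_option autoImplicit false

namespace Pool.Agent.V5helper60.GM

open Subgroup Pool.Agent.Q60.MU Pool.Agent.W5h77.MB Pool.Agent.W5h33.DF

theorem sum_le_of_anti {t : ℕ → ℕ} (ht : Antitone t) {a b s : ℕ} (h : t a ≤ s) :
    ∑ j ∈ Finset.range b, t (a + j) ≤ b * s := by
  calc ∑ j ∈ Finset.range b, t (a + j) ≤ ∑ _j ∈ Finset.range b, s :=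
        Finset.sum_le_sum fun j _ => (ht (Nat.le_add_right a j)).trans h
    _ = b * s := by rw [Finset.sum_const, Finset.card_range, smul_eq_mul]

theorem le_sum_of_anti {t : ℕ → ℕ} (ht : Antitone t) {a b c : ℕ} (hc : a + b ≤ c + 1) :
    b * t c ≤ ∑ j ∈ Finset.range b, t (a + j) := by
  calc b * t c = ∑ _j ∈ Finset.range b, t c := by
        rw [Finset.sum_const, Finset.card_range, smul_eq_mul]
    _ ≤ ∑ j ∈ Finset.range b, t (a + j) := Finset.sum_le_sum fun j hj => ht (by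
        have := Finset.mem_range.1 hj
        omega)

variable {𝔾 : Type} [Group 𝔾]

theorem conc5 [TopologicalSpace 𝔾] [ContinuousMul 𝔾] {p : ℕ} [hp : Fact p.Prime]
    (hTR : S_TR3)
    {Ω : Type} [MulAction 𝔾 Ω] {I : Ω → Subgroup 𝔾}
    (hI : ∀ (g : 𝔾) (w : Ω), ∀ x ∈ I w, g * x * g⁻¹ ∈ I (g • w))
    {K F D₀ D D' : Subgroup 𝔾} (hKn : K.Normal) (hFn : F.Normal) (hD₀n : D₀.Normal) (hDn : D.Normal)
    (hD'n : D'.Normal) (hKF : K ≤ F) (hDD₀ : D ≤ D₀) (hDD : D' ≤ D) (hK0 : K.index ≠ 0)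
    (hKp : ¬ p ∣ K.index) {m₀ m m' : ℕ} (hD₀i : D₀.index = p ^ m₀) (hDi : D.index = p ^ m)
    (hD'i : D'.index = p ^ m')
    {γ : 𝔾} {w₀ : Ω} (hγK : γ ∈ K) (hγI : γ ∈ I w₀) (hγ : ∀ g : 𝔾, ∃ i : ℤ, g * (γ ^ i)⁻¹ ∈ D')
    (htot : ∀ A, I A ≤ D' ∨ ∃ a ∈ K ⊓ D', a * γ ∈ I A)
    {C E C₀ E₀ C₂ E₂ : ℕ} (hC : RankLe p I (K ⊓ D) C) (hE : ¬ RankLe p I (F ⊓ D) E)
    (hC₀ : ¬ RankLe p I (K ⊓ D₀) C₀) (hE₀ : RankLe p I (F ⊓ D₀) E₀)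
    (hC₂ : ¬ RankLe p I (K ⊓ D') C₂) (hE₂ : RankLe p I (F ⊓ D') E₂) :
    (C₂ + 1) ^ (p ^ m - p ^ m₀) * (C₀ + 1) ^ (p ^ m' - p ^ m) * (E + 1) ^ (p ^ m' - p ^ m₀) ≤
      C ^ (p ^ m' - p ^ m₀) * E₂ ^ (p ^ m - p ^ m₀) * E₀ ^ (p ^ m' - p ^ m) := by
  obtain ⟨Y, hYH, hYo, hYf, hg, hYC⟩ : ∃ Y : Subgroup 𝔾, Y ≤ K ⊓ D' ∧ IsOpen (Y : Set 𝔾) ∧
      Y.relIndex (K ⊓ D') ≠ 0 ∧ gens p I (K ⊓ D') ⊆ Y ∧ C₂ < Y.relIndex (K ⊓ D') := by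
    by_contra hcon
    apply hC₂
    intro M h1 h2 h3 h4
    by_contra h5
    exact hcon ⟨M, h1, h2, h3, h4, not_le.1 h5⟩
  obtain ⟨u₀, u₁, u₂, x₀, x₁, x₂, t, htanti, -, h1, h2, h3, h4, h5, h6, h7, h8⟩ := core5 (r := 0) hTR
    hI hKn hFn hD₀n hDn hD'n hKF hDD₀ hDD hK0 hKp hD₀i hDi hD'i hγK hγI hγ htot
    (fun n hn => absurd hn (Nat.not_lt_zero n)) hC hE hC₀ hE₀ hYH hYo hYf hg
  have hle : ∀ (D₁ D₂ : Subgroup 𝔾) (n₁ n₂ : ℕ), D₂ ≤ D₁ → D₁.index = p ^ n₁ → D₂.index = p ^ n₂ →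
      p ^ n₁ ≤ p ^ n₂ := by
    intro D₁ D₂ n₁ n₂ hle h1 h2
    rw [← h1, ← h2]
    refine Nat.le_of_dvd (Nat.pos_of_ne_zero ?_) (index_dvd_of_le hle)
    rw [h2]
    exact (pow_pos hp.out.pos n₂).ne'
  have hm₀m := hle D₀ D m₀ m hDD₀ hD₀i hDi
  have hmm' := hle D D' m m' hDD hDi hD'i
  have hq₀ : 0 < p ^ m₀ := pow_pos hp.out.pos m₀
  set a := p ^ m - p ^ m₀ with ha
  set b := p ^ m' - p ^ m with hb
  have hab : p ^ m' - p ^ m₀ = a + b := by omega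
  rw [hab]
  set S₁ := ∑ j ∈ Finset.range a, t (p ^ m₀ - 1 + j) with hS₁
  set S₂ := ∑ j ∈ Finset.range b, t (p ^ m - 1 + j) with hS₂
  have hS : S₂ * a ≤ S₁ * b := by
    have k1 : S₂ ≤ b * t (p ^ m - 1) := sum_le_of_anti htanti le_rfl
    have k2 : a * t (p ^ m - 1) ≤ S₁ := le_sum_of_anti htanti (by omega)
    calc S₂ * a ≤ b * t (p ^ m - 1) * a := Nat.mul_le_mul_right _ k1
      _ = a * t (p ^ m - 1) * b := by ring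
      _ ≤ S₁ * b := Nat.mul_le_mul_right _ k2
  have h9 := h8 E₂ hE₂
  calc (C₂ + 1) ^ a * (C₀ + 1) ^ b * (E + 1) ^ (a + b)
      ≤ (u₂ * x₂) ^ a * (u₀ * x₀) ^ b * x₁ ^ (a + b) :=
        Nat.mul_le_mul (Nat.mul_le_mul (Nat.pow_le_pow_left (hYC.trans_le h7) a)
          (Nat.pow_le_pow_left h5 b)) (Nat.pow_le_pow_left h4 _)
    _ = (u₁ ^ a * u₀ ^ b * p ^ (S₂ * a)) * (x₁ ^ (a + b) * x₂ ^ a * x₀ ^ b) := by
        rw [h2, pow_mul]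
        ring
    _ ≤ (u₁ ^ a * u₀ ^ b * p ^ (S₁ * b)) * (x₁ ^ (a + b) * x₂ ^ a * x₀ ^ b) :=
        Nat.mul_le_mul_right _ (Nat.mul_le_mul_left _ (Nat.pow_le_pow_right hp.out.pos hS))
    _ = (u₁ * x₁) ^ (a + b) * x₂ ^ a * x₀ ^ b := by
        have k3 : u₀ ^ b * p ^ (S₁ * b) = u₁ ^ b := by rw [h1, mul_pow, ← pow_mul]
        calc (u₁ ^ a * u₀ ^ b * p ^ (S₁ * b)) * (x₁ ^ (a + b) * x₂ ^ a * x₀ ^ b)
            = u₁ ^ a * (u₀ ^ b * p ^ (S₁ * b)) * (x₁ ^ (a + b) * x₂ ^ a * x₀ ^ b) := by ring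
          _ = _ := by
            rw [k3]
            ring
    _ ≤ C ^ (a + b) * E₂ ^ a * E₀ ^ b :=
        Nat.mul_le_mul (Nat.mul_le_mul (Nat.pow_le_pow_left h3 _) (Nat.pow_le_pow_left h9 _))
          (Nat.pow_le_pow_left h6 _)

/-- Growth smaller than `g` gives a bound for the later growth. -/
theorem rate5 [TopologicalSpace 𝔾] [ContinuousMul 𝔾] {p : ℕ} [hp : Fact p.Prime]
    (hTR : S_TR3)
    {Ω : Type} [MulAction 𝔾 Ω] {I : Ω → Subgroup 𝔾}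
    (hI : ∀ (g : 𝔾) (w : Ω), ∀ x ∈ I w, g * x * g⁻¹ ∈ I (g • w))
    {K F D₀ D D' : Subgroup 𝔾} (hKn : K.Normal) (hFn : F.Normal) (hD₀n : D₀.Normal) (hDn : D.Normal)
    (hD'n : D'.Normal) (hKF : K ≤ F) (hDD₀ : D ≤ D₀) (hDD : D' ≤ D) (hK0 : K.index ≠ 0)
    (hKp : ¬ p ∣ K.index) {m₀ m m' : ℕ} (hD₀i : D₀.index = p ^ m₀) (hDi : D.index = p ^ m)
    (hD'i : D'.index = p ^ m')
    {γ : 𝔾} {w₀ : Ω} (hγK : γ ∈ K) (hγI : γ ∈ I w₀) (hγ : ∀ g : 𝔾, ∃ i : ℤ, g * (γ ^ i)⁻¹ ∈ D')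
    (htot : ∀ A, I A ≤ D' ∨ ∃ a ∈ K ⊓ D', a * γ ∈ I A)
    {r : ℕ} (hr : ∀ n < r, ∀ f : 𝔾 ⧸ K →* Matrix.GeneralLinearGroup (Fin n) (ZMod p),
      ∀ a ∈ F, f (a : 𝔾 ⧸ K) = 1)
    {C E C₀ E₀ T g s : ℕ} (hC : RankLe p I (K ⊓ D) C) (hE : ¬ RankLe p I (F ⊓ D) E)
    (hC₀ : ¬ RankLe p I (K ⊓ D₀) C₀) (hE₀ : RankLe p I (F ⊓ D₀) E₀)
    (hgap : C * E₀ < p ^ (g * (p ^ m - p ^ m₀)) * ((C₀ + 1) * (E + 1)))
    (hgs : g ≤ s + 1 ∨ g ≤ r) (hT : RankLe p I (F ⊓ D') T) :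
    RankLe p I (K ⊓ D') (C * p ^ (s * (p ^ m' - p ^ m)) * T / (E + 1)) := by
  intro Y hYH hYo hYf hg
  obtain ⟨u₀, u₁, u₂, x₀, x₁, x₂, t, htanti, htr, h1, h2, h3, h4, h5, h6, h7, h8⟩ := core5 (r := r)
    hTR hI hKn hFn hD₀n hDn hD'n hKF hDD₀ hDD hK0 hKp hD₀i hDi hD'i hγK hγI hγ htot hr hC hE hC₀ hE₀
    hYH hYo hYf hg
  have hle : p ^ m₀ ≤ p ^ m := by
    rw [← hD₀i, ← hDi]
    refine Nat.le_of_dvd (Nat.pos_of_ne_zero ?_) (index_dvd_of_le hDD₀)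
    rw [hDi]
    exact (pow_pos hp.out.pos m).ne'
  have hq₀ : 0 < p ^ m₀ := pow_pos hp.out.pos m₀
  set a := p ^ m - p ^ m₀ with ha
  set b := p ^ m' - p ^ m with hb
  set S₁ := ∑ j ∈ Finset.range a, t (p ^ m₀ - 1 + j) with hS₁
  set S₂ := ∑ j ∈ Finset.range b, t (p ^ m - 1 + j) with hS₂
  have hS1 : S₁ < g * a := by
    by_contra hcon
    refine absurd hgap (not_lt.2 ?_)
    calc p ^ (g * a) * ((C₀ + 1) * (E + 1)) ≤ p ^ S₁ * ((u₀ * x₀) * x₁) :=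
          Nat.mul_le_mul (Nat.pow_le_pow_right hp.out.pos (not_lt.1 hcon)) (Nat.mul_le_mul h5 h4)
      _ = (u₁ * x₁) * x₀ := by rw [h1]; ring
      _ ≤ C * E₀ := Nat.mul_le_mul h3 h6
  have ht1 : t (p ^ m - 1) < g := by
    by_contra hcon
    have k2 : a * t (p ^ m - 1) ≤ S₁ := le_sum_of_anti htanti (by omega)
    have k3 : g * a ≤ a * t (p ^ m - 1) := by
      rw [mul_comm]
      exact Nat.mul_le_mul_left _ (not_lt.1 hcon)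
    omega
  have hts : t (p ^ m - 1) ≤ s := by
    rcases hgs with h | h
    · omega
    · rcases htr (p ^ m - 1) with h' | h'
      · omega
      · omega
  have hS2 : S₂ ≤ b * s := sum_le_of_anti htanti hts
  rw [Nat.le_div_iff_mul_le (Nat.succ_pos E)]
  calc Y.relIndex (K ⊓ D') * (E + 1) ≤ (u₂ * x₂) * (E + 1) := Nat.mul_le_mul_right _ h7
    _ = (u₁ * (E + 1)) * p ^ S₂ * x₂ := by rw [h2]; ring
    _ ≤ C * p ^ (s * b) * T := by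
        refine Nat.mul_le_mul (Nat.mul_le_mul ((Nat.mul_le_mul_left _ h4).trans h3)
          (Nat.pow_le_pow_right hp.out.pos ?_)) (h8 T hT)
        rwa [mul_comm s b]

end Pool.Agent.V5helper60.GM
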