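import Pool.Agent.V5helper60.GM.Main6
import Pool.Agent.V5helper60.GM.Conc

/-!
# Concavity and growth of the absolute rank: group-theoretical form
-/

set_option autoImplicit false

namespace Pool.Agent.V5helper60.GM

open Subgroup Pool.Agent.Q60.MU Pool.Agent.W5h77.MB Pool.Agent.W5h33.DF

variable {𝔾 : Type} [Group 𝔾]

theorem gens_sub_self {p : ℕ} {Ω : Type} (I : Ω → Subgroup 𝔾) (L : Subgroup 𝔾) :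
    gens p I L ⊆ L := by
  rintro x ((⟨a, ha, h⟩ | ⟨a, ha, b, hb, h⟩) | ⟨hx, A, hA⟩)
  · subst h
    exact L.pow_mem ha p
  · subst h
    exact L.mul_mem (L.mul_mem (L.mul_mem ha hb) (L.inv_mem ha)) (L.inv_mem hb)
  · exact hx

theorem mono6 [TopologicalSpace 𝔾] [ContinuousMul 𝔾] {p : ℕ} [hp : Fact p.Prime]
    {Ω : Type} [MulAction 𝔾 Ω] {I : Ω → Subgroup 𝔾}
    (hI : ∀ (g : 𝔾) (w : Ω), ∀ x ∈ I w, g * x * g⁻¹ ∈ I (g • w))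
    {K D₀ D : Subgroup 𝔾} (hKn : K.Normal) (hD₀n : D₀.Normal) (hDn : D.Normal)
    (hDD₀ : D ≤ D₀) (hK0 : K.index ≠ 0)
    (hKp : ¬ p ∣ K.index) {m₀ m : ℕ} (hD₀i : D₀.index = p ^ m₀) (hDi : D.index = p ^ m)
    {γ : 𝔾} {w₀ : Ω} (hγK : γ ∈ K) (hγI : γ ∈ I w₀) (hγ : ∀ g : 𝔾, ∃ i : ℤ, g * (γ ^ i)⁻¹ ∈ D)
    (htot : ∀ A, I A ≤ D ∨ ∃ a ∈ K ⊓ D, a * γ ∈ I A)
    (hKo : IsOpen ((K ⊓ D : Subgroup 𝔾) : Set 𝔾))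
    {C C₀ : ℕ} (hC : RankLe p I (K ⊓ D) C) (hC₀ : ¬ RankLe p I (K ⊓ D₀) C₀) : C₀ + 1 ≤ C := by
  obtain ⟨u₀, u₁, u₂, t, -, h1, -, h3, h5, -⟩ := core6 hI hKn hD₀n hDn hDn hDD₀ le_rfl hK0 hKp
    hD₀i hDi hDi hγK hγI hγ htot hC hC₀ (Y := K ⊓ D) le_rfl hKo (by rw [relIndex_self]; exact one_ne_zero)
    (gens_sub_self I (K ⊓ D))
  refine h5.trans (le_trans ?_ h3)
  rw [h1]
  exact Nat.le_mul_of_pos_right _ (pow_pos hp.out.pos _)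

theorem conc6 [TopologicalSpace 𝔾] [ContinuousMul 𝔾] {p : ℕ} [hp : Fact p.Prime]
    {Ω : Type} [MulAction 𝔾 Ω] {I : Ω → Subgroup 𝔾}
    (hI : ∀ (g : 𝔾) (w : Ω), ∀ x ∈ I w, g * x * g⁻¹ ∈ I (g • w))
    {K D₀ D D' : Subgroup 𝔾} (hKn : K.Normal) (hD₀n : D₀.Normal) (hDn : D.Normal)
    (hD'n : D'.Normal) (hDD₀ : D ≤ D₀) (hDD : D' ≤ D) (hK0 : K.index ≠ 0)
    (hKp : ¬ p ∣ K.index) {m₀ m m' : ℕ} (hD₀i : D₀.index = p ^ m₀) (hDi : D.index = p ^ m)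
    (hD'i : D'.index = p ^ m')
    {γ : 𝔾} {w₀ : Ω} (hγK : γ ∈ K) (hγI : γ ∈ I w₀) (hγ : ∀ g : 𝔾, ∃ i : ℤ, g * (γ ^ i)⁻¹ ∈ D')
    (htot : ∀ A, I A ≤ D' ∨ ∃ a ∈ K ⊓ D', a * γ ∈ I A)
    {C C₀ C₂ : ℕ} (hC : RankLe p I (K ⊓ D) C) (hC₀ : ¬ RankLe p I (K ⊓ D₀) C₀)
    (hC₂ : ¬ RankLe p I (K ⊓ D') C₂) :
    (C₂ + 1) ^ (p ^ m - p ^ m₀) * (C₀ + 1) ^ (p ^ m' - p ^ m) ≤ C ^ (p ^ m' - p ^ m₀) := by
  obtain ⟨Y, hYH, hYo, hYf, hg, hYC⟩ : ∃ Y : Subgroup 𝔾, Y ≤ K ⊓ D' ∧ IsOpen (Y : Set 𝔾) ∧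
      Y.relIndex (K ⊓ D') ≠ 0 ∧ gens p I (K ⊓ D') ⊆ Y ∧ C₂ < Y.relIndex (K ⊓ D') := by
    by_contra hcon
    apply hC₂
    intro M h1 h2 h3 h4
    by_contra h5
    exact hcon ⟨M, h1, h2, h3, h4, not_le.1 h5⟩
  obtain ⟨u₀, u₁, u₂, t, htanti, h1, h2, h3, h5, h7⟩ := core6
    hI hKn hD₀n hDn hD'n hDD₀ hDD hK0 hKp hD₀i hDi hD'i hγK hγI hγ htot hC hC₀ hYH hYo hYf hg
  have hle : ∀ (D₁ D₂ : Subgroup 𝔾) (n₁ n₂ : ℕ), D₂ ≤ D₁ → D₁.index = p ^ n₁ → D₂.index = p ^ n₂ →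
      p ^ n₁ ≤ p ^ n₂ := by
    intro D₁ D₂ n₁ n₂ hle h1 h2
    rw [← h1, ← h2]
    refine Nat.le_of_dvd (Nat.pos_of_ne_zero ?_) (index_dvd_of_le hle)
    rw [h2]
    exact (pow_pos hp.out.pos n₂).ne'
  have hm₀m := hle D₀ D m₀ m hDD₀ hD₀i hDi
  have hmm' := hle D D' m m' hDD hDi hD'i
  have hq₀ : 0 < p ^ m₀ := pow_pos hp.out.pos m₀
  set a := p ^ m - p ^ m₀ with ha
  set b := p ^ m' - p ^ m with hb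
  have hab : p ^ m' - p ^ m₀ = a + b := by omega
  rw [hab]
  set S₁ := ∑ j ∈ Finset.range a, t (p ^ m₀ - 1 + j) with hS₁
  set S₂ := ∑ j ∈ Finset.range b, t (p ^ m - 1 + j) with hS₂
  have hS : S₂ * a ≤ S₁ * b := by
    have k1 : S₂ ≤ b * t (p ^ m - 1) := sum_le_of_anti htanti le_rfl
    have k2 : a * t (p ^ m - 1) ≤ S₁ := le_sum_of_anti htanti (by omega)
    calc S₂ * a ≤ b * t (p ^ m - 1) * a := Nat.mul_le_mul_right _ k1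
      _ = a * t (p ^ m - 1) * b := by ring
      _ ≤ S₁ * b := Nat.mul_le_mul_right _ k2
  calc (C₂ + 1) ^ a * (C₀ + 1) ^ b
      ≤ u₂ ^ a * u₀ ^ b :=
        Nat.mul_le_mul (Nat.pow_le_pow_left (hYC.trans_le h7) a) (Nat.pow_le_pow_left h5 b)
    _ = u₁ ^ a * u₀ ^ b * p ^ (S₂ * a) := by
        rw [h2, pow_mul]
        ring
    _ ≤ u₁ ^ a * u₀ ^ b * p ^ (S₁ * b) :=
        Nat.mul_le_mul_left _ (Nat.pow_le_pow_right hp.out.pos hS)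
    _ = u₁ ^ (a + b) := by
        have k3 : u₀ ^ b * p ^ (S₁ * b) = u₁ ^ b := by rw [h1, mul_pow, ← pow_mul]
        rw [mul_assoc, k3, pow_add]
    _ ≤ C ^ (a + b) := Nat.pow_le_pow_left h3 _

/-- Growth smaller than `s + 1` gives a bound for the later growth. -/
theorem rate6 [TopologicalSpace 𝔾] [ContinuousMul 𝔾] {p : ℕ} [hp : Fact p.Prime]
    {Ω : Type} [MulAction 𝔾 Ω] {I : Ω → Subgroup 𝔾}
    (hI : ∀ (g : 𝔾) (w : Ω), ∀ x ∈ I w, g * x * g⁻¹ ∈ I (g • w))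
    {K D₀ D D' : Subgroup 𝔾} (hKn : K.Normal) (hD₀n : D₀.Normal) (hDn : D.Normal)
    (hD'n : D'.Normal) (hDD₀ : D ≤ D₀) (hDD : D' ≤ D) (hK0 : K.index ≠ 0)
    (hKp : ¬ p ∣ K.index) {m₀ m m' : ℕ} (hD₀i : D₀.index = p ^ m₀) (hDi : D.index = p ^ m)
    (hD'i : D'.index = p ^ m')
    {γ : 𝔾} {w₀ : Ω} (hγK : γ ∈ K) (hγI : γ ∈ I w₀) (hγ : ∀ g : 𝔾, ∃ i : ℤ, g * (γ ^ i)⁻¹ ∈ D')
    (htot : ∀ A, I A ≤ D' ∨ ∃ a ∈ K ⊓ D', a * γ ∈ I A)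
    {C C₀ s : ℕ} (hC : RankLe p I (K ⊓ D) C) (hC₀ : ¬ RankLe p I (K ⊓ D₀) C₀)
    (hgap : C < p ^ ((s + 1) * (p ^ m - p ^ m₀)) * (C₀ + 1)) :
    RankLe p I (K ⊓ D') (C * p ^ (s * (p ^ m' - p ^ m))) := by
  intro Y hYH hYo hYf hg
  obtain ⟨u₀, u₁, u₂, t, htanti, h1, h2, h3, h5, h7⟩ := core6
    hI hKn hD₀n hDn hD'n hDD₀ hDD hK0 hKp hD₀i hDi hD'i hγK hγI hγ htot hC hC₀ hYH hYo hYf hg
  have hle : p ^ m₀ ≤ p ^ m := by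
    rw [← hD₀i, ← hDi]
    refine Nat.le_of_dvd (Nat.pos_of_ne_zero ?_) (index_dvd_of_le hDD₀)
    rw [hDi]
    exact (pow_pos hp.out.pos m).ne'
  have hq₀ : 0 < p ^ m₀ := pow_pos hp.out.pos m₀
  set a := p ^ m - p ^ m₀ with ha
  set b := p ^ m' - p ^ m with hb
  set S₁ := ∑ j ∈ Finset.range a, t (p ^ m₀ - 1 + j) with hS₁
  set S₂ := ∑ j ∈ Finset.range b, t (p ^ m - 1 + j) with hS₂
  have hS1 : S₁ < (s + 1) * a := by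
    by_contra hcon
    refine absurd hgap (not_lt.2 ?_)
    calc p ^ ((s + 1) * a) * (C₀ + 1) ≤ p ^ S₁ * u₀ :=
          Nat.mul_le_mul (Nat.pow_le_pow_right hp.out.pos (not_lt.1 hcon)) h5
      _ = u₁ := by rw [h1]; ring
      _ ≤ C := h3
  have ht1 : t (p ^ m - 1) < s + 1 := by
    by_contra hcon
    have k2 : a * t (p ^ m - 1) ≤ S₁ := le_sum_of_anti htanti (by omega)
    have k3 : (s + 1) * a ≤ a * t (p ^ m - 1) := by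
      rw [mul_comm]
      exact Nat.mul_le_mul_left _ (not_lt.1 hcon)
    omega
  have hS2 : S₂ ≤ b * s := sum_le_of_anti htanti (Nat.lt_succ_iff.1 ht1)
  calc Y.relIndex (K ⊓ D') ≤ u₂ := h7
    _ = u₁ * p ^ S₂ := h2
    _ ≤ C * p ^ (s * b) := by
        refine Nat.mul_le_mul h3 (Nat.pow_le_pow_right hp.out.pos ?_)
        rwa [mul_comm s b]

end Pool.Agent.V5helper60.GM
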