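import Pool.Agent.V5helper60.GM.Asm3

/-!
# Stabilization of the ranks: definitions
-/

set_option autoImplicit false

namespace Pool.Agent.V5helper60.GM

open IntermediateField Module Pool.Agent.Q60.MU Pool.Agent.W5h77.MB

/-- The primes of `K` above `p` are totally ramified in the cyclotomic `ℤ_p`-extension of `K`: the
inertia group of a prime of the algebraic numbers in the absolute Galois group of `K` maps onto
`Gal(K R/K)` for all layers `R`. -/
def TotRam (p : ℕ) (ι : Qb →+* ℂ) (K : IntermediateField ℚ Qb) : Prop :=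
  ∀ A : ValuationSubring Qb, (p : Qb) ∈ A.nonunits → ∀ (m : ℕ) (R : IntermediateField ℚ Qb),
    RealLayer p ι m R → ∀ g ∈ K.fixingSubgroup,
      ∃ σ ∈ inertia A, σ ∈ K.fixingSubgroup ∧ σ⁻¹ * g ∈ R.fixingSubgroup

/-- `d(E) = c`: `c` is the largest degree over `E` of an unramified elementary abelian `p`-extension. -/
def DegIs (p : ℕ) (E : IntermediateField ℚ Qb) (c : ℕ) : Prop :=
  DegLe p E c ∧ ∀ c' < c, ¬ DegLe p E c'

/-- `[B R : B] = q`. -/
def DegreeOver (B R : IntermediateField ℚ Qb) (q : ℕ) : Prop :=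
  finrank ℚ (B ⊔ R : IntermediateField ℚ Qb) = q * finrank ℚ B

/-- `d(K R) / d(F R) < p ^ (r (q - q₀)) d(K R₀) / d(F R₀)`, `q = [B R : B]`, `q₀ = [B R₀ : B]`. -/
def SmallGrowth (p : ℕ) (B F K : IntermediateField ℚ Qb) (r : ℕ) (R₀ R : IntermediateField ℚ Qb) :
    Prop :=
  ∃ c₀ e₀ c e q₀ q : ℕ, DegIs p (K ⊔ R₀) c₀ ∧ DegIs p (F ⊔ R₀) e₀ ∧ DegIs p (K ⊔ R) c ∧
    DegIs p (F ⊔ R) e ∧ DegreeOver B R₀ q₀ ∧ DegreeOver B R q ∧
    c * e₀ < p ^ (r * (q - q₀)) * (c₀ * e)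

/-- `K / B` is a Galois extension. -/
def GaloisOver (B K : IntermediateField ℚ Qb) : Prop :=
  B ≤ K ∧ ∀ σ ∈ B.fixingSubgroup, ∀ x ∈ K, σ x ∈ K

/-- `p` does not divide `[K : B]`. -/
def CoprimeDegree (p : ℕ) (B K : IntermediateField ℚ Qb) : Prop :=
  ∃ n, finrank ℚ K = n * finrank ℚ B ∧ ¬ p ∣ n

/-- Every homomorphism of `G` to `GL_n (F_p)`, `n < r`, which is trivial on `N` is trivial on `M`. -/
def RepsTrivial (p r : ℕ) (G : Type) [Group G] (N M : Subgroup G) : Prop :=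
  ∀ n < r, ∀ f : G →* Matrix.GeneralLinearGroup (Fin n) (ZMod p), N ≤ f.ker → M ≤ f.ker

end Pool.Agent.V5helper60.GM
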