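import Pool.Agent.V5helper60.GM.Def8

/-!
# Concavity of the absolute ranks: definitions
-/

set_option autoImplicit false

namespace Pool.Agent.V5helper60.GM

open IntermediateField Module Pool.Agent.Q60.MU Pool.Agent.W5h77.MB

/-- `[K R : K] = q` and `d(K R) = c`. -/
def Value (p : ℕ) (K R : IntermediateField ℚ Qb) (q c : ℕ) : Prop :=
  DegreeOver K R q ∧ DegIs p (K ⊔ R) c

/-- `d(K R) < p ^ (g (q - q₀)) d(K R₀)`, `q = [K R : K]`, `q₀ = [K R₀ : K]`. -/
def RankGrowthLt (p : ℕ) (K : IntermediateField ℚ Qb) (g : ℕ) (R₀ R : IntermediateField ℚ Qb) :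
    Prop :=
  ∃ q₀ c₀ q c : ℕ, Value p K R₀ q₀ c₀ ∧ Value p K R q c ∧ c < p ^ (g * (q - q₀)) * c₀

end Pool.Agent.V5helper60.GM
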