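import Pool.Agent.V5helper60.GM.Stm3
import Pool.Agent.W5h33.DF.Main

/-!
# The bound by the real subfield
-/

set_option autoImplicit false

namespace Pool.Agent.V5helper60.GM

open Subgroup Pool.Agent.Q60.MU Pool.Agent.W5h77.MB Pool.Agent.W5h33.DF
open Pool.Agent.X310.Mu (nm nm_eq nm_of_fix nm_fix eq_one_of_cop comms)
open scoped commutatorElement

variable {𝔾 : Type} [Group 𝔾]

theorem real_bound [TopologicalSpace 𝔾] [ContinuousMul 𝔾] {p : ℕ} [hp : Fact p.Prime] (hp2 : p ≠ 2)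
    (hPM : S_PM) {Ω : Type} [MulAction 𝔾 Ω] {I : Ω → Subgroup 𝔾}
    (hI : ∀ (g : 𝔾) (w : Ω), ∀ x ∈ I w, g * x * g⁻¹ ∈ I (g • w))
    {K F D : Subgroup 𝔾} (hKn : K.Normal) (hFn : F.Normal) (hDn : D.Normal) (hKF : K ≤ F)
    (hK0 : K.index ≠ 0) (hKp : ¬ p ∣ K.index) (hD0 : D.index ≠ 0) (hDc : ∀ a b : 𝔾, ⁅a, b⁆ ∈ D)
    {k : Subgroup 𝔾} (hkn : k.Normal) (hkc : ∀ a ∈ k, ∀ b ∈ k, ⁅a, b⁆ ∈ K)
    {c : 𝔾} (hcc : c * c = 1) (hcD : c ∈ D) (hk2 : ∀ g, g ∈ k ∨ g * c⁻¹ ∈ k)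
    (hFc : F ≤ K ⊔ comms c) {C T : ℕ}
    (hC : RankLe p I ((K ⊔ zpowers c) ⊓ D) C) (hT : RankLe p I (F ⊓ D) T) :
    RankLe p I (K ⊓ D) (C ^ 2 * T) := by
  classical
  intro Y hYH hYo hYf hg
  set 𝒦 : Subgroup 𝔾 := K ⊓ D with h𝒦def
  have h𝒦n : 𝒦.Normal := normal_inf_normal K D
  have h𝒦0 : 𝒦.index ≠ 0 := index_inf_ne_zero hK0 hD0
  obtain ⟨Q, hQY, hQo, hQf, hgQ, hQn⟩ := exists_core hI (K := 𝒦) (D := ⊤)
    (fun d _ x hx => h𝒦n.conj_mem x hx d) (by rwa [relIndex_top_right]) hYH hYo hYf hg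
  have hQK := hQY.trans hYH
  have hQnorm : Q.Normal := ⟨fun x hx g => hQn g trivial x hx⟩
  refine (relIndex_le_of_le_left hQY hQf).trans ?_
  rw [← card_VV 𝒦 Q]
  have hfin : Finite (VV 𝒦 Q) := by
    apply Nat.finite_of_card_ne_zero
    rw [card_VV]
    exact hQf
  have hcomm : ∀ u v : VV 𝒦 Q, u * v = v * u := by
    intro u v
    obtain ⟨x, rfl⟩ := th_surj 𝒦 Q u
    obtain ⟨y, rfl⟩ := th_surj 𝒦 Q v
    have h3 : th 𝒦 Q ⁅x, y⁆ = 1 := by
      rw [th_eq_one]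
      exact hgQ (Or.inl (Or.inr ⟨x, x.2, y, y.2, rfl⟩))
    rw [map_commutatorElement, commutatorElement_eq_one_iff_mul_comm] at h3
    exact h3
  have hpow : ∀ v : VV 𝒦 Q, v ^ p = 1 := by
    intro v
    obtain ⟨x, rfl⟩ := th_surj 𝒦 Q v
    rw [← map_pow, th_eq_one]
    exact hgQ (Or.inl (Or.inl ⟨x, x.2, rfl⟩))
  let _ : CommGroup (VV 𝒦 Q) := { (inferInstance : Group (VV 𝒦 Q)) with mul_comm := hcomm }
  have htriv : ∀ x ∈ 𝒦, act 𝒦 Q x = 1 := by
    intro x hx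
    ext1 v
    obtain ⟨y, rfl⟩ := th_surj 𝒦 Q v
    rw [act_th, MulAut.one_apply]
    have h3 : (⟨x * y * x⁻¹, h𝒦n.conj_mem y y.2 x⟩ : 𝒦) = ⟨x, hx⟩ * y * ⟨x, hx⟩⁻¹ := rfl
    rw [h3, map_mul, map_mul, map_inv, hcomm (th 𝒦 Q ⟨x, hx⟩), mul_assoc, mul_inv_cancel, mul_one]
  have hpL : ∀ L : Subgroup 𝔾, L ≤ D → ¬ p ∣ 𝒦.relIndex L := by
    intro L hL h
    rw [h𝒦def, rel_inf hL] at h
    exact hKp (h.trans (relIndex_dvd_index_of_normal K L))
  have hcardL : ∀ L : Subgroup 𝔾, Nat.card (L.map (act 𝒦 Q)) ∣ 𝒦.relIndex L := by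
    intro L
    have h3 : L.map (act 𝒦 Q) = ((act 𝒦 Q).comp L.subtype).range := by
      ext δ
      constructor
      · rintro ⟨l, hl, rfl⟩
        exact ⟨⟨l, hl⟩, rfl⟩
      · rintro ⟨l, rfl⟩
        exact ⟨l, l.2, rfl⟩
    rw [h3, ← index_ker]
    show _ ∣ (𝒦.subgroupOf L).index
    apply index_dvd_of_le
    intro x hx
    exact htriv _ hx
  have hpD : ∀ L : Subgroup 𝔾, L ≤ D → ¬ p ∣ Nat.card (L.map (act 𝒦 Q)) := fun L hL h =>
    hpL L hL (h.trans (hcardL L))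
  have hbd : ∀ L : Subgroup 𝔾, 𝒦 ≤ L → L ≤ D → ∀ c, RankLe p I L c →
      ∀ P : Subgroup (VV 𝒦 Q), (∀ v ∈ P, ∀ δ ∈ L.map (act 𝒦 Q), δ v = v) → Nat.card P ≤ c := by
    intro L hL1 hL2 c hc P hP
    refine (card_fix_le hp.out hpow (L.map (act 𝒦 Q)) (hpD L hL2) P hP).trans ?_
    refine step 𝒦 Q (S := (nu (L.map (act 𝒦 Q))).ker) hL1 (hpL L hL2) hQK hQo hQf hgQ ?_ hc
    intro l hl v
    rw [MonoidHom.mem_ker, map_mul, map_inv, nu_act (L.map (act 𝒦 Q)) ⟨l, hl, rfl⟩,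
      mul_inv_cancel]
  have hact1 : ∀ g : 𝔾, ∀ v, act 𝒦 Q g⁻¹ (act 𝒦 Q g v) = v := by
    intro g v
    rw [← MulAut.mul_apply, ← map_mul, inv_mul_cancel, map_one, MulAut.one_apply]
  -- the part on which the commutators act nontrivially
  set X : Subgroup (VV 𝒦 Q) := closure {w | ∃ l ∈ F ⊓ D, ∃ v, w = act 𝒦 Q l v * v⁻¹} with hX
  have hXstab : ∀ g : 𝔾, ∀ v ∈ X, act 𝒦 Q g v ∈ X := by
    intro g
    have h1 : X ≤ X.comap (act 𝒦 Q g).toMonoidHom := by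
      rw [hX, closure_le]
      rintro _ ⟨l, ⟨hlF, hlD⟩, v, rfl⟩
      show act 𝒦 Q g (act 𝒦 Q l v * v⁻¹) ∈ X
      apply Subgroup.subset_closure
      refine ⟨g * l * g⁻¹, ⟨hFn.conj_mem l hlF g, hDn.conj_mem l hlD g⟩, act 𝒦 Q g v, ?_⟩
      rw [map_mul, map_inv, map_mul, map_mul, MulAut.mul_apply, MulAut.mul_apply, hact1]
    exact fun v hv => h1 hv
  have hXi : X.index ≤ T := by
    refine step 𝒦 Q (S := X) (inf_le_inf_right _ hKF) (hpL _ inf_le_right) hQK hQo hQf hgQ ?_ hT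
    intro l hl v
    exact Subgroup.subset_closure ⟨l, hl, v, rfl⟩
  have hXnu : X ≤ (nu ((F ⊓ D).map (act 𝒦 Q))).ker := by
    rw [hX, closure_le]
    rintro _ ⟨l, hl, v, rfl⟩
    show _ ∈ (nu ((F ⊓ D).map (act 𝒦 Q))).ker
    rw [MonoidHom.mem_ker, map_mul, map_inv, nu_act ((F ⊓ D).map (act 𝒦 Q)) ⟨l, hl, rfl⟩,
      mul_inv_cancel]
  -- the fixed elements of `X`
  let P : Subgroup (VV 𝒦 Q) :=
    { carrier := {v | v ∈ X ∧ act 𝒦 Q c v = v}
      mul_mem' := by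
        rintro a b ⟨ha, ha'⟩ ⟨hb, hb'⟩
        exact ⟨X.mul_mem ha hb, by rw [map_mul, ha', hb']⟩
      one_mem' := ⟨X.one_mem, map_one _⟩
      inv_mem' := by
        rintro a ⟨ha, ha'⟩
        exact ⟨X.inv_mem ha, by rw [map_inv, ha']⟩ }
  have hcardP : Nat.card P ≤ C := by
    refine hbd ((K ⊔ zpowers c) ⊓ D) (inf_le_inf_right _ le_sup_left) inf_le_right C hC P ?_
    rintro v ⟨-, hv⟩ _ ⟨l, ⟨hl, hlD⟩, rfl⟩
    have hl' : l ∈ ((K ⊔ zpowers c : Subgroup 𝔾) : Set 𝔾) := hl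
    rw [Subgroup.normal_mul] at hl'
    obtain ⟨a, ha, z, hz, rfl⟩ := hl'
    have hzD : z ∈ D := by
      obtain ⟨i, rfl⟩ := mem_zpowers_iff.1 hz
      exact D.zpow_mem hcD i
    have haD : a ∈ D := by
      have h1 := D.mul_mem hlD (D.inv_mem hzD)
      rwa [mul_inv_cancel_right] at h1
    have hzv : act 𝒦 Q z v = v := by
      let St : Subgroup 𝔾 :=
        { carrier := {g | act 𝒦 Q g v = v}
          mul_mem' := by
            intro a b ha hb
            show act 𝒦 Q (a * b) v = v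
            rw [map_mul, MulAut.mul_apply, show act 𝒦 Q b v = v from hb,
              show act 𝒦 Q a v = v from ha]
          one_mem' := by
            show act 𝒦 Q 1 v = v
            rw [map_one, MulAut.one_apply]
          inv_mem' := by
            intro a ha
            have h1 := hact1 a v
            rwa [show act 𝒦 Q a v = v from ha] at h1 }
      have h1 : zpowers c ≤ St := by
        rw [zpowers_le]
        exact hv
      exact h1 hz
    show act 𝒦 Q (a * z) v = v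
    rw [map_mul, MulAut.mul_apply, hzv, htriv a ⟨ha, haD⟩, MulAut.one_apply]
  have hXc : Nat.card X ≤ Nat.card P ^ 2 := by
    have hcomms : comms c ≤ D := by
      unfold comms
      rw [closure_le]
      rintro _ ⟨g, rfl⟩
      exact D.mul_mem (hDn.conj_mem c hcD g) (D.inv_mem hcD)
    refine hPM p hp2 (VV 𝒦 Q) hpow (k.map (act 𝒦 Q)) (act 𝒦 Q c) ?_ ?_ ?_ X ?_
      (hXstab c) ?_ P (fun v => Iff.rfl)
    · rw [← map_mul, hcc, map_one]
    · rintro _ ⟨x, hx, rfl⟩ _ ⟨y, hy, rfl⟩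
      have h1 : ⁅x, y⁆ ∈ 𝒦 := ⟨hkc x hx y hy, hDc x y⟩
      have h2 := htriv _ h1
      rw [map_commutatorElement, commutatorElement_eq_one_iff_mul_comm] at h2
      exact h2
    · rintro _ ⟨x, hx, rfl⟩
      rw [← map_mul, ← map_inv, ← map_mul]
      exact ⟨_, hkn.conj_mem x hx c, rfl⟩
    · rintro _ ⟨x, hx, rfl⟩
      exact hXstab x
    · intro v hv h
      let St : Subgroup 𝔾 :=
        { carrier := {g | act 𝒦 Q g v = v}
          mul_mem' := by
            intro a b ha hb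
            show act 𝒦 Q (a * b) v = v
            rw [map_mul, MulAut.mul_apply, show act 𝒦 Q b v = v from hb,
              show act 𝒦 Q a v = v from ha]
          one_mem' := by
            show act 𝒦 Q 1 v = v
            rw [map_one, MulAut.one_apply]
          inv_mem' := by
            intro a ha
            have h1 := hact1 a v
            rwa [show act 𝒦 Q a v = v from ha] at h1 }
      have hs : ∀ s ∈ k, s * c * s⁻¹ * c⁻¹ ∈ St := by
        intro s hs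
        have h1 := h _ ⟨s⁻¹, k.inv_mem hs, rfl⟩
        have h2 : act 𝒦 Q s (act 𝒦 Q s⁻¹ v) = v := by
          rw [← MulAut.mul_apply, ← map_mul, mul_inv_cancel, map_one, MulAut.one_apply]
        show act 𝒦 Q (s * c * s⁻¹ * c⁻¹) v = v
        have h3 : s * c * s⁻¹ * c⁻¹ = s * (c * s⁻¹ * c⁻¹) := by group
        rw [h3, map_mul, MulAut.mul_apply, map_mul, map_mul, map_inv (act 𝒦 Q) c, ← h1, h2]
      have hcs : comms c ≤ St := by
        unfold comms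
        rw [closure_le]
        rintro _ ⟨g, rfl⟩
        rcases hk2 g with hg | hg
        · exact hs g hg
        · have h1 := hs _ hg
          have h2 : g * c⁻¹ * c * (g * c⁻¹)⁻¹ * c⁻¹ = g * c * g⁻¹ * c⁻¹ := by group
          rw [h2] at h1
          exact h1
      have hFS : F ⊓ D ≤ St := by
        rintro l ⟨hl, hlD⟩
        have h1 := hFc hl
        rw [← SetLike.mem_coe, Subgroup.normal_mul] at h1
        obtain ⟨a, ha, z, hz, rfl⟩ := h1
        have haD : a ∈ D := by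
          have h1 := D.mul_mem hlD (D.inv_mem (hcomms hz))
          rwa [mul_inv_cancel_right] at h1
        refine St.mul_mem ?_ (hcs hz)
        show act 𝒦 Q a v = v
        rw [htriv a ⟨ha, haD⟩, MulAut.one_apply]
      have h4 : nu ((F ⊓ D).map (act 𝒦 Q)) v = 1 := hXnu hv
      have h5 : nu ((F ⊓ D).map (act 𝒦 Q)) v = v ^ Nat.card ((F ⊓ D).map (act 𝒦 Q)) := by
        refine nm_of_fix _ _ _ ?_
        rintro _ ⟨l, hl, rfl⟩
        exact hFS hl
      rw [h5] at h4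
      exact eq_one_of_cop hp.out (hpD _ inf_le_right) (hpow v) h4
  rw [← X.card_mul_index]
  exact Nat.mul_le_mul (hXc.trans (Nat.pow_le_pow_left hcardP 2)) hXi

end Pool.Agent.V5helper60.GM
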