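import Pool.Agent.V5helper60.GM.Main2
import Pool.Agent.V5helper60.GM.Real
import Pool.Agent.W5h33.DF.Field

/-!
# Translation to number fields
-/

set_option autoImplicit false

namespace Pool.Agent.V5helper60.GM

open IntermediateField Module Pool.Agent.Q60.MU Pool.Agent.W5h77.MB Pool.Agent.W5h33.DF
open Pool.Agent.X310.Mu (comms)
open scoped Pointwise commutatorElement

/-- Every homomorphism of `G` to `GL_n (F_p)`, `n < r`, has a commutative image. -/
def AbelianImages (p r : ℕ) (G : Type) [Group G] : Prop :=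
  ∀ n < r, ∀ f : G →* Matrix.GeneralLinearGroup (Fin n) (ZMod p), ∀ a b, f a * f b = f b * f a

/-- Every homomorphism of `Gal(K/ℚ)` to `GL_n (F_p)`, `n < r`, has a commutative image. -/
def NoSmall (p : ℕ) (K : IntermediateField ℚ Qb) (r : ℕ) : Prop := AbelianImages p r Gal(K/ℚ)

theorem noSmall_quot {p : ℕ} {K : IntermediateField ℚ Qb} [hKg : IsGalois ℚ K]
    [hKn : K.fixingSubgroup.Normal] {r : ℕ} (h : NoSmall p K r) :
    ∀ n < r, ∀ f : Gal(Qb/ℚ) ⧸ K.fixingSubgroup →* Matrix.GeneralLinearGroup (Fin n) (ZMod p),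
      ∀ a b, f a * f b = f b * f a := by
  have hnorm : Normal ℚ K := hKg.to_normal
  intro n hn f a b
  have hker : (AlgEquiv.restrictNormalHom (F := ℚ) (K₁ := Qb) K).ker = K.fixingSubgroup :=
    @IntermediateField.restrictNormalHom_ker ℚ Qb _ _ _ K hnorm
  let e1 : Gal(Qb/ℚ) ⧸ K.fixingSubgroup ≃* Gal(Qb/ℚ) ⧸ (AlgEquiv.restrictNormalHom (F := ℚ) (K₁ := Qb) K).ker :=
    QuotientGroup.quotientMulEquivOfEq hker.symm
  let e2 := QuotientGroup.quotientKerEquivOfSurjective (AlgEquiv.restrictNormalHom (F := ℚ) (K₁ := Qb) K)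
    (AlgEquiv.restrictNormalHom_surjective Qb)
  let e := e1.trans e2
  have h1 := h n hn (f.comp e.symm.toMonoidHom) (e a) (e b)
  have h2 : ∀ x, (f.comp e.symm.toMonoidHom) (e x) = f x := by
    intro x
    show f (e.symm (e x)) = f x
    rw [e.symm_apply_apply]
  rwa [h2, h2] at h1

theorem noSmall_two (p : ℕ) (K : IntermediateField ℚ Qb) : NoSmall p K 2 := by
  intro n hn f a b
  have hs : Subsingleton (Fin n) ∨ n = 1 := by
    rcases Nat.lt_or_ge n 1 with h | h
    · left
      have h0 : n = 0 := by omega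
      subst h0
      infer_instance
    · right
      omega
  have hss : Subsingleton (Fin n) := by
    rcases hs with h | h
    · exact h
    · subst h
      infer_instance
  apply Units.ext
  show (f a : Matrix (Fin n) (Fin n) (ZMod p)) * (f b : Matrix (Fin n) (Fin n) (ZMod p)) =
    (f b : Matrix (Fin n) (Fin n) (ZMod p)) * (f a : Matrix (Fin n) (Fin n) (ZMod p))
  ext i j
  rw [Matrix.mul_apply, Matrix.mul_apply]
  refine Finset.sum_congr rfl fun l _ => ?_
  rw [Subsingleton.elim l i, Subsingleton.elim j i, mul_comm]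

theorem noSmall_of_prime {p : ℕ} [hp : Fact p.Prime] (hGLN : S_GLN) {K : IntermediateField ℚ Qb}
    [FiniteDimensional ℚ K] [hKg : IsGalois ℚ K] (hpK : ¬ p ∣ finrank ℚ K) {n r : ℕ}
    (hn : finrank ℚ K = n * finrank ℚ (abPart K))
    (h : ∀ l : ℕ, l.Prime → l ∣ n → ∀ j, 0 < j → j < r → ¬ l ∣ p ^ j - 1) : NoSmall p K r := by
  have hnorm : Normal ℚ K := hKg.to_normal
  have hKn : K.fixingSubgroup.Normal := (InfiniteGalois.normal_iff_isGalois K).2 hKg
  have hfA : FiniteDimensional ℚ (abPart K) := fd_of_le (abPart_le K)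
  have hker : (AlgEquiv.restrictNormalHom (F := ℚ) (K₁ := Qb) K).ker = K.fixingSubgroup :=
    @IntermediateField.restrictNormalHom_ker ℚ Qb _ _ _ K hnorm
  have hfin : Finite Gal(K/ℚ) := inferInstance
  have hcard : Nat.card (commutator Gal(K/ℚ)) = n := by
    have hmap : (abPart K).fixingSubgroup.map (AlgEquiv.restrictNormalHom (F := ℚ) (K₁ := Qb) K) =
        commutator Gal(K/ℚ) := by
      rw [fix_abPart, Subgroup.map_sup, commutator_def, commutator_def, Subgroup.map_commutator,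
        Subgroup.map_top_of_surjective _ (AlgEquiv.restrictNormalHom_surjective Qb)]
      rw [(Subgroup.map_eq_bot_iff _).2 hker.ge, bot_sup_eq]
    rw [← hmap, ← Subgroup.relIndex_ker, hker]
    have hKidx : finrank ℚ K = K.fixingSubgroup.index := finrank_eq_fixingSubgroup_index Qb K
    have hFidx : finrank ℚ (abPart K) = (abPart K).fixingSubgroup.index :=
      finrank_eq_fixingSubgroup_index Qb (abPart K)
    have h3 := Subgroup.relIndex_mul_index (fixingSubgroup_le (abPart_le K))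
    rw [← hKidx, ← hFidx, hn] at h3
    exact Nat.eq_of_mul_eq_mul_right finrank_pos h3
  refine hGLN p Gal(K/ℚ) r fun l hl hdvd => ?_
  rw [hcard] at hdvd
  refine ⟨?_, h l hl hdvd⟩
  rintro rfl
  exact hpK (hn ▸ hdvd.mul_right _)

section
variable {p : ℕ} [hp : Fact p.Prime]

theorem exists_w (hOP : S_OP) {m : ℕ} {R : IntermediateField ℚ Qb} (hR : IsLayer p m R) :
    ∃ w : ValuationSubring Qb, (∀ A : ValuationSubring Qb, inertia A ≤ R.fixingSubgroup ∨
      ∃ g : Gal(Qb/ℚ), A = g • w) ∧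
      ∀ g : Gal(Qb/ℚ), ∃ d ∈ R.fixingSubgroup, g • w = d • w := by
  by_cases hex : ∃ A : ValuationSubring Qb, (p : Qb) ∈ A.nonunits
  · obtain ⟨w, hw⟩ := hex
    refine ⟨w, fun A => ?_, fun g => ?_⟩
    · by_cases hA : (p : Qb) ∈ A.nonunits
      · right
        obtain ⟨g, -, hg⟩ := conj_of_one hp.out ⊥ (onePrime_bot hp.out) hA hw
        exact ⟨g, hg⟩
      · exact Or.inl (inertia_le_layer hp.out hR hA)
    · obtain ⟨N, hN⟩ := hR.2
      have hfin : Set.Finite {z : Qb | z ^ p ^ N = 1} := by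
        have h2 : (Polynomial.X ^ p ^ N - 1 : Polynomial Qb) ≠ 0 :=
          (Polynomial.monic_X_pow_sub_C 1 (pow_pos hp.out.pos N).ne').ne_zero
        refine (Polynomial.finite_setOfPred_isRoot h2).subset fun z hz => ?_
        have h3 : z ^ p ^ N = 1 := hz
        show (Polynomial.X ^ p ^ N - 1 : Polynomial Qb).IsRoot z
        simp [Polynomial.IsRoot.def, h3]
      have hfs : Finite {z : Qb | z ^ p ^ N = 1} := hfin.to_subtype
      have hfd : FiniteDimensional ℚ (adjoin ℚ {z : Qb | z ^ p ^ N = 1}) :=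
        IntermediateField.finiteDimensional_adjoin fun x _ => Algebra.IsIntegral.isIntegral x
      have hgw : (p : Qb) ∈ (g • w).nonunits := by
        rw [ValuationSubring.mem_nonunits_iff_or] at hw ⊢
        rcases hw with h | h
        · exact Or.inl h
        · right
          intro h7
          apply h
          have h8 : ((p : Qb))⁻¹ = g • ((p : Qb))⁻¹ := by
            show ((p : Qb))⁻¹ = g ((p : Qb))⁻¹
            rw [map_inv₀, map_natCast]
          rw [h8] at h7
          exact ValuationSubring.smul_mem_pointwise_smul_iff.1 h7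
      obtain ⟨d, hd, hdw⟩ := conj_of_one hp.out _ (hOP p hp.out N) hgw hw
      exact ⟨d, fixingSubgroup_le hN hd, hdw⟩
  · refine ⟨⊤, fun A => Or.inl (inertia_le_layer hp.out hR fun h => hex ⟨A, h⟩), fun g => ?_⟩
    refine ⟨1, one_mem _, ?_⟩
    rw [one_smul]
    ext x
    constructor
    · intro _
      trivial
    · intro _
      rw [ValuationSubring.mem_pointwise_smul_iff_inv_smul_mem]
      trivial

theorem comm_mem_fix {k K : IntermediateField ℚ Qb}
    (hab : ∀ σ ∈ k.fixingSubgroup, ∀ τ ∈ k.fixingSubgroup, ∀ x ∈ K, σ (τ x) = τ (σ x)) :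
    ∀ a ∈ k.fixingSubgroup, ∀ b ∈ k.fixingSubgroup, ⁅a, b⁆ ∈ K.fixingSubgroup := by
  intro a ha b hb
  have h1 : ∀ a ∈ k.fixingSubgroup, ∀ b ∈ k.fixingSubgroup, (b * a)⁻¹ * (a * b) ∈ K.fixingSubgroup := by
    intro a ha b hb
    rw [IntermediateField.mem_fixingSubgroup_iff]
    intro x hx
    show (b * a)⁻¹ (a (b x)) = x
    rw [hab a ha b hb x hx]
    show ((b * a)⁻¹ * (b * a)) x = x
    rw [inv_mul_cancel]
    rfl
  have h2 := h1 a⁻¹ (inv_mem ha) b⁻¹ (inv_mem hb)
  have h3 : ⁅a, b⁆ = (b⁻¹ * a⁻¹)⁻¹ * (a⁻¹ * b⁻¹) := by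
    rw [commutatorElement_def]
    group
  rw [h3]
  exact h2

theorem quad_group {k : IntermediateField ℚ Qb} (hk : finrank ℚ k = 2) :
    k.fixingSubgroup.Normal ∧ ∃ c, ∀ g, g ∈ k.fixingSubgroup ∨ g * c⁻¹ ∈ k.fixingSubgroup := by
  have hfd : FiniteDimensional ℚ k := FiniteDimensional.of_finrank_pos (by rw [hk]; norm_num)
  have h2 : k.fixingSubgroup.index = 2 := by
    rw [← finrank_eq_fixingSubgroup_index, hk]
  refine ⟨Subgroup.normal_of_index_eq_two h2, ?_⟩
  have h3 : k.fixingSubgroup ≠ ⊤ := by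
    intro h
    rw [h, Subgroup.index_top] at h2
    exact absurd h2 (by norm_num)
  obtain ⟨c, hc⟩ : ∃ c, c ∉ k.fixingSubgroup := by
    by_contra h
    exact h3 ((Subgroup.eq_top_iff' _).2 fun x => by
      by_contra hx
      exact h ⟨x, hx⟩)
  refine ⟨c, fun g => ?_⟩
  by_cases hg : g ∈ k.fixingSubgroup
  · exact Or.inl hg
  · right
    rw [Subgroup.mul_mem_iff_of_index_two h2]
    exact ⟨fun h => absurd h hg, fun h => absurd (inv_mem_iff.1 h) hc⟩

variable {k K : IntermediateField ℚ Qb} [FiniteDimensional ℚ K] [hKg : IsGalois ℚ K]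

/-- The gap theorem. -/
theorem gap (hALG : S_ALG) (hTR : S_TR) (hOP : S_OP) (hp2 : p ≠ 2) (hk : finrank ℚ k = 2)
    (hab : ∀ σ ∈ k.fixingSubgroup, ∀ τ ∈ k.fixingSubgroup, ∀ x ∈ K, σ (τ x) = τ (σ x))
    (hpK : ¬ p ∣ finrank ℚ K) {r : ℕ} (hr : NoSmall p K r) {m m' : ℕ}
    {R R' : IntermediateField ℚ Qb} (hR : IsLayer p m R) (hR' : IsLayer p m' R') (hRR : R ≤ R')
    {C E T : ℕ} (hC : DegLe p (K ⊔ R) C) (hE : ¬ DegLe p (abPart K ⊔ R) E)
    (hCE : C < p ^ (r * (p ^ m - 2)) * (E + 1)) (hT : DegLe p (abPart K ⊔ R') T) :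
    DegLe p (K ⊔ R') (C * p ^ finrank ℚ K / (E + 1) * T) := by
  have hfR := layer_fd hp.out hR
  have hfR' := layer_fd hp.out hR'
  have hfA : FiniteDimensional ℚ (abPart K) := fd_of_le (abPart_le K)
  have hKn : K.fixingSubgroup.Normal := (InfiniteGalois.normal_iff_isGalois K).2 hKg
  have hfab := fix_abPart K
  have hcA : commutator Gal(Qb/ℚ) ≤ (abPart K).fixingSubgroup := by
    rw [hfab]
    exact le_sup_right
  have hFn : (abPart K).fixingSubgroup.Normal := normal_of_comm hcA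
  have hKF : K.fixingSubgroup ≤ (abPart K).fixingSubgroup := fixingSubgroup_le (abPart_le K)
  have hRn := layer_normal hp.out hR
  have hR'n := layer_normal hp.out hR'
  have hidx : ∀ (m : ℕ) (R : IntermediateField ℚ Qb), IsLayer p m R →
      R.fixingSubgroup.index = p ^ m := fun m R hR => by
    rw [← hR.1, finrank_eq_fixingSubgroup_index Qb R]
  have hKidx : finrank ℚ K = K.fixingSubgroup.index := finrank_eq_fixingSubgroup_index Qb K
  obtain ⟨w, hcov, hns⟩ := exists_w hOP hR'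
  obtain ⟨hkn, hk2⟩ := quad_group hk
  rw [← rankLe_iff, fixingSubgroup_sup] at hC hT ⊢
  rw [← rankLe_iff, fixingSubgroup_sup] at hE
  rw [hKidx] at hpK ⊢
  exact main2 hALG hTR inertia_conj hKn hFn hRn hR'n hKF (fixingSubgroup_le hRR)
    (index_ne_zero' K) hpK (hidx m R hR) (hidx m' R' hR') (layer_cyclic hp.out hp2 hR') w hcov
    hns hkn (comm_mem_fix hab) hk2 hfab.le (noSmall_quot hr) hC hE hCE hT

/-- The bound by the real subfield. -/
theorem real_field (hPM : S_PM) (hp2 : p ≠ 2) (ι : Qb →+* ℂ) (hk : finrank ℚ k = 2)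
    (hki : ¬ k ≤ realSub ι)
    (hab : ∀ σ ∈ k.fixingSubgroup, ∀ τ ∈ k.fixingSubgroup, ∀ x ∈ K, σ (τ x) = τ (σ x))
    (hpK : ¬ p ∣ finrank ℚ K) {m : ℕ} {R : IntermediateField ℚ Qb} (hR : IsLayer p m R)
    {C T : ℕ} (hC : DegLe p ((K ⊓ realSub ι) ⊔ R) C) (hT : DegLe p (abPart K ⊔ R) T) :
    DegLe p (K ⊔ R) (C ^ 2 * T) := by
  obtain ⟨c, hc, hcc⟩ := exists_conj ι
  have hfR := layer_fd hp.out hR
  have hfA : FiniteDimensional ℚ (abPart K) := fd_of_le (abPart_le K)
  have hfr : FiniteDimensional ℚ (K ⊓ realSub ι : IntermediateField ℚ Qb) := fd_of_le inf_le_left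
  have hKn : K.fixingSubgroup.Normal := (InfiniteGalois.normal_iff_isGalois K).2 hKg
  have hcA : commutator Gal(Qb/ℚ) ≤ (abPart K).fixingSubgroup := by
    rw [fix_abPart]
    exact le_sup_right
  have hFn : (abPart K).fixingSubgroup.Normal := normal_of_comm hcA
  have hKF : K.fixingSubgroup ≤ (abPart K).fixingSubgroup := fixingSubgroup_le (abPart_le K)
  have hRn := layer_normal hp.out hR
  have hKidx : finrank ℚ K = K.fixingSubgroup.index := finrank_eq_fixingSubgroup_index Qb K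
  have hkc : c ∉ k.fixingSubgroup := by
    intro h
    apply hki
    intro x hx
    rw [mem_realSub, ← hc]
    congr 1
    exact (mem_fixingSubgroup_iff k _).1 h x hx
  have hcR : c ∈ R.fixingSubgroup := by
    rw [IntermediateField.mem_fixingSubgroup_iff]
    intro x hx
    apply ι.injective
    rw [hc]
    exact mem_realSub.1 (layer_real hp.out hp2 hR ι hx)
  obtain ⟨hkn, -⟩ := quad_group hk
  rw [← rankLe_iff, fixingSubgroup_sup] at hC hT ⊢
  rw [fix_real hc] at hC
  rw [hKidx] at hpK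
  refine real_bound hp2 hPM inertia_conj hKn hFn hRn hKF (index_ne_zero' K) hpK (index_ne_zero' R)
    (comm_mem_of (layer_cyclic hp.out hp2 hR)) hkn (comm_mem_fix hab) hcc hcR ?_
    (fix_ab hk hkc hab).le hC hT
  intro g
  rcases quad_cases hk hkc g with h | ⟨s, hs, rfl⟩
  · exact Or.inl h
  · right
    rwa [mul_inv_cancel_right]

end

end Pool.Agent.V5helper60.GM
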