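import Pool.Agent.V5helper60.GM.Stm5
import Pool.Agent.V5helper17.GM.TR

/-!
# The elements in the kernel of all representations of small dimension
-/

set_option autoImplicit false

namespace Pool.Agent.V5helper60.GM

open Pool.Agent.W5h33.DF Pool.Agent.V5helper17.GM

theorem t_TR3 : S_TR3 := by
  classical
  intro p hpf G _ V _ _ hV ρ B' B hBB hB' hB n hidx K _ hK FF hf
  have hp : p.Prime := hpf.out
  have hcard : Nat.card (Additive (B ⧸ B'.subgroupOf B)) = p ^ n := hidx
  -- the action on the quotient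
  let r : G → (B →* B) := fun g =>
    { toFun := fun v => ⟨ρ g v.1, hB g v.1 v.2⟩
      map_one' := by ext; simp
      map_mul' := by intro a b; ext; simp }
  have hr : ∀ g, B'.subgroupOf B ≤ (B'.subgroupOf B).comap (r g) := by
    intro g v hv
    exact hB' g _ hv
  let s : G → (B ⧸ B'.subgroupOf B →* B ⧸ B'.subgroupOf B) :=
    fun g => QuotientGroup.map _ _ (r g) (hr g)
  have hs1 : s 1 = MonoidHom.id _ := by
    ext v
    show (QuotientGroup.mk (r 1 v) : B ⧸ B'.subgroupOf B) = QuotientGroup.mk v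
    congr 1
    ext
    show ρ 1 v.1 = v.1
    simp
  have hsm : ∀ a b, s (a * b) = (s a).comp (s b) := by
    intro a b
    ext v
    show (QuotientGroup.mk (r (a * b) v) : B ⧸ B'.subgroupOf B) = QuotientGroup.mk (r a (r b v))
    congr 1
    ext
    show ρ (a * b) v.1 = ρ a (ρ b v.1)
    simp
  have hpQ : ∀ x : Additive (B ⧸ B'.subgroupOf B), p • x = 0 := by
    intro x
    obtain ⟨v, hv⟩ := QuotientGroup.mk_surjective (s := B'.subgroupOf B) x.toMul
    have h1 : (x.toMul) ^ p = 1 := by
      rw [← hv]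
      have h2 : v ^ p = 1 := by
        ext
        exact hV v.1
      rw [← QuotientGroup.mk_pow, h2, QuotientGroup.mk_one]
    exact h1
  have hfinQ : Finite (Additive (B ⧸ B'.subgroupOf B)) :=
    inferInstanceAs (Finite (B ⧸ B'.subgroupOf B))
  let A : G →* AddMonoid.End (Additive (B ⧸ B'.subgroupOf B)) :=
    { toFun := fun g => MonoidHom.toAdditive (s g)
      map_one' := by
        rw [hs1]
        rfl
      map_mul' := by
        intro a c
        rw [hsm]
        rfl }
  obtain ⟨F, hF⟩ := exists_matrix p (Additive (B ⧸ B'.subgroupOf B)) hpQ n hcard G A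
  have hA : ∀ g, A g = 1 ↔ s g = MonoidHom.id _ := by
    intro g
    constructor
    · intro h
      ext v
      exact DFunLike.congr_fun h (Additive.ofMul (QuotientGroup.mk v : B ⧸ B'.subgroupOf B))
    · intro h
      have h2 : A g = (MonoidHom.toAdditive (s g) : AddMonoid.End (Additive (B ⧸ B'.subgroupOf B))) := rfl
      rw [h2, h]
      rfl
  have hsid : ∀ g, s g = MonoidHom.id _ ↔ ∀ v ∈ B, ρ g v * v⁻¹ ∈ B' := by
    intro g
    constructor
    · intro h v hv
      have h1 := DFunLike.congr_fun h (QuotientGroup.mk ⟨v, hv⟩ : B ⧸ B'.subgroupOf B)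
      have h2 : (QuotientGroup.mk (r g ⟨v, hv⟩) : B ⧸ B'.subgroupOf B) = QuotientGroup.mk ⟨v, hv⟩ := h1
      rw [QuotientGroup.eq] at h2
      have h3 : (ρ g v)⁻¹ * v ∈ B' := h2
      have h4 := B'.inv_mem h3
      rw [mul_inv_rev, inv_inv, mul_comm] at h4
      exact h4
    · intro h
      ext v
      show (QuotientGroup.mk (r g v) : B ⧸ B'.subgroupOf B) = QuotientGroup.mk v
      rw [QuotientGroup.eq]
      show (ρ g v.1)⁻¹ * v.1 ∈ B'
      have h4 := B'.inv_mem (h v.1 v.2)
      rw [mul_inv_rev, inv_inv, mul_comm] at h4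
      exact h4
  have hKF : ∀ k ∈ K, F k = 1 := fun k hk => (hF k).2 ((hA k).2 ((hsid k).2 (hK k hk)))
  let F' : G ⧸ K →* Matrix.GeneralLinearGroup (Fin n) (ZMod p) := QuotientGroup.lift K F hKF
  intro a ha
  rw [mem_actSub]
  apply (hsid _).1
  apply (hA _).1
  apply (hF _).1
  exact hf F' a ha

end Pool.Agent.V5helper60.GM
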