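import Pool.Agent.V5helper60.GM.Main3
import Pool.Agent.V5helper60.GM.TR3
import Pool.Agent.V5helper60.GM.Fld
import Pool.Agent.V5helper81.GM.OP
import Pool.Agent.V5helper18.GM.CYC2

/-!
# Translation to abelian extensions of an imaginary quadratic field
-/

set_option autoImplicit false

namespace Pool.Agent.V5helper60.GM

open IntermediateField Module Pool.Agent.Q60.MU Pool.Agent.W5h77.MB Pool.Agent.W5h33.DF
open scoped Pointwise commutatorElement

section sub
variable {𝔾 : Type} [Group 𝔾] [TopologicalSpace 𝔾] {p : ℕ} {Ω : Type} (I : Ω → Subgroup 𝔾)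
  (H : Subgroup 𝔾)

/-- Restriction to an open subgroup. -/
theorem rankLe_sub (hHo : IsOpen (H : Set 𝔾)) {L : Subgroup 𝔾} (hL : L ≤ H) (C : ℕ) :
    RankLe p (fun w => (I w).subgroupOf H) (L.subgroupOf H) C ↔ RankLe p I L C := by
  constructor
  · intro h W hWL hWo hWf hg
    have h1 := Subgroup.relIndex_subgroupOf (H := W) hL
    rw [← h1]
    refine h (W.subgroupOf H) (fun x hx => hWL hx) ?_ (by rwa [h1]) ?_
    · exact hWo.preimage continuous_subtype_val
    · rintro x ((⟨a, ha, rfl⟩ | ⟨a, ha, b, hb, rfl⟩) | ⟨hx, w, hw⟩)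
      · exact hg (Or.inl (Or.inl ⟨a, ha, rfl⟩))
      · exact hg (Or.inl (Or.inr ⟨a, ha, b, hb, rfl⟩))
      · exact hg (Or.inr ⟨hx, w, hw⟩)
  · intro h W hWL hWo hWf hg
    have h0 : (W.map H.subtype).subgroupOf H = W :=
      Subgroup.comap_map_eq_self_of_injective H.subtype_injective W
    have h1 := Subgroup.relIndex_subgroupOf (H := W.map H.subtype) hL
    rw [h0] at h1
    rw [h1]
    refine h (W.map H.subtype) ?_ ?_ (by rwa [← h1]) ?_
    · rintro _ ⟨x, hx, rfl⟩
      exact hWL hx
    · exact hHo.isOpenMap_subtype_val _ hWo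
    · rintro x ((⟨a, ha, rfl⟩ | ⟨a, ha, b, hb, rfl⟩) | ⟨hx, w, hw⟩)
      · exact ⟨⟨a, hL ha⟩ ^ p, hg (Or.inl (Or.inl ⟨⟨a, hL ha⟩, ha, rfl⟩)), rfl⟩
      · exact ⟨⁅(⟨a, hL ha⟩ : H), (⟨b, hL hb⟩ : H)⁆, hg (Or.inl (Or.inr ⟨⟨a, hL ha⟩, ha, ⟨b, hL hb⟩, hb, rfl⟩)),
          rfl⟩
      · exact ⟨⟨x, hL hx⟩, hg (Or.inr ⟨hx, w, hw⟩), rfl⟩

end sub

/-- Every homomorphism of `G` to `GL_n (F_p)`, `n < r`, which is trivial on `N` is trivial on `M`. -/
def KillsSmall (p r : ℕ) (G : Type) [Group G] (N M : Subgroup G) : Prop :=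
  ∀ n < r, ∀ f : G →* Matrix.GeneralLinearGroup (Fin n) (ZMod p), N ≤ f.ker → M ≤ f.ker

theorem killsSmall_quot {p r : ℕ} {G : Type} [Group G] {N M : Subgroup G} [N.Normal]
    (h : KillsSmall p r G N M) : ∀ n < r, ∀ f : G ⧸ N →* Matrix.GeneralLinearGroup (Fin n) (ZMod p),
      ∀ a ∈ M, f (a : G ⧸ N) = 1 := by
  intro n hn f a ha
  refine h n hn (f.comp (QuotientGroup.mk' N)) ?_ ha
  intro x hx
  rw [MonoidHom.mem_ker, MonoidHom.comp_apply, QuotientGroup.mk'_apply,
    (QuotientGroup.eq_one_iff x).2 hx, map_one]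

theorem killsSmall_of_prime {p r : ℕ} [hp : Fact p.Prime] {G : Type} [Group G] {N M : Subgroup G}
    [N.Normal]
    (h : ∀ l : ℕ, l.Prime → l ∣ N.relIndex M → l ≠ p ∧ ∀ j, 0 < j → j < r → ¬ l ∣ p ^ j - 1) :
    KillsSmall p r G N M := by
  classical
  intro n hn f hf a ha
  rw [MonoidHom.mem_ker, ← orderOf_eq_one_iff]
  by_contra hne1
  obtain ⟨l, hlp, hld⟩ := Nat.exists_prime_and_dvd hne1
  have h1 : l ∣ N.relIndex M := by
    refine hld.trans ?_
    apply orderOf_dvd_of_pow_eq_one
    rw [← map_pow, ← MonoidHom.mem_ker]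
    apply hf
    have hn : (N.subgroupOf M).Normal := Subgroup.normal_subgroupOf
    exact (N.subgroupOf M).pow_index_mem (⟨a, ha⟩ : M)
  obtain ⟨hlp', hj⟩ := h l hlp h1
  have h3 : l ∣ Nat.card (Matrix.GeneralLinearGroup (Fin n) (ZMod p)) :=
    hld.trans (orderOf_dvd_natCard _)
  rw [Matrix.card_GL_field] at h3
  rw [Prime.dvd_finsetProd_iff hlp.prime] at h3
  obtain ⟨i, -, hi⟩ := h3
  have hin : (i : ℕ) < n := i.2
  rw [ZMod.card] at hi
  have h4 : p ^ n - p ^ (i : ℕ) = p ^ (i : ℕ) * (p ^ (n - i) - 1) := by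
    rw [Nat.mul_sub, mul_one, ← pow_add, Nat.add_sub_cancel' hin.le]
  rw [h4, hlp.dvd_mul] at hi
  rcases hi with hi | hi
  · exact hlp' ((Nat.prime_dvd_prime_iff_eq hlp hp.out).1 (hlp.dvd_of_dvd_pow hi))
  · exact hj (n - i) (by omega) (by omega) hi

section
variable {p : ℕ} [hp : Fact p.Prime]

theorem real_cyclic (ι : Qb →+* ℂ) {m : ℕ} {R : IntermediateField ℚ Qb} (hR : IsLayer p m R)
    (hRr : R ≤ realSub ι) :
    ∃ σ : Gal(Qb/ℚ), ∀ τ, ∃ i : ℤ, τ * (σ ^ i)⁻¹ ∈ R.fixingSubgroup := by
  by_cases hp2 : p = 2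
  · subst hp2
    exact Pool.Agent.V5helper18.GM.t_CYC2 ι m R hR hRr
  · exact layer_cyclic hp.out hp2 hR

/-- All primes above `p` are conjugate over a layer. -/
theorem exists_w3 {m : ℕ} {R : IntermediateField ℚ Qb} (hR : IsLayer p m R) :
    ∃ w : ValuationSubring Qb, ∀ A : ValuationSubring Qb, inertia A ≤ R.fixingSubgroup ∨
      ∃ d ∈ R.fixingSubgroup, A = d • w := by
  obtain ⟨w, h1, h2⟩ := exists_w Pool.Agent.V5helper81.GM.t_OP hR
  refine ⟨w, fun A => ?_⟩
  rcases h1 A with h | ⟨g, rfl⟩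
  · exact Or.inl h
  · obtain ⟨d, hd, h⟩ := h2 g
    exact Or.inr ⟨d, hd, h⟩

/-- The number `t` of primes of a quadratic field above `p`: `2` is an upper bound, and `t = 1` if `p` is
odd and there is only one prime above `p`. -/
def PrimesLe (p : ℕ) (k : IntermediateField ℚ Qb) (t : ℕ) : Prop :=
  t = 2 ∨ (t = 1 ∧ p ≠ 2 ∧ OnePrime p k)

/-- The primes above `p` over the composite of `k` and a layer. -/
theorem exists_orbits (ι : Qb →+* ℂ) {k : IntermediateField ℚ Qb} (hk : finrank ℚ k = 2)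
    (hki : ¬ k ≤ realSub ι) {t : ℕ} (ht : PrimesLe p k t) {m : ℕ} {R : IntermediateField ℚ Qb}
    (hR : IsLayer p m R) (hRr : R ≤ realSub ι) :
    ∃ w : Fin t → ValuationSubring Qb, ∀ A : ValuationSubring Qb, inertia A ≤ R.fixingSubgroup ∨
      ∃ d ∈ k.fixingSubgroup ⊓ R.fixingSubgroup, ∃ j, A = d • w j := by
  have hfk : FiniteDimensional ℚ k := FiniteDimensional.of_finrank_pos (by rw [hk]; norm_num)
  have hH2 : k.fixingSubgroup.index = 2 := by rw [← finrank_eq_fixingSubgroup_index, hk]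
  rcases ht with rfl | ⟨rfl, hp2, hone⟩
  · obtain ⟨w, hw⟩ := exists_w3 hR
    obtain ⟨c, hcR, hcH⟩ : ∃ c ∈ R.fixingSubgroup, c ∉ k.fixingSubgroup := by
      by_contra hcon
      have h5 : R.fixingSubgroup ≤ k.fixingSubgroup := fun x hx => by
        by_contra hx2
        exact hcon ⟨x, hx, hx2⟩
      apply hki
      refine le_trans ?_ hRr
      rw [← InfiniteGalois.fixedField_fixingSubgroup k,
        ← InfiniteGalois.fixedField_fixingSubgroup R]
      exact IntermediateField.fixedField_le h5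
    refine ⟨![w, c • w], fun A => ?_⟩
    rcases hw A with h | ⟨d, hd, rfl⟩
    · exact Or.inl h
    · right
      by_cases hdH : d ∈ k.fixingSubgroup
      · exact ⟨d, ⟨hdH, hd⟩, 0, rfl⟩
      · refine ⟨d * c⁻¹, ⟨?_, R.fixingSubgroup.mul_mem hd (R.fixingSubgroup.inv_mem hcR)⟩, 1, ?_⟩
        · show d * c⁻¹ ∈ k.fixingSubgroup
          rw [Subgroup.mul_mem_iff_of_index_two hH2]
          exact ⟨fun h => absurd h hdH, fun h => absurd (inv_mem_iff.1 h) hcH⟩
        · show d • w = (d * c⁻¹) • (c • w)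
          rw [smul_smul, inv_mul_cancel_right]
  · by_cases hex : ∃ A : ValuationSubring Qb, (p : Qb) ∈ A.nonunits
    · obtain ⟨w, hwp⟩ := hex
      refine ⟨fun _ => w, fun A => ?_⟩
      by_cases hA : (p : Qb) ∈ A.nonunits
      · right
        -- the stabilizer and its products
        have hRn := layer_normal hp.out hR
        obtain ⟨hkn, -⟩ := quad_group hk
        set N : Subgroup Gal(Qb/ℚ) := k.fixingSubgroup ⊓ R.fixingSubgroup with hN
        have hNn : N.Normal := Subgroup.normal_inf_normal _ _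
        set S : Subgroup Gal(Qb/ℚ) := MulAction.stabilizer Gal(Qb/ℚ) w with hS
        have hN1 : R.fixingSubgroup.index = p ^ m := by
          have hfR := layer_fd hp.out hR
          rw [← hR.1, finrank_eq_fixingSubgroup_index Qb R]
        -- all primes are conjugate over `R`
        have hconjR : ∀ B : ValuationSubring Qb, (p : Qb) ∈ B.nonunits →
            ∃ d ∈ R.fixingSubgroup, B = d • w := by
          intro B hB
          obtain ⟨M, hM⟩ := hR.2
          have hfin : FiniteDimensional ℚ (adjoin ℚ {z : Qb | z ^ p ^ M = 1}) := by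
            have hfin : Set.Finite {z : Qb | z ^ p ^ M = 1} := by
              have h2 : (Polynomial.X ^ p ^ M - 1 : Polynomial Qb) ≠ 0 :=
                (Polynomial.monic_X_pow_sub_C 1 (pow_pos hp.out.pos M).ne').ne_zero
              refine (Polynomial.finite_setOfPred_isRoot h2).subset fun z hz => ?_
              have h3 : z ^ p ^ M = 1 := hz
              show (Polynomial.X ^ p ^ M - 1 : Polynomial Qb).IsRoot z
              simp [Polynomial.IsRoot.def, h3]
            have hfs : Finite {z : Qb | z ^ p ^ M = 1} := hfin.to_subtype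
            exact IntermediateField.finiteDimensional_adjoin
              fun x _ => Algebra.IsIntegral.isIntegral x
          obtain ⟨d, hd, hdw⟩ := conj_of_one hp.out _ (Pool.Agent.V5helper81.GM.t_OP p hp.out M) hB hwp
          exact ⟨d, fixingSubgroup_le hM hd, hdw⟩
        have hnon : ∀ g : Gal(Qb/ℚ), (p : Qb) ∈ (g • w).nonunits := by
          intro g
          have hw' := hwp
          rw [ValuationSubring.mem_nonunits_iff_or] at hw' ⊢
          rcases hw' with h | h
          · exact Or.inl h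
          · right
            intro h7
            apply h
            have h8 : ((p : Qb))⁻¹ = g • ((p : Qb))⁻¹ := by
              show ((p : Qb))⁻¹ = g ((p : Qb))⁻¹
              rw [map_inv₀, map_natCast]
            rw [h8] at h7
            exact ValuationSubring.smul_mem_pointwise_smul_iff.1 h7
        have hSR : R.fixingSubgroup ⊔ S = ⊤ := by
          rw [Subgroup.eq_top_iff']
          intro g
          obtain ⟨d, hd, h⟩ := hconjR (g • w) (hnon g)
          have h3 : d⁻¹ * g ∈ S := by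
            show (d⁻¹ * g) • w = w
            rw [mul_smul, h, inv_smul_smul]
          have h4 : g = d * (d⁻¹ * g) := by group
          rw [h4]
          exact mul_mem (Subgroup.mem_sup_left hd) (Subgroup.mem_sup_right h3)
        have hSk : k.fixingSubgroup ⊔ S = ⊤ := by
          rw [Subgroup.eq_top_iff']
          intro g
          obtain ⟨d, hd, h⟩ := conj_of_one hp.out k hone (hnon g) hwp
          have h3 : d⁻¹ * g ∈ S := by
            show (d⁻¹ * g) • w = w
            rw [mul_smul, h, inv_smul_smul]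
          have h4 : g = d * (d⁻¹ * g) := by group
          rw [h4]
          exact mul_mem (Subgroup.mem_sup_left hd) (Subgroup.mem_sup_right h3)
        have hcN : commutator Gal(Qb/ℚ) ≤ N := by
          rw [commutator_def, Subgroup.commutator_le]
          intro a _ b _
          refine ⟨?_, comm_mem_of (layer_cyclic hp.out hp2 hR) a b⟩
          show ⁅a, b⁆ ∈ k.fixingSubgroup
          rw [commutatorElement_def, Subgroup.mul_mem_iff_of_index_two hH2,
            Subgroup.mul_mem_iff_of_index_two hH2, Subgroup.mul_mem_iff_of_index_two hH2,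
            inv_mem_iff, inv_mem_iff]
          tauto
        have hMn : (N ⊔ S).Normal := normal_of_comm (hcN.trans le_sup_left)
        have hgen : ∀ L : Subgroup Gal(Qb/ℚ), N ≤ L → L ⊔ S = ⊤ →
            (N ⊔ S).index ∣ N.relIndex L := by
          intro L hL hLS
          have h3 : L ⊔ (N ⊔ S) = ⊤ := by
            rw [eq_top_iff, ← hLS]
            exact sup_le_sup_left le_sup_right L
          rw [← Subgroup.relIndex_top_right, ← h3, Subgroup.relIndex_sup_right]
          exact Subgroup.relIndex_dvd_of_le_left L le_sup_left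
        have hi1 : (N ⊔ S).index ∣ p ^ m := by
          refine (hgen k.fixingSubgroup inf_le_left hSk).trans ?_
          rw [hN, Subgroup.inf_relIndex_left, ← hN1]
          exact Subgroup.relIndex_dvd_index_of_normal _ _
        have hi2 : (N ⊔ S).index ∣ 2 := by
          refine (hgen R.fixingSubgroup inf_le_right hSR).trans ?_
          rw [hN, Subgroup.inf_relIndex_right, ← hH2]
          exact Subgroup.relIndex_dvd_index_of_normal _ _
        have hNS : N ⊔ S = ⊤ := by
          rw [← Subgroup.index_eq_one]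
          have h3 : Nat.Coprime (p ^ m) 2 :=
            Nat.Coprime.pow_left m ((Nat.coprime_primes hp.out Nat.prime_two).2 hp2)
          exact Nat.eq_one_of_dvd_coprimes h3 hi1 hi2
        obtain ⟨g, -, hg⟩ := hconjR A hA
        obtain ⟨g, -, hg⟩ : ∃ g : Gal(Qb/ℚ), True ∧ A = g • w := ⟨g, trivial, hg⟩
        have h3 : g ∈ ((N ⊔ S : Subgroup Gal(Qb/ℚ)) : Set Gal(Qb/ℚ)) := by
          rw [hNS]
          trivial
        rw [Subgroup.normal_mul] at h3
        obtain ⟨d, hd, s, hs, hds⟩ := h3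
        refine ⟨d, hd, 0, ?_⟩
        have hs' : s • w = w := hs
        rw [hg, ← hds]
        show (d * s) • w = d • w
        rw [mul_smul, hs']
      · exact Or.inl (inertia_le_layer hp.out hR hA)
    · exact ⟨fun _ => ⊤, fun A => Or.inl (inertia_le_layer hp.out hR fun h => hex ⟨A, h⟩)⟩

variable {k F K : IntermediateField ℚ Qb} [FiniteDimensional ℚ K]

/-- The gap theorem for abelian extensions of `k`. -/
theorem gap_over (ι : Qb →+* ℂ) (hk : finrank ℚ k = 2) (hki : ¬ k ≤ realSub ι) (hkF : k ≤ F)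
    (hFK : F ≤ K)
    (hab : ∀ σ ∈ k.fixingSubgroup, ∀ τ ∈ k.fixingSubgroup, ∀ x ∈ K, σ (τ x) = τ (σ x))
    (hpK : ¬ p ∣ K.fixingSubgroup.relIndex k.fixingSubgroup) {r : ℕ}
    (hr : KillsSmall p r k.fixingSubgroup (K.fixingSubgroup.subgroupOf k.fixingSubgroup)
      (F.fixingSubgroup.subgroupOf k.fixingSubgroup)) {t : ℕ} (ht : PrimesLe p k t) {m m' : ℕ}
    {R R' : IntermediateField ℚ Qb} (hR : IsLayer p m R) (hRr : R ≤ realSub ι)
    (hR' : IsLayer p m' R') (hR'r : R' ≤ realSub ι) (hRR : R ≤ R')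
    {C E T : ℕ} (hC : DegLe p (K ⊔ R) C) (hE : ¬ DegLe p (F ⊔ R) E)
    (hCE : C < p ^ (r * (p ^ m - t)) * (E + 1)) (hT : DegLe p (F ⊔ R') T) :
    DegLe p (K ⊔ R') (C * p ^ finrank ℚ K / (E + 1) * T) := by
  have hfR := layer_fd hp.out hR
  have hfR' := layer_fd hp.out hR'
  have hfF : FiniteDimensional ℚ F := fd_of_le hFK
  have hfk : FiniteDimensional ℚ k := fd_of_le (hkF.trans hFK)
  have hRn := layer_normal hp.out hR
  have hR'n := layer_normal hp.out hR'
  obtain ⟨hkn, -⟩ := quad_group hk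
  set H : Subgroup Gal(Qb/ℚ) := k.fixingSubgroup with hH
  have hKH : K.fixingSubgroup ≤ H := fixingSubgroup_le (hkF.trans hFK)
  have hFH : F.fixingSubgroup ≤ H := fixingSubgroup_le hkF
  have hKF : K.fixingSubgroup ≤ F.fixingSubgroup := fixingSubgroup_le hFK
  have hHo : IsOpen (H : Set Gal(Qb/ℚ)) := k.fixingSubgroup_isOpen
  have hH2 : H.index = 2 := by rw [hH, ← finrank_eq_fixingSubgroup_index, hk]
  have hcomm := comm_mem_fix (k := k) (K := K) hab
  have hKc : ∀ a b : H, ⁅a, b⁆ ∈ K.fixingSubgroup.subgroupOf H := fun a b => hcomm a a.2 b b.2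
  have hcK : commutator H ≤ K.fixingSubgroup.subgroupOf H := by
    rw [commutator_def, Subgroup.commutator_le]
    exact fun a _ b _ => hKc a b
  have hKn : (K.fixingSubgroup.subgroupOf H).Normal := normal_of_comm hcK
  have hKF' : K.fixingSubgroup.subgroupOf H ≤ F.fixingSubgroup.subgroupOf H := fun x hx => hKF hx
  have hFn : (F.fixingSubgroup.subgroupOf H).Normal := normal_of_comm (hcK.trans hKF')
  have hKidx : finrank ℚ K = K.fixingSubgroup.index := finrank_eq_fixingSubgroup_index Qb K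
  have hidx : ∀ (m : ℕ) (R : IntermediateField ℚ Qb), IsLayer p m R → R ≤ realSub ι →
      (R.fixingSubgroup.subgroupOf H).index = p ^ m := by
    intro m R hR hRr
    have hn := layer_normal hp.out hR
    have hfd := layer_fd hp.out hR
    have h1 : R.fixingSubgroup.index = p ^ m := by
      rw [← hR.1, finrank_eq_fixingSubgroup_index Qb R]
    have h2 : R.fixingSubgroup ⊔ H = ⊤ := by
      by_contra hne
      have h3 : (R.fixingSubgroup ⊔ H).index ∣ 2 := hH2 ▸ Subgroup.index_dvd_of_le le_sup_right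
      rcases (Nat.dvd_prime Nat.prime_two).1 h3 with h4 | h4
      · exact hne (Subgroup.index_eq_one.1 h4)
      · have h5 : R.fixingSubgroup ≤ H := by
          have h6 := Subgroup.relIndex_mul_index (le_sup_right : H ≤ R.fixingSubgroup ⊔ H)
          rw [h4, hH2] at h6
          have h7 : H.relIndex (R.fixingSubgroup ⊔ H) = 1 := by omega
          exact le_sup_left.trans (Subgroup.relIndex_eq_one.1 h7)
        apply hki
        refine le_trans ?_ hRr
        rw [← InfiniteGalois.fixedField_fixingSubgroup k,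
          ← InfiniteGalois.fixedField_fixingSubgroup R]
        exact IntermediateField.fixedField_le h5
    show R.fixingSubgroup.relIndex H = _
    rw [← h1, ← Subgroup.relIndex_sup_right, sup_comm, h2, Subgroup.relIndex_top_right]
  obtain ⟨γ, hγH, hγ⟩ := exists_gamma (K := H) (real_cyclic ι hR' hR'r)
  obtain ⟨w, hw⟩ := exists_orbits ι hk hki ht hR' hR'r
  have hsub : ∀ M S : IntermediateField ℚ Qb, M.fixingSubgroup.subgroupOf H ⊓
      S.fixingSubgroup.subgroupOf H = (M ⊔ S).fixingSubgroup.subgroupOf H := by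
    intro M S
    rw [fixingSubgroup_sup]
    rfl
  have hrk : ∀ (M S : IntermediateField ℚ Qb) (_ : FiniteDimensional ℚ M)
      (_ : FiniteDimensional ℚ S) (_ : k ≤ M) (C : ℕ),
      RankLe p (fun A : ValuationSubring Qb => (inertia A).subgroupOf H)
        (M.fixingSubgroup.subgroupOf H ⊓ S.fixingSubgroup.subgroupOf H) C ↔
      DegLe p (M ⊔ S) C := by
    intro M S _ _ hkM C
    rw [hsub, rankLe_sub inertia H hHo (fixingSubgroup_le (hkM.trans le_sup_left)), rankLe_iff]
  rw [← hrk K R inferInstance hfR (hkF.trans hFK)] at hC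
  rw [← hrk F R hfF hfR hkF] at hE
  rw [← hrk F R' hfF hfR' hkF] at hT
  rw [← hrk K R' inferInstance hfR' (hkF.trans hFK)]
  have hp2 : (p ^ (K.fixingSubgroup.subgroupOf H).index) ^ t ≤ p ^ finrank ℚ K := by
    have h3 := Subgroup.relIndex_mul_index hKH
    rw [hH2] at h3
    have h4 : t ≤ 2 := by
      rcases ht with h | h
      · omega
      · omega
    rw [← pow_mul, hKidx, ← h3]
    exact Nat.pow_le_pow_right hp.out.pos (Nat.mul_le_mul_left _ h4)
  refine RankLe.mono ?_ (Nat.mul_le_mul_right T (Nat.div_le_div_right (Nat.mul_le_mul_left C hp2)))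
  refine main3 (𝔾 := H) (Ω := ValuationSubring Qb) t_TR3 (t := t) ?_ hKn hFn (hRn.subgroupOf H)
    (hR'n.subgroupOf H) hKF' (fun x hx => fixingSubgroup_le hRR hx) ?_ hpK (hidx m R hR hRr)
    (hidx m' R' hR' hR'r) ⟨⟨γ, hγH⟩, fun τ => hγ τ τ.2⟩ w ?_ hKc (killsSmall_quot hr)
    hC hE hCE hT
  · intro g A x hx
    exact inertia_conj (g : Gal(Qb/ℚ)) A x hx
  · intro h
    have h3 := Subgroup.relIndex_mul_index hKH
    have h4 : K.fixingSubgroup.relIndex H = 0 := h
    rw [h4, zero_mul] at h3
    exact index_ne_zero' K h3.symm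
  · intro A
    rcases hw A with h | ⟨d, hd, j, rfl⟩
    · exact Or.inl fun x hx => h hx
    · exact Or.inr ⟨⟨d, hd.1⟩, hd.2, j, rfl⟩

end

end Pool.Agent.V5helper60.GM
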