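import Pool.Agent.V5helper60.GM.Main4
import Pool.Agent.V5helper60.GM.Def5
import Pool.Agent.V5helper69.GM.TRAM

/-!
# Stabilization of the ranks: number fields
-/

set_option autoImplicit false

namespace Pool.Agent.V5helper60.GM

open IntermediateField Module Pool.Agent.Q60.MU Pool.Agent.W5h77.MB Pool.Agent.W5h33.DF
open scoped Pointwise commutatorElement

/-- There is a prime above `p`. -/
theorem exists_above {p : ℕ} (hp : p.Prime) : ∃ A : ValuationSubring Qb, (p : Qb) ∈ A.nonunits := by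
  have hne : (Ideal.span {((p : ℤ) : (Int.castRingHom Qb).range)} :
      Ideal (Int.castRingHom Qb).range) ≠ ⊤ := by
    intro h
    rw [Ideal.span_singleton_eq_top, isUnit_iff_exists_inv] at h
    obtain ⟨⟨_, b, rfl⟩, hb⟩ := h
    have h1 : ((p : ℤ) : Qb) * ((b : ℤ) : Qb) = 1 := congrArg Subtype.val hb
    have h2 : ((p : ℤ) * b : ℤ) = 1 := by exact_mod_cast h1
    have h3 : (p : ℤ) ∣ 1 := ⟨b, h2.symm⟩
    have h4 : p ∣ 1 := by exact_mod_cast h3
    exact hp.one_lt.ne' (Nat.dvd_one.1 h4)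
  obtain ⟨V, -, hV⟩ := Ideal.image_subset_nonunits_valuationSubring _ hne
  refine ⟨V, hV ⟨_, Ideal.mem_span_singleton_self _, ?_⟩⟩
  show (((p : ℤ) : (Int.castRingHom Qb).range) : Qb) = p
  simp

section
variable {p : ℕ} [hp : Fact p.Prime] {ι : Qb →+* ℂ}

/-- The generator of the tower. -/
theorem tower_data {B K : IntermediateField ℚ Qb} (hBK : B ≤ K)
    (hKn : (K.fixingSubgroup.subgroupOf B.fixingSubgroup).Normal)
    (hKp : ¬ p ∣ (K.fixingSubgroup.subgroupOf B.fixingSubgroup).index)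
    (hram : TotRam p ι K) {m : ℕ} {R : IntermediateField ℚ Qb} (hR : RealLayer p ι m R) {e : ℕ}
    (he : (R.fixingSubgroup.subgroupOf B.fixingSubgroup).index = p ^ e) :
    ∃ (γ : B.fixingSubgroup) (w₀ : ValuationSubring Qb),
      γ ∈ K.fixingSubgroup.subgroupOf B.fixingSubgroup ∧
      γ ∈ (inertia w₀).subgroupOf B.fixingSubgroup ∧
      (∀ g : B.fixingSubgroup, ∃ i : ℤ, g * (γ ^ i)⁻¹ ∈ R.fixingSubgroup.subgroupOf B.fixingSubgroup) ∧
      ∀ A : ValuationSubring Qb, (inertia A).subgroupOf B.fixingSubgroup ≤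
        R.fixingSubgroup.subgroupOf B.fixingSubgroup ∨
        ∃ a ∈ K.fixingSubgroup.subgroupOf B.fixingSubgroup ⊓
          R.fixingSubgroup.subgroupOf B.fixingSubgroup,
          a * γ ∈ (inertia A).subgroupOf B.fixingSubgroup := by
  have hRn := layer_normal hp.out hR.1
  have hKB : K.fixingSubgroup ≤ B.fixingSubgroup := fixingSubgroup_le hBK
  obtain ⟨c, hcB, hc⟩ := exists_gamma (K := B.fixingSubgroup) (real_cyclic ι hR.1 hR.2)
  -- the generator in the group of `K`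
  obtain ⟨κ, hκ, hκc⟩ : ∃ κ ∈ K.fixingSubgroup, κ⁻¹ * c ∈ R.fixingSubgroup := by
    have h1 := sup_top_of_cop' hp.out hKp he
    have h2 : (⟨c, hcB⟩ : B.fixingSubgroup) ∈
        ((K.fixingSubgroup.subgroupOf B.fixingSubgroup ⊔
          R.fixingSubgroup.subgroupOf B.fixingSubgroup : Subgroup B.fixingSubgroup) :
          Set B.fixingSubgroup) := by
      rw [h1]
      trivial
    rw [Subgroup.normal_mul] at h2
    obtain ⟨x, hx, y, hy, hxy⟩ := h2
    refine ⟨x, hx, ?_⟩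
    have h3 : (x : Gal(Qb/ℚ)) * y = c := congrArg Subtype.val hxy
    rw [← h3, inv_mul_cancel_left]
    exact hy
  have hq : ∀ a b : Gal(Qb/ℚ), a⁻¹ * b ∈ R.fixingSubgroup ↔
      QuotientGroup.mk' R.fixingSubgroup a = QuotientGroup.mk' R.fixingSubgroup b := by
    intro a b
    exact (QuotientGroup.eq).symm
  have hq2 : ∀ a b : Gal(Qb/ℚ), a * b⁻¹ ∈ R.fixingSubgroup ↔
      QuotientGroup.mk' R.fixingSubgroup a = QuotientGroup.mk' R.fixingSubgroup b := by
    intro a b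
    rw [← mul_inv_eq_one, ← map_inv, ← map_mul]
    exact (QuotientGroup.eq_one_iff _).symm
  obtain ⟨w₀, hw₀⟩ := exists_above hp.out
  obtain ⟨γ, hγI, hγK, hγ⟩ := hram w₀ hw₀ m R hR κ hκ
  refine ⟨⟨γ, hKB hγK⟩, w₀, hγK, hγI, fun g => ?_, fun A => ?_⟩
  · obtain ⟨i, hi⟩ := hc g g.2
    refine ⟨i, ?_⟩
    show (g : Gal(Qb/ℚ)) * (γ ^ i)⁻¹ ∈ R.fixingSubgroup
    rw [hq2, map_zpow, (hq γ κ).1 hγ, (hq κ c).1 hκc, ← map_zpow, ← hq2]
    exact hi
  · by_cases hA : (p : Qb) ∈ A.nonunits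
    · right
      obtain ⟨x, hxI, hxK, hx⟩ := hram A hA m R hR κ hκ
      refine ⟨⟨x, hKB hxK⟩ * ⟨γ, hKB hγK⟩⁻¹, ⟨?_, ?_⟩, ?_⟩
      · exact K.fixingSubgroup.mul_mem hxK (K.fixingSubgroup.inv_mem hγK)
      · show x * γ⁻¹ ∈ R.fixingSubgroup
        rw [hq2, (hq γ κ).1 hγ, (hq x κ).1 hx]
      · rw [inv_mul_cancel_right]
        exact hxI
    · left
      exact fun x hx => inertia_le_layer hp.out hR.1 hA hx

/-- The index of a layer. -/
theorem layer_index {B R : IntermediateField ℚ Qb} [FiniteDimensional ℚ B] {m : ℕ}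
    (hR : RealLayer p ι m R) {q : ℕ} (hq : finrank ℚ (B ⊔ R : IntermediateField ℚ Qb) = q * finrank ℚ B) :
    (R.fixingSubgroup.subgroupOf B.fixingSubgroup).index = q ∧ ∃ e, q = p ^ e := by
  have hfR := layer_fd hp.out hR.1
  have hRn := layer_normal hp.out hR.1
  have h1 : finrank ℚ (B ⊔ R : IntermediateField ℚ Qb) = (B ⊔ R).fixingSubgroup.index :=
    finrank_eq_fixingSubgroup_index Qb (B ⊔ R)
  have h2 : finrank ℚ B = B.fixingSubgroup.index := finrank_eq_fixingSubgroup_index Qb B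
  rw [h1, h2, fixingSubgroup_sup] at hq
  have h3 := Subgroup.relIndex_mul_index (inf_le_left : B.fixingSubgroup ⊓ R.fixingSubgroup ≤
    B.fixingSubgroup)
  rw [Subgroup.inf_relIndex_left, hq] at h3
  have h4 : (R.fixingSubgroup.subgroupOf B.fixingSubgroup).index = q :=
    Nat.eq_of_mul_eq_mul_right (Nat.pos_of_ne_zero (index_ne_zero' B)) h3
  refine ⟨h4, ?_⟩
  have h5 : R.fixingSubgroup.relIndex B.fixingSubgroup ∣ R.fixingSubgroup.index :=
    Subgroup.relIndex_dvd_index_of_normal _ _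
  have h6 : R.fixingSubgroup.index = p ^ m := by
    rw [← hR.1.1, finrank_eq_fixingSubgroup_index Qb R]
  rw [h6] at h5
  obtain ⟨e, -, he⟩ := (Nat.dvd_prime_pow hp.out).1 h5
  exact ⟨e, h4.symm.trans he⟩

variable {B F K : IntermediateField ℚ Qb} [hfK : FiniteDimensional ℚ K]

theorem hrk_of (hBK : B ≤ K) (M S : IntermediateField ℚ Qb) [FiniteDimensional ℚ M]
      [FiniteDimensional ℚ S] (hkM : B ≤ M) (C : ℕ) :
      RankLe p (fun A : ValuationSubring Qb => (inertia A).subgroupOf B.fixingSubgroup)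
        (M.fixingSubgroup.subgroupOf B.fixingSubgroup ⊓ S.fixingSubgroup.subgroupOf B.fixingSubgroup) C ↔
      DegLe p (M ⊔ S) C := by
  have hfB : FiniteDimensional ℚ B := fd_of_le hBK
  have hHo : IsOpen (B.fixingSubgroup : Set Gal(Qb/ℚ)) := B.fixingSubgroup_isOpen
  have hsub : M.fixingSubgroup.subgroupOf B.fixingSubgroup ⊓
      S.fixingSubgroup.subgroupOf B.fixingSubgroup = (M ⊔ S).fixingSubgroup.subgroupOf B.fixingSubgroup := by
    rw [fixingSubgroup_sup]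
    rfl
  rw [hsub, rankLe_sub inertia B.fixingSubgroup hHo (fixingSubgroup_le (hkM.trans le_sup_left)),
    rankLe_iff]

theorem stab_field (hBF : B ≤ F) (hFK : F ≤ K)
    (hKn : (K.fixingSubgroup.subgroupOf B.fixingSubgroup).Normal)
    (hFn : (F.fixingSubgroup.subgroupOf B.fixingSubgroup).Normal)
    (hKp : ¬ p ∣ (K.fixingSubgroup.subgroupOf B.fixingSubgroup).index)
    (hram : TotRam p ι K) {r : ℕ}
    (hr : KillsSmall p r B.fixingSubgroup (K.fixingSubgroup.subgroupOf B.fixingSubgroup)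
      (F.fixingSubgroup.subgroupOf B.fixingSubgroup)) {m₀ m m' : ℕ}
    {R₀ R R' : IntermediateField ℚ Qb} (hR₀ : RealLayer p ι m₀ R₀) (hR : RealLayer p ι m R)
    (hR' : RealLayer p ι m' R') (hRR₀ : R₀ ≤ R) (hRR : R ≤ R') {q₀ q : ℕ}
    (hq₀ : finrank ℚ (B ⊔ R₀ : IntermediateField ℚ Qb) = q₀ * finrank ℚ B)
    (hq : finrank ℚ (B ⊔ R : IntermediateField ℚ Qb) = q * finrank ℚ B)
    {C E C₀ E₀ T : ℕ} (hC : DegLe p (K ⊔ R) C) (hE : ¬ DegLe p (F ⊔ R) E)
    (hC₀ : ¬ DegLe p (K ⊔ R₀) C₀) (hE₀ : DegLe p (F ⊔ R₀) E₀)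
    (hgap : C * E₀ < p ^ (r * (q - q₀)) * ((C₀ + 1) * (E + 1))) (hT : DegLe p (F ⊔ R') T) :
    DegLe p (K ⊔ R') (C * T / (E + 1)) := by
  have hBK := hBF.trans hFK
  have hfF : FiniteDimensional ℚ F := fd_of_le hFK
  have hfB : FiniteDimensional ℚ B := fd_of_le hBK
  have hfR₀ := layer_fd hp.out hR₀.1
  have hfR := layer_fd hp.out hR.1
  have hfR' := layer_fd hp.out hR'.1
  have hR₀n := layer_normal hp.out hR₀.1
  have hRn := layer_normal hp.out hR.1
  have hR'n := layer_normal hp.out hR'.1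
  obtain ⟨hi₀, e₀, he₀⟩ := layer_index hR₀ hq₀
  obtain ⟨hi, e, he⟩ := layer_index hR hq
  obtain ⟨e', hi'⟩ : ∃ e', (R'.fixingSubgroup.subgroupOf B.fixingSubgroup).index = p ^ e' := by
    have h5 : R'.fixingSubgroup.relIndex B.fixingSubgroup ∣ R'.fixingSubgroup.index :=
      Subgroup.relIndex_dvd_index_of_normal _ _
    have h6 : R'.fixingSubgroup.index = p ^ m' := by
      rw [← hR'.1.1, finrank_eq_fixingSubgroup_index Qb R']
    rw [h6] at h5
    obtain ⟨e, -, he⟩ := (Nat.dvd_prime_pow hp.out).1 h5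
    exact ⟨e, he⟩
  subst he₀
  subst he
  obtain ⟨γ, w₀, hγK, hγI, hγ, htot⟩ := tower_data hBK hKn hKp hram hR' hi'
  rw [← hrk_of (p := p) hBK K R hBK] at hC
  rw [← hrk_of (p := p) hBK F R hBF] at hE
  rw [← hrk_of (p := p) hBK K R₀ hBK] at hC₀
  rw [← hrk_of (p := p) hBK F R₀ hBF] at hE₀
  rw [← hrk_of (p := p) hBK F R' hBF] at hT
  rw [← hrk_of (p := p) hBK K R' hBK]
  refine main4 (𝔾 := B.fixingSubgroup) (Ω := ValuationSubring Qb) t_TR3 ?_ hKn hFn
    (hR₀n.subgroupOf _) (hRn.subgroupOf _) (hR'n.subgroupOf _)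
    (fun x hx => fixingSubgroup_le hFK hx) (fun x hx => fixingSubgroup_le hRR₀ hx)
    (fun x hx => fixingSubgroup_le hRR hx) ?_ hKp hi₀ hi hi' hγK hγI hγ htot (killsSmall_quot hr)
    hC hE hC₀ hE₀ hgap hT
  · intro g A x hx
    exact inertia_conj (g : Gal(Qb/ℚ)) A x hx
  · intro h
    exact hKp (h ▸ dvd_zero p)

theorem mono_field (hBF : B ≤ F) (hFK : F ≤ K)
    (hKn : (K.fixingSubgroup.subgroupOf B.fixingSubgroup).Normal)
    (hFn : (F.fixingSubgroup.subgroupOf B.fixingSubgroup).Normal)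
    (hKp : ¬ p ∣ (K.fixingSubgroup.subgroupOf B.fixingSubgroup).index)
    (hram : TotRam p ι K) {m₀ m : ℕ}
    {R₀ R : IntermediateField ℚ Qb} (hR₀ : RealLayer p ι m₀ R₀) (hR : RealLayer p ι m R)
    (hRR₀ : R₀ ≤ R)
    {C E C₀ E₀ : ℕ} (hC : DegLe p (K ⊔ R) C) (hE : ¬ DegLe p (F ⊔ R) E)
    (hC₀ : ¬ DegLe p (K ⊔ R₀) C₀) (hE₀ : DegLe p (F ⊔ R₀) E₀) :
    (C₀ + 1) * (E + 1) ≤ C * E₀ := by
  have hBK := hBF.trans hFK
  have hfF : FiniteDimensional ℚ F := fd_of_le hFK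
  have hfB : FiniteDimensional ℚ B := fd_of_le hBK
  have hfR₀ := layer_fd hp.out hR₀.1
  have hfR := layer_fd hp.out hR.1
  have hR₀n := layer_normal hp.out hR₀.1
  have hRn := layer_normal hp.out hR.1
  have hidx : ∀ (m : ℕ) (R : IntermediateField ℚ Qb), RealLayer p ι m R →
      ∃ e', (R.fixingSubgroup.subgroupOf B.fixingSubgroup).index = p ^ e' := by
    intro m' R' hR'
    have hfR' := layer_fd hp.out hR'.1
    have hR'n := layer_normal hp.out hR'.1
    have h5 : R'.fixingSubgroup.relIndex B.fixingSubgroup ∣ R'.fixingSubgroup.index :=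
      Subgroup.relIndex_dvd_index_of_normal _ _
    have h6 : R'.fixingSubgroup.index = p ^ m' := by
      rw [← hR'.1.1, finrank_eq_fixingSubgroup_index Qb R']
    rw [h6] at h5
    obtain ⟨e, -, he⟩ := (Nat.dvd_prime_pow hp.out).1 h5
    exact ⟨e, he⟩
  obtain ⟨e₀, hi₀⟩ := hidx _ _ hR₀
  obtain ⟨e, hi⟩ := hidx _ _ hR
  obtain ⟨γ, w₀, hγK, hγI, hγ, htot⟩ := tower_data hBK hKn hKp hram hR hi
  rw [← hrk_of (p := p) hBK K R hBK] at hC
  rw [← hrk_of (p := p) hBK F R hBF] at hE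
  rw [← hrk_of (p := p) hBK K R₀ hBK] at hC₀
  rw [← hrk_of (p := p) hBK F R₀ hBF] at hE₀
  have hI : ∀ (g : B.fixingSubgroup) (A : ValuationSubring Qb), ∀ x ∈ (inertia A).subgroupOf B.fixingSubgroup,
      g * x * g⁻¹ ∈ (inertia (g • A)).subgroupOf B.fixingSubgroup := by
    intro g A x hx
    exact inertia_conj (g : Gal(Qb/ℚ)) A x hx
  refine mono4 (𝔾 := B.fixingSubgroup) (Ω := ValuationSubring Qb) t_TR3 hI hKn hFn
    (hR₀n.subgroupOf _) (hRn.subgroupOf _)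
    (fun x hx => fixingSubgroup_le hFK hx) (fun x hx => fixingSubgroup_le hRR₀ hx)
    ?_ hKp hi₀ hi ?_ hγK hγI hγ htot
    hC hE hC₀ hE₀ ?_
  · intro h
    exact hKp (h ▸ dvd_zero p)
  · exact (K.fixingSubgroup_isOpen.inter R.fixingSubgroup_isOpen).preimage continuous_subtype_val
  · rintro x ((⟨a, ha, rfl⟩ | ⟨a, ha, b, hb, rfl⟩) | ⟨hx, w, hw⟩)
    · exact pow_mem ha p
    · rw [commutatorElement_def]
      exact mul_mem (mul_mem (mul_mem ha hb) (inv_mem ha)) (inv_mem hb)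
    · exact hx

end

end Pool.Agent.V5helper60.GM
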