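import Pool.Agent.V5helper60.GM.Fld4
import Pool.Agent.V5helper60.GM.Asm

/-!
# Stabilization of the ranks: total ramification and small growth
-/

set_option autoImplicit false

namespace Pool.Agent.V5helper60.GM

open IntermediateField Module Pool.Agent.Q60.MU Pool.Agent.W5h77.MB Pool.Agent.W5h33.DF
open scoped Pointwise commutatorElement

theorem relIndex_le_mul {G : Type} [Group G] {W K L : Subgroup G} (hKL : K ≤ L)
    (hf : W.relIndex K ≠ 0) (h : ∀ f ∈ L, ∃ k ∈ K, ∃ w ∈ W, f = k * w) :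
    W.relIndex L ≤ W.relIndex K := relIndex_le_of_mul hKL hf h

/-- The rank of a subfield of degree prime to `p`. -/
theorem rank_up {𝔾 : Type} [Group 𝔾] [TopologicalSpace 𝔾] {p : ℕ} [hp : Fact p.Prime] {Ω : Type}
    {I : Ω → Subgroup 𝔾} {K L : Subgroup 𝔾} (hKL : K ≤ L) [hKn : K.Normal]
    (hKo : IsOpen (K : Set 𝔾)) (hKp : ¬ p ∣ K.index) {C : ℕ} (h : RankLe p I K C) :
    RankLe p I L C := by
  intro W hWL hWo hWf hg
  have h1 : W.relIndex K ≠ 0 := fun h0 => hWf (Subgroup.relIndex_eq_zero_of_le_right hKL h0)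
  have hgK : gens p I K ⊆ (W ⊓ K : Subgroup 𝔾) := by
    rintro x ((⟨a, ha, rfl⟩ | ⟨a, ha, b, hb, rfl⟩) | ⟨hx, A, hA⟩)
    · exact ⟨hg (Or.inl (Or.inl ⟨a, hKL ha, rfl⟩)), pow_mem ha p⟩
    · refine ⟨hg (Or.inl (Or.inr ⟨a, hKL ha, b, hKL hb, rfl⟩)), ?_⟩
      rw [commutatorElement_def]
      exact K.mul_mem (K.mul_mem (K.mul_mem ha hb) (K.inv_mem ha)) (K.inv_mem hb)
    · exact ⟨hg (Or.inr ⟨hKL hx, A, hA⟩), hx⟩
  have h2 : W.relIndex K ≤ C := by
    rw [← Subgroup.inf_relIndex_right]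
    refine h (W ⊓ K) inf_le_right ?_ ?_ hgK
    · rw [Subgroup.coe_inf]
      exact hWo.inter hKo
    · rwa [Subgroup.inf_relIndex_right]
  refine (relIndex_le_mul hKL h1 fun f hf => ?_).trans h2
  have hpow : f ^ K.index ∈ K := K.pow_index_mem f
  have hlp : f ^ p ∈ W := hg (Or.inl (Or.inl ⟨f, hf, rfl⟩))
  have hcop : IsCoprime (K.index : ℤ) (p : ℤ) := by
    rw [Nat.isCoprime_iff_coprime]
    exact ((Nat.Prime.coprime_iff_not_dvd hp.out).2 hKp).symm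
  obtain ⟨u, v, huv⟩ := hcop
  refine ⟨(f ^ K.index) ^ u, K.zpow_mem hpow u, (f ^ p) ^ v, W.zpow_mem hlp v, ?_⟩
  rw [← zpow_natCast f K.index, ← zpow_natCast f p, ← zpow_mul, ← zpow_mul, ← zpow_add,
    mul_comm (K.index : ℤ) u, mul_comm (p : ℤ) v, huv, zpow_one]

section
variable {p : ℕ} [hp : Fact p.Prime] {ι : Qb →+* ℂ}

theorem layer_bot : RealLayer p ι 0 ⊥ := by
  refine ⟨⟨?_, 0, bot_le⟩, bot_le⟩
  rw [pow_zero]
  exact IntermediateField.finrank_bot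

theorem realLayer_sup {m m' : ℕ} {R R' : IntermediateField ℚ Qb} (hR : RealLayer p ι m R)
    (hR' : RealLayer p ι m' R') : ∃ m'', RealLayer p ι m'' (R ⊔ R') := by
  obtain ⟨m'', h⟩ := layer_sup hR.1 hR'.1
  exact ⟨m'', h, sup_le hR.2 hR'.2⟩

/-- Total ramification. -/
theorem totRam_of_pow {K Rs : IntermediateField ℚ Qb} {n s : ℕ} (hn : ¬ p ∣ n)
    (hM : ∀ g : Gal(Qb/ℚ), g ^ (n * p ^ s) ∈ K.fixingSubgroup)
    (hRs : RealLayer p ι s Rs) : TotRam p ι (K ⊔ Rs) := by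
  intro A hA m R hR g hg
  obtain ⟨m', hR'⟩ := realLayer_sup hR hRs
  have hfR' := layer_fd hp.out hR'.1
  have hfRs := layer_fd hp.out hRs.1
  have hR'n := layer_normal hp.out hR'.1
  have hRsn := layer_normal hp.out hRs.1
  obtain ⟨c, hc⟩ := real_cyclic ι hR'.1 hR'.2
  obtain ⟨N, hN⟩ := hR'.1.2
  obtain ⟨σ, hσ, hσc⟩ := Pool.Agent.V5helper69.GM.TRAM.t_TRAM p hp.out A hA N c
  have hσc' : σ⁻¹ * c ∈ (R ⊔ Rs).fixingSubgroup := fixingSubgroup_le hN hσc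
  rw [fixingSubgroup_sup] at hg
  have hq : ∀ a b : Gal(Qb/ℚ), a⁻¹ * b ∈ (R ⊔ Rs).fixingSubgroup ↔
      QuotientGroup.mk' (R ⊔ Rs).fixingSubgroup a = QuotientGroup.mk' (R ⊔ Rs).fixingSubgroup b := by
    intro a b
    exact (QuotientGroup.eq).symm
  have hq2 : ∀ a b : Gal(Qb/ℚ), a * b⁻¹ ∈ (R ⊔ Rs).fixingSubgroup ↔
      QuotientGroup.mk' (R ⊔ Rs).fixingSubgroup a = QuotientGroup.mk' (R ⊔ Rs).fixingSubgroup b := by
    intro a b
    rw [← mul_inv_eq_one, ← map_inv, ← map_mul]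
    exact (QuotientGroup.eq_one_iff _).symm
  have hRs' : (R ⊔ Rs).fixingSubgroup ≤ Rs.fixingSubgroup := fixingSubgroup_le le_sup_right
  obtain ⟨i, hi⟩ := hc g
  -- the exponent is divisible by `p ^ s`
  have hidx : Rs.fixingSubgroup.index = p ^ s := by
    rw [← hRs.1.1, finrank_eq_fixingSubgroup_index Qb Rs]
  have hci : c ^ i ∈ Rs.fixingSubgroup := by
    have h2 := Rs.fixingSubgroup.mul_mem (Rs.fixingSubgroup.inv_mem (hRs' hi)) hg.2
    have h3 : (g * (c ^ i)⁻¹)⁻¹ * g = c ^ i := by group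
    rwa [h3] at h2
  have hdvd : ((p ^ s : ℕ) : ℤ) ∣ i := by
    have h1 : orderOf (QuotientGroup.mk' Rs.fixingSubgroup c) = p ^ s := by
      have h2 : Subgroup.zpowers (QuotientGroup.mk' Rs.fixingSubgroup c) = ⊤ := by
        rw [eq_top_iff]
        rintro x -
        obtain ⟨g', rfl⟩ := QuotientGroup.mk'_surjective Rs.fixingSubgroup x
        obtain ⟨i', hi'⟩ := hc g'
        refine Subgroup.mem_zpowers_iff.2 ⟨i', ?_⟩
        have h3 : QuotientGroup.mk' Rs.fixingSubgroup (g' * (c ^ i')⁻¹) = 1 :=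
          (QuotientGroup.eq_one_iff _).2 (hRs' hi')
        rw [map_mul, map_inv, map_zpow, mul_inv_eq_one] at h3
        exact h3.symm
      rw [← Nat.card_zpowers, h2, Subgroup.card_top, ← hidx]
      rfl
    rw [← h1, orderOf_dvd_iff_zpow_eq_one, ← map_zpow]
    exact (QuotientGroup.eq_one_iff _).2 hci
  obtain ⟨j, rfl⟩ := hdvd
  -- the inverse of `n` modulo the degree of the layer
  have hcop : IsCoprime (n : ℤ) ((p ^ m' : ℕ) : ℤ) := by
    rw [Nat.isCoprime_iff_coprime]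
    exact Nat.Coprime.pow_right m' ((Nat.Prime.coprime_iff_not_dvd hp.out).2 hn).symm
  obtain ⟨u, v, huv⟩ := hcop
  have hσM : σ ^ (n * p ^ s) ∈ K.fixingSubgroup := hM σ
  have hcp : (QuotientGroup.mk' (R ⊔ Rs).fixingSubgroup c) ^ (p ^ m') = 1 := by
    rw [← map_pow]
    refine (QuotientGroup.eq_one_iff _).2 ?_
    have h1 : (R ⊔ Rs).fixingSubgroup.index = p ^ m' := by
      rw [← hR'.1.1, finrank_eq_fixingSubgroup_index Qb]
    rw [← h1]
    exact (R ⊔ Rs).fixingSubgroup.pow_index_mem c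
  have hxg : QuotientGroup.mk' (R ⊔ Rs).fixingSubgroup ((σ ^ (n * p ^ s)) ^ (u * j)) =
      QuotientGroup.mk' (R ⊔ Rs).fixingSubgroup g := by
    rw [(hq2 g _).1 hi, map_zpow, map_pow, map_zpow, (hq σ c).1 hσc', ← zpow_natCast, ← zpow_mul]
    have h1 : ((n * p ^ s : ℕ) : ℤ) * (u * j) = ((p ^ s : ℕ) : ℤ) * j +
        ((p ^ m' : ℕ) : ℤ) * (-(v * ((p ^ s : ℕ) : ℤ) * j)) := by
      have h2 : (n : ℤ) * u = 1 - v * ((p ^ m' : ℕ) : ℤ) := by
        rw [← huv]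
        ring
      push_cast
      push_cast at h2
      calc (n : ℤ) * (p : ℤ) ^ s * (u * j) = ((n : ℤ) * u) * ((p : ℤ) ^ s * j) := by ring
        _ = (1 - v * (p : ℤ) ^ m') * ((p : ℤ) ^ s * j) := by rw [h2]
        _ = _ := by ring
    rw [h1, zpow_add, zpow_mul _ ((p ^ m' : ℕ) : ℤ), zpow_natCast _ (p ^ m'), hcp, one_zpow, mul_one]
  have hxR : ((σ ^ (n * p ^ s)) ^ (u * j))⁻¹ * g ∈ (R ⊔ Rs).fixingSubgroup := (hq _ _).2 hxg
  refine ⟨(σ ^ (n * p ^ s)) ^ (u * j), ?_, ?_, fixingSubgroup_le le_sup_left hxR⟩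
  · exact zpow_mem (pow_mem hσ _) _
  · rw [fixingSubgroup_sup]
    refine ⟨zpow_mem hσM _, ?_⟩
    have h1 := Rs.fixingSubgroup.mul_mem hg.2 (Rs.fixingSubgroup.inv_mem (hRs' hxR))
    have h2 : g * (((σ ^ (n * p ^ s)) ^ (u * j))⁻¹ * g)⁻¹ = (σ ^ (n * p ^ s)) ^ (u * j) := by group
    rwa [h2] at h1

/-- The vanishing of `μ` does not change if `K` is replaced by a layer. -/
theorem muVanishes_sup {K Rs : IntermediateField ℚ Qb} [FiniteDimensional ℚ K] {s : ℕ}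
    (hRs : RealLayer p ι s Rs) : MuVanishes p ι (K ⊔ Rs) ↔ MuVanishes p ι K := by
  constructor
  · rintro ⟨C, hC⟩
    refine muVanishes_of_above hRs ⟨C, fun m' R' hR' hle => ?_⟩
    have h := hC m' R' hR'
    rwa [sup_assoc, sup_eq_right.2 hle] at h
  · rintro ⟨C, hC⟩
    refine ⟨C, fun m R hR => ?_⟩
    obtain ⟨m', hR'⟩ := realLayer_sup hRs hR
    rw [sup_assoc]
    exact hC m' _ hR'

end

end Pool.Agent.V5helper60.GM
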