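import Pool.Agent.V5helper60.GM.Conc
import Pool.Agent.V5helper60.GM.Asm7

/-!
# Concavity and growth: number fields
-/

set_option autoImplicit false

namespace Pool.Agent.V5helper60.GM

open IntermediateField Module Pool.Agent.Q60.MU Pool.Agent.W5h77.MB Pool.Agent.W5h33.DF
open scoped Pointwise commutatorElement

section
variable {p : ℕ} [hp : Fact p.Prime] {ι : Qb →+* ℂ} {B F K : IntermediateField ℚ Qb}
  [hfK : FiniteDimensional ℚ K]

omit hfK in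
theorem layer_idx {m : ℕ} {R : IntermediateField ℚ Qb} (hR : RealLayer p ι m R)
    (B : IntermediateField ℚ Qb) :
    ∃ e, (R.fixingSubgroup.subgroupOf B.fixingSubgroup).index = p ^ e := by
  have hfR := layer_fd hp.out hR.1
  have hRn := layer_normal hp.out hR.1
  have h5 : R.fixingSubgroup.relIndex B.fixingSubgroup ∣ R.fixingSubgroup.index :=
    Subgroup.relIndex_dvd_index_of_normal _ _
  have h6 : R.fixingSubgroup.index = p ^ m := by
    rw [← hR.1.1, finrank_eq_fixingSubgroup_index Qb R]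
  rw [h6] at h5
  obtain ⟨e, -, he⟩ := (Nat.dvd_prime_pow hp.out).1 h5
  exact ⟨e, he⟩

theorem rate_field (hBF : B ≤ F) (hFK : F ≤ K)
    (hKn : (K.fixingSubgroup.subgroupOf B.fixingSubgroup).Normal)
    (hFn : (F.fixingSubgroup.subgroupOf B.fixingSubgroup).Normal)
    (hKp : ¬ p ∣ (K.fixingSubgroup.subgroupOf B.fixingSubgroup).index)
    (hram : TotRam p ι K) {r : ℕ}
    (hr : RepsTrivial p r B.fixingSubgroup (K.fixingSubgroup.subgroupOf B.fixingSubgroup)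
      (F.fixingSubgroup.subgroupOf B.fixingSubgroup)) {m₀ m m' : ℕ}
    {R₀ R R' : IntermediateField ℚ Qb} (hR₀ : RealLayer p ι m₀ R₀) (hR : RealLayer p ι m R)
    (hR' : RealLayer p ι m' R') (hRR₀ : R₀ ≤ R) (hRR : R ≤ R') {q₀ q q' : ℕ}
    (hq₀ : finrank ℚ (B ⊔ R₀ : IntermediateField ℚ Qb) = q₀ * finrank ℚ B)
    (hq : finrank ℚ (B ⊔ R : IntermediateField ℚ Qb) = q * finrank ℚ B)
    (hq' : finrank ℚ (B ⊔ R' : IntermediateField ℚ Qb) = q' * finrank ℚ B)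
    {C E C₀ E₀ T g s : ℕ} (hC : DegLe p (K ⊔ R) C) (hE : ¬ DegLe p (F ⊔ R) E)
    (hC₀ : ¬ DegLe p (K ⊔ R₀) C₀) (hE₀ : DegLe p (F ⊔ R₀) E₀)
    (hgap : C * E₀ < p ^ (g * (q - q₀)) * ((C₀ + 1) * (E + 1)))
    (hgs : g ≤ s + 1 ∨ g ≤ r) (hT : DegLe p (F ⊔ R') T) :
    DegLe p (K ⊔ R') (C * p ^ (s * (q' - q)) * T / (E + 1)) := by
  have hBK := hBF.trans hFK
  have hfF : FiniteDimensional ℚ F := fd_of_le hFK
  have hfB : FiniteDimensional ℚ B := fd_of_le hBK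
  have hfR₀ := layer_fd hp.out hR₀.1
  have hfR := layer_fd hp.out hR.1
  have hfR' := layer_fd hp.out hR'.1
  have hR₀n := layer_normal hp.out hR₀.1
  have hRn := layer_normal hp.out hR.1
  have hR'n := layer_normal hp.out hR'.1
  obtain ⟨hi₀, e₀, he₀⟩ := layer_index hR₀ hq₀
  obtain ⟨hi, e, he⟩ := layer_index hR hq
  obtain ⟨hi', e', he'⟩ := layer_index hR' hq'
  subst he₀
  subst he
  subst he'
  obtain ⟨γ, w₀, hγK, hγI, hγ, htot⟩ := tower_data hBK hKn hKp hram hR' hi'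
  rw [← hrk_of (p := p) hBK K R hBK] at hC
  rw [← hrk_of (p := p) hBK F R hBF] at hE
  rw [← hrk_of (p := p) hBK K R₀ hBK] at hC₀
  rw [← hrk_of (p := p) hBK F R₀ hBF] at hE₀
  rw [← hrk_of (p := p) hBK F R' hBF] at hT
  rw [← hrk_of (p := p) hBK K R' hBK]
  refine rate5 (𝔾 := B.fixingSubgroup) (Ω := ValuationSubring Qb) t_TR3 ?_ hKn hFn
    (hR₀n.subgroupOf _) (hRn.subgroupOf _) (hR'n.subgroupOf _)
    (fun x hx => fixingSubgroup_le hFK hx) (fun x hx => fixingSubgroup_le hRR₀ hx)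
    (fun x hx => fixingSubgroup_le hRR hx) ?_ hKp hi₀ hi hi' hγK hγI hγ htot (killsSmall_quot hr)
    hC hE hC₀ hE₀ hgap hgs hT
  · intro g A x hx
    exact inertia_conj (g : Gal(Qb/ℚ)) A x hx
  · intro h
    exact hKp (h ▸ dvd_zero p)

theorem conc_field (hBF : B ≤ F) (hFK : F ≤ K)
    (hKn : (K.fixingSubgroup.subgroupOf B.fixingSubgroup).Normal)
    (hFn : (F.fixingSubgroup.subgroupOf B.fixingSubgroup).Normal)
    (hKp : ¬ p ∣ (K.fixingSubgroup.subgroupOf B.fixingSubgroup).index)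
    (hram : TotRam p ι K) {m₀ m m' : ℕ}
    {R₀ R R' : IntermediateField ℚ Qb} (hR₀ : RealLayer p ι m₀ R₀) (hR : RealLayer p ι m R)
    (hR' : RealLayer p ι m' R') (hRR₀ : R₀ ≤ R) (hRR : R ≤ R') {q₀ q q' : ℕ}
    (hq₀ : finrank ℚ (B ⊔ R₀ : IntermediateField ℚ Qb) = q₀ * finrank ℚ B)
    (hq : finrank ℚ (B ⊔ R : IntermediateField ℚ Qb) = q * finrank ℚ B)
    (hq' : finrank ℚ (B ⊔ R' : IntermediateField ℚ Qb) = q' * finrank ℚ B)
    {c₀ e₀ c e c' e' : ℕ} (hc₀ : DegIs p (K ⊔ R₀) c₀) (he₀ : DegIs p (F ⊔ R₀) e₀)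
    (hc : DegIs p (K ⊔ R) c) (he : DegIs p (F ⊔ R) e) (hc' : DegIs p (K ⊔ R') c')
    (he' : DegIs p (F ⊔ R') e') :
    c' ^ (q - q₀) * c₀ ^ (q' - q) * e ^ (q' - q₀) ≤ c ^ (q' - q₀) * e' ^ (q - q₀) * e₀ ^ (q' - q) := by
  have hBK := hBF.trans hFK
  have hfF : FiniteDimensional ℚ F := fd_of_le hFK
  have hfB : FiniteDimensional ℚ B := fd_of_le hBK
  have hfR₀ := layer_fd hp.out hR₀.1
  have hfR := layer_fd hp.out hR.1
  have hfR' := layer_fd hp.out hR'.1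
  have hR₀n := layer_normal hp.out hR₀.1
  have hRn := layer_normal hp.out hR.1
  have hR'n := layer_normal hp.out hR'.1
  obtain ⟨hi₀, e₁, he₁⟩ := layer_index hR₀ hq₀
  obtain ⟨hi, e₂, he₂⟩ := layer_index hR hq
  obtain ⟨hi', e₃, he₃⟩ := layer_index hR' hq'
  subst he₁
  subst he₂
  subst he₃
  obtain ⟨γ, w₀, hγK, hγI, hγ, htot⟩ := tower_data hBK hKn hKp hram hR' hi'
  obtain ⟨C₀, rfl, hC₀⟩ := hc₀.succ
  obtain ⟨C₂, rfl, hC₂⟩ := hc'.succ
  obtain ⟨E, rfl, hE⟩ := he.succ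
  have hC := hc.1
  have hE₀ := he₀.1
  have hE₂ := he'.1
  rw [← hrk_of (p := p) hBK K R hBK] at hC
  rw [← hrk_of (p := p) hBK F R hBF] at hE
  rw [← hrk_of (p := p) hBK K R₀ hBK] at hC₀
  rw [← hrk_of (p := p) hBK F R₀ hBF] at hE₀
  rw [← hrk_of (p := p) hBK F R' hBF] at hE₂
  rw [← hrk_of (p := p) hBK K R' hBK] at hC₂
  have hI : ∀ (g : B.fixingSubgroup) (A : ValuationSubring Qb), ∀ x ∈ (inertia A).subgroupOf B.fixingSubgroup,
      g * x * g⁻¹ ∈ (inertia (g • A)).subgroupOf B.fixingSubgroup := by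
    intro g A x hx
    exact inertia_conj (g : Gal(Qb/ℚ)) A x hx
  refine conc5 (𝔾 := B.fixingSubgroup) (Ω := ValuationSubring Qb) t_TR3 hI hKn hFn
    (hR₀n.subgroupOf _) (hRn.subgroupOf _) (hR'n.subgroupOf _)
    (fun x hx => fixingSubgroup_le hFK hx) (fun x hx => fixingSubgroup_le hRR₀ hx)
    (fun x hx => fixingSubgroup_le hRR hx) ?_ hKp hi₀ hi hi' hγK hγI hγ htot
    hC hE hC₀ hE₀ hC₂ hE₂
  intro h
  exact hKp (h ▸ dvd_zero p)

end

end Pool.Agent.V5helper60.GM
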