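import Pool.Agent.V5helper60.GM.Conc6
import Pool.Agent.V5helper60.GM.Asm8
import Pool.Agent.V5helper60.GM.Def9

/-!
# Concavity and growth of the absolute rank: number fields
-/

set_option autoImplicit false

namespace Pool.Agent.V5helper60.GM

open IntermediateField Module Pool.Agent.Q60.MU Pool.Agent.W5h77.MB Pool.Agent.W5h33.DF
open scoped Pointwise commutatorElement

section
variable {p : ℕ} [hp : Fact p.Prime] {ι : Qb →+* ℂ} {K : IntermediateField ℚ Qb}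

theorem self_normal (K : IntermediateField ℚ Qb) :
    (K.fixingSubgroup.subgroupOf K.fixingSubgroup).Normal := by
  rw [Subgroup.subgroupOf_self]
  infer_instance

theorem self_index (K : IntermediateField ℚ Qb) :
    (K.fixingSubgroup.subgroupOf K.fixingSubgroup).index = 1 := by
  rw [Subgroup.subgroupOf_self, Subgroup.index_top]

theorem self_coprime (K : IntermediateField ℚ Qb) :
    ¬ p ∣ (K.fixingSubgroup.subgroupOf K.fixingSubgroup).index := by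
  rw [self_index]
  exact hp.out.not_dvd_one

theorem inertia_act (K : IntermediateField ℚ Qb) (g : K.fixingSubgroup) (A : ValuationSubring Qb) :
    ∀ x ∈ (inertia A).subgroupOf K.fixingSubgroup,
      g * x * g⁻¹ ∈ (inertia (g • A)).subgroupOf K.fixingSubgroup := by
  intro x hx
  exact inertia_conj (g : Gal(Qb/ℚ)) A x hx

variable [hfK : FiniteDimensional ℚ K]

theorem mono_K (hram : TotRam p ι K) {m₀ m : ℕ}
    {R₀ R : IntermediateField ℚ Qb} (hR₀ : RealLayer p ι m₀ R₀) (hR : RealLayer p ι m R)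
    (hRR₀ : R₀ ≤ R) {q₀ q : ℕ}
    (hq₀ : finrank ℚ (K ⊔ R₀ : IntermediateField ℚ Qb) = q₀ * finrank ℚ K)
    (hq : finrank ℚ (K ⊔ R : IntermediateField ℚ Qb) = q * finrank ℚ K)
    {C C₀ : ℕ} (hC : DegLe p (K ⊔ R) C) (hC₀ : ¬ DegLe p (K ⊔ R₀) C₀) : C₀ + 1 ≤ C := by
  have hfR₀ := layer_fd hp.out hR₀.1
  have hfR := layer_fd hp.out hR.1
  have hR₀n := layer_normal hp.out hR₀.1
  have hRn := layer_normal hp.out hR.1
  obtain ⟨hi₀, e₀, he₀⟩ := layer_index hR₀ hq₀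
  obtain ⟨hi, e, he⟩ := layer_index hR hq
  subst he₀
  subst he
  have hKp := self_coprime (p := p) K
  obtain ⟨γ, w₀, hγK, hγI, hγ, htot⟩ := tower_data le_rfl (self_normal K) hKp hram hR hi
  rw [← hrk_of (p := p) le_rfl K R le_rfl] at hC
  rw [← hrk_of (p := p) le_rfl K R₀ le_rfl] at hC₀
  refine mono6 (𝔾 := K.fixingSubgroup) (Ω := ValuationSubring Qb) (inertia_act K) (self_normal K)
    (hR₀n.subgroupOf _) (hRn.subgroupOf _) (fun x hx => fixingSubgroup_le hRR₀ hx)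
    (by rw [self_index]; exact one_ne_zero) hKp hi₀ hi hγK hγI hγ htot ?_ hC hC₀
  have h1 : (K.fixingSubgroup.subgroupOf K.fixingSubgroup ⊓
      R.fixingSubgroup.subgroupOf K.fixingSubgroup : Subgroup K.fixingSubgroup) =
      R.fixingSubgroup.subgroupOf K.fixingSubgroup := by
    rw [Subgroup.subgroupOf_self, top_inf_eq]
  rw [h1]
  exact R.fixingSubgroup_isOpen.preimage continuous_subtype_val

theorem rate_K (hram : TotRam p ι K) {m₀ m m' : ℕ}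
    {R₀ R R' : IntermediateField ℚ Qb} (hR₀ : RealLayer p ι m₀ R₀) (hR : RealLayer p ι m R)
    (hR' : RealLayer p ι m' R') (hRR₀ : R₀ ≤ R) (hRR : R ≤ R') {q₀ q q' : ℕ}
    (hq₀ : finrank ℚ (K ⊔ R₀ : IntermediateField ℚ Qb) = q₀ * finrank ℚ K)
    (hq : finrank ℚ (K ⊔ R : IntermediateField ℚ Qb) = q * finrank ℚ K)
    (hq' : finrank ℚ (K ⊔ R' : IntermediateField ℚ Qb) = q' * finrank ℚ K)
    {C C₀ s : ℕ} (hC : DegLe p (K ⊔ R) C) (hC₀ : ¬ DegLe p (K ⊔ R₀) C₀)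
    (hgap : C < p ^ ((s + 1) * (q - q₀)) * (C₀ + 1)) :
    DegLe p (K ⊔ R') (C * p ^ (s * (q' - q))) := by
  have hfR₀ := layer_fd hp.out hR₀.1
  have hfR := layer_fd hp.out hR.1
  have hfR' := layer_fd hp.out hR'.1
  have hR₀n := layer_normal hp.out hR₀.1
  have hRn := layer_normal hp.out hR.1
  have hR'n := layer_normal hp.out hR'.1
  obtain ⟨hi₀, e₀, he₀⟩ := layer_index hR₀ hq₀
  obtain ⟨hi, e, he⟩ := layer_index hR hq
  obtain ⟨hi', e', he'⟩ := layer_index hR' hq'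
  subst he₀
  subst he
  subst he'
  have hKp := self_coprime (p := p) K
  obtain ⟨γ, w₀, hγK, hγI, hγ, htot⟩ := tower_data le_rfl (self_normal K) hKp hram hR' hi'
  rw [← hrk_of (p := p) le_rfl K R le_rfl] at hC
  rw [← hrk_of (p := p) le_rfl K R₀ le_rfl] at hC₀
  rw [← hrk_of (p := p) le_rfl K R' le_rfl]
  exact rate6 (𝔾 := K.fixingSubgroup) (Ω := ValuationSubring Qb) (inertia_act K) (self_normal K)
    (hR₀n.subgroupOf _) (hRn.subgroupOf _) (hR'n.subgroupOf _)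
    (fun x hx => fixingSubgroup_le hRR₀ hx) (fun x hx => fixingSubgroup_le hRR hx)
    (by rw [self_index]; exact one_ne_zero) hKp hi₀ hi hi' hγK hγI hγ htot hC hC₀ hgap

theorem conc_K (hram : TotRam p ι K) {m₀ m m' : ℕ}
    {R₀ R R' : IntermediateField ℚ Qb} (hR₀ : RealLayer p ι m₀ R₀) (hR : RealLayer p ι m R)
    (hR' : RealLayer p ι m' R') (hRR₀ : R₀ ≤ R) (hRR : R ≤ R') {q₀ q q' : ℕ}
    (hq₀ : finrank ℚ (K ⊔ R₀ : IntermediateField ℚ Qb) = q₀ * finrank ℚ K)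
    (hq : finrank ℚ (K ⊔ R : IntermediateField ℚ Qb) = q * finrank ℚ K)
    (hq' : finrank ℚ (K ⊔ R' : IntermediateField ℚ Qb) = q' * finrank ℚ K)
    {c₀ c c' : ℕ} (hc₀ : DegIs p (K ⊔ R₀) c₀)
    (hc : DegIs p (K ⊔ R) c) (hc' : DegIs p (K ⊔ R') c') :
    c' ^ (q - q₀) * c₀ ^ (q' - q) ≤ c ^ (q' - q₀) := by
  have hfR₀ := layer_fd hp.out hR₀.1
  have hfR := layer_fd hp.out hR.1
  have hfR' := layer_fd hp.out hR'.1
  have hR₀n := layer_normal hp.out hR₀.1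
  have hRn := layer_normal hp.out hR.1
  have hR'n := layer_normal hp.out hR'.1
  obtain ⟨hi₀, e₁, he₁⟩ := layer_index hR₀ hq₀
  obtain ⟨hi, e₂, he₂⟩ := layer_index hR hq
  obtain ⟨hi', e₃, he₃⟩ := layer_index hR' hq'
  subst he₁
  subst he₂
  subst he₃
  have hKp := self_coprime (p := p) K
  obtain ⟨γ, w₀, hγK, hγI, hγ, htot⟩ := tower_data le_rfl (self_normal K) hKp hram hR' hi'
  obtain ⟨C₀, rfl, hC₀⟩ := hc₀.succ
  obtain ⟨C₂, rfl, hC₂⟩ := hc'.succ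
  have hC := hc.1
  rw [← hrk_of (p := p) le_rfl K R le_rfl] at hC
  rw [← hrk_of (p := p) le_rfl K R₀ le_rfl] at hC₀
  rw [← hrk_of (p := p) le_rfl K R' le_rfl] at hC₂
  exact conc6 (𝔾 := K.fixingSubgroup) (Ω := ValuationSubring Qb) (inertia_act K) (self_normal K)
    (hR₀n.subgroupOf _) (hRn.subgroupOf _) (hR'n.subgroupOf _)
    (fun x hx => fixingSubgroup_le hRR₀ hx) (fun x hx => fixingSubgroup_le hRR hx)
    (by rw [self_index]; exact one_ne_zero) hKp hi₀ hi hi' hγK hγI hγ htot hC hC₀ hC₂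

theorem k_mono (hram : TotRam p ι K) {R₀ R : IntermediateField ℚ Qb} (h : Layers p ι R₀ R)
    {q₀ c₀ q c : ℕ} (hv₀ : Value p K R₀ q₀ c₀) (hv : Value p K R q c) : c₀ ≤ c := by
  obtain ⟨⟨m₀, hR₀⟩, ⟨m, hR⟩, hle⟩ := h
  have hfR₀ := layer_fd hp.out hR₀.1
  obtain ⟨C₀, rfl, hC₀⟩ := hv₀.2.succ
  exact mono_K hram hR₀ hR hle hv₀.1 hv.1 hv.2.1 hC₀

theorem k_conc (hram : TotRam p ι K) {R₀ R R' : IntermediateField ℚ Qb} (h : Layers p ι R₀ R)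
    (h' : Layers p ι R R')
    {q₀ c₀ q c q' c' : ℕ} (hv₀ : Value p K R₀ q₀ c₀) (hv : Value p K R q c)
    (hv' : Value p K R' q' c') : c' ^ (q - q₀) * c₀ ^ (q' - q) ≤ c ^ (q' - q₀) := by
  obtain ⟨⟨m₀, hR₀⟩, ⟨m, hR⟩, hle₀⟩ := h
  obtain ⟨-, ⟨m', hR'⟩, hle⟩ := h'
  exact conc_K hram hR₀ hR hR' hle₀ hle hv₀.1 hv.1 hv'.1 hv₀.2 hv.2 hv'.2

theorem k_above_raw (hram : TotRam p ι K) {s : ℕ} {R₀ R R' : IntermediateField ℚ Qb}
    (h1 : Layers p ι R₀ R) (h2 : Layers p ι R R') (hg : RankGrowthLt p K (s + 1) R₀ R)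
    {q c q' : ℕ} (hv : Value p K R q c) (hq' : DegreeOver K R' q') :
    DegLe p (K ⊔ R') (c * p ^ (s * (q' - q))) := by
  obtain ⟨⟨m₀, hR₀⟩, ⟨m, hR⟩, hle₀⟩ := h1
  obtain ⟨-, ⟨m', hR'⟩, hle⟩ := h2
  have hfR₀ := layer_fd hp.out hR₀.1
  have hfR := layer_fd hp.out hR.1
  obtain ⟨q₀, c₀, q₁, c₁, ⟨hq₀, hc₀⟩, ⟨hq₁, hc₁⟩, hlt⟩ := hg
  obtain ⟨hq, hcc⟩ := hv
  have k1 : q₁ = q := Nat.eq_of_mul_eq_mul_right finrank_pos (hq₁.symm.trans hq)
  have k2 : c₁ = c := le_antisymm (hc₁.le hcc.1) (hcc.le hc₁.1)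
  subst k1
  subst k2
  obtain ⟨c₀', rfl, hc₀'⟩ := hc₀.succ
  exact rate_K hram hR₀ hR hR' hle₀ hle hq₀ hq hq' hcc.1 hc₀' hlt

theorem k_above (hram : TotRam p ι K) {s : ℕ} {R₀ R R' : IntermediateField ℚ Qb}
    (h1 : Layers p ι R₀ R) (h2 : Layers p ι R R') (hg : RankGrowthLt p K (s + 1) R₀ R)
    {q c q' : ℕ} (hv : Value p K R q c) (hq' : DegreeOver K R' q') :
    ∃ c', DegIs p (K ⊔ R') c' ∧ c' ≤ p ^ (s * (q' - q)) * c := by
  obtain ⟨c', hle, hc'⟩ := degIs_exists (k_above_raw hram h1 h2 hg hv hq')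
  exact ⟨c', hc', hle.trans (mul_comm _ _).le⟩

theorem k_rate_of_pair (hram : TotRam p ι K) {s : ℕ} {R₀ R : IntermediateField ℚ Qb}
    (h1 : Layers p ι R₀ R) (hg : RankGrowthLt p K (s + 1) R₀ R) : RateLe p ι K K s := by
  have hg' := hg
  obtain ⟨q₀, c₀, q, c, -, hv, -⟩ := hg'
  obtain ⟨m, hR⟩ := h1.2.1
  refine ⟨c + c * R.fixingSubgroup.index, fun R' q' hR' hq' => ?_⟩
  obtain ⟨⟨m', hR'⟩, -, -⟩ := hR'
  have hpos : 1 ≤ p ^ (s * q') := pow_pos hp.out.pos _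
  rcases layers_total ⟨m, hR⟩ ⟨m', hR'⟩ with h | h
  · refine degLe_mono (k_above_raw hram h1 ⟨⟨m, hR⟩, ⟨m', hR'⟩, h⟩ hg hv hq') ?_
    exact Nat.mul_le_mul (Nat.le_add_right _ _) (Nat.pow_le_pow_right hp.out.pos
          (Nat.mul_le_mul_left _ (Nat.sub_le _ _)))
  · refine degLe_mono (degLe_down hR hR' h hv.2.1) ?_
    calc c * R.fixingSubgroup.index = (c * R.fixingSubgroup.index) * 1 := (mul_one _).symm
      _ ≤ (c + c * R.fixingSubgroup.index) * p ^ (s * q') :=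
        Nat.mul_le_mul (Nat.le_add_left _ _) hpos

theorem k_pair_of_rate {s : ℕ} (h : RateLe p ι K K s) {R₀ : IntermediateField ℚ Qb}
    (hR₀ : ∃ m, RealLayer p ι m R₀) :
    ∃ N : ℕ, ∀ R q, Layers p ι R₀ R → DegreeOver K R q → N ≤ q →
      RankGrowthLt p K (s + 1) R₀ R := by
  obtain ⟨C, hC⟩ := h
  obtain ⟨m₀, hR₀⟩ := hR₀
  have hfR₀ := layer_fd hp.out hR₀.1
  obtain ⟨q₀, hq₀, -⟩ := exists_degreeOver hfK hR₀
  refine ⟨C * p ^ ((s + 1) * q₀), fun R q hR hq hN => ?_⟩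
  obtain ⟨-, ⟨m, hR⟩, hle⟩ := hR
  have hfR := layer_fd hp.out hR.1
  obtain ⟨c₀, -, hc₀⟩ := degIs_exists (hC R₀ q₀ ⟨⟨m₀, hR₀⟩, ⟨m₀, hR₀⟩, le_rfl⟩ hq₀)
  obtain ⟨c, hcle, hc⟩ := degIs_exists (hC R q ⟨⟨m, hR⟩, ⟨m, hR⟩, le_rfl⟩ hq)
  refine ⟨q₀, c₀, q, c, ⟨hq₀, hc₀⟩, ⟨hq, hc⟩, ?_⟩
  obtain ⟨c₁, rfl, -⟩ := hc₀.succ
  have hqq := degreeOver_le hR₀ hR hle hq₀ hq
  have h1 : C * p ^ ((s + 1) * q₀) < p ^ q := lt_of_le_of_lt hN (Nat.lt_pow_self hp.out.one_lt)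
  have h2 : c * p ^ ((s + 1) * q₀) < p ^ ((s + 1) * (q - q₀)) * p ^ ((s + 1) * q₀) := by
    calc c * p ^ ((s + 1) * q₀) ≤ C * p ^ (s * q) * p ^ ((s + 1) * q₀) :=
          Nat.mul_le_mul_right _ hcle
      _ = (C * p ^ ((s + 1) * q₀)) * p ^ (s * q) := by ring
      _ < p ^ q * p ^ (s * q) := Nat.mul_lt_mul_of_pos_right h1 (pow_pos hp.out.pos _)
      _ = p ^ ((s + 1) * (q - q₀)) * p ^ ((s + 1) * q₀) := by
        rw [← pow_add, ← pow_add]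
        congr 1
        rw [← Nat.mul_add, Nat.sub_add_cancel hqq]
        ring
  have h3 := Nat.lt_of_mul_lt_mul_right h2
  calc c < p ^ ((s + 1) * (q - q₀)) * 1 := by rwa [mul_one]
    _ ≤ p ^ ((s + 1) * (q - q₀)) * (c₁ + 1) := Nat.mul_le_mul_left _ (Nat.succ_pos _)

theorem k_criterion (hram : TotRam p ι K) (s : ℕ) :
    (RateLe p ι K K s ↔ ∃ R₀ R, Layers p ι R₀ R ∧ RankGrowthLt p K (s + 1) R₀ R) ∧
    (RateLe p ι K K s ↔ ∀ R₀, Layers p ι R₀ R₀ → ∃ N, ∀ R q, Layers p ι R₀ R →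
        DegreeOver K R q → N ≤ q → RankGrowthLt p K (s + 1) R₀ R) := by
  have hb : Layers p ι ⊥ ⊥ := ⟨⟨0, layer_bot⟩, ⟨0, layer_bot⟩, le_rfl⟩
  have h1 : (∀ R₀, Layers p ι R₀ R₀ → ∃ N, ∀ R q, Layers p ι R₀ R →
      DegreeOver K R q → N ≤ q → RankGrowthLt p K (s + 1) R₀ R) →
      ∃ R₀ R, Layers p ι R₀ R ∧ RankGrowthLt p K (s + 1) R₀ R := by
    intro h
    obtain ⟨N, hN⟩ := h ⊥ hb
    obtain ⟨R, q, hR, hq, hle⟩ := large_layer (p := p) ι (le_refl K) N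
    exact ⟨⊥, R, hR, hN R q hR hq hle⟩
  have h2 : RateLe p ι K K s → ∀ R₀, Layers p ι R₀ R₀ → ∃ N, ∀ R q, Layers p ι R₀ R →
      DegreeOver K R q → N ≤ q → RankGrowthLt p K (s + 1) R₀ R := fun h R₀ hR₀ =>
    k_pair_of_rate h hR₀.1
  have h3 : (∃ R₀ R, Layers p ι R₀ R ∧ RankGrowthLt p K (s + 1) R₀ R) → RateLe p ι K K s := by
    rintro ⟨R₀, R, hR, hg⟩
    exact k_rate_of_pair hram hR hg
  exact ⟨⟨fun h => h1 (h2 h), h3⟩, ⟨h2, fun h => h3 (h1 h)⟩⟩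

omit hp in
/-- The primes above `p` are totally ramified from some layer on. -/
theorem k_totRam (hp : p.Prime) (ι : Qb →+* ℂ) (K : IntermediateField ℚ Qb) [FiniteDimensional ℚ K] :
    ∃ s, ∀ R₁, RealLayer p ι s R₁ → TotRam p ι (K ⊔ R₁) ∧
      (MuVanishes p ι (K ⊔ R₁) ↔ MuVanishes p ι K) := by
  have hpf : Fact p.Prime := ⟨hp⟩
  set L : IntermediateField ℚ Qb := normalClosure ℚ K Qb with hL
  have hKL : K ≤ L := K.le_normalClosure
  have hfL : FiniteDimensional ℚ L := inferInstance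
  have hnL : Normal ℚ L := normalClosure.normal ℚ K Qb
  have hN : L.fixingSubgroup.Normal := inferInstance
  have h0 : L.fixingSubgroup.index ≠ 0 := index_ne_zero' L
  obtain ⟨s, n, hn, hM⟩ := Nat.exists_eq_pow_mul_and_not_dvd h0 p hp.ne_one
  refine ⟨s, fun R₁ hR₁ => ⟨totRam_of_pow (n := n) hn (fun g => ?_) hR₁, muVanishes_sup hR₁⟩⟩
  rw [mul_comm, ← hM]
  exact fixingSubgroup_le hKL (L.fixingSubgroup.pow_index_mem g)

omit hp in
theorem k_quadratic (hp : p.Prime) (ι : Qb →+* ℂ) {k : IntermediateField ℚ Qb} (hk : finrank ℚ k = 2)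
    (hG : GaloisOver k K) {d n s : ℕ} (hd : finrank ℚ K = d * finrank ℚ k) (hn : ¬ p ∣ n)
    (hns : 2 * d = n * p ^ s) : ∀ R₁, RealLayer p ι s R₁ → TotRam p ι (K ⊔ R₁) := by
  have hpf : Fact p.Prime := ⟨hp⟩
  intro R₁ hR₁
  refine totRam_of_pow (n := n) hn (fun g => ?_) hR₁
  rw [← hns]
  exact pow_mem_of_quadratic hk hG.1 hG hd g

end

end Pool.Agent.V5helper60.GM
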