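import Pool.Agent.W5h33.DF.Main

/-!
# Comparison of two layers, with the contribution of the ramified primes
-/

set_option autoImplicit false

namespace Pool.Agent.V5helper60.GM

open Subgroup Pool.Agent.Q60.MU Pool.Agent.W5h77.MB Pool.Agent.W5h33.DF
open Pool.Agent.X310.Mu (nm nm_eq nm_of_fix nm_fix eq_one_of_cop)
open scoped commutatorElement

variable {𝔾 : Type} [Group 𝔾]

/-- Comparison of the module of the higher layer and the lower layer. -/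
theorem key2 [TopologicalSpace 𝔾] [ContinuousMul 𝔾] {p : ℕ} [hp : Fact p.Prime] {Ω : Type}
    {I : Ω → Subgroup 𝔾} (𝒦 𝒦' D' W' ℱ ℱ' M : Subgroup 𝔾) [h𝒦 : 𝒦.Normal] [hW'n : W'.Normal]
    (hℱ'n : ℱ'.Normal) (hKK : 𝒦' ≤ 𝒦)
    (hKF : 𝒦 ≤ ℱ) (hFF : ℱ' ≤ ℱ) (hFD : ℱ' ≤ D') (hnF : ¬ p ∣ 𝒦.relIndex ℱ)
    (hMo : IsOpen (M : Set 𝔾)) (hMf : M.relIndex ℱ ≠ 0) (hMg : gens p I ℱ ⊆ M)
    (hWK : W' ≤ 𝒦') (hWo : IsOpen (W' : Set 𝔾)) (hWf : W'.relIndex 𝒦 ≠ 0)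
    (ha : ∀ x ∈ 𝒦', x ^ p ∈ W') (hb : ∀ a ∈ 𝒦, ∀ b ∈ 𝒦, ⁅a, b⁆ ∈ W')
    (hc : ∀ r ∈ D', ∀ a ∈ 𝒦, ⁅r, a⁆ ∈ 𝒦') (hd : ¬ p ∣ 𝒦'.relIndex D')
    (he2 : ∀ x ∈ 𝒦', (∀ z ∈ ℱ', ⁅z, x⁆ ∈ W') → x ∈ W')
    {s : ℕ} (hS : ∀ b ∈ 𝒦', ∃ S' : Subgroup 𝔾, W' ≤ S' ∧ S' ≤ 𝒦' ∧
      (∀ r ∈ D', ∀ x ∈ S', r * x * r⁻¹ ∈ S') ∧ b ∈ S' ∧ W'.relIndex S' ≤ s)
    (x₀ : 𝔾) (hx₀ : x₀ ∈ 𝒦)
    (hf : ∀ x ∈ 𝒦, ∀ A, x ∈ I A → x ∈ W' ∨
      ∃ (g : 𝔾) (i : ℤ), (g⁻¹ * x * g) * (x₀ ^ i)⁻¹ ∈ W')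
    (hns : ∀ g : 𝔾, ∃ d ∈ D', (g * x₀ * g⁻¹) * (d * x₀ * d⁻¹)⁻¹ ∈ W')
    {C : ℕ} (hC : RankLe p I 𝒦 C) : W'.relIndex 𝒦' * M.relIndex ℱ ≤ C * s := by
  classical
  have hWK2 : W' ≤ 𝒦 := hWK.trans hKK
  have hfin : Finite (VV 𝒦 W') := by
    apply Nat.finite_of_card_ne_zero
    rw [card_VV]
    exact hWf
  have hcomm : ∀ u v : VV 𝒦 W', u * v = v * u := by
    intro u v
    obtain ⟨x, rfl⟩ := th_surj 𝒦 W' u
    obtain ⟨y, rfl⟩ := th_surj 𝒦 W' v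
    have h3 : th 𝒦 W' ⁅x, y⁆ = 1 := by
      rw [th_eq_one]
      exact hb x x.2 y y.2
    rw [map_commutatorElement, commutatorElement_eq_one_iff_mul_comm] at h3
    exact h3
  let _ : CommGroup (VV 𝒦 W') := { (inferInstance : Group (VV 𝒦 W')) with mul_comm := hcomm }
  -- the action of a commutator
  have hact : ∀ (g : 𝔾) (x : 𝒦) (h : ⁅g, (x : 𝔾)⁆ ∈ 𝒦),
      act 𝒦 W' g (th 𝒦 W' x) * (th 𝒦 W' x)⁻¹ = th 𝒦 W' ⟨⁅g, (x : 𝔾)⁆, h⟩ := by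
    intro g x h
    rw [act_th, ← map_inv, ← map_mul]
    rfl
  have hmemK : ∀ (g : 𝔾) (x : 𝒦), ⁅g, (x : 𝔾)⁆ ∈ 𝒦 := by
    intro g x
    rw [commutatorElement_def]
    exact 𝒦.mul_mem (h𝒦.conj_mem x x.2 g) (𝒦.inv_mem x.2)
  have hacteq : ∀ (g : 𝔾) (x : 𝒦), act 𝒦 W' g (th 𝒦 W' x) = th 𝒦 W' x ↔ ⁅g, (x : 𝔾)⁆ ∈ W' := by
    intro g x
    rw [← mul_inv_eq_one, hact g x (hmemK g x), th_eq_one]
  let B : Subgroup (VV 𝒦 W') := (𝒦'.subgroupOf 𝒦).map (th 𝒦 W')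
  have hA : ∀ v ∈ B, (∀ z ∈ ℱ', act 𝒦 W' z v = v) → v = 1 := by
    rintro _ ⟨x, hx, rfl⟩ h
    rw [th_eq_one]
    exact he2 x hx fun z hz => (hacteq z x).1 (h z hz)
  let D₃ : Subgroup (MulAut (VV 𝒦 W')) := D'.map (act 𝒦 W')
  have hD₃ : ¬ p ∣ Nat.card D₃ := by
    intro hdvd
    apply hd
    refine hdvd.trans ?_
    have h3 : D₃ = ((act 𝒦 W').comp D'.subtype).range := by
      ext δ
      constructor
      · rintro ⟨l, hl, rfl⟩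
        exact ⟨⟨l, hl⟩, rfl⟩
      · rintro ⟨l, rfl⟩
        exact ⟨l, l.2, rfl⟩
    rw [h3, ← index_ker]
    show _ ∣ (𝒦'.subgroupOf D').index
    apply index_dvd_of_le
    intro x hx
    rw [MonoidHom.mem_ker]
    ext1 v
    obtain ⟨y, rfl⟩ := th_surj 𝒦 W' v
    rw [MulAut.one_apply]
    exact (hacteq x y).2 (hb x (hKK hx) y y.2)
  let DF : Subgroup (MulAut (VV 𝒦 W')) := ℱ'.map (act 𝒦 W')
  have hDF : ¬ p ∣ Nat.card DF := fun h => hD₃ (h.trans (Subgroup.card_dvd_of_le (map_mono hFD)))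
  let FixF : Subgroup (VV 𝒦 W') :=
    { carrier := {v | ∀ r ∈ ℱ', act 𝒦 W' r v = v}
      mul_mem' := by
        intro a b ha hb r hr
        rw [map_mul, ha r hr, hb r hr]
      one_mem' := fun r _ => map_one _
      inv_mem' := by
        intro a ha r hr
        rw [map_inv, ha r hr] }
  have hFixstab : ∀ (g : 𝔾), ∀ v ∈ FixF, act 𝒦 W' g v ∈ FixF := by
    intro g v hv r hr
    have h1 : r * g = g * (g⁻¹ * r * g⁻¹⁻¹) := by group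
    rw [← MulAut.mul_apply, ← map_mul, h1, map_mul, MulAut.mul_apply,
      hv _ (hℱ'n.conj_mem r hr g⁻¹)]
  -- the commutators with elements of `D'` have order dividing `p`
  have hup : ∀ r ∈ D', ∀ y : VV 𝒦 W', act 𝒦 W' r y * y⁻¹ ∈ B ∧ (act 𝒦 W' r y * y⁻¹) ^ p = 1 := by
    intro r hr y
    obtain ⟨x, rfl⟩ := th_surj 𝒦 W' y
    rw [hact r x (hmemK r x)]
    refine ⟨⟨_, hc r hr x x.2, rfl⟩, ?_⟩
    rw [← map_pow, th_eq_one]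
    exact ha _ (hc r hr x x.2)
  have hpfix : ∀ y : VV 𝒦 W', y ^ p ∈ FixF := by
    intro y r hr
    have h1 := (hup r (hFD hr) y).2
    rw [mul_pow, inv_pow, mul_inv_eq_one, ← map_pow] at h1
    exact h1
  -- the element which generates the image of the inertia group
  let y₀ : VV 𝒦 W' := th 𝒦 W' ⟨x₀, hx₀⟩
  have hb₀ : nu DF y₀ * (y₀ ^ Nat.card DF)⁻¹ ∈ B := by
    apply nu_rel
    rintro _ ⟨r, hr, rfl⟩
    exact (hup r (hFD hr) y₀).1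
  obtain ⟨b, hbK, hby⟩ := hb₀
  obtain ⟨S', hS1, hS2, hS3, hS4, hS5⟩ := hS b hbK
  have hSK : S' ≤ 𝒦 := hS2.trans hKK
  let Sb : Subgroup (VV 𝒦 W') := (S'.subgroupOf 𝒦).map (th 𝒦 W')
  have hSbB : Sb ≤ B := map_mono fun x hx => hS2 hx
  have hSbstab : ∀ r ∈ D', ∀ v ∈ Sb, act 𝒦 W' r v ∈ Sb := by
    rintro r hr _ ⟨x, hx, rfl⟩
    rw [act_th]
    exact ⟨_, hS3 r hr x hx, rfl⟩
  let Hs : Subgroup (VV 𝒦 W') := FixF ⊔ Sb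
  have hHstab : ∀ r ∈ D', ∀ v ∈ Hs, act 𝒦 W' r v ∈ Hs := by
    intro r hr
    have h1 : Hs ≤ Hs.comap (act 𝒦 W' r).toMonoidHom := by
      refine sup_le (fun v hv => mem_sup_left (hFixstab r v hv))
        (fun v hv => mem_sup_right (hSbstab r hr v hv))
    exact fun v hv => h1 hv
  have hy₀ : y₀ ∈ Hs := by
    refine mem_of_cop Hs hp.out hDF ?_ (mem_sup_left (hpfix y₀))
    have h1 : nu DF y₀ ∈ FixF := by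
      intro r hr
      exact nu_fix DF ⟨r, hr, rfl⟩ _
    have h2 : th 𝒦 W' b ∈ Sb := ⟨b, hS4, rfl⟩
    have h3 : y₀ ^ Nat.card DF = (th 𝒦 W' b)⁻¹ * nu DF y₀ := by
      rw [hby, mul_inv_rev, inv_inv, inv_mul_cancel_right]
    rw [h3]
    exact Hs.mul_mem (Hs.inv_mem (mem_sup_right h2)) (mem_sup_left h1)
  have hy₀g : ∀ g : 𝔾, act 𝒦 W' g y₀ ∈ Hs := by
    intro g
    obtain ⟨d, hd, h1⟩ := hns g
    have h2 : act 𝒦 W' g y₀ = act 𝒦 W' d y₀ := by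
      rw [← mul_inv_eq_one]
      show act 𝒦 W' g (th 𝒦 W' ⟨x₀, hx₀⟩) * (act 𝒦 W' d (th 𝒦 W' ⟨x₀, hx₀⟩))⁻¹ = 1
      rw [act_th, act_th, ← map_inv, ← map_mul, th_eq_one]
      exact h1
    rw [h2]
    exact hHstab d hd _ hy₀
  set W : Subgroup 𝔾 := pre 𝒦 W' Hs with hW
  have hWle : W ≤ 𝒦 := pre_le 𝒦 W' Hs
  have hWpre : W' ≤ W := le_pre 𝒦 W' hWK2 Hs
  have hgens : gens p I 𝒦 ⊆ W := by
    rintro x ((⟨a, ha', rfl⟩ | ⟨a, ha', b, hb', rfl⟩) | ⟨hx, A, hA'⟩)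
    · show ((⟨a, ha'⟩ ^ p : 𝒦) : 𝔾) ∈ pre 𝒦 W' Hs
      rw [mem_pre, map_pow]
      exact mem_sup_left (hpfix _)
    · exact hWpre (hb a ha' b hb')
    · rcases hf x hx A hA' with h | ⟨g, i, h⟩
      · exact hWpre h
      · have hx1 : g⁻¹ * x * g ∈ 𝒦 := by
          have h1 := h𝒦.conj_mem x hx g⁻¹
          rwa [inv_inv] at h1
        have h2 : th 𝒦 W' ⟨g⁻¹ * x * g, hx1⟩ = y₀ ^ i := by
          rw [← mul_inv_eq_one]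
          show th 𝒦 W' ⟨g⁻¹ * x * g, hx1⟩ * (th 𝒦 W' ⟨x₀, hx₀⟩ ^ i)⁻¹ = 1
          rw [← map_zpow, ← map_inv, ← map_mul, th_eq_one]
          exact h
        have h4 : (⟨g * (g⁻¹ * x * g) * g⁻¹, h𝒦.conj_mem _ hx1 g⟩ : 𝒦) = ⟨x, hx⟩ :=
          Subtype.ext (by group)
        show ((⟨x, hx⟩ : 𝒦) : 𝔾) ∈ pre 𝒦 W' Hs
        rw [mem_pre, ← h4, ← act_th 𝒦 W' g ⟨g⁻¹ * x * g, hx1⟩, h2, map_zpow]
        exact Hs.zpow_mem (hy₀g g) i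
  have hidx : W.relIndex 𝒦 ≠ 0 := by
    rw [hW, pre_relIndex]
    exact Hs.index_ne_zero_of_finite
  have hMK : M.relIndex 𝒦 ≠ 0 := fun h => hMf (relIndex_eq_zero_of_le_right hKF h)
  have hMW : M.relIndex W ≠ 0 := fun h => hMK (relIndex_eq_zero_of_le_right hWle h)
  have hgensM : gens p I 𝒦 ⊆ M := by
    refine fun x hx => hMg ?_
    rcases hx with (⟨a, ha', h⟩ | ⟨a, ha', b, hb', h⟩) | ⟨hx, A, hA'⟩
    · exact Or.inl (Or.inl ⟨a, hKF ha', h⟩)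
    · exact Or.inl (Or.inr ⟨a, hKF ha', b, hKF hb', h⟩)
    · exact Or.inr ⟨hKF hx, A, hA'⟩
  have h1 := hC (W ⊓ M) (inf_le_left.trans hWle) (by
    rw [coe_inf]
    exact (Subgroup.isOpen_mono hWpre hWo).inter hMo) (relIndex_inf_ne_zero hidx hMK)
    (fun x hx => ⟨hgens hx, hgensM hx⟩)
  -- the products of elements of `W` and of `M`
  have hMn : ∀ w ∈ ℱ, ∀ m ∈ M, m ∈ ℱ → w * m * w⁻¹ ∈ M := by
    intro w hw m hm hm2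
    have h2 : w * m * w⁻¹ = ⁅w, m⁆ * m := by
      rw [commutatorElement_def]
      group
    rw [h2]
    exact M.mul_mem (hMg (Or.inl (Or.inr ⟨w, hw, m, hm2, rfl⟩))) hm
  let H : Subgroup 𝔾 :=
    { carrier := {f | ∃ w ∈ W, ∃ m ∈ M, m ∈ ℱ ∧ f = w * m}
      mul_mem' := by
        rintro _ _ ⟨w, hw, m, hm, hm2, rfl⟩ ⟨w', hw', m', hm', hm2', rfl⟩
        have hwF : w'⁻¹ ∈ ℱ := hKF (hWle (W.inv_mem hw'))
        have h3 := hMn _ hwF m hm hm2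
        refine ⟨w * w', W.mul_mem hw hw', w'⁻¹ * m * w'⁻¹⁻¹ * m', M.mul_mem h3 hm',
          ℱ.mul_mem (ℱ.mul_mem (ℱ.mul_mem hwF hm2) (ℱ.inv_mem hwF)) hm2', ?_⟩
        group
      one_mem' := ⟨1, W.one_mem, 1, M.one_mem, ℱ.one_mem, by simp⟩
      inv_mem' := by
        rintro _ ⟨w, hw, m, hm, hm2, rfl⟩
        have hwF : w ∈ ℱ := hKF (hWle hw)
        have h3 := hMn _ hwF m⁻¹ (M.inv_mem hm) (ℱ.inv_mem hm2)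
        refine ⟨w⁻¹, W.inv_mem hw, w * m⁻¹ * w⁻¹, h3,
          ℱ.mul_mem (ℱ.mul_mem hwF (ℱ.inv_mem hm2)) (ℱ.inv_mem hwF), ?_⟩
        group }
  have hHW : ∀ w ∈ W, w ∈ H := fun w hw => ⟨w, hw, 1, M.one_mem, ℱ.one_mem, by simp⟩
  have hHM : ∀ m ∈ M, m ∈ ℱ → m ∈ H := fun m hm hm2 => ⟨1, W.one_mem, m, hm, hm2, by simp⟩
  have hHp : ∀ f ∈ ℱ, f ^ p ∈ H := fun f hf' =>
    hHM _ (hMg (Or.inl (Or.inl ⟨f, hf', rfl⟩))) (ℱ.pow_mem hf' p)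
  let BM : Subgroup (VV 𝒦 W') := (M.subgroupOf 𝒦).map (th 𝒦 W')
  have hHK : ∀ k ∈ 𝒦, k ∈ H := by
    intro k hk
    refine mem_of_cop H hp.out hDF ?_ (hHp k (hKF hk))
    have h3 : nu DF (th 𝒦 W' ⟨k, hk⟩) * ((th 𝒦 W' ⟨k, hk⟩) ^ Nat.card DF)⁻¹ ∈ BM := by
      apply nu_rel
      rintro _ ⟨r, hr, rfl⟩
      rw [hact r ⟨k, hk⟩ (hmemK r ⟨k, hk⟩)]
      refine ⟨_, ?_, rfl⟩
      exact hMg (Or.inl (Or.inr ⟨r, hFF hr, k, hKF hk, rfl⟩))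
    obtain ⟨⟨m, hm𝒦⟩, hm, hmeq⟩ := h3
    have hmM : m ∈ M := hm
    obtain ⟨⟨w, hw𝒦⟩, hweq⟩ := th_surj 𝒦 W' (nu DF (th 𝒦 W' ⟨k, hk⟩))
    have hwW : w ∈ W := by
      show ((⟨w, hw𝒦⟩ : 𝒦) : 𝔾) ∈ pre 𝒦 W' Hs
      rw [mem_pre, hweq]
      refine mem_sup_left ?_
      intro r hr
      exact nu_fix DF ⟨r, hr, rfl⟩ _
    have h4 : th 𝒦 W' ((⟨m, hm𝒦⟩ : 𝒦) * ⟨k, hk⟩ ^ Nat.card DF * (⟨w, hw𝒦⟩ : 𝒦)⁻¹) = 1 := by
      rw [map_mul, map_mul, map_inv, map_pow, hmeq, hweq, inv_mul_cancel_right, mul_inv_cancel]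
    rw [th_eq_one] at h4
    have h5 : m * k ^ Nat.card DF * w⁻¹ ∈ W' := h4
    have h6 : k ^ Nat.card DF = m⁻¹ * ((m * k ^ Nat.card DF * w⁻¹) * w) := by group
    rw [h6]
    exact H.mul_mem (H.inv_mem (hHM m hmM (hKF hm𝒦)))
      (H.mul_mem (hHW _ (hWpre h5)) (hHW w hwW))
  have hHF : ∀ f ∈ ℱ, ∃ w ∈ W, ∃ m ∈ M, f = w * m := by
    intro f hf'
    have hn : (𝒦.subgroupOf ℱ).Normal := h𝒦.subgroupOf ℱ
    have h3 : f ^ 𝒦.relIndex ℱ ∈ 𝒦 := by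
      have h4 := (𝒦.subgroupOf ℱ).pow_index_mem (⟨f, hf'⟩ : ℱ)
      exact h4
    have h5 : f ∈ H := mem_of_cop H hp.out hnF (hHK _ h3) (hHp f hf')
    obtain ⟨w, hw, m, hm, -, h⟩ := h5
    exact ⟨w, hw, m, hm, h⟩
  have hMF : M.relIndex ℱ ≤ (W ⊓ M).relIndex W := by
    rw [inf_relIndex_left]
    exact relIndex_le_of_mul (hWle.trans hKF) hMW hHF
  -- the intersection of `W` and `𝒦'`
  have h2 : W ⊓ 𝒦' ≤ S' := by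
    rintro x ⟨hx1, hx2⟩
    have h3 : th 𝒦 W' ⟨x, hKK hx2⟩ ∈ Hs := (mem_pre 𝒦 W' Hs ⟨x, hKK hx2⟩).1 hx1
    obtain ⟨f, hf1, v, hv, hfv⟩ := mem_sup.1 h3
    have h4 : f = 1 := by
      refine hA f ?_ hf1
      have h5 : f = th 𝒦 W' ⟨x, hKK hx2⟩ * v⁻¹ := by rw [← hfv, mul_inv_cancel_right]
      rw [h5]
      exact B.mul_mem ⟨_, hx2, rfl⟩ (B.inv_mem (hSbB hv))
    rw [h4, one_mul] at hfv
    obtain ⟨y, hy, hyv⟩ := hv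
    have h5 : th 𝒦 W' (⟨x, hKK hx2⟩ * y⁻¹) = 1 := by
      rw [map_mul, map_inv, ← hfv, hyv, mul_inv_cancel]
    rw [th_eq_one] at h5
    have h6 : x * (y : 𝔾)⁻¹ ∈ S' := hS1 h5
    have h7 : x = x * (y : 𝔾)⁻¹ * y := by rw [inv_mul_cancel_right]
    rw [h7]
    exact S'.mul_mem h6 hy
  have h3 : W.relIndex 𝒦' ≠ 0 := fun h => hidx (relIndex_eq_zero_of_le_right hKK h)
  have h4 : W'.relIndex 𝒦' ≤ s * W.relIndex 𝒦 := by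
    have h5 : W' ≤ W ⊓ 𝒦' := le_inf hWpre hWK
    rw [← relIndex_mul_relIndex W' (W ⊓ 𝒦') 𝒦' h5 inf_le_right, inf_relIndex_right]
    refine Nat.mul_le_mul ?_ (relIndex_le_of_le_right hKK hidx)
    refine le_trans (relIndex_le_of_le_right h2 ?_) hS5
    intro h
    have h6 : W'.relIndex 𝒦' ≠ 0 := fun h6 => hWf (relIndex_eq_zero_of_le_right hKK h6)
    exact h6 (relIndex_eq_zero_of_le_right hS2 h)
  calc W'.relIndex 𝒦' * M.relIndex ℱ ≤ (s * W.relIndex 𝒦) * (W ⊓ M).relIndex W :=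
        Nat.mul_le_mul h4 hMF
    _ = s * ((W ⊓ M).relIndex W * W.relIndex 𝒦) := by ring
    _ = s * (W ⊓ M).relIndex 𝒦 := by
        rw [relIndex_mul_relIndex (W ⊓ M) W 𝒦 inf_le_left hWle]
    _ ≤ s * C := Nat.mul_le_mul_left _ h1
    _ = C * s := mul_comm _ _

end Pool.Agent.V5helper60.GM
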