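import Pool.Agent.V5helper60.GM.Stm
import Pool.Agent.V5helper60.GM.Stm2
import Pool.Agent.V5helper60.GM.Key2

/-!
# The group-theoretical theorem
-/

set_option autoImplicit false

namespace Pool.Agent.V5helper60.GM

open Subgroup Pool.Agent.Q60.MU Pool.Agent.W5h77.MB Pool.Agent.W5h33.DF
open Pool.Agent.X310.Mu (nm nm_eq nm_of_fix nm_fix eq_one_of_cop)
open scoped commutatorElement

variable {𝔾 : Type} [Group 𝔾]

theorem sup_top_of_cop {K D : Subgroup 𝔾} {p m : ℕ} (hp : p.Prime) (hKp : ¬ p ∣ K.index)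
    (hD : D.index = p ^ m) : K ⊔ D = ⊤ := by
  rw [← index_eq_one]
  have h1 : (K ⊔ D).index ∣ K.index := index_dvd_of_le le_sup_left
  have h2 : (K ⊔ D).index ∣ p ^ m := hD ▸ index_dvd_of_le le_sup_right
  obtain ⟨j, -, hj⟩ := (Nat.dvd_prime_pow hp).1 h2
  rcases Nat.eq_zero_or_pos j with h | h
  · rw [hj, h, pow_zero]
  · exact absurd ((dvd_pow_self p h.ne').trans (hj ▸ h1)) hKp

theorem main2 [TopologicalSpace 𝔾] [ContinuousMul 𝔾] {p : ℕ} [hp : Fact p.Prime]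
    (hALG : S_ALG) (hTR : S_TR)
    {Ω : Type} [MulAction 𝔾 Ω] {I : Ω → Subgroup 𝔾}
    (hI : ∀ (g : 𝔾) (w : Ω), ∀ x ∈ I w, g * x * g⁻¹ ∈ I (g • w))
    {K F D D' : Subgroup 𝔾} (hKn : K.Normal) (hFn : F.Normal) (hDn : D.Normal)
    (hD'n : D'.Normal) (hKF : K ≤ F) (hDD : D' ≤ D) (hK0 : K.index ≠ 0)
    (hKp : ¬ p ∣ K.index) {m m' : ℕ} (hDi : D.index = p ^ m)
    (hD'i : D'.index = p ^ m') (hσ : ∃ σ : 𝔾, ∀ τ, ∃ i : ℤ, τ * (σ ^ i)⁻¹ ∈ D')
    (w : Ω) (hcov : ∀ A, I A ≤ D' ∨ ∃ g : 𝔾, A = g • w)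
    (hns : ∀ g : 𝔾, ∃ d ∈ D', g • w = d • w)
    {k : Subgroup 𝔾} (hkn : k.Normal) (hkc : ∀ a ∈ k, ∀ b ∈ k, ⁅a, b⁆ ∈ K)
    (hk2 : ∃ c : 𝔾, ∀ g, g ∈ k ∨ g * c⁻¹ ∈ k)
    (hFc : F ≤ K ⊔ commutator 𝔾)
    {r : ℕ} (hr : ∀ n < r, ∀ f : 𝔾 ⧸ K →* Matrix.GeneralLinearGroup (Fin n) (ZMod p),
      ∀ a b, f a * f b = f b * f a)
    {C E T : ℕ} (hC : RankLe p I (K ⊓ D) C) (hE : ¬ RankLe p I (F ⊓ D) E)
    (hCE : C < p ^ (r * (p ^ m - 2)) * (E + 1)) (hT : RankLe p I (F ⊓ D') T) :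
    RankLe p I (K ⊓ D') (C * p ^ K.index / (E + 1) * T) := by
  classical
  intro Y hYH hYo hYf hg
  have hD'0 : D'.index ≠ 0 := by
    rw [hD'i]
    exact (pow_pos hp.out.pos m').ne'
  have hrel : ∀ L : Subgroup 𝔾, K.relIndex L ∣ K.index := fun L =>
    relIndex_dvd_index_of_normal K L
  set 𝒦' : Subgroup 𝔾 := K ⊓ D' with h𝒦'def
  have h𝒦'n : 𝒦'.Normal := normal_inf_normal K D'
  have h𝒦'0 : 𝒦'.index ≠ 0 := index_inf_ne_zero hK0 hD'0
  obtain ⟨Q, hQY, hQo, hQf, hgQ, hQn⟩ := exists_core hI (K := 𝒦') (D := ⊤)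
    (fun d _ x hx => h𝒦'n.conj_mem x hx d) (by rwa [relIndex_top_right]) hYH hYo hYf hg
  have hQK := hQY.trans hYH
  have hQnorm : Q.Normal := ⟨fun x hx g => hQn g trivial x hx⟩
  refine (relIndex_le_of_le_left hQY hQf).trans ?_
  rw [← card_VV 𝒦' Q]
  have hfin : Finite (VV 𝒦' Q) := by
    apply Nat.finite_of_card_ne_zero
    rw [card_VV]
    exact hQf
  have hcomm : ∀ u v : VV 𝒦' Q, u * v = v * u := by
    intro u v
    obtain ⟨x, rfl⟩ := th_surj 𝒦' Q u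
    obtain ⟨y, rfl⟩ := th_surj 𝒦' Q v
    have h3 : th 𝒦' Q ⁅x, y⁆ = 1 := by
      rw [th_eq_one]
      exact hgQ (Or.inl (Or.inr ⟨x, x.2, y, y.2, rfl⟩))
    rw [map_commutatorElement, commutatorElement_eq_one_iff_mul_comm] at h3
    exact h3
  have hpow : ∀ v : VV 𝒦' Q, v ^ p = 1 := by
    intro v
    obtain ⟨x, rfl⟩ := th_surj 𝒦' Q v
    rw [← map_pow, th_eq_one]
    exact hgQ (Or.inl (Or.inl ⟨x, x.2, rfl⟩))
  let _ : CommGroup (VV 𝒦' Q) := { (inferInstance : Group (VV 𝒦' Q)) with mul_comm := hcomm }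
  have htriv : ∀ x ∈ 𝒦', act 𝒦' Q x = 1 := by
    intro x hx
    ext1 v
    obtain ⟨y, rfl⟩ := th_surj 𝒦' Q v
    rw [act_th, MulAut.one_apply]
    have h3 : (⟨x * y * x⁻¹, h𝒦'n.conj_mem y y.2 x⟩ : 𝒦') = ⟨x, hx⟩ * y * ⟨x, hx⟩⁻¹ := rfl
    rw [h3, map_mul, map_mul, map_inv, hcomm (th 𝒦' Q ⟨x, hx⟩), mul_assoc, mul_inv_cancel, mul_one]
  -- subgroups of `D'` act through groups of order prime to `p`
  have hpL : ∀ L : Subgroup 𝔾, L ≤ D' → ¬ p ∣ 𝒦'.relIndex L := by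
    intro L hL h
    rw [h𝒦'def, rel_inf hL] at h
    exact hKp (h.trans (hrel L))
  have hcardL : ∀ L : Subgroup 𝔾, Nat.card (L.map (act 𝒦' Q)) ∣ 𝒦'.relIndex L := by
    intro L
    have h3 : L.map (act 𝒦' Q) = ((act 𝒦' Q).comp L.subtype).range := by
      ext δ
      constructor
      · rintro ⟨l, hl, rfl⟩
        exact ⟨⟨l, hl⟩, rfl⟩
      · rintro ⟨l, rfl⟩
        exact ⟨l, l.2, rfl⟩
    rw [h3, ← index_ker]
    show _ ∣ (𝒦'.subgroupOf L).index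
    apply index_dvd_of_le
    intro x hx
    exact htriv _ hx
  have hpD : ∀ L : Subgroup 𝔾, L ≤ D' → ¬ p ∣ Nat.card (L.map (act 𝒦' Q)) := fun L hL h =>
    hpL L hL (h.trans (hcardL L))
  -- the fixed elements
  set DF : Subgroup (MulAut (VV 𝒦' Q)) := (F ⊓ D').map (act 𝒦' Q) with hDF
  have hbd : ∀ L : Subgroup 𝔾, 𝒦' ≤ L → L ≤ D' → ∀ c, RankLe p I L c →
      Nat.card (fixS (L.map (act 𝒦' Q))) ≤ c := by
    intro L hL1 hL2 c hc
    refine (card_fix_le hp.out hpow (L.map (act 𝒦' Q)) (hpD L hL2) (fixS (L.map (act 𝒦' Q)))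
      fun v hv δ hδ => hv δ hδ).trans ?_
    refine step 𝒦' Q (S := (nu (L.map (act 𝒦' Q))).ker) hL1 (hpL L hL2) hQK hQo hQf hgQ ?_ hc
    intro l hl v
    rw [MonoidHom.mem_ker, map_mul, map_inv, nu_act (L.map (act 𝒦' Q)) ⟨l, hl, rfl⟩,
      mul_inv_cancel]
  set U : Subgroup (VV 𝒦' Q) := fixS DF with hU
  have hUstab : ∀ g : 𝔾, ∀ v ∈ U, act 𝒦' Q g v ∈ U := by
    rintro g v hv _ ⟨l, ⟨hl1, hl2⟩, rfl⟩
    have h1 : l * g = g * (g⁻¹ * l * g) := by group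
    have h2 := hFn.conj_mem l hl1 g⁻¹
    have h3 := hD'n.conj_mem l hl2 g⁻¹
    rw [inv_inv] at h2 h3
    rw [← MulAut.mul_apply, ← map_mul, h1, map_mul, MulAut.mul_apply, hv _ ⟨_, ⟨h2, h3⟩, rfl⟩]
  have hcardU : Nat.card U ≤ T := hbd (F ⊓ D') (inf_le_inf_right _ hKF) inf_le_right T hT
  -- the generator of the group of the tower
  obtain ⟨γ, hγK, hγ⟩ := exists_gamma (K := K) hσ
  have he₀ : D.relIndex K = p ^ m := by
    rw [← relIndex_sup_right K D, sup_top_of_cop hp.out hKp hDi, relIndex_top_right, hDi]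
  have hcm := comm_mem_of hσ
  let φ : VV 𝒦' Q →* VV 𝒦' Q :=
    { toFun := fun v => act 𝒦' Q γ v * v⁻¹
      map_one' := by rw [map_one, inv_one, mul_one]
      map_mul' := fun u v => by rw [map_mul, mul_inv, mul_mul_mul_comm] }
  have hφ : ∀ v, φ v = act 𝒦' Q γ v * v⁻¹ := fun _ => rfl
  have hφc : ∀ (h : 𝔾) (v : VV 𝒦' Q), act 𝒦' Q h (φ v) = φ (act 𝒦' Q h v) := by
    intro h v
    have h1 : ⁅h, γ⁆ ∈ 𝒦' := by
      refine ⟨?_, hcm h γ⟩
      rw [commutatorElement_def]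
      exact K.mul_mem (hKn.conj_mem γ hγK h) (K.inv_mem hγK)
    have h2 : h * γ = ⁅h, γ⁆ * (γ * h) := by
      rw [commutatorElement_def]
      group
    rw [hφ, hφ, map_mul, map_inv, ← MulAut.mul_apply, ← map_mul, h2, map_mul, htriv _ h1, one_mul,
      map_mul, MulAut.mul_apply]
  have hUφ : ∀ u ∈ U, φ u ∈ U := fun u hu => U.mul_mem (hUstab γ u hu) (U.inv_mem hu)
  have hfrob : ∀ (b : ℕ) (v : VV 𝒦' Q), φ^[p ^ b] v = act 𝒦' Q (γ ^ p ^ b) v * v⁻¹ := by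
    intro b v
    rw [frob hpow (act 𝒦' Q γ) φ hφ b v, map_pow]
  have hN : ∀ v, φ^[p ^ m'] v = 1 := by
    intro v
    have h1 : γ ^ p ^ m' ∈ 𝒦' := by
      refine ⟨K.pow_mem hγK _, ?_⟩
      rw [← hD'i]
      exact D'.pow_index_mem γ
    rw [hfrob, htriv _ h1, MulAut.one_apply, mul_inv_cancel]
  have hKD : ∀ g : 𝔾, ∃ a ∈ K, ∃ d ∈ D', g = a * d := by
    intro g
    have h1 : g ∈ K ⊔ D' := by
      rw [sup_top_of_cop hp.out hKp hD'i]
      exact mem_top g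
    rw [← SetLike.mem_coe, Subgroup.normal_mul] at h1
    obtain ⟨a, ha, d, hd, h2⟩ := h1
    exact ⟨a, ha, d, hd, h2.symm⟩
  -- stability under the whole group
  have hGstab : ∀ P : Subgroup (VV 𝒦' Q), (∀ d ∈ D', ∀ v ∈ P, act 𝒦' Q d v ∈ P) →
      (∀ v ∈ P, φ v ∈ P) → ∀ g : 𝔾, ∀ v ∈ P, act 𝒦' Q g v ∈ P := by
    intro P h1 h2
    let St : Subgroup 𝔾 :=
      { carrier := {g | ∀ v, v ∈ P ↔ act 𝒦' Q g v ∈ P}
        mul_mem' := by
          intro a b ha hb v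
          rw [hb v, ha (act 𝒦' Q b v), map_mul, MulAut.mul_apply]
        one_mem' := by
          intro v
          rw [map_one, MulAut.one_apply]
        inv_mem' := by
          intro a ha v
          have h3 := ha (act 𝒦' Q a⁻¹ v)
          rw [← MulAut.mul_apply, ← map_mul, mul_inv_cancel, map_one, MulAut.one_apply] at h3
          exact h3.symm }
    have h3 : ∀ g : 𝔾, (∀ v ∈ P, act 𝒦' Q g v ∈ P) → g ∈ St := by
      intro g h4
      let f : P → P := fun v => ⟨act 𝒦' Q g v, h4 v v.2⟩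
      have hf : Function.Injective f := by
        intro a b hab
        exact Subtype.ext ((act 𝒦' Q g).injective (congrArg Subtype.val hab))
      have hf2 := Finite.surjective_of_injective hf
      intro v
      refine ⟨h4 v, fun h5 => ?_⟩
      obtain ⟨u, hu⟩ := hf2 ⟨_, h5⟩
      have h6 := (act 𝒦' Q g).injective (congrArg Subtype.val hu)
      rw [← h6]
      exact u.2
    have hγS : γ ∈ St := by
      apply h3
      intro v hv
      have h4 : act 𝒦' Q γ v = φ v * v := by rw [hφ, inv_mul_cancel_right]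
      rw [h4]
      exact P.mul_mem (h2 v hv) hv
    intro g v hv
    obtain ⟨a, ha, d, hd, rfl⟩ := hKD g
    obtain ⟨i, hi⟩ := hγ a ha
    have h4 : a = (a * (γ ^ i)⁻¹) * γ ^ i := by group
    have h5 : a * (γ ^ i)⁻¹ ∈ St := by
      apply h3
      intro v hv
      rw [htriv _ ⟨K.mul_mem ha (K.inv_mem (K.zpow_mem hγK i)), hi⟩, MulAut.one_apply]
      exact hv
    have h6 : a ∈ St := by
      rw [h4]
      exact St.mul_mem h5 (St.zpow_mem hγS i)
    have h7 : a * d ∈ St := St.mul_mem h6 (h3 d (h1 d hd))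
    exact (h7 v).1 hv
  set 𝒦 : Subgroup 𝔾 := K ⊓ D with h𝒦def
  have h𝒦n : 𝒦.Normal := normal_inf_normal K D
  have hKK : 𝒦' ≤ 𝒦 := inf_le_inf_left _ hDD
  have hγ1 : γ ^ p ^ m ∈ 𝒦 := by
    refine ⟨K.pow_mem hγK _, ?_⟩
    rw [← hDi]
    exact D.pow_index_mem γ
  have hdec : ∀ x ∈ 𝒦, ∃ k ∈ 𝒦', ∃ j : ℤ, x = k * (γ ^ p ^ m) ^ j := by
    rintro x ⟨hxK, hxD⟩
    obtain ⟨j, hj⟩ := mod_gamma hDD hγK hγ hxK hxD
    rw [he₀] at hj
    refine ⟨x * ((γ ^ p ^ m) ^ j)⁻¹, ⟨?_, hj⟩, j, by rw [inv_mul_cancel_right]⟩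
    exact K.mul_mem hxK (K.inv_mem (K.zpow_mem hγ1.1 j))
  -- the lower bound for `F`
  have hM : ∃ M : Subgroup 𝔾, M ≤ F ⊓ D ∧ IsOpen (M : Set 𝔾) ∧ M.relIndex (F ⊓ D) ≠ 0 ∧
      gens p I (F ⊓ D) ⊆ M ∧ E < M.relIndex (F ⊓ D) := by
    by_contra hcon
    apply hE
    intro M h1 h2 h3 h4
    by_contra h5
    exact hcon ⟨M, h1, h2, h3, h4, not_le.1 h5⟩
  obtain ⟨M, hM1, hM2, hM3, hM4, hM5⟩ := hM
  -- a generator of the inertia group of `w` modulo `D'`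
  obtain ⟨x₀, hx₀, hx₀g⟩ := exists_gamma (K := I w ⊓ 𝒦) hσ
  have hcK : ∀ (g x : 𝔾), x ∈ 𝒦' → ⁅g, x⁆ ∈ 𝒦' := by
    intro g x hx
    rw [commutatorElement_def]
    exact 𝒦'.mul_mem (h𝒦'n.conj_mem x hx g) (𝒦'.inv_mem hx)
  -- the comparison of the layers
  have core : ∀ (P : Subgroup (VV 𝒦' Q)) (s : ℕ), U ≤ P →
      (∀ d ∈ D', ∀ v ∈ P, act 𝒦' Q d v ∈ P) → (∀ v ∈ P, φ v ∈ P) → (∀ v, φ^[p ^ m] v ∈ P) →
      (∀ b, ∃ S : Subgroup (VV 𝒦' Q), P ≤ S ∧ (∀ d ∈ D', ∀ v ∈ S, act 𝒦' Q d v ∈ S) ∧ b ∈ S ∧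
        P.relIndex S ≤ s) → P.index * (E + 1) ≤ C * s := by
    intro P s hUP hPD hPφ hPq hPS
    have hPstab := hGstab P hPD hPφ
    set W' : Subgroup 𝔾 := pre 𝒦' Q P with hW'
    have hQW : Q ≤ W' := le_pre 𝒦' Q hQK P
    have hWK : W' ≤ 𝒦' := pre_le 𝒦' Q P
    have hmemW : ∀ (x : 𝔾) (hx : x ∈ 𝒦'), x ∈ W' ↔ th 𝒦' Q ⟨x, hx⟩ ∈ P := fun x hx =>
      mem_pre 𝒦' Q P ⟨x, hx⟩
    have hW'n : W'.Normal := by
      refine ⟨fun x hx g => ?_⟩
      have hx' := hWK hx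
      rw [hmemW _ (h𝒦'n.conj_mem x hx' g)]
      have h1 := hPstab g _ ((hmemW x hx').1 hx)
      rw [act_th] at h1
      exact h1
    have hactc : ∀ (g x : 𝔾) (hx : x ∈ 𝒦') (h : ⁅g, x⁆ ∈ 𝒦'),
        act 𝒦' Q g (th 𝒦' Q ⟨x, hx⟩) * (th 𝒦' Q ⟨x, hx⟩)⁻¹ = th 𝒦' Q ⟨⁅g, x⁆, h⟩ := by
      intro g x hx h
      rw [act_th, ← map_inv, ← map_mul]
      rfl
    have hKA : ∀ x ∈ 𝒦, ∀ v : VV 𝒦' Q, act 𝒦' Q x v * v⁻¹ ∈ P := by
      intro x hx
      obtain ⟨k, hk, j, rfl⟩ := hdec x hx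
      let A₀ := actSub (act 𝒦' Q) ⊤ P (fun _ _ _ => mem_top _)
      have h1 : k ∈ A₀ := by
        intro v _
        rw [htriv k hk, MulAut.one_apply, mul_inv_cancel]
        exact P.one_mem
      have h2 : γ ^ p ^ m ∈ A₀ := by
        intro v _
        rw [← hfrob]
        exact hPq v
      exact fun v => A₀.mul_mem h1 (A₀.zpow_mem h2 j) v (mem_top v)
    have hab1 : ∀ a ∈ 𝒦, ∀ b ∈ 𝒦', ⁅a, b⁆ ∈ W' := by
      intro a ha b hb
      rw [hmemW _ (hcK a b hb), ← hactc a b hb]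
      exact hKA a ha _
    have hC1 : ∀ a b : 𝔾, ⁅a, b⁆ ∈ W' ↔ Commute (a : 𝔾 ⧸ W') (b : 𝔾 ⧸ W') := by
      intro a b
      rw [← QuotientGroup.eq_one_iff]
      show QuotientGroup.mk' W' ⁅a, b⁆ = 1 ↔ _
      rw [map_commutatorElement, commutatorElement_eq_one_iff_commute]
      rfl
    have hab2 : ∀ a ∈ 𝒦, Commute (a : 𝔾 ⧸ W') ((γ ^ p ^ m : 𝔾) : 𝔾 ⧸ W') := by
      intro a ha
      obtain ⟨k, hk, j, rfl⟩ := hdec a ha
      rw [QuotientGroup.mk_mul, QuotientGroup.mk_zpow]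
      exact ((hC1 _ _).1 (hab1 _ hγ1 k hk)).symm.mul_left ((Commute.refl _).zpow_left j)
    have hab : ∀ a ∈ 𝒦, ∀ b ∈ 𝒦, ⁅a, b⁆ ∈ W' := by
      intro a ha b hb
      rw [hC1]
      obtain ⟨k, hk, j, rfl⟩ := hdec b hb
      rw [QuotientGroup.mk_mul, QuotientGroup.mk_zpow]
      exact ((hC1 _ _).1 (hab1 a ha k hk)).mul_right ((hab2 a ha).zpow_right j)
    have hWf : W'.relIndex 𝒦 ≠ 0 := by
      rw [← relIndex_mul_relIndex W' 𝒦' 𝒦 hWK hKK]
      refine mul_ne_zero ?_ ?_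
      · rw [hW', pre_relIndex]
        exact P.index_ne_zero_of_finite
      · intro h
        have h1 := relIndex_dvd_index_of_normal 𝒦' 𝒦
        rw [h] at h1
        exact h𝒦'0 (Nat.eq_zero_of_zero_dvd h1)
    have hx₀c : ∀ t : 𝔾, t • w = w → ⁅t, x₀⁆ ∈ W' := by
      intro t ht
      apply hQW
      refine hgQ (Or.inr ⟨⟨?_, hcm _ _⟩, w, ?_⟩)
      · rw [commutatorElement_def]
        exact K.mul_mem (hKn.conj_mem x₀ hx₀.2.1 _) (K.inv_mem hx₀.2.1)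
      · have h6 := hI t w x₀ hx₀.1
        rw [ht] at h6
        rw [commutatorElement_def]
        exact (I w).mul_mem h6 ((I w).inv_mem hx₀.1)
    have hkey := key2 (p := p) (I := I) 𝒦 𝒦' D' W' (F ⊓ D) (F ⊓ D') M
      (normal_inf_normal F D') hKK (inf_le_inf_right _ hKF) (inf_le_inf_left _ hDD) inf_le_right
      (by
        intro h
        rw [h𝒦def, rel_inf inf_le_right] at h
        exact hKp (h.trans (hrel _)))
      hM2 hM3 hM4 hWK (Subgroup.isOpen_mono hQW hQo) hWf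
      (fun x hx => hQW (hgQ (Or.inl (Or.inl ⟨x, hx, rfl⟩)))) hab
      (by
        rintro r hr a ⟨haK, haD⟩
        refine ⟨?_, hcm r a⟩
        rw [commutatorElement_def]
        exact K.mul_mem (hKn.conj_mem a haK r) (K.inv_mem haK))
      (hpL _ le_rfl)
      (by
        intro x hx h
        rw [hmemW x hx]
        refine nofix hp.out DF (hpD _ inf_le_right) P (fun v hv => hUP hv) (hpow _) ?_
        rintro _ ⟨z, hz, rfl⟩
        rw [hactc z x hx (hcK z x hx), ← hmemW]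
        exact h z hz)
      (s := s)
      (by
        intro b hb
        obtain ⟨S, hS1, hS2, hS3, hS4⟩ := hPS (th 𝒦' Q ⟨b, hb⟩)
        refine ⟨pre 𝒦' Q S, ?_, pre_le 𝒦' Q S, ?_, (mem_pre 𝒦' Q S ⟨b, hb⟩).2 hS3, ?_⟩
        · intro x hx
          have hx' := hWK hx
          exact (mem_pre 𝒦' Q S ⟨x, hx'⟩).2 (hS1 ((hmemW x hx').1 hx))
        · intro r hr x hx
          have hx' := pre_le 𝒦' Q S hx
          have h1 := hS2 r hr _ ((mem_pre 𝒦' Q S ⟨x, hx'⟩).1 hx)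
          rw [act_th] at h1
          exact (mem_pre 𝒦' Q S ⟨_, h𝒦'n.conj_mem x hx' r⟩).2 h1
        · have h1 : W' ≤ pre 𝒦' Q S := by
            intro x hx
            have hx' := hWK hx
            exact (mem_pre 𝒦' Q S ⟨x, hx'⟩).2 (hS1 ((hmemW x hx').1 hx))
          have h2 := relIndex_mul_relIndex W' (pre 𝒦' Q S) 𝒦' h1 (pre_le 𝒦' Q S)
          have h3 := relIndex_mul_index hS1
          rw [hW', pre_relIndex, pre_relIndex, ← h3] at h2
          rw [← hW'] at h2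
          rw [Nat.eq_of_mul_eq_mul_right (Nat.pos_of_ne_zero S.index_ne_zero_of_finite) h2]
          exact hS4)
      x₀ hx₀.2
      (by
        intro x hx A hA
        rcases hcov A with h | ⟨g, rfl⟩
        · left
          exact hQW (hgQ (Or.inr ⟨⟨hx.1, h hA⟩, A, hA⟩))
        · right
          have hx1 : g⁻¹ * x * g ∈ I w := by
            have h1 := hI g⁻¹ (g • w) x hA
            rwa [inv_smul_smul, inv_inv] at h1
          have hx2 : g⁻¹ * x * g ∈ 𝒦 := by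
            have h1 := h𝒦n.conj_mem x hx g⁻¹
            rwa [inv_inv] at h1
          obtain ⟨i, hi⟩ := hx₀g _ ⟨hx1, hx2⟩
          refine ⟨g, i, hQW (hgQ (Or.inr ⟨⟨?_, hi⟩, w, ?_⟩))⟩
          · exact K.mul_mem hx2.1 (K.inv_mem (K.zpow_mem hx₀.2.1 i))
          · exact (I w).mul_mem hx1 ((I w).inv_mem ((I w).zpow_mem hx₀.1 i)))
      (by
        intro g
        obtain ⟨d, hd, hgd⟩ := hns g
        refine ⟨d, hd, ?_⟩
        have h1 : (d⁻¹ * g) • w = w := by rw [mul_smul, hgd, inv_smul_smul]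
        have h2 : (g * x₀ * g⁻¹) * (d * x₀ * d⁻¹)⁻¹ = d * ⁅d⁻¹ * g, x₀⁆ * d⁻¹ := by
          rw [commutatorElement_def]
          group
        rw [h2]
        exact hW'n.conj_mem _ (hx₀c _ h1) d)
      hC
    rw [hW', pre_relIndex] at hkey
    exact (Nat.mul_le_mul_left _ hM5).trans hkey
  -- the group acting
  set DD : Subgroup (MulAut (VV 𝒦' Q)) := D'.map (act 𝒦' Q) with hDDdef
  have hcardDD : Nat.card DD ≤ K.index := by
    refine (Nat.le_of_dvd (Nat.pos_of_ne_zero ?_) (hcardL D')).trans ?_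
    · intro h
      have h1 := relIndex_dvd_index_of_normal 𝒦' D'
      rw [h] at h1
      exact h𝒦'0 (Nat.eq_zero_of_zero_dvd h1)
    · rw [h𝒦'def, rel_inf le_rfl]
      exact Nat.le_of_dvd (Nat.pos_of_ne_zero hK0) (hrel D')
  -- the lower bound for the subquotients
  have hw : ∀ B' B : Subgroup (VV 𝒦' Q), U ≤ B' → B' ≤ B → (∀ δ ∈ DD, ∀ v ∈ B', δ v ∈ B') →
      (∀ δ ∈ DD, ∀ v ∈ B, δ v ∈ B) → (∀ v ∈ B, φ v ∈ B') → B' ≠ B → p ^ r ≤ B'.relIndex B := by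
    intro B' B hUB hBB hB' hB hφB hne
    obtain ⟨n, hn0, hn⟩ := relIndex_pow hpow hBB hne
    rw [hn]
    by_contra hlt
    have hnr : n < r := by
      by_contra h
      exact hlt (Nat.pow_le_pow_right hp.out.pos (not_lt.1 h))
    apply hne
    refine le_antisymm hBB ?_
    have hact : ∀ l ∈ F ⊓ D', ∀ v ∈ B, act 𝒦' Q l v * v⁻¹ ∈ B' := by
      have hBs := hGstab B (fun d hd v hv => hB _ ⟨d, hd, rfl⟩ v hv) (fun v hv => hBB (hφB v hv))
      have hBs' := hGstab B' (fun d hd v hv => hB' _ ⟨d, hd, rfl⟩ v hv)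
        (fun v hv => hφB v (hBB hv))
      have h3 : K ≤ actSub (act 𝒦' Q) B B' hBs := by
        intro k hk
        obtain ⟨i, hi⟩ := hγ k hk
        have h4 : k = (k * (γ ^ i)⁻¹) * γ ^ i := by group
        rw [h4]
        refine mul_mem ?_ (zpow_mem ?_ i)
        · intro u hu
          rw [htriv _ ⟨K.mul_mem hk (K.inv_mem (K.zpow_mem hγK i)), hi⟩, MulAut.one_apply,
            mul_inv_cancel]
          exact one_mem _
        · intro u hu
          exact hφB u hu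
      have h1 := hTR p 𝔾 (VV 𝒦' Q) hpow (act 𝒦' Q) B' B hBB hBs' hBs n hn K
        (fun k hk v hv => h3 hk v hv) (hr n hnr)
      intro l hl v hv
      exact (hFc.trans (sup_le h3 h1)) hl.1 v hv
    intro v hv
    refine nofix hp.out DF (hpD _ inf_le_right) B' (fun v hv => hUB hv) (hpow v) ?_
    rintro _ ⟨l, hl, rfl⟩
    exact hact l hl v hv
  by_cases hex : ∃ v, φ^[p ^ m - 1] v ∉ U
  · -- the large case is impossible
    exfalso
    set HH : Subgroup (MulAut (VV 𝒦' Q)) := (k ⊓ D').map (act 𝒦' Q) with hHH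
    have hHc : ∀ h ∈ HH, ∀ h' ∈ HH, h * h' = h' * h := by
      rintro _ ⟨x, hx, rfl⟩ _ ⟨y, hy, rfl⟩
      have h1 : ⁅x, y⁆ ∈ 𝒦' := ⟨hkc x hx.1 y hy.1, hcm x y⟩
      have h2 := htriv _ h1
      rw [map_commutatorElement, commutatorElement_eq_one_iff_mul_comm] at h2
      exact h2
    obtain ⟨c, hcD, hc⟩ : ∃ c ∈ D', ∀ d ∈ D', d ∈ k ∨ d * c⁻¹ ∈ k := by
      by_cases hDk : D' ≤ k
      · exact ⟨1, D'.one_mem, fun d hd => Or.inl (hDk hd)⟩
      · obtain ⟨c₁, hc₁, hc₁k⟩ := Set.not_subset.1 hDk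
        obtain ⟨c₀, hc₀⟩ := hk2
        refine ⟨c₁, hc₁, fun d hd => ?_⟩
        rcases hc₀ d with h | h
        · exact Or.inl h
        · right
          have h1 : c₁ * c₀⁻¹ ∈ k := (hc₀ c₁).resolve_left hc₁k
          have h2 : d * c₁⁻¹ = (d * c₀⁻¹) * (c₁ * c₀⁻¹)⁻¹ := by group
          rw [h2]
          exact k.mul_mem h (k.inv_mem h1)
    obtain ⟨P, w1, hP1, hP2, hP3, hP4, hP5, hP6, hP7⟩ := hALG p (VV 𝒦' Q) hpow DD
      (hpD D' le_rfl) φ (by rintro _ ⟨d, _, rfl⟩ v; exact hφc d v) (p ^ m') hN U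
      (by rintro _ ⟨d, _, rfl⟩ v hv; exact hUstab d v hv) hUφ HH (map_mono inf_le_right)
      (by
        rintro _ ⟨d, hd, rfl⟩ _ ⟨x, hx, rfl⟩
        rw [← map_mul, ← map_inv, ← map_mul]
        exact ⟨_, ⟨hkn.conj_mem x hx.1 d, hD'n.conj_mem x hx.2 d⟩, rfl⟩)
      hHc (act 𝒦' Q c) ⟨c, hcD, rfl⟩
      (by
        rintro _ ⟨d, hd, rfl⟩
        rcases hc d hd with h | h
        · exact Or.inl ⟨d, ⟨h, hd⟩, rfl⟩
        · right
          rw [← map_inv, ← map_mul]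
          exact ⟨_, ⟨h, D'.mul_mem hd (D'.inv_mem hcD)⟩, rfl⟩)
      (p ^ m) (pow_pos hp.out.pos m) (p ^ r) hw hex
    have hPD : ∀ d ∈ D', ∀ v ∈ P, act 𝒦' Q d v ∈ P := fun d hd v hv => hP2 _ ⟨d, hd, rfl⟩ v hv
    rcases lt_or_ge (p ^ m) 2 with hq | hq
    · have h1 := core ⊤ 1 le_top (fun _ _ _ _ => mem_top _) (fun _ _ => mem_top _)
        (fun _ => mem_top _) (fun b => ⟨⊤, le_rfl, fun _ _ _ _ => mem_top _, mem_top _, by
          rw [relIndex_self]⟩)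
      rw [index_top, one_mul, mul_one] at h1
      have h2 : p ^ m - 2 = 0 := by omega
      rw [h2, mul_zero, pow_zero, one_mul] at hCE
      omega
    · have h1 := core P (w1 ^ 2) hP1 hPD hP3 hP4 (fun b => by
        obtain ⟨S, hS1, hS2, hS3, hS4⟩ := hP7 b
        exact ⟨S, hS1, fun d hd v hv => hS2 _ ⟨d, hd, rfl⟩ v hv, hS3, hS4⟩)
      rw [hP6] at h1
      have hw0 : 0 < w1 := lt_of_lt_of_le (pow_pos hp.out.pos r) hP5
      have h2 : w1 ^ (p ^ m) = w1 ^ (p ^ m - 2) * w1 ^ 2 := by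
        rw [← pow_add]
        congr 1
        omega
      rw [h2, mul_right_comm] at h1
      have h3 : w1 ^ (p ^ m - 2) * (E + 1) ≤ C := Nat.le_of_mul_le_mul_right h1 (pow_pos hw0 2)
      have h4 : p ^ (r * (p ^ m - 2)) ≤ w1 ^ (p ^ m - 2) := by
        rw [pow_mul]
        exact Nat.pow_le_pow_left hP5 _
      exact absurd hCE (not_lt.2 ((Nat.mul_le_mul_right _ h4).trans h3))
  · -- the small case
    have hall : ∀ v, φ^[p ^ m - 1] v ∈ U := by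
      intro v
      by_contra h
      exact hex ⟨v, h⟩
    have h1 := core U (p ^ K.index) le_rfl (fun d _ v hv => hUstab d v hv) hUφ
      (fun v => by
        have h2 : p ^ m = (p ^ m - 1) + 1 := (Nat.sub_add_cancel (pow_pos hp.out.pos m)).symm
        rw [h2, Function.iterate_succ_apply']
        exact hUφ _ (hall v))
      (fun b => by
        have hDfin : Finite DD := inferInstance
        have : Fintype DD := Fintype.ofFinite _
        let J : DD → Subgroup (VV 𝒦' Q) := fun δ => Subgroup.zpowers ((δ : MulAut (VV 𝒦' Q)) b)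
        have hJ : ∀ δ, Nat.card (J δ) ≤ p := by
          intro δ
          show Nat.card (Subgroup.zpowers ((δ : MulAut (VV 𝒦' Q)) b)) ≤ p
          rw [Nat.card_zpowers]
          exact Nat.le_of_dvd hp.out.pos (orderOf_dvd_of_pow_eq_one (hpow _))
        let S₀ : Subgroup (VV 𝒦' Q) := Finset.univ.sup J
        have hJS : ∀ δ, J δ ≤ S₀ := fun δ => Finset.le_sup (f := J) (Finset.mem_univ δ)
        have hcard : Nat.card S₀ ≤ p ^ K.index := by
          have h3 := card_finset_sup_le J p hJ Finset.univ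
          rw [Finset.card_univ, ← Nat.card_eq_fintype_card] at h3
          exact h3.trans (Nat.pow_le_pow_right hp.out.pos hcardDD)
        have hS₀ : ∀ d ∈ D', ∀ v ∈ S₀, act 𝒦' Q d v ∈ S₀ := by
          intro d hd
          have h3 : S₀ ≤ S₀.comap (act 𝒦' Q d).toMonoidHom := by
            refine Finset.sup_le fun δ _ => ?_
            show Subgroup.zpowers _ ≤ _
            rw [Subgroup.zpowers_le]
            show act 𝒦' Q d ((δ : MulAut (VV 𝒦' Q)) b) ∈ S₀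
            refine hJS ⟨act 𝒦' Q d * δ, DD.mul_mem ⟨d, hd, rfl⟩ δ.2⟩ ?_
            exact Subgroup.mem_zpowers _
          exact fun v hv => h3 hv
        refine ⟨U ⊔ S₀, le_sup_left, ?_, ?_, ?_⟩
        · intro d hd
          have h3 : U ⊔ S₀ ≤ (U ⊔ S₀).comap (act 𝒦' Q d).toMonoidHom :=
            sup_le (fun v hv => mem_sup_left (hUstab d v hv))
              (fun v hv => mem_sup_right (hS₀ d hd v hv))
          exact fun v hv => h3 hv
        · refine mem_sup_right (hJS 1 ?_)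
          exact Subgroup.mem_zpowers _
        · rw [relIndex_sup_left]
          exact (Nat.le_of_dvd Nat.card_pos (relIndex_dvd_card U S₀)).trans hcard)
    have h2 : U.index ≤ C * p ^ K.index / (E + 1) := (Nat.le_div_iff_mul_le (Nat.succ_pos E)).2 h1
    rw [← U.card_mul_index, mul_comm]
    exact Nat.mul_le_mul h2 hcardU

end Pool.Agent.V5helper60.GM
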