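import Pool.Agent.W5h33.DF.Alg

/-!
# Project GM, part 2
-/

set_option autoImplicit false

namespace Pool.Agent.V5helper60.GM

open Pool.Agent.W5h33.DF

/-- As `S_TR`, for a subgroup `F` which is in the kernel of all homomorphisms. -/
def S_TR3 : Prop :=
  ∀ (p : ℕ) [Fact p.Prime] (G : Type) [Group G] (V : Type) [CommGroup V] [Finite V],
  (∀ v : V, v ^ p = 1) → ∀ (ρ : G →* MulAut V) (B' B : Subgroup V), B' ≤ B →
  (∀ g, ∀ v ∈ B', ρ g v ∈ B') → ∀ (hB : ∀ g, ∀ v ∈ B, ρ g v ∈ B), ∀ n : ℕ, B'.relIndex B = p ^ n →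
  ∀ (K : Subgroup G) [K.Normal], (∀ k ∈ K, ∀ v ∈ B, ρ k v * v⁻¹ ∈ B') → ∀ F : Subgroup G,
  (∀ f : G ⧸ K →* Matrix.GeneralLinearGroup (Fin n) (ZMod p), ∀ a ∈ F, f (a : G ⧸ K) = 1) →
  F ≤ actSub ρ B B' hB

end Pool.Agent.V5helper60.GM
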