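import Pool.Agent.V5helper60.GM.Main4

/-!
# Concavity of the ranks
-/

set_option autoImplicit false

namespace Pool.Agent.V5helper60.GM

open Subgroup Pool.Agent.Q60.MU Pool.Agent.W5h77.MB Pool.Agent.W5h33.DF
open Pool.Agent.X310.Mu (nm nm_eq nm_of_fix nm_fix eq_one_of_cop)
open scoped commutatorElement

variable {𝔾 : Type} [Group 𝔾]

theorem core5 [TopologicalSpace 𝔾] [ContinuousMul 𝔾] {p : ℕ} [hp : Fact p.Prime]
    (hTR : S_TR3)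
    {Ω : Type} [MulAction 𝔾 Ω] {I : Ω → Subgroup 𝔾}
    (hI : ∀ (g : 𝔾) (w : Ω), ∀ x ∈ I w, g * x * g⁻¹ ∈ I (g • w))
    {K F D₀ D D' : Subgroup 𝔾} (hKn : K.Normal) (hFn : F.Normal) (hD₀n : D₀.Normal) (hDn : D.Normal)
    (hD'n : D'.Normal) (hKF : K ≤ F) (hDD₀ : D ≤ D₀) (hDD : D' ≤ D) (hK0 : K.index ≠ 0)
    (hKp : ¬ p ∣ K.index) {m₀ m m' : ℕ} (hD₀i : D₀.index = p ^ m₀) (hDi : D.index = p ^ m)
    (hD'i : D'.index = p ^ m')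
    {γ : 𝔾} {w₀ : Ω} (hγK : γ ∈ K) (hγI : γ ∈ I w₀) (hγ : ∀ g : 𝔾, ∃ i : ℤ, g * (γ ^ i)⁻¹ ∈ D')
    (htot : ∀ A, I A ≤ D' ∨ ∃ a ∈ K ⊓ D', a * γ ∈ I A)
    {r : ℕ} (hr : ∀ n < r, ∀ f : 𝔾 ⧸ K →* Matrix.GeneralLinearGroup (Fin n) (ZMod p),
      ∀ a ∈ F, f (a : 𝔾 ⧸ K) = 1)
    {C E C₀ E₀ : ℕ} (hC : RankLe p I (K ⊓ D) C) (hE : ¬ RankLe p I (F ⊓ D) E)
    (hC₀ : ¬ RankLe p I (K ⊓ D₀) C₀) (hE₀ : RankLe p I (F ⊓ D₀) E₀)
    {Y : Subgroup 𝔾} (hYH : Y ≤ K ⊓ D') (hYo : IsOpen (Y : Set 𝔾)) (hYf : Y.relIndex (K ⊓ D') ≠ 0)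
    (hg : gens p I (K ⊓ D') ⊆ Y) :
    ∃ (u₀ u₁ u₂ x₀ x₁ x₂ : ℕ) (t : ℕ → ℕ), Antitone t ∧ (∀ j, t j = 0 ∨ r ≤ t j) ∧
      u₁ = u₀ * p ^ (∑ j ∈ Finset.range (p ^ m - p ^ m₀), t (p ^ m₀ - 1 + j)) ∧
      u₂ = u₁ * p ^ (∑ j ∈ Finset.range (p ^ m' - p ^ m), t (p ^ m - 1 + j)) ∧
      u₁ * x₁ ≤ C ∧ E + 1 ≤ x₁ ∧ C₀ + 1 ≤ u₀ * x₀ ∧ x₀ ≤ E₀ ∧ Y.relIndex (K ⊓ D') ≤ u₂ * x₂ ∧
      ∀ T, RankLe p I (F ⊓ D') T → x₂ ≤ T := by
  classical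
  have hD'0 : D'.index ≠ 0 := by
    rw [hD'i]
    exact (pow_pos hp.out.pos m').ne'
  have hrel : ∀ L : Subgroup 𝔾, K.relIndex L ∣ K.index := fun L =>
    relIndex_dvd_index_of_normal K L
  -- the witnesses
  have hW₁ : ∃ M : Subgroup 𝔾, M ≤ K ⊓ D₀ ∧ IsOpen (M : Set 𝔾) ∧ M.relIndex (K ⊓ D₀) ≠ 0 ∧
      gens p I (K ⊓ D₀) ⊆ M ∧ C₀ < M.relIndex (K ⊓ D₀) := by
    by_contra hcon
    apply hC₀
    intro M h1 h2 h3 h4
    by_contra h5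
    exact hcon ⟨M, h1, h2, h3, h4, not_le.1 h5⟩
  have hM : ∃ M : Subgroup 𝔾, M ≤ F ⊓ D ∧ IsOpen (M : Set 𝔾) ∧ M.relIndex (F ⊓ D) ≠ 0 ∧
      gens p I (F ⊓ D) ⊆ M ∧ E < M.relIndex (F ⊓ D) := by
    by_contra hcon
    apply hE
    intro M h1 h2 h3 h4
    by_contra h5
    exact hcon ⟨M, h1, h2, h3, h4, not_le.1 h5⟩
  obtain ⟨W₁, hW1, hW2, hW3, hW4, hW5⟩ := hW₁
  obtain ⟨M, hM1, hM2, hM3, hM4, hM5⟩ := hM
  have hgmono : ∀ L L' : Subgroup 𝔾, L ≤ L' → gens p I L ⊆ gens p I L' := by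
    rintro L L' hL x ((⟨a, ha, h⟩ | ⟨a, ha, b, hb, h⟩) | ⟨hx, A, hA⟩)
    · exact Or.inl (Or.inl ⟨a, hL ha, h⟩)
    · exact Or.inl (Or.inr ⟨a, hL ha, b, hL hb, h⟩)
    · exact Or.inr ⟨hL hx, A, hA⟩
  set 𝒦' : Subgroup 𝔾 := K ⊓ D' with h𝒦'def
  have h𝒦'n : 𝒦'.Normal := normal_inf_normal K D'
  have h𝒦'0 : 𝒦'.index ≠ 0 := index_inf_ne_zero hK0 hD'0
  have hKK₀ : 𝒦' ≤ K ⊓ D₀ := inf_le_inf_left _ (hDD.trans hDD₀)
  have hKFD : 𝒦' ≤ F ⊓ D := inf_le_inf hKF hDD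
  have hW₁f : W₁.relIndex 𝒦' ≠ 0 := fun h => hW3 (by
    have h1 := relIndex_dvd_index_of_normal 𝒦' (K ⊓ D₀)
    have h2 : (W₁ ⊓ 𝒦').relIndex (K ⊓ D₀) = 0 := by
      rw [← relIndex_mul_relIndex (W₁ ⊓ 𝒦') 𝒦' (K ⊓ D₀) inf_le_right hKK₀, inf_relIndex_right, h,
        zero_mul]
    by_contra hne
    have h3 : 𝒦'.relIndex (K ⊓ D₀) ≠ 0 := fun h4 => h𝒦'0 (Nat.eq_zero_of_zero_dvd (h4 ▸ h1))
    exact relIndex_inf_ne_zero hne h3 h2)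
  have hMf : M.relIndex 𝒦' ≠ 0 := fun h => hM3 (by
    have h1 := relIndex_dvd_index_of_normal 𝒦' (F ⊓ D)
    have h2 : (M ⊓ 𝒦').relIndex (F ⊓ D) = 0 := by
      rw [← relIndex_mul_relIndex (M ⊓ 𝒦') 𝒦' (F ⊓ D) inf_le_right hKFD, inf_relIndex_right, h,
        zero_mul]
    by_contra hne
    have h3 : 𝒦'.relIndex (F ⊓ D) ≠ 0 := fun h4 => h𝒦'0 (Nat.eq_zero_of_zero_dvd (h4 ▸ h1))
    exact relIndex_inf_ne_zero hne h3 h2)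
  obtain ⟨Q, hQY, hQo, hQf, hgQ, hQn⟩ := exists_core hI (K := 𝒦') (D := ⊤) (W := Y ⊓ (W₁ ⊓ M))
    (fun d _ x hx => h𝒦'n.conj_mem x hx d) (by rwa [relIndex_top_right]) (inf_le_left.trans hYH)
    (by
      rw [coe_inf, coe_inf]
      exact hYo.inter (hW2.inter hM2))
    (relIndex_inf_ne_zero hYf (relIndex_inf_ne_zero hW₁f hMf))
    (fun x hx => ⟨hg hx, hW4 (hgmono _ _ hKK₀ hx), hM4 (hgmono _ _ hKFD hx)⟩)
  have hQK : Q ≤ 𝒦' := (hQY.trans inf_le_left).trans hYH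
  have hQW : Q ≤ W₁ := (hQY.trans inf_le_right).trans inf_le_left
  have hQM : Q ≤ M := (hQY.trans inf_le_right).trans inf_le_right
  have hQnorm : Q.Normal := ⟨fun x hx g => hQn g trivial x hx⟩
  have hfin : Finite (VV 𝒦' Q) := by
    apply Nat.finite_of_card_ne_zero
    rw [card_VV]
    exact hQf
  have hcomm : ∀ u v : VV 𝒦' Q, u * v = v * u := by
    intro u v
    obtain ⟨x, rfl⟩ := th_surj 𝒦' Q u
    obtain ⟨y, rfl⟩ := th_surj 𝒦' Q v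
    have h3 : th 𝒦' Q ⁅x, y⁆ = 1 := by
      rw [th_eq_one]
      exact hgQ (Or.inl (Or.inr ⟨x, x.2, y, y.2, rfl⟩))
    rw [map_commutatorElement, commutatorElement_eq_one_iff_mul_comm] at h3
    exact h3
  have hpow : ∀ v : VV 𝒦' Q, v ^ p = 1 := by
    intro v
    obtain ⟨x, rfl⟩ := th_surj 𝒦' Q v
    rw [← map_pow, th_eq_one]
    exact hgQ (Or.inl (Or.inl ⟨x, x.2, rfl⟩))
  let _ : CommGroup (VV 𝒦' Q) := { (inferInstance : Group (VV 𝒦' Q)) with mul_comm := hcomm }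
  have htriv : ∀ x ∈ 𝒦', act 𝒦' Q x = 1 := by
    intro x hx
    ext1 v
    obtain ⟨y, rfl⟩ := th_surj 𝒦' Q v
    rw [act_th, MulAut.one_apply]
    have h3 : (⟨x * y * x⁻¹, h𝒦'n.conj_mem y y.2 x⟩ : 𝒦') = ⟨x, hx⟩ * y * ⟨x, hx⟩⁻¹ := rfl
    rw [h3, map_mul, map_mul, map_inv, hcomm (th 𝒦' Q ⟨x, hx⟩), mul_assoc, mul_inv_cancel, mul_one]
  have hpL : ∀ L : Subgroup 𝔾, L ≤ D' → ¬ p ∣ 𝒦'.relIndex L := by
    intro L hL h
    rw [h𝒦'def, rel_inf hL] at h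
    exact hKp (h.trans (hrel L))
  have hcardL : ∀ L : Subgroup 𝔾, Nat.card (L.map (act 𝒦' Q)) ∣ 𝒦'.relIndex L := by
    intro L
    have h3 : L.map (act 𝒦' Q) = ((act 𝒦' Q).comp L.subtype).range := by
      ext δ
      constructor
      · rintro ⟨l, hl, rfl⟩
        exact ⟨⟨l, hl⟩, rfl⟩
      · rintro ⟨l, rfl⟩
        exact ⟨l, l.2, rfl⟩
    rw [h3, ← index_ker]
    show _ ∣ (𝒦'.subgroupOf L).index
    apply index_dvd_of_le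
    intro x hx
    exact htriv _ hx
  have hpD : ∀ L : Subgroup 𝔾, L ≤ D' → ¬ p ∣ Nat.card (L.map (act 𝒦' Q)) := fun L hL h =>
    hpL L hL (h.trans (hcardL L))
  have hact1 : ∀ (g : 𝔾) (v : VV 𝒦' Q), act 𝒦' Q g⁻¹ (act 𝒦' Q g v) = v := by
    intro g v
    rw [← MulAut.mul_apply, ← map_mul, inv_mul_cancel, map_one, MulAut.one_apply]
  -- the tower
  have tw : Tower p I K D' Q γ w₀ :=
    ⟨hI, hKn, hD'n, hQnorm, hQK, hQo, hQf, hgQ, hγK, hγI, hγ, htot, hK0, hKp⟩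
  have hcm := tw.comm_mem
  have hlay : ∀ (D : Subgroup 𝔾) (m : ℕ), D.Normal → D' ≤ D → D.index = p ^ m →
      Lay D' γ D (p ^ m) := by
    intro D m hDn hle hDi
    have hmem : γ ^ p ^ m ∈ D := by
      rw [← hDi]
      exact D.pow_index_mem γ
    refine ⟨hDn, hle, ?_, hmem⟩
    intro n hn
    -- the order of `γ` modulo `D` is the index
    have h1 : orderOf (QuotientGroup.mk' D γ) = p ^ m := by
      have h2 : Subgroup.zpowers (QuotientGroup.mk' D γ) = ⊤ := by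
        rw [eq_top_iff]
        rintro x -
        obtain ⟨g, rfl⟩ := QuotientGroup.mk'_surjective D x
        obtain ⟨i, hi⟩ := hγ g
        refine mem_zpowers_iff.2 ⟨i, ?_⟩
        have h3 : QuotientGroup.mk' D (g * (γ ^ i)⁻¹) = 1 :=
          (QuotientGroup.eq_one_iff _).2 (hle hi)
        rw [map_mul, map_inv, map_zpow, mul_inv_eq_one] at h3
        exact h3.symm
      rw [← Nat.card_zpowers, h2, card_top, ← hDi]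
      rfl
    rw [← h1, orderOf_dvd_iff_zpow_eq_one, ← map_zpow]
    exact (QuotientGroup.eq_one_iff _).2 hn
  have lay₀ := hlay D₀ m₀ hD₀n (hDD.trans hDD₀) hD₀i
  have lay := hlay D m hDn hDD hDi
  -- the fixed elements
  set DF : Subgroup (MulAut (VV 𝒦' Q)) := (F ⊓ D').map (act 𝒦' Q) with hDF
  have hDFp : ¬ p ∣ Nat.card DF := hpD _ inf_le_right
  set U : Subgroup (VV 𝒦' Q) := fixS DF with hU
  have hUstab : ∀ g : 𝔾, ∀ v ∈ U, act 𝒦' Q g v ∈ U := by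
    rintro g v hv _ ⟨l, ⟨hl1, hl2⟩, rfl⟩
    have h1 : l * g = g * (g⁻¹ * l * g) := by group
    have h2 := hFn.conj_mem l hl1 g⁻¹
    have h3 := hD'n.conj_mem l hl2 g⁻¹
    rw [inv_inv] at h2 h3
    rw [← MulAut.mul_apply, ← map_mul, h1, map_mul, MulAut.mul_apply, hv _ ⟨_, ⟨h2, h3⟩, rfl⟩]
  let φ : VV 𝒦' Q →* VV 𝒦' Q :=
    { toFun := fun v => act 𝒦' Q γ v * v⁻¹
      map_one' := by rw [map_one, inv_one, mul_one]
      map_mul' := fun u v => by rw [map_mul, mul_inv, mul_mul_mul_comm] }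
  have hφ : ∀ v, φ v = act 𝒦' Q γ v * v⁻¹ := fun _ => rfl
  have hcK : ∀ g : 𝔾, ⁅g, γ⁆ ∈ 𝒦' := by
    intro h
    refine ⟨?_, hcm h γ⟩
    rw [commutatorElement_def]
    exact K.mul_mem (hKn.conj_mem γ hγK h) (K.inv_mem hγK)
  have hφc : ∀ (h : 𝔾) (v : VV 𝒦' Q), act 𝒦' Q h (φ v) = φ (act 𝒦' Q h v) := by
    intro h v
    have h2 : h * γ = ⁅h, γ⁆ * (γ * h) := by
      rw [commutatorElement_def]
      group
    rw [hφ, hφ, map_mul, map_inv, ← MulAut.mul_apply, ← map_mul, h2, map_mul, htriv _ (hcK h),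
      one_mul, map_mul, MulAut.mul_apply]
  have hφcn : ∀ (j : ℕ) (h : 𝔾) (v : VV 𝒦' Q), act 𝒦' Q h (φ^[j] v) = φ^[j] (act 𝒦' Q h v) := by
    intro j
    induction j with
    | zero => exact fun _ _ => rfl
    | succ j ih =>
      intro h v
      rw [Function.iterate_succ_apply', Function.iterate_succ_apply', hφc, ih]
  have hUφ : ∀ u ∈ U, φ u ∈ U := fun u hu => U.mul_mem (hUstab γ u hu) (U.inv_mem hu)
  have hfrob : ∀ (b : ℕ) (v : VV 𝒦' Q), φ^[p ^ b] v = act 𝒦' Q (γ ^ p ^ b) v * v⁻¹ := by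
    intro b v
    rw [frob hpow (act 𝒦' Q γ) φ hφ b v, map_pow]
  have hN : ∀ v, φ^[p ^ m'] v = 1 := by
    intro v
    have h1 : γ ^ p ^ m' ∈ 𝒦' := by
      refine ⟨K.pow_mem hγK _, ?_⟩
      rw [← hD'i]
      exact D'.pow_index_mem γ
    rw [hfrob, htriv _ h1, MulAut.one_apply, mul_inv_cancel]
  -- the relations
  set Y₁ : Subgroup (VV 𝒦' Q) := closure ({x | ∃ v, x = φ v} ∪
    {x | ∃ a : 𝒦', (∃ A, (a : 𝔾) * γ ∈ I A) ∧ x = th 𝒦' Q a}) with hY₁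
  have hYφ0 : ∀ v, φ v ∈ Y₁ := fun v => subset_closure (Or.inl ⟨v, rfl⟩)
  have hYa : ∀ a : 𝒦', (∃ A, (a : 𝔾) * γ ∈ I A) → th 𝒦' Q a ∈ Y₁ := fun a ha =>
    subset_closure (Or.inr ⟨a, ha, rfl⟩)
  have hYφ : ∀ y ∈ Y₁, φ y ∈ Y₁ := fun y _ => hYφ0 y
  have hYst : ∀ (g : 𝔾), ∀ y ∈ Y₁, act 𝒦' Q g y ∈ Y₁ := by
    intro g
    have h1 : Y₁ ≤ Y₁.comap (act 𝒦' Q g).toMonoidHom := by
      rw [hY₁, closure_le, ← hY₁]
      rintro _ (⟨v, rfl⟩ | ⟨a, ⟨A, hA⟩, rfl⟩)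
      · show act 𝒦' Q g (φ v) ∈ Y₁
        rw [hφc]
        exact hYφ0 _
      · show act 𝒦' Q g (th 𝒦' Q a) ∈ Y₁
        rw [act_th]
        have h2 : (⟨g * a * g⁻¹, h𝒦'n.conj_mem a a.2 g⟩ : 𝒦') =
            (⟨g * a * g⁻¹, h𝒦'n.conj_mem a a.2 g⟩ * ⟨⁅g, γ⁆, hcK g⟩) * ⟨⁅g, γ⁆, hcK g⟩⁻¹ := by
          rw [mul_inv_cancel_right]
        rw [h2, map_mul, map_inv]
        have h5 : ⁅g, γ⁆ * γ = g * γ * g⁻¹ := by
          rw [commutatorElement_def]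
          group
        refine Y₁.mul_mem (hYa _ ⟨g • A, ?_⟩) (Y₁.inv_mem (hYa _ ⟨g • w₀, ?_⟩))
        · have h3 := hI g A _ hA
          have h4 : g * (a * γ) * g⁻¹ = g * a * g⁻¹ * ⁅g, γ⁆ * γ := by
            rw [mul_assoc _ _ γ, h5]
            group
          rw [h4] at h3
          exact h3
        · show ⁅g, γ⁆ * γ ∈ _
          rw [h5]
          exact hI g w₀ γ hγI
    exact fun y hy => h1 hy
  have hZst : ∀ (j : ℕ) (g : 𝔾), ∀ z ∈ zz φ Y₁ j, act 𝒦' Q g z ∈ zz φ Y₁ j := by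
    intro j g z hz
    obtain ⟨y, hy, rfl⟩ := (mem_zz _).1 hz
    rw [hφcn]
    exact (mem_zz _).2 ⟨_, hYst g y hy, rfl⟩
  -- the powers of the elements of the inertia groups
  have hpwm : ∀ (n : ℕ) (a : 𝒦'), ((a : 𝔾) * γ) ^ n * (γ ^ n)⁻¹ ∈ 𝒦' := by
    intro n a
    rw [← QuotientGroup.eq_one_iff]
    show QuotientGroup.mk' 𝒦' _ = 1
    have h4 : QuotientGroup.mk' 𝒦' (a : 𝔾) = 1 := (QuotientGroup.eq_one_iff _).2 a.2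
    rw [map_mul, map_inv, map_pow, map_pow, map_mul, h4, one_mul, mul_inv_cancel]
  have hpw : ∀ (n : ℕ) (a : 𝒦') (h : ((a : 𝔾) * γ) ^ n * (γ ^ n)⁻¹ ∈ 𝒦'),
      th 𝒦' Q ⟨_, h⟩ = ∏ i ∈ Finset.range n, ((act 𝒦' Q γ) ^ i) (th 𝒦' Q a) := by
    intro n a
    induction n with
    | zero =>
      intro h
      have h1 : (⟨((a : 𝔾) * γ) ^ 0 * (γ ^ 0)⁻¹, h⟩ : 𝒦') = 1 := by
        apply Subtype.ext
        show ((a : 𝔾) * γ) ^ 0 * (γ ^ 0)⁻¹ = 1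
        rw [pow_zero, pow_zero, inv_one, mul_one]
      rw [h1, map_one, Finset.range_zero, Finset.prod_empty]
    | succ n ih =>
      intro h
      have h0 := hpwm n a
      have h1 : (⟨((a : 𝔾) * γ) ^ (n + 1) * (γ ^ (n + 1))⁻¹, h⟩ : 𝒦') =
          ⟨_, h0⟩ * ⟨γ ^ n * a * (γ ^ n)⁻¹, h𝒦'n.conj_mem a a.2 _⟩ := by
        apply Subtype.ext
        show ((a : 𝔾) * γ) ^ (n + 1) * (γ ^ (n + 1))⁻¹ =
          ((a : 𝔾) * γ) ^ n * (γ ^ n)⁻¹ * (γ ^ n * a * (γ ^ n)⁻¹)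
        rw [pow_succ, pow_succ]
        group
      rw [h1, map_mul, ih h0, ← act_th, Finset.prod_range_succ, map_pow]
  have hcx : ∀ (g x : 𝔾) (hx : x ∈ 𝒦'), ⁅g, x⁆ ∈ 𝒦' := by
    intro g x hx
    rw [commutatorElement_def]
    exact 𝒦'.mul_mem (h𝒦'n.conj_mem x hx g) (𝒦'.inv_mem hx)
  have hactc : ∀ (g x : 𝔾) (hx : x ∈ 𝒦') (h : ⁅g, x⁆ ∈ 𝒦'),
      act 𝒦' Q g (th 𝒦' Q ⟨x, hx⟩) * (th 𝒦' Q ⟨x, hx⟩)⁻¹ = th 𝒦' Q ⟨⁅g, x⁆, h⟩ := by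
    intro g x hx h
    rw [act_th, ← map_inv, ← map_mul]
    rfl
  -- the subgroups of `V` and of `𝒦'`
  have hpre_le : ∀ (S : Subgroup (VV 𝒦' Q)) (W : Subgroup 𝔾), Q ≤ W →
      (∀ v ∈ S, ∃ x ∈ W, ∃ hx : x ∈ 𝒦', th 𝒦' Q ⟨x, hx⟩ = v) → pre 𝒦' Q S ≤ W := by
    intro S W hQW h x hx
    have hx' := pre_le 𝒦' Q S hx
    obtain ⟨y, hy, hy', h1⟩ := h _ ((mem_pre 𝒦' Q S ⟨x, hx'⟩).1 hx)
    have h2 : th 𝒦' Q (⟨x, hx'⟩ * ⟨y, hy'⟩⁻¹) = 1 := by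
      rw [map_mul, map_inv, h1, mul_inv_cancel]
    rw [th_eq_one] at h2
    have h3 : x * y⁻¹ ∈ Q := h2
    have h4 := W.mul_mem (hQW h3) hy
    rwa [inv_mul_cancel_right] at h4
  have himg : ∀ W : Subgroup 𝔾, ∃ S : Subgroup (VV 𝒦' Q),
      ∀ v, v ∈ S ↔ ∃ x ∈ W, ∃ hx : x ∈ 𝒦', th 𝒦' Q ⟨x, hx⟩ = v := by
    intro W
    refine ⟨(W.subgroupOf 𝒦').map (th 𝒦' Q), fun v => ⟨?_, ?_⟩⟩
    · rintro ⟨x, hx, rfl⟩
      exact ⟨x, hx, x.2, rfl⟩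
    · rintro ⟨x, hx, hx', rfl⟩
      exact ⟨⟨x, hx'⟩, hx, rfl⟩
  have hpre_n : ∀ S : Subgroup (VV 𝒦' Q), (∀ (g : 𝔾), ∀ v ∈ S, act 𝒦' Q g v ∈ S) →
      (pre 𝒦' Q S).Normal := by
    intro S hS
    refine ⟨fun x hx g => ?_⟩
    have hx' := pre_le 𝒦' Q S hx
    refine (mem_pre 𝒦' Q S ⟨_, h𝒦'n.conj_mem x hx' g⟩).2 ?_
    have h1 := hS g _ ((mem_pre 𝒦' Q S ⟨x, hx'⟩).1 hx)
    rw [act_th] at h1
    exact h1
  have hZP : ∀ b : ℕ, Rels I 𝒦' γ (p ^ b) (pre 𝒦' Q (zz φ Y₁ (p ^ b - 1))) := by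
    intro b
    constructor
    · intro x hx
      refine (mem_pre 𝒦' Q _ ⟨_, hcx (γ ^ p ^ b) x hx⟩).2 ?_
      rw [← hactc (γ ^ p ^ b) x hx, ← hfrob, mem_zz]
      refine ⟨φ (th 𝒦' Q ⟨x, hx⟩), hYφ0 _, ?_⟩
      rw [← Function.iterate_succ_apply, Nat.succ_eq_add_one,
        Nat.sub_add_cancel (pow_pos hp.out.pos b)]
    · intro a ha hA
      refine (mem_pre 𝒦' Q _ ⟨_, hpwm (p ^ b) ⟨a, ha⟩⟩).2 ?_
      rw [hpw (p ^ b) ⟨a, ha⟩, ← norm_frob hpow (act 𝒦' Q γ) φ hφ b, mem_zz]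
      exact ⟨_, hYa ⟨a, ha⟩ hA, rfl⟩
  have hZmin : ∀ (b : ℕ) (W : Subgroup 𝔾), Q ≤ W → Rels I 𝒦' γ (p ^ b) W →
      pre 𝒦' Q (zz φ Y₁ (p ^ b - 1)) ≤ W := by
    intro b W hQW hW
    obtain ⟨S, hS⟩ := himg W
    refine hpre_le _ W hQW fun v hv => (hS v).1 ?_
    obtain ⟨y, hy, rfl⟩ := (mem_zz _).1 hv
    refine closure_induction (p := fun y _ => φ^[p ^ b - 1] y ∈ S) ?_ ?_ ?_ ?_ hy
    · rintro _ (⟨v, rfl⟩ | ⟨a, hA, rfl⟩)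
      · obtain ⟨x, rfl⟩ := th_surj 𝒦' Q v
        rw [← Function.iterate_succ_apply, Nat.succ_eq_add_one,
          Nat.sub_add_cancel (pow_pos hp.out.pos b), hfrob, hS]
        exact ⟨⁅γ ^ p ^ b, (x : 𝔾)⁆, hW.comm x x.2, hcx _ _ x.2,
          (hactc (γ ^ p ^ b) x x.2 (hcx _ _ x.2)).symm⟩
      · rw [norm_frob hpow (act 𝒦' Q γ) φ hφ b, ← hpw (p ^ b) a (hpwm _ a), hS]
        exact ⟨_, hW.iner a a.2 hA, hpwm _ a, rfl⟩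
    · rw [iterate_map_one]
      exact S.one_mem
    · intro y y' _ _ h1 h2
      rw [iterate_map_mul]
      exact S.mul_mem h1 h2
    · intro y _ h1
      rw [iterate_map_inv]
      exact S.inv_mem h1
  set X' : Subgroup (VV 𝒦' Q) := augS DF with hX'
  have hXst : ∀ (g : 𝔾), ∀ v ∈ X', act 𝒦' Q g v ∈ X' := by
    intro g
    have h1 : X' ≤ X'.comap (act 𝒦' Q g).toMonoidHom := by
      rw [hX', augS, closure_le]
      rintro _ ⟨_, ⟨l, ⟨hl1, hl2⟩, rfl⟩, v, rfl⟩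
      show act 𝒦' Q g (act 𝒦' Q l v * v⁻¹) ∈ augS DF
      have h1 : g * l = (g * l * g⁻¹) * g := by group
      rw [map_mul, map_inv, ← MulAut.mul_apply, ← map_mul, h1, map_mul, MulAut.mul_apply]
      exact aug_mem DF ⟨_, ⟨hFn.conj_mem l hl1 g, hD'n.conj_mem l hl2 g⟩, rfl⟩ _
    exact fun v hv => h1 hv
  have hXX : ∀ l ∈ F ⊓ D', ∀ x ∈ K ⊓ D', ⁅l, x⁆ ∈ pre 𝒦' Q X' := by
    intro l hl x hx
    refine (mem_pre 𝒦' Q _ ⟨_, hcx l x hx⟩).2 ?_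
    rw [← hactc l x hx]
    exact aug_mem DF ⟨l, hl, rfl⟩ _
  have hXmin : ∀ W : Subgroup 𝔾, Q ≤ W → (∀ l ∈ F ⊓ D', ∀ x ∈ K ⊓ D', ⁅l, x⁆ ∈ W) →
      pre 𝒦' Q X' ≤ W := by
    intro W hQW hW
    obtain ⟨S, hS⟩ := himg W
    refine hpre_le _ W hQW fun v hv => (hS v).1 ?_
    have h1 : X' ≤ S := by
      rw [hX', augS, closure_le]
      rintro _ ⟨_, ⟨l, hl, rfl⟩, v, rfl⟩
      obtain ⟨x, rfl⟩ := th_surj 𝒦' Q v
      refine (hS _).2 ⟨⁅l, (x : 𝔾)⁆, hW l hl x x.2, hcx _ _ x.2, ?_⟩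
      exact (hactc l x x.2 (hcx _ _ x.2)).symm
    exact h1 hv
  have hPn : ∀ b : ℕ, (pre 𝒦' Q (zz φ Y₁ (p ^ b - 1))).Normal := fun b =>
    hpre_n _ (hZst (p ^ b - 1))
  have hsup : ∀ b : ℕ, (pre 𝒦' Q X' ⊔ pre 𝒦' Q (zz φ Y₁ (p ^ b - 1))).relIndex 𝒦' =
      (X' ⊔ zz φ Y₁ (p ^ b - 1)).index := by
    intro b
    rw [← pre_sup, pre_relIndex]
  have hsupQ : ∀ b : ℕ, (Q ⊔ pre 𝒦' Q (zz φ Y₁ (p ^ b - 1))).relIndex 𝒦' =
      (zz φ Y₁ (p ^ b - 1)).index := by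
    intro b
    rw [sup_eq_right.2 (le_pre 𝒦' Q hQK _), pre_relIndex]
  have hQn' : ∀ l ∈ K ⊓ D', ∀ x ∈ K ⊓ D', ⁅l, x⁆ ∈ Q := fun l hl x hx =>
    hgQ (Or.inl (Or.inr ⟨l, hl, x, hx, rfl⟩))
  -- the four comparisons
  have ha : (zz φ Y₁ (p ^ m - 1)).index ≤ C := by
    rw [← hsupQ]
    exact tw.upper lay le_rfl (hPn m) hQnorm (le_pre 𝒦' Q hQK _) (pre_le 𝒦' Q _) hQK (hZP m) hQn' hC
  have hb : E + 1 ≤ (X' ⊔ zz φ Y₁ (p ^ m - 1)).index := by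
    rw [← hsup]
    exact hM5.trans_le (tw.lower lay hKF (hZmin m) hXmin
      ((le_pre 𝒦' Q hQK _).trans le_sup_right) hQM hM4)
  have hc : C₀ + 1 ≤ (zz φ Y₁ (p ^ m₀ - 1)).index := by
    rw [← hsupQ]
    exact hW5.trans_le (tw.lower lay₀ le_rfl (hZmin m₀) (fun W hW _ => hW)
      ((le_pre 𝒦' Q hQK _).trans le_sup_right) hQW hW4)
  have hd : (X' ⊔ zz φ Y₁ (p ^ m₀ - 1)).index ≤ E₀ := by
    rw [← hsup]
    exact tw.upper lay₀ hKF (hPn m₀) (hpre_n _ hXst) (le_pre 𝒦' Q hQK _) (pre_le 𝒦' Q _)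
      (pre_le 𝒦' Q _) (hZP m₀) hXX hE₀
  have hs : ∀ b : ℕ, (zz φ Y₁ b).index = (U ⊔ zz φ Y₁ b).index * (X' ⊔ zz φ Y₁ b).index := fun b =>
    idx_split hp.out hpow DF hDFp _ (by
      rintro _ ⟨l, _, rfl⟩ v hv
      exact hZst b l v hv)
  have hUZ : ∀ b : ℕ, ∀ g : 𝔾, ∀ v ∈ U ⊔ zz φ Y₁ b, act 𝒦' Q g v ∈ U ⊔ zz φ Y₁ b := by
    intro b g
    have h1 : U ⊔ zz φ Y₁ b ≤ (U ⊔ zz φ Y₁ b).comap (act 𝒦' Q g).toMonoidHom :=
      sup_le (fun v hv => mem_sup_left (hUstab g v hv)) (fun v hv => mem_sup_right (hZst b g v hv))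
    exact fun v hv => h1 hv
  have hstep : ∀ j, U ⊔ zz φ Y₁ (j + 1) ≠ U ⊔ zz φ Y₁ j →
      p ^ r ≤ (U ⊔ zz φ Y₁ (j + 1)).relIndex (U ⊔ zz φ Y₁ j) := by
    intro j hne
    have hle : U ⊔ zz φ Y₁ (j + 1) ≤ U ⊔ zz φ Y₁ j := sup_le_sup_left (zz_anti hYφ j) U
    obtain ⟨n, hn0, hn⟩ := relIndex_pow hpow hle hne
    rw [hn]
    by_contra hlt
    have hnr : n < r := by
      by_contra h
      exact hlt (Nat.pow_le_pow_right hp.out.pos (not_lt.1 h))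
    apply hne
    refine le_antisymm hle ?_
    have hφB : ∀ v ∈ U ⊔ zz φ Y₁ j, φ v ∈ U ⊔ zz φ Y₁ (j + 1) := by
      have h1 : U ⊔ zz φ Y₁ j ≤ (U ⊔ zz φ Y₁ (j + 1)).comap φ :=
        sup_le (fun v hv => mem_sup_left (hUφ v hv)) (fun v hv => mem_sup_right ⟨v, hv, rfl⟩)
      exact fun v hv => h1 hv
    have hact : ∀ l ∈ F ⊓ D', ∀ v ∈ U ⊔ zz φ Y₁ j, act 𝒦' Q l v * v⁻¹ ∈ U ⊔ zz φ Y₁ (j + 1) := by
      have h3 : K ≤ actSub (act 𝒦' Q) (U ⊔ zz φ Y₁ j) (U ⊔ zz φ Y₁ (j + 1)) (hUZ j) := by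
        intro k hk
        obtain ⟨i, hi⟩ := hγ k
        have h4 : k = (k * (γ ^ i)⁻¹) * γ ^ i := by group
        rw [h4]
        refine mul_mem ?_ (zpow_mem ?_ i)
        · intro u hu
          rw [htriv _ ⟨K.mul_mem hk (K.inv_mem (K.zpow_mem hγK i)), hi⟩, MulAut.one_apply,
            mul_inv_cancel]
          exact one_mem _
        · intro u hu
          exact hφB u hu
      have h1 := hTR p 𝔾 (VV 𝒦' Q) hpow (act 𝒦' Q) _ _ hle (hUZ (j + 1)) (hUZ j) n hn K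
        (fun k hk v hv => h3 hk v hv) F (hr n hnr)
      intro l hl v hv
      exact h1 hl.1 v hv
    intro v hv
    refine nofix hp.out DF hDFp (U ⊔ zz φ Y₁ (j + 1)) (fun v hv => mem_sup_left hv) (hpow v) ?_
    rintro _ ⟨l, hl, rfl⟩
    exact hact l hl v hv
  have hmm : ∀ (D₁ D₂ : Subgroup 𝔾) (n₁ n₂ : ℕ), D₂ ≤ D₁ → D₁.index = p ^ n₁ → D₂.index = p ^ n₂ →
      p ^ n₁ ≤ p ^ n₂ := by
    intro D₁ D₂ n₁ n₂ hle h1 h2
    rw [← h1, ← h2]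
    refine Nat.le_of_dvd (Nat.pos_of_ne_zero ?_) (index_dvd_of_le hle)
    rw [h2]
    exact (pow_pos hp.out.pos n₂).ne'
  have hm₀m := hmm D₀ D m₀ m hDD₀ hD₀i hDi
  have hmm' := hmm D D' m m' hDD hDi hD'i
  have hq₀ : 0 < p ^ m₀ := pow_pos hp.out.pos m₀
  -- the exponents
  have hanti : ∀ j, U ⊔ zz φ Y₁ (j + 1) ≤ U ⊔ zz φ Y₁ j := fun j =>
    sup_le_sup_left (zz_anti hYφ j) U
  have hpw' : ∀ j, ∃ t, (U ⊔ zz φ Y₁ (j + 1)).relIndex (U ⊔ zz φ Y₁ j) = p ^ t := by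
    intro j
    by_cases h : U ⊔ zz φ Y₁ (j + 1) = U ⊔ zz φ Y₁ j
    · exact ⟨0, by rw [h, relIndex_self, pow_zero]⟩
    · obtain ⟨n, -, hn⟩ := relIndex_pow hpow (hanti j) h
      exact ⟨n, hn⟩
  choose t ht using hpw'
  have htr : ∀ j, t j = 0 ∨ r ≤ t j := by
    intro j
    by_cases h : U ⊔ zz φ Y₁ (j + 1) = U ⊔ zz φ Y₁ j
    · left
      have h1 := ht j
      rw [h, relIndex_self] at h1
      rcases Nat.eq_zero_or_pos (t j) with h2 | h2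
      · exact h2
      · exact absurd h1.symm (Nat.one_lt_pow h2.ne' hp.out.one_lt).ne'
    · right
      have h1 := hstep j h
      rw [ht j] at h1
      exact (Nat.pow_le_pow_iff_right hp.out.one_lt).1 h1
  have htanti : Antitone t := by
    refine antitone_nat_of_succ_le fun j => ?_
    rw [← Nat.pow_le_pow_iff_right hp.out.one_lt, ← ht, ← ht]
    have hsucc : ∀ i, U ⊔ zz φ Y₁ (i + 1) = U ⊔ (U ⊔ zz φ Y₁ i).map φ := by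
      intro i
      rw [Subgroup.map_sup, ← sup_assoc]
      congr 1
      exact (sup_eq_left.2 (by
        rintro _ ⟨u, hu, rfl⟩
        exact hUφ u hu)).symm
    have hfin0 : ∀ A B : Subgroup (VV 𝒦' Q), A.relIndex B ≠ 0 := by
      intro A B
      have h1 : Finite (B ⧸ A.subgroupOf B) := inferInstance
      exact (A.subgroupOf B).index_ne_zero_of_finite
    rw [hsucc (j + 1), hsucc j]
    set A := U ⊔ zz φ Y₁ (j + 1) with hA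
    set A₀ := U ⊔ zz φ Y₁ j with hA₀
    have h2 : A ≤ A₀ := hanti j
    have h3 : A = U ⊔ A₀.map φ := hsucc j
    rw [← h3]
    have h4 : A = (U ⊔ A.map φ) ⊔ A₀.map φ := by
      refine le_antisymm ?_ ?_
      · conv_lhs => rw [h3]
        exact sup_le (le_sup_left.trans le_sup_left) le_sup_right
      · have h5 : U ≤ A := le_sup_left
        have h6 : A₀.map φ ≤ A := by
          conv_rhs => rw [h3]
          exact le_sup_right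
        exact sup_le (sup_le h5 ((Subgroup.map_mono h2).trans h6)) h6
    calc (U ⊔ A.map φ).relIndex A = (U ⊔ A.map φ).relIndex ((U ⊔ A.map φ) ⊔ A₀.map φ) := by
          rw [← h4]
      _ = (U ⊔ A.map φ).relIndex (A₀.map φ) := relIndex_sup_left _ _
      _ ≤ (A.map φ).relIndex (A₀.map φ) := relIndex_le_of_le_left le_sup_right (hfin0 _ _)
      _ ≤ A.relIndex A₀ := by
          have h7 : A₀ ⊔ φ.ker = (A ⊔ φ.ker) ⊔ A₀ := by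
            refine le_antisymm (sup_le le_sup_right (le_sup_right.trans le_sup_left)) ?_
            exact sup_le (sup_le (h2.trans le_sup_left) le_sup_right) le_sup_left
          rw [relIndex_map_map, h7, relIndex_sup_left]
          exact relIndex_le_of_le_left le_sup_left (hfin0 _ _)
  have hprod : ∀ j n, (U ⊔ zz φ Y₁ (j + n)).index =
      (U ⊔ zz φ Y₁ j).index * p ^ (∑ i ∈ Finset.range n, t (j + i)) := by
    intro j n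
    induction n with
    | zero => rw [Finset.range_zero, Finset.sum_empty, pow_zero, mul_one, add_zero]
    | succ n ih =>
      rw [← add_assoc, ← relIndex_mul_index (hanti (j + n)), ih, ht, Finset.sum_range_succ, pow_add]
      ring
  have e1 : p ^ m₀ - 1 + (p ^ m - p ^ m₀) = p ^ m - 1 := by omega
  have e2 : p ^ m - 1 + (p ^ m' - p ^ m) = p ^ m' - 1 := by omega
  have hu1 := hprod (p ^ m₀ - 1) (p ^ m - p ^ m₀)
  rw [e1] at hu1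
  have hu2 := hprod (p ^ m - 1) (p ^ m' - p ^ m)
  rw [e2] at hu2
  have lay' := hlay D' m' hD'n le_rfl hD'i
  refine ⟨(U ⊔ zz φ Y₁ (p ^ m₀ - 1)).index, (U ⊔ zz φ Y₁ (p ^ m - 1)).index,
    (U ⊔ zz φ Y₁ (p ^ m' - 1)).index,
    (X' ⊔ zz φ Y₁ (p ^ m₀ - 1)).index, (X' ⊔ zz φ Y₁ (p ^ m - 1)).index,
    (X' ⊔ zz φ Y₁ (p ^ m' - 1)).index, t, htanti, htr, hu1, hu2, ?_, hb, ?_, hd, ?_, ?_⟩
  · rw [← hs]
    exact ha
  · rw [← hs]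
    exact hc
  · -- the highest layer
    rw [← hs, ← pre_relIndex 𝒦' Q]
    have hγ' : γ ^ p ^ m' ∈ 𝒦' := by
      refine ⟨K.pow_mem hγK _, ?_⟩
      rw [← hD'i]
      exact D'.pow_index_mem γ
    have hQR : Rels I 𝒦' γ (p ^ m') Q := by
      constructor
      · intro x hx
        exact hgQ (Or.inl (Or.inr ⟨_, hγ', x, hx, rfl⟩))
      · rintro a ha ⟨A, hA⟩
        have h1 : (a * γ) ^ p ^ m' ∈ 𝒦' := by
          have h2 := 𝒦'.mul_mem (hpwm (p ^ m') ⟨a, ha⟩) hγ'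
          rwa [inv_mul_cancel_right] at h2
        exact Q.mul_mem (hgQ (Or.inr ⟨h1, A, (I A).pow_mem hA _⟩))
          (Q.inv_mem (hgQ (Or.inr ⟨hγ', w₀, (I w₀).pow_mem hγI _⟩)))
    have h1 : pre 𝒦' Q (zz φ Y₁ (p ^ m' - 1)) ≤ Y :=
      ((hZmin m' Q le_rfl hQR).trans hQY).trans inf_le_left
    refine relIndex_le_of_le_left h1 ?_
    rw [pre_relIndex]
    exact index_ne_zero_of_finite
  · intro T hT
    rw [← hsup]
    exact tw.upper lay' hKF (hPn m') (hpre_n _ hXst) (le_pre 𝒦' Q hQK _) (pre_le 𝒦' Q _)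
      (pre_le 𝒦' Q _) (hZP m') hXX hT

end Pool.Agent.V5helper60.GM
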