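import Pool.Agent.V5helper60.GM.Asm
import Pool.Agent.V5helper61.GM.ALG
import Pool.Agent.V5helper17.GM.TR
import Pool.Agent.V5helper81.GM.OP
import Pool.Agent.V5helper69.GM.GLN
import Pool.Agent.V5helper23.GM.PM
import Pool.Agent.V5helper65.GM.LAY

/-!
# `μ = 0` for abelian extensions of imaginary quadratic fields: a criterion in one layer

Let `p` be odd and let `K / ℚ` be a finite Galois extension which is abelian over a quadratic field `k`,
with `p` prime to `[K : ℚ]`. By Iwasawa's theorem on `p`-extensions, it is enough for Q1 to consider such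
`K` (the Galois closure over `ℚ` of an abelian extension of `k` is abelian over `k`). `K^ab` is the
largest subfield of `K` which is abelian over `ℚ`. For a number field `E` let `d(E)` be the order of
`Cl(E) / p`, the largest degree of an unramified elementary abelian `p`-extension of `E`; `DegLe p E C`
says `d(E) ≤ C`. Let `r` be such that every homomorphism of `Gal(K / ℚ)` to `GL_n(F_p)` with `n < r` has a
commutative image. This holds for `r = 2`, and it holds if no prime divisor of `[K : K^ab]` divides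
`p ^ j - 1` for some `0 < j < r`. Let `R` be the layer of degree `p ^ m` of the cyclotomic
`ℤ_p`-extension of `ℚ`. The criterion is

* `d(K R) / d(K^ab R) < p ^ (r (p ^ m - 2))`, that is, the `p`-rank of the class group of `K R` exceeds
  the one of `K^ab R` by less than `r (p ^ m - 2)`; or
* `k` is imaginary and the `p`-rank of the class group of `K⁺ R`, `K⁺ = K ∩ ℝ`, is less than
  `r (p ^ m - 2) / 2`.

If it holds for one layer `R`, then `d(K R') ≤ p ^ [K : ℚ] d(K R) / d(K^ab R) d(K^ab R')` for all layers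
`R'` which contain `R`. Conversely, it holds for all layers of large degree if `μ = 0` for `K`.
By Ferrero and Washington `μ = 0` for `K^ab`. So Q1 for `K` is equivalent to each of the two criteria
for one layer, which may be chosen as large as one likes; no condition on the decomposition of `p` in
`K` is necessary.

Proof. Let `V` be the group of a maximal unramified elementary abelian `p`-extension of `K R'` which is
Galois over `ℚ`, `G` the Galois group of `K R' / R'`, which acts on `V` semisimply, `U` the part fixed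
by the group of `K^ab R'`, and `φ = γ - 1`, where `γ` generates the group of `K R' / K`. If `φ ^ (q - 1) V` is not
contained in `U`, `q = p ^ m`, there is a quotient `V / P` with a filtration by powers of `φ` with `q`
quotients isomorphic to one simple `G`-module `W` of order `w`, on which the commutators act
nontrivially, so `w ≥ p ^ r`. Modulo `P` an inertia group at `p` is generated by one element `x` modulo
the inertia groups of the unramified extension, and `G x` generates a submodule of order at most `w ^ 2`, as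
an abelian subgroup of index `2` acts on `W` through a commutative ring. So `Cl(K R) / p` has
a quotient of order at least `w ^ (q - 2)` which is not seen by `K^ab R`. In the other case, the order of
`V / U` is bounded.
-/

set_option autoImplicit false

namespace Pool.Agent.Results.MP_b78433_nt.OneLayerCriterion

open IntermediateField Module Pool.Agent.Q60.MU Pool.Agent.W5h77.MB
open Pool.Agent.V5helper60.GM

/-- The degree over `ℚ`. -/
noncomputable def deg (K : IntermediateField ℚ Qb) : ℕ := finrank ℚ K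

/-- `K / ℚ` is a finite Galois extension. -/
def IsFiniteGalois (K : IntermediateField ℚ Qb) : Prop := FiniteDimensional ℚ K ∧ IsGalois ℚ K

/-- `K` is an abelian extension of the quadratic field `k` (if `K` is Galois over `ℚ`). -/
def IsAbelianOverQuadratic (k K : IntermediateField ℚ Qb) : Prop :=
  deg k = 2 ∧ k ≤ K ∧ ∀ σ ∈ k.fixingSubgroup, ∀ τ ∈ k.fixingSubgroup, ∀ x ∈ K,
    σ (τ x) = τ (σ x)

/-- `d(K R') ≤ N d(K^ab R')` for all layers `R'` which contain `R`. -/
def BoundAbove (p : ℕ) (K R : IntermediateField ℚ Qb) (N : ℕ) : Prop :=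
  ∀ (m' : ℕ) (R' : IntermediateField ℚ Qb) (T : ℕ), IsLayer p m' R' → R ≤ R' →
    DegLe p (abPart K ⊔ R') T → DegLe p (K ⊔ R') (N * T)

/-- `μ = 0` for `K` if and only if `μ = 0` for `K^ab` and `P` holds for one layer `R` (of degree `p ^ m`);
and if and only if `μ = 0` for `K^ab` and `P` holds for all layers of large degree. -/
def Criterion (p : ℕ) (K : IntermediateField ℚ Qb) (P : ℕ → IntermediateField ℚ Qb → Prop) : Prop :=
  (MuZero p K ↔ MuZero p (abPart K) ∧ ∃ m R, IsLayer p m R ∧ P m R) ∧
  (MuZero p K ↔ MuZero p (abPart K) ∧ ∃ m₀, ∀ m ≥ m₀, ∀ R, IsLayer p m R → P m R)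

/-- No prime divisor of `[K : K^ab]` divides `p ^ j - 1` for some `0 < j < r`. -/
def NoPrime (p : ℕ) (K : IntermediateField ℚ Qb) (r : ℕ) : Prop :=
  ∀ n l j : ℕ, deg K = n * deg (abPart K) → l.Prime → l ∣ n → 0 < j → j < r →
    ¬ l ∣ p ^ j - 1

theorem criterion_of {p : ℕ} (hp : p.Prime) (hp2 : p ≠ 2) {K : IntermediateField ℚ Qb}
    [FiniteDimensional ℚ K] [IsGalois ℚ K] {P : ℕ → IntermediateField ℚ Qb → Prop}
    (h1 : ∀ m R, IsLayer p m R → P m R → ∃ N, BoundAbove p K R N)
    (h2 : MuZero p K → ∃ m₀, ∀ m ≥ m₀, ∀ R, IsLayer p m R → P m R) : Criterion p K P := by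
  have hpf : Fact p.Prime := ⟨hp⟩
  have hle : abPart K ≤ K := abPart_le K
  have h3 : ∀ m R, IsLayer p m R → P m R → MuZero p (abPart K) → MuZero p K := by
    intro m R hR hP h
    obtain ⟨T, hT⟩ := h
    obtain ⟨N, hN⟩ := h1 m R hR hP
    exact Pool.Agent.W5h33.DF.mu_of_above hR
      ⟨_, fun m' R' hR' hRR => hN m' R' T hR' hRR (hT m' R' hR')⟩
  refine ⟨⟨fun h => ⟨mu_down hp hle h, ?_⟩, ?_⟩, ⟨fun h => ⟨mu_down hp hle h, h2 h⟩, ?_⟩⟩
  · obtain ⟨m₀, hm₀⟩ := h2 h
    obtain ⟨R, hR⟩ := Pool.Agent.V5helper65.GM.t_LAY p hp hp2 m₀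
    exact ⟨m₀, R, hR, hm₀ m₀ le_rfl R hR⟩
  · rintro ⟨h, m, R, hR, hP⟩
    exact h3 m R hR hP h
  · rintro ⟨h, m₀, hm₀⟩
    obtain ⟨R, hR⟩ := Pool.Agent.V5helper65.GM.t_LAY p hp hp2 m₀
    exact h3 m₀ R hR (hm₀ m₀ le_rfl R hR) h

theorem result (p : ℕ) (hp : p.Prime) (hp2 : p ≠ 2) (k K : IntermediateField ℚ Qb)
    (hK : IsFiniteGalois K) (hkK : IsAbelianOverQuadratic k K) (hpK : ¬ p ∣ deg K) :
    (∀ r : ℕ, 0 < r → NoSmall p K r →
      (∀ m R C E, IsLayer p m R → Gap p K r m R C E →
        BoundAbove p K R (C * p ^ deg K / (E + 1))) ∧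
      Criterion p K (fun m R => ∃ C E, Gap p K r m R C E) ∧
      (∀ ι : Qb →+* ℂ, ¬ k ≤ realSub ι →
        (∀ m R C, IsLayer p m R → RealGap p ι K r m R C →
          BoundAbove p K R (C ^ 2 * p ^ deg K)) ∧
        Criterion p K (fun m R => ∃ C, RealGap p ι K r m R C))) ∧
    NoSmall p K 2 ∧ (∀ r : ℕ, NoPrime p K r → NoSmall p K r) := by
  have hpf : Fact p.Prime := ⟨hp⟩
  obtain ⟨hfK, hgK⟩ := hK
  obtain ⟨hk, -, hab⟩ := hkK
  have hle : abPart K ≤ K := abPart_le K
  refine ⟨fun r hr0 hr => ?_, noSmall_two p K, fun r h => ?_⟩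
  · have hbd : ∀ m R C E, IsLayer p m R → Gap p K r m R C E →
        BoundAbove p K R (C * p ^ deg K / (E + 1)) := by
      rintro m R C E hR ⟨h1, h2, h3⟩ m' R' T hR' hRR hT
      exact gap Pool.Agent.V5helper61.GM.t_ALG Pool.Agent.V5helper17.GM.t_TR
        Pool.Agent.V5helper81.GM.t_OP hp2 hk hab hpK hr hR hR' hRR h1 h2 h3 hT
    refine ⟨hbd, criterion_of hp hp2 ?_ (gap_of_mu hr0), fun ι hki => ?_⟩
    · rintro m R hR ⟨C, E, hCE⟩
      exact ⟨_, hbd m R C E hR hCE⟩
    · have hbd' : ∀ m R C, IsLayer p m R → RealGap p ι K r m R C →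
          BoundAbove p K R (C ^ 2 * p ^ deg K) := by
        intro m R C hR hC m' R' T hR' hRR hT
        exact realGap_bound Pool.Agent.V5helper61.GM.t_ALG Pool.Agent.V5helper17.GM.t_TR
          Pool.Agent.V5helper81.GM.t_OP Pool.Agent.V5helper23.GM.t_PM hp2 ι hk hki hab hpK hr hR
          hR' hRR hC hT
      refine ⟨hbd', criterion_of hp hp2 ?_ (realGap_of_mu ι hr0)⟩
      rintro m R hR ⟨C, hC⟩
      exact ⟨_, hbd' m R C hR hC⟩
  · have hfA : FiniteDimensional ℚ (abPart K) := Pool.Agent.W5h33.DF.fd_of_le hle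
    have hdvd : ∃ n, finrank ℚ K = n * finrank ℚ (abPart K) := by
      have hKidx : finrank ℚ K = K.fixingSubgroup.index := finrank_eq_fixingSubgroup_index Qb K
      have hFidx : finrank ℚ (abPart K) = (abPart K).fixingSubgroup.index :=
        finrank_eq_fixingSubgroup_index Qb (abPart K)
      have h5 := Subgroup.relIndex_mul_index (fixingSubgroup_le hle)
      exact ⟨_, by rw [hKidx, hFidx]; exact h5.symm⟩
    obtain ⟨n, hn⟩ := hdvd
    exact noSmall_of_prime Pool.Agent.V5helper69.GM.t_GLN hpK hn
      fun l hl hln j hj hjr => h n l j hn hl hln hj hjr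

end Pool.Agent.Results.MP_b78433_nt.OneLayerCriterion
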