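import Pool.Agent.V5helper60.GM.Asm8

/-!
# The rank of the real subfield and the growth
-/

set_option autoImplicit false

namespace Pool.Agent.V5helper60.GM

open IntermediateField Module Pool.Agent.Q60.MU Pool.Agent.W5h77.MB Pool.Agent.W5h33.DF

section
variable {p : ℕ} [hp : Fact p.Prime] {ι : Qb →+* ℂ} {K k : IntermediateField ℚ Qb}
  [hfK : FiniteDimensional ℚ K]

/-- The bound by the rank of one layer of the real subfield. -/
theorem real_rate [hKg : IsGalois ℚ K] (hp2 : p ≠ 2) (hk : finrank ℚ k = 2) (hki : ¬ k ≤ realSub ι)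
    (hab : ∀ σ ∈ k.fixingSubgroup, ∀ τ ∈ k.fixingSubgroup, ∀ x ∈ K, σ (τ x) = τ (σ x))
    (hpK : ¬ p ∣ finrank ℚ K) {r g s : ℕ} (hr : NoSmall p K r) (hgs : g ≤ s + 1 ∨ g ≤ r) {m m' : ℕ}
    {R R' : IntermediateField ℚ Qb} (hR : IsLayer p m R) (hR' : IsLayer p m' R') (hRR : R ≤ R')
    {C T : ℕ} (hC : DegLe p ((K ⊓ realSub ι) ⊔ R) C) (hCr : C ^ 2 < p ^ (g * (p ^ m - 1)))
    (hT : DegLe p (abPart K ⊔ R') T) :
    DegLe p (K ⊔ R') (C ^ 2 * p ^ (s * (p ^ m' - p ^ m)) * T) := by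
  have hfR := layer_fd hp.out hR
  have hfA : FiniteDimensional ℚ (abPart K) := fd_of_le (abPart_le K)
  have hRr : RealLayer p ι m R := ⟨hR, layer_real hp.out hp2 hR ι⟩
  have hR'r : RealLayer p ι m' R' := ⟨hR', layer_real hp.out hp2 hR' ι⟩
  obtain ⟨T₀, hT₀⟩ := degLe_base hR' (F := abPart K ⊔ R) (C := T) (by
    rw [sup_assoc, sup_eq_right.2 hRR]
    exact hT)
  obtain ⟨c₀, e₀, c, e, q₀, q, hc₀, he₀, hc, he, hq₀, hq, hlt⟩ :=
    real_growth (ι := ι) (r := g) hp2 hk hki hab hpK hRr hC hCr hT₀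
  obtain ⟨hGK, hGF⟩ := galois_bot (K := K)
  obtain ⟨hcop, hram⟩ := ram_bot (p := p) (ι := ι) (K := K) hpK
  have hdeg : ∀ (m : ℕ) (R : IntermediateField ℚ Qb), IsLayer p m R → DegreeOver ⊥ R (p ^ m) := by
    intro m R hR
    unfold DegreeOver
    rw [bot_sup_eq, hR.1, IntermediateField.finrank_bot, mul_one]
  have hqm : q = p ^ m := by
    have h1 := hdeg m R hR
    unfold DegreeOver at h1 hq
    rw [hq] at h1
    exact Nat.eq_of_mul_eq_mul_right finrank_pos h1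
  subst hqm
  have h := above_raw hGK hGF (abPart_le K) hcop hram (killsSmall_abPart hr)
    (R₀ := ⊥) (R := R) (R' := R') (g := g) (s := s)
    ⟨⟨0, layer_bot⟩, ⟨m, hRr⟩, bot_le⟩ ⟨⟨m, hRr⟩, ⟨m', hR'r⟩, hRR⟩
    ⟨q₀, c₀, e₀, p ^ m, c, e, ⟨hq₀, hc₀, he₀⟩, ⟨hq, hc, he⟩, hlt⟩ hgs ⟨hq, hc, he⟩
    (hdeg m' R' hR') hT
  refine degLe_mono h ?_
  have h1 := real_field Pool.Agent.V5helper23.GM.t_PM hp2 ι hk hki hab hpK hR hC he.1
  have h2 : c ≤ C ^ 2 * e := hc.le h1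
  obtain ⟨e', rfl, -⟩ := he.succ
  calc c * p ^ (s * (p ^ m' - p ^ m)) * T / (e' + 1)
      ≤ C ^ 2 * (e' + 1) * p ^ (s * (p ^ m' - p ^ m)) * T / (e' + 1) :=
        Nat.div_le_div_right (Nat.mul_le_mul_right _ (Nat.mul_le_mul_right _ h2))
    _ = C ^ 2 * p ^ (s * (p ^ m' - p ^ m)) * T := by
      rw [show C ^ 2 * (e' + 1) * p ^ (s * (p ^ m' - p ^ m)) * T =
        C ^ 2 * p ^ (s * (p ^ m' - p ^ m)) * T * (e' + 1) by ring]
      exact Nat.mul_div_cancel _ (Nat.succ_pos e')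

/-- The number of positive `m_i`. -/
theorem real_rate_le [hKg : IsGalois ℚ K] (hp2 : p ≠ 2) (hk : finrank ℚ k = 2)
    (hki : ¬ k ≤ realSub ι)
    (hab : ∀ σ ∈ k.fixingSubgroup, ∀ τ ∈ k.fixingSubgroup, ∀ x ∈ K, σ (τ x) = τ (σ x))
    (hpK : ¬ p ∣ finrank ℚ K) {s m : ℕ} {R : IntermediateField ℚ Qb} (hR : IsLayer p m R)
    {C : ℕ} (hC : DegLe p ((K ⊓ realSub ι) ⊔ R) C) (hCr : C ^ 2 < p ^ ((s + 1) * (p ^ m - 1)))
    (hmu : MuZero p (abPart K)) :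
    ∃ C', ∀ (m' : ℕ) (R' : IntermediateField ℚ Qb), IsLayer p m' R' →
      DegLe p (K ⊔ R') (C' * p ^ (s * p ^ m')) := by
  obtain ⟨T, hT⟩ := hmu
  have hRr : RealLayer p ι m R := ⟨hR, layer_real hp.out hp2 hR ι⟩
  have hb : ∀ (m' : ℕ) (R' : IntermediateField ℚ Qb), IsLayer p m' R' → R ≤ R' →
      DegLe p (K ⊔ R') (C ^ 2 * p ^ (s * (p ^ m' - p ^ m)) * T) := fun m' R' hR' hle =>
    real_rate hp2 hk hki hab hpK (noSmall_two p K) (Or.inl le_rfl) hR hR' hle hC hCr (hT m' R' hR')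
  have h0 := hb m R hR le_rfl
  rw [Nat.sub_self, mul_zero, pow_zero, mul_one] at h0
  refine ⟨C ^ 2 * T + C ^ 2 * T * R.fixingSubgroup.index, fun m' R' hR' => ?_⟩
  have hR'r : RealLayer p ι m' R' := ⟨hR', layer_real hp.out hp2 hR' ι⟩
  have hpos : 1 ≤ p ^ (s * p ^ m') := pow_pos hp.out.pos _
  rcases layers_total ⟨m, hRr⟩ ⟨m', hR'r⟩ with h | h
  · refine degLe_mono (hb m' R' hR' h) ?_
    calc C ^ 2 * p ^ (s * (p ^ m' - p ^ m)) * T = (C ^ 2 * T) * p ^ (s * (p ^ m' - p ^ m)) := by ring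
      _ ≤ (C ^ 2 * T + C ^ 2 * T * R.fixingSubgroup.index) * p ^ (s * p ^ m') :=
        Nat.mul_le_mul (Nat.le_add_right _ _) (Nat.pow_le_pow_right hp.out.pos
          (Nat.mul_le_mul_left _ (Nat.sub_le _ _)))
  · refine degLe_mono (degLe_down hRr hR'r h h0) ?_
    calc C ^ 2 * T * R.fixingSubgroup.index = (C ^ 2 * T * R.fixingSubgroup.index) * 1 :=
          (mul_one _).symm
      _ ≤ (C ^ 2 * T + C ^ 2 * T * R.fixingSubgroup.index) * p ^ (s * p ^ m') :=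
        Nat.mul_le_mul (Nat.le_add_left _ _) hpos

end

end Pool.Agent.V5helper60.GM
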