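import Pool.Agent.V5helper60.GM.Real8

/-!
# The number of positive `m_i` of a field and of its real subfield
-/

set_option autoImplicit false

namespace Pool.Agent.V5helper60.GM

open IntermediateField Module Pool.Agent.Q60.MU Pool.Agent.W5h77.MB Pool.Agent.W5h33.DF

section
variable {p : ℕ} [hp : Fact p.Prime] {ι : Qb →+* ℂ} {K k : IntermediateField ℚ Qb}
  [hfK : FiniteDimensional ℚ K]

omit hfK in
/-- If the rank of the real subfield has rate at most `t`, the inequality holds for `2 t + 1`. -/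
theorem real_small_of_rate {C t m : ℕ} (hm : C ^ 2 + (2 * t + 1) ≤ m) :
    (C * p ^ (t * p ^ m)) ^ 2 < p ^ ((2 * t + 1) * (p ^ m - 1)) := by
  have h1 : m < p ^ m := Nat.lt_pow_self hp.out.one_lt
  obtain ⟨q, hq⟩ : ∃ q, p ^ m = q + 1 := ⟨p ^ m - 1, by omega⟩
  rw [hq, Nat.add_sub_cancel]
  have h2 : C ^ 2 < p ^ (C ^ 2) := Nat.lt_pow_self hp.out.one_lt
  have h3 : C ^ 2 + 2 * t ≤ q := by omega
  calc (C * p ^ (t * (q + 1))) ^ 2 = C ^ 2 * (p ^ (2 * t) * p ^ (2 * t * q)) := by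
        rw [mul_pow, ← pow_mul, ← pow_add]
        congr 2
        ring
    _ < p ^ (C ^ 2) * (p ^ (2 * t) * p ^ (2 * t * q)) :=
        Nat.mul_lt_mul_of_pos_right h2 (Nat.mul_pos (pow_pos hp.out.pos _) (pow_pos hp.out.pos _))
    _ = p ^ (C ^ 2 + 2 * t) * p ^ (2 * t * q) := by rw [pow_add]; ring
    _ ≤ p ^ q * p ^ (2 * t * q) :=
        Nat.mul_le_mul_right _ (Nat.pow_le_pow_right hp.out.pos h3)
    _ = p ^ ((2 * t + 1) * q) := by
        rw [← pow_add]
        congr 1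
        ring

/-- At most `t` of the `m_i` of `K⁺` are positive, so at most `2 t` of those of `K`, and none if `2 t < r`. -/
theorem real_rates [hKg : IsGalois ℚ K] (hp2 : p ≠ 2) (hk : finrank ℚ k = 2)
    (hki : ¬ k ≤ realSub ι)
    (hab : ∀ σ ∈ k.fixingSubgroup, ∀ τ ∈ k.fixingSubgroup, ∀ x ∈ K, σ (τ x) = τ (σ x))
    (hpK : ¬ p ∣ finrank ℚ K) {t : ℕ}
    (h : ∃ C, ∀ (m : ℕ) (R : IntermediateField ℚ Qb), IsLayer p m R →
      DegLe p ((K ⊓ realSub ι) ⊔ R) (C * p ^ (t * p ^ m)))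
    (hmu : MuZero p (abPart K)) :
    (∃ C', ∀ (m' : ℕ) (R' : IntermediateField ℚ Qb), IsLayer p m' R' →
      DegLe p (K ⊔ R') (C' * p ^ (2 * t * p ^ m'))) ∧
    ∀ r, NoSmall p K r → 2 * t < r → MuZero p K := by
  obtain ⟨C, hC⟩ := h
  obtain ⟨R, hR⟩ := Pool.Agent.V5helper65.GM.t_LAY p hp.out hp2 (C ^ 2 + (2 * t + 1))
  have hC0 := hC _ R hR
  have hsm := real_small_of_rate (p := p) (C := C) (t := t) (le_refl (C ^ 2 + (2 * t + 1)))
  refine ⟨real_rate_le hp2 hk hki hab hpK hR hC0 hsm hmu, fun r hr ht => ?_⟩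
  obtain ⟨T, hT⟩ := hmu
  refine mu_of_above hR ⟨(C * p ^ (t * p ^ (C ^ 2 + (2 * t + 1)))) ^ 2 * T, fun m' R' hR' hRR => ?_⟩
  have h5 := real_rate (g := 2 * t + 1) (s := 0) hp2 hk hki hab hpK hr (Or.inr ht) hR hR' hRR hC0 hsm
    (hT m' R' hR')
  rwa [zero_mul, pow_zero, mul_one] at h5

/-- Conversely, the rate of `K⁺` is at most the rate of `K`. -/
theorem rates_down {F : IntermediateField ℚ Qb} (hFK : F ≤ K) {s : ℕ}
    (h : ∃ C, ∀ (m : ℕ) (R : IntermediateField ℚ Qb), IsLayer p m R →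
      DegLe p (K ⊔ R) (C * p ^ (s * p ^ m))) :
    ∃ C, ∀ (m : ℕ) (R : IntermediateField ℚ Qb), IsLayer p m R →
      DegLe p (F ⊔ R) (C * p ^ (s * p ^ m)) := by
  obtain ⟨C, hC⟩ := h
  refine ⟨C * K.fixingSubgroup.index, fun m R hR => ?_⟩
  have hfR := layer_fd hp.out hR
  have hfF : FiniteDimensional ℚ F := fd_of_le hFK
  have h0 := hC m R hR
  rw [← rankLe_iff] at h0 ⊢
  rw [fixingSubgroup_sup] at h0 ⊢
  have h1 : (K.fixingSubgroup ⊓ R.fixingSubgroup).relIndex (F.fixingSubgroup ⊓ R.fixingSubgroup) =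
      K.fixingSubgroup.relIndex (F.fixingSubgroup ⊓ R.fixingSubgroup) := by
    have hle : K.fixingSubgroup ≤ F.fixingSubgroup := fixingSubgroup_le hFK
    rw [← Subgroup.inf_relIndex_right, ← Subgroup.inf_relIndex_right K.fixingSubgroup]
    congr 1
    ext x
    simp only [Subgroup.mem_inf]
    tauto
  have hK0 : K.fixingSubgroup.relIndex ⊤ ≠ 0 := by
    rw [Subgroup.relIndex_top_right]
    exact index_ne_zero' K
  have h2 : K.fixingSubgroup.relIndex (F.fixingSubgroup ⊓ R.fixingSubgroup) ≤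
      K.fixingSubgroup.index := by
    rw [← Subgroup.relIndex_top_right]
    exact Subgroup.relIndex_le_of_le_right le_top hK0
  have h3 : (K.fixingSubgroup ⊓ R.fixingSubgroup).relIndex
      (F.fixingSubgroup ⊓ R.fixingSubgroup) ≠ 0 := by
    rw [h1]
    exact fun h => hK0 (Subgroup.relIndex_eq_zero_of_le_right le_top h)
  refine (RankLe.of_le (inf_le_inf_right _ (fixingSubgroup_le hFK)) (by
    rw [Subgroup.coe_inf]
    exact K.fixingSubgroup_isOpen.inter R.fixingSubgroup_isOpen) h3 h0).mono ?_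
  rw [h1]
  calc C * p ^ (s * p ^ m) * K.fixingSubgroup.relIndex (F.fixingSubgroup ⊓ R.fixingSubgroup)
      ≤ C * p ^ (s * p ^ m) * K.fixingSubgroup.index := Nat.mul_le_mul_left _ h2
    _ = C * K.fixingSubgroup.index * p ^ (s * p ^ m) := by ring

end

end Pool.Agent.V5helper60.GM
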