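import Pool.Agent.V5helper60.GM.Tower

/-!
# Splitting off the fixed elements
-/

set_option autoImplicit false

namespace Pool.Agent.V5helper60.GM

open Subgroup Pool.Agent.Q60.MU Pool.Agent.W5h77.MB Pool.Agent.W5h33.DF
open Pool.Agent.X310.Mu (nm nm_eq nm_of_fix nm_fix eq_one_of_cop)
open scoped commutatorElement

section
variable {V : Type} [CommGroup V] [Finite V]

/-- The subgroup generated by the elements `δ v / v`. -/
def augS (D : Subgroup (MulAut V)) : Subgroup V := closure {x | ∃ δ ∈ D, ∃ v : V, x = δ v * v⁻¹}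

theorem aug_mem (D : Subgroup (MulAut V)) {δ : MulAut V} (hδ : δ ∈ D) (v : V) :
    δ v * v⁻¹ ∈ augS D := subset_closure ⟨δ, hδ, v, rfl⟩

theorem nu_fixS (D : Subgroup (MulAut V)) {u : V} (hu : u ∈ fixS D) :
    nu D u = u ^ Nat.card D := by
  have h := nu_rel D (⊥ : Subgroup V) (v := u) (fun δ hδ => by rw [hu δ hδ, mul_inv_cancel]; exact one_mem _)
  rw [mem_bot, mul_inv_eq_one] at h
  exact h

theorem aug_le (D : Subgroup (MulAut V)) : augS D ≤ (nu D).ker := by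
  unfold augS
  rw [closure_le]
  rintro _ ⟨δ, hδ, v, rfl⟩
  show _ ∈ (nu D).ker
  rw [MonoidHom.mem_ker, map_mul, map_inv, nu_act D hδ, mul_inv_cancel]

theorem fix_sup_aug {p : ℕ} (hp : p.Prime) (hV : ∀ v : V, v ^ p = 1) (D : Subgroup (MulAut V))
    (hD : ¬ p ∣ Nat.card D) : fixS D ⊔ augS D = ⊤ := by
  rw [eq_top_iff]
  rintro v -
  refine mem_of_cop _ hp hD ?_ (by rw [hV]; exact one_mem _)
  have h1 := nu_rel D (augS D) (v := v) fun δ hδ => aug_mem D hδ v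
  have h2 : nu D v ∈ fixS D := fun δ hδ => nu_fix D hδ v
  have h4 : (nu D v * (v ^ Nat.card D)⁻¹)⁻¹ * nu D v = v ^ Nat.card D := by
    rw [mul_inv_rev, inv_inv, inv_mul_cancel_right]
  rw [← h4]
  exact mul_mem (inv_mem (mem_sup_right h1)) (mem_sup_left h2)

theorem idx_split {p : ℕ} (hp : p.Prime) (hV : ∀ v : V, v ^ p = 1) (D : Subgroup (MulAut V))
    (hD : ¬ p ∣ Nat.card D) (Z : Subgroup V) (hZ : ∀ δ ∈ D, ∀ v ∈ Z, δ v ∈ Z) :
    Z.index = (fixS D ⊔ Z).index * (augS D ⊔ Z).index := by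
  classical
  have : Fintype D := Fintype.ofFinite D
  have hint : (fixS D ⊔ Z) ⊓ (augS D ⊔ Z) = Z := by
    refine le_antisymm ?_ (le_inf le_sup_right le_sup_right)
    rintro v ⟨h1, h2⟩
    obtain ⟨u, hu, z, hz, rfl⟩ := mem_sup.1 h1
    obtain ⟨x, hx, z', hz', h3⟩ := mem_sup.1 h2
    refine Z.mul_mem ?_ hz
    refine mem_of_cop Z hp hD ?_ (by rw [hV]; exact one_mem _)
    rw [← nu_fixS D hu]
    have h4 : u = x * (z' * z⁻¹) := by
      rw [← mul_assoc, h3, mul_inv_cancel_right]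
    rw [h4, map_mul]
    have h5 : nu D x = 1 := aug_le D hx
    rw [h5, one_mul]
    have h6 : nu D (z' * z⁻¹) = ∏ σ : D, (σ : MulAut V) (z' * z⁻¹) := nm_eq _ _ _
    rw [h6]
    exact prod_mem fun σ _ => hZ σ σ.2 _ (Z.mul_mem hz' (Z.inv_mem hz))
  have htop : (augS D ⊔ Z) ⊔ (fixS D ⊔ Z) = ⊤ := by
    rw [eq_top_iff, ← fix_sup_aug hp hV D hD]
    exact sup_le (le_sup_left.trans le_sup_right) (le_sup_left.trans le_sup_left)
  have h1 : Z.relIndex (fixS D ⊔ Z) = (augS D ⊔ Z).index := by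
    have h2 : Z.relIndex (fixS D ⊔ Z) = ((fixS D ⊔ Z) ⊓ (augS D ⊔ Z)).relIndex (fixS D ⊔ Z) := by
      rw [hint]
    rw [h2, inf_relIndex_left, ← relIndex_sup_left, htop, relIndex_top_right]
  rw [← h1, mul_comm]
  exact (relIndex_mul_index le_sup_right).symm

end

end Pool.Agent.V5helper60.GM
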