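import Pool.Agent.W5h77.MB.Mu

/-!
# Project GM: a gap theorem for the `p`-ranks in the cyclotomic tower (MP_b78433_nt)

Statements of three independent steps.
-/

set_option autoImplicit false

namespace Pool.Agent.V5helper60.GM

open IntermediateField Pool.Agent.Q60.MU Pool.Agent.W5h77.MB

/-- **Job ALG** (pure algebra, Mathlib only, about 250 lines).

Additive notation. `k = ZMod p`, `A = k[DD]` acts on `V`, semisimply, as `p` does not divide the order of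
`DD` (Maschke). `U` and the `φ^i V` are `A`-submodules. Let `B = U + φ^(q-1) V`, `B₁ = U + φ^q V`. Then
`B₁ ≠ B`: otherwise `φ^(q-1) V ≤ U + φ^q V ≤ U + φ^(q+1) V ≤ ... ≤ U`. Let `B'` be a maximal `A`-submodule
with `B₁ ≤ B' < B` and `W = B / B'`, a simple `A`-module, `λ : B → W`. By semisimplicity `λ` extends to an
`A`-linear `ν : V → W`. Put `Φ v = (ν (φ^i v))_(i < q) : V → W^q`, `P = ker Φ`, `w = |W|`.
* `U ≤ P`, as `U` is `φ`-stable and `λ U = 0`.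
* `φ^q V ≤ P`, as `ν (φ^(q+i) v) = λ (φ^(q+i) v) = 0`.
* `P` is `φ`-stable: `Φ (φ v) = (ν (φ v), ..., ν (φ^(q-1) v), 0)`.
* `Φ` is surjective: for `j < q` the vector `Φ (φ^(q-1-j) y)` has the coordinates `0` at `i > j` and
  `λ (φ^(q-1) y)` at `i = j`, and `λ ∘ φ^(q-1) : V → W` is surjective; induction on `j` shows that all vectors
  supported on `{0, ..., j}` are in the image. So the index of `P` is `w^q`, and `w0 ≤ w` by `hw`.
* Let `b ∈ V`, `x = Φ b`, and let `S` be the preimage of `A x`, so that `|S / P| = |A x|`. Let `A_H = k[HH]`,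
  a ring which acts commutatively. As `DD = HH ∪ HH c`, `A x ≤ A_H x + A_H (c x)`. So it is enough that
  `|A_H y| ≤ |W|` for all `y ∈ W^q`. Let `S₀ ≤ W` be a minimal nonzero `A_H`-submodule and `0 ≠ s ∈ S₀`, so
  `S₀ = A_H s`. `c S₀` is also an `A_H`-submodule (`c` normalizes `HH`), and it is minimal, and `S₀ + c S₀` is
  `A`-stable (`c^2 ∈ HH` or `c ∈ HH`), so it is `W`. If `S₀ ∩ c S₀ = 0`, then `|W| = |S₀| |c S₀|`, and an
  `a ∈ A_H` with `a s = 0 = a (c s)` kills `S₀` (commutativity) and `c S₀ = A_H (c s)`, so `W`, so `y`; so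
  `|A_H y| ≤ |{(a s, a c s)}| ≤ |S₀| |c S₀| = |W|`. Otherwise `S₀ = c S₀ = W`, an `a` with `a s = 0` kills `W`,
  and `|A_H y| ≤ |A_H s| = |W|`. -/
def S_ALG : Prop :=
  ∀ (p : ℕ) [Fact p.Prime] (V : Type) [CommGroup V] [Finite V], (∀ v : V, v ^ p = 1) →
  ∀ (DD : Subgroup (MulAut V)), ¬ p ∣ Nat.card DD →
  ∀ (φ : V →* V), (∀ δ ∈ DD, ∀ v, δ (φ v) = φ (δ v)) → ∀ N : ℕ, (∀ v, φ^[N] v = 1) →
  ∀ (U : Subgroup V), (∀ δ ∈ DD, ∀ v ∈ U, δ v ∈ U) → (∀ v ∈ U, φ v ∈ U) →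
  ∀ (HH : Subgroup (MulAut V)), HH ≤ DD → (∀ δ ∈ DD, ∀ h ∈ HH, δ * h * δ⁻¹ ∈ HH) →
  (∀ h ∈ HH, ∀ h' ∈ HH, h * h' = h' * h) → ∀ c ∈ DD, (∀ δ ∈ DD, δ ∈ HH ∨ δ * c⁻¹ ∈ HH) →
  ∀ q : ℕ, 0 < q → ∀ w0 : ℕ,
  (∀ B' B : Subgroup V, U ≤ B' → B' ≤ B → (∀ δ ∈ DD, ∀ v ∈ B', δ v ∈ B') →
    (∀ δ ∈ DD, ∀ v ∈ B, δ v ∈ B) → (∀ v ∈ B, φ v ∈ B') → B' ≠ B → w0 ≤ B'.relIndex B) →
  (∃ v, φ^[q - 1] v ∉ U) →
  ∃ (P : Subgroup V) (w : ℕ), U ≤ P ∧ (∀ δ ∈ DD, ∀ v ∈ P, δ v ∈ P) ∧ (∀ v ∈ P, φ v ∈ P) ∧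
    (∀ v, φ^[q] v ∈ P) ∧ w0 ≤ w ∧ P.index = w ^ q ∧
    ∀ b : V, ∃ S : Subgroup V, P ≤ S ∧ (∀ δ ∈ DD, ∀ v ∈ S, δ v ∈ S) ∧ b ∈ S ∧ P.relIndex S ≤ w ^ 2

/-- **Job ORD** (Mathlib only, about 80 lines).

Let `δ` act on the group `X = B / B'` of order `p^n`, `n < r`. Suppose that it acts nontrivially. Let `o` be
the order of the automorphism of `X`; it divides the order of `δ`. Let `ℓ` be a prime divisor of `o`, and
`ε` the automorphism `δ^(o/ℓ)` of `X`, of order `ℓ`. Its fixed points form a subgroup of order `p^f`, `f < n`,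
and the other elements of `X` are in orbits of length `ℓ`: so `ℓ ∣ p^n - p^f = p^f (p^(n-f) - 1)`
(`IsPGroup.card_modEq_card_fixedPoints`), and `ℓ ≠ p`. So `ℓ ∣ p^(n-f) - 1` and `0 < n - f < r`. -/
def S_ORD : Prop :=
  ∀ (p : ℕ) [Fact p.Prime] (V : Type) [CommGroup V] [Finite V] (δ : MulAut V) (B' B : Subgroup V),
  B' ≤ B → (∀ v ∈ B', δ v ∈ B') → (∀ v ∈ B, δ v ∈ B) → ∀ n r : ℕ, B'.relIndex B = p ^ n → n < r →
  (∀ l : ℕ, l.Prime → l ∣ orderOf δ → l ≠ p ∧ ∀ j : ℕ, 0 < j → j < r → ¬ l ∣ p ^ j - 1) →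
  ∀ v ∈ B, δ v * v⁻¹ ∈ B'

/-- **Job OP** (about 120 lines): in `E = ℚ(ζ)`, `ζ` a primitive `p^N`-th root of unity, there is only one
prime above `p`.

`N = 0`: `E = ℚ`, `Pool.Agent.W5h33.DF.onePrime_bot` (module `Pool.Agent.W5h33.DF.Field`, which may be imported).
`N ≥ 1`: let `π = ζ - 1`, a prime element of `𝓞 E` (Mathlib: `IsPrimitiveRoot.zeta_sub_one_prime` or
`zeta_sub_one_prime'`). Let `A` be a valuation ring of `E` with `p` in the maximal ideal `m`. It contains `𝓞 E`.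
As `p = ∏ (1 - ζ^j)` over `0 < j < p^N` prime to `p` (`Polynomial.eval_one_cyclotomic_prime_pow`), some
`1 - ζ^j` is in `m`, and as `ζ = (ζ^j)^i` for some `i`, `π ∈ m`. `π 𝓞 E` is a nonzero prime ideal, so it is
maximal; so `m ∩ 𝓞 E = π 𝓞 E`, and the elements of `𝓞 E` which are not divisible by `π` are units of `A`.
Every `x ≠ 0` in `E` is `π^k a / b` with an integer `k` and `a, b ∈ 𝓞 E` not divisible by `π`. So `x ∈ A` if and
only if `k ≥ 0`, for all such `A`: so any two of them are equal. -/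
def S_OP : Prop :=
  ∀ (p : ℕ), p.Prime → ∀ N : ℕ, OnePrime p (adjoin ℚ {z : Qb | z ^ p ^ N = 1})

end Pool.Agent.V5helper60.GM
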