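import Pool.Agent.W5h77.MB.Cyc

/-!
# Project GM: a gap theorem for the `p`-ranks in the cyclotomic tower (MP_b78433_nt)

Statements of two more steps.
-/

set_option autoImplicit false

namespace Pool.Agent.V5helper60.GM

open IntermediateField Pool.Agent.Q60.MU Pool.Agent.W5h77.MB

/-- **Job LAY** (about 80 lines): the layers exist.

`E = adjoin ℚ {z | z ^ p ^ (m + 1) = 1}` is a cyclotomic extension of `ℚ` of degree `p ^ m (p - 1)`, with Galois group
isomorphic to `(ZMod (p ^ (m + 1)))ˣ`, which is cyclic (`ZMod.isCyclic_units_of_prime_pow`). If `g` is a generator, the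
subgroup generated by `g ^ p ^ m` has the order `p - 1` and so the index `p ^ m`; its fixed field (lifted to `Qb`) is `R`
(see `Pool.Agent.V5helper81.GM.OP` for a cyclotomic extension of this kind in `Qb`). -/
def S_LAY : Prop :=
  ∀ p : ℕ, p.Prime → p ≠ 2 → ∀ m : ℕ, ∃ R : IntermediateField ℚ Qb, IsLayer p m R

/-- **Job PM** (pure algebra, about 100 lines).

Additive notation: `V` is a vector space over `F_p`, `p` odd, `HH` acts commutatively, `c ^ 2 = 1`, `X` is stable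
under `HH` and `c`, and no `v ≠ 0` in `X` satisfies `h v = c h c⁻¹ v` for all `h ∈ HH`. Claim: `|X| ≤ |X⁺| ^ 2`, where
`X⁺ = {v ∈ X : c v = v}`, `X⁻ = {v ∈ X : c v = - v}`. As `p` is odd, `X = X⁺ ⊕ X⁻`. So `|X⁻| = |X⁺|` is enough: by
induction on `|X|`, for all `X` with these properties. If `X ≠ 0`, there is an `h ∈ HH` such that
`a = h - c h c⁻¹` is not `0` on `X`. `a` commutes with `HH`, and `a c = - c a`. So `Y = X ∩ ker a` and `a X` are stable
under `HH` and `c`, they are contained in `X` (so no `v ≠ 0` in them satisfies the equations), and `a` maps `X⁺` onto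
`(a X)⁻` (if `a v = - c (a v) = a (c v)` then `a v = a ((v + c v) / 2)`) with the kernel `Y⁺`, and `X⁻` onto `(a X)⁺`
with the kernel `Y⁻`. `Y ≠ X` gives `|Y⁺| = |Y⁻|` by induction. If `a X ≠ X`, also `|(a X)⁺| = |(a X)⁻|`, and
`|X⁺| = |Y⁺| |(a X)⁻| = |Y⁻| |(a X)⁺| = |X⁻|`. If `a X = X`, `a` is a bijection of `X` and maps `X⁺` onto `X⁻`. -/
def S_PM : Prop :=
  ∀ (p : ℕ) [Fact p.Prime], p ≠ 2 → ∀ (V : Type) [CommGroup V] [Finite V], (∀ v : V, v ^ p = 1) →
  ∀ (HH : Subgroup (MulAut V)) (c : MulAut V), c * c = 1 → (∀ h ∈ HH, ∀ h' ∈ HH, h * h' = h' * h) →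
  (∀ h ∈ HH, c * h * c⁻¹ ∈ HH) → ∀ X : Subgroup V, (∀ h ∈ HH, ∀ v ∈ X, h v ∈ X) → (∀ v ∈ X, c v ∈ X) →
  (∀ v ∈ X, (∀ h ∈ HH, h v = (c * h * c⁻¹) v) → v = 1) →
  ∀ P : Subgroup V, (∀ v, v ∈ P ↔ v ∈ X ∧ c v = v) → Nat.card X ≤ Nat.card P ^ 2

end Pool.Agent.V5helper60.GM
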