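import Pool.Agent.W5h77.MB.Mu

/-!
# Project GM, part 2: all primes `p` and all abelian extensions of `k` (MP_b78433_nt)

Statements about the real layers for `p = 2`.
-/

set_option autoImplicit false

namespace Pool.Agent.V5helper60.GM

open IntermediateField Pool.Agent.Q60.MU Pool.Agent.W5h77.MB

/-- **Job CYC2** (about 100 lines): the real layers are cyclic, `p = 2`.

Let `R ≤ ℚ(ζ)`, `ζ` of order `2 ^ N`, be real; we may assume `N ≥ 3` (`adjoin` is monotone in `N`, see the proof of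
`Pool.Agent.W5h33.DF.layer_sup`). Let `χ : Gal(Qb/ℚ) → (ZMod (2 ^ N))ˣ` be the cyclotomic character, as in the proof of
`Pool.Agent.W5h33.DF.layer_cyclic` (the case `p` odd); elements with `χ g = 1` fix `R`. `χ` is onto (irreducibility of
the cyclotomic polynomial, e.g. `IsCyclotomicExtension.Rat.galEquivZMod` or `IsCyclotomicExtension.autEquivPow`), so there is
`σ` with `χ σ = 5` (surjectivity is only needed for `5`). The units modulo `2 ^ N` are `± 5 ^ i` (Mathlib:
`Mathlib.RingTheory.ZMod.UnitsCyclic`, `ZMod.orderOf_five`; the subgroup generated by `5` has the order `2 ^ (N - 2)`, and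
`-1` is not in it, as its elements are `1` modulo `4`). So `χ τ = χ σ ^ i` or `χ τ = - χ σ ^ i`. In the first case
`τ σ ^ (-i)` fixes `ℚ(ζ) ≥ R`. In the second case, let `c` be the complex conjugation (`exists_conj ι`): `χ c = -1`, so
`τ σ ^ (-i) c` fixes `R`, and `c` fixes `R`, as `R` is real. -/
def S_CYC2 : Prop :=
  ∀ (ι : Qb →+* ℂ) (m : ℕ) (R : IntermediateField ℚ Qb), IsLayer 2 m R → R ≤ realSub ι →
    ∃ σ : Gal(Qb/ℚ), ∀ τ, ∃ i : ℤ, τ * (σ ^ i)⁻¹ ∈ R.fixingSubgroup

/-- **Job LAY2** (about 60 lines): the real layers exist, `p = 2`.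

`R = ℚ(ζ) ∩ realSub ι`, `ζ` of order `2 ^ (m + 2)`: `ℚ(ζ)` has the degree `2 ^ (m + 1)`, complex conjugation has the order `2`
on it (`m + 2 ≥ 2`), and `R` is its fixed field. -/
def S_LAY2 : Prop :=
  ∀ (ι : Qb →+* ℂ) (m : ℕ), ∃ R : IntermediateField ℚ Qb, IsLayer 2 m R ∧ R ≤ realSub ι

end Pool.Agent.V5helper60.GM
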