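import Pool.Agent.W5h77.MB.Mu

/-!
# Project GM, part 3: stabilization of the ranks (MP_b78433_nt)

Total ramification of `p` in the field of the `p ^ N`-th roots of unity.
-/

set_option autoImplicit false

namespace Pool.Agent.V5helper60.GM

open IntermediateField Pool.Agent.Q60.MU Pool.Agent.W5h77.MB
open scoped Pointwise

/-- **Job TRAM** (about 150 lines). The inertia group of a prime `w` of the algebraic numbers above `p` maps onto
`Gal(M/ℚ)`, `M = ℚ(ζ)` the field of the `p ^ N`-th roots of unity.

Proof. Let `g` be given. By `Pool.Agent.V5helper81.GM.t_OP` (there is only one prime of `M` above `p`) and `conj_of_one`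
(see `Pool.Agent.V5helper60.GM.exists_w` in `GM/Fld.lean` for the finiteness of `M / ℚ` and `p ∈ (g • w).nonunits`)
there is `d ∈ M.fixingSubgroup` with `g • w = d • w`; let `s = d⁻¹ g`, so `s • w = w`. Let `B` be the integral closure of
`ℤ` in `Qb` (or of `𝓞 M`), `Q = B ∩ m_w` (`m_w` the maximal ideal of `w`, i.e. `w.nonunits`; `B ≤ w` is
`Pool.Agent.Q60.MU.integral_mem`), `P = Q ∩ 𝓞 M`. `s` acts on `B / Q`, and trivially on the image of `𝓞 M`: as
`𝓞 M = ℤ[ζ]` (Mathlib: `IsCyclotomicExtension.Rat.isIntegralClosure_adjoin_singleton_of_prime_pow` or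
`IsPrimitiveRoot.integralPowerBasis`, `...adjoinEquivRingOfIntegers`), and all powers of `ζ` are `1` modulo `Q` (a root of
unity `z` of `p`-power order has `(z - 1) ^ p ^ N ∈ p B`, or: `z - 1` is in `m_w`, as otherwise the powers of `z` would
have different residues, but `x ^ p = 1` has only the solution `1` in a field of characteristic `p`). By
`Ideal.Quotient.stabilizerHom_surjective_of_profinite` (`Mathlib.RingTheory.Invariant.Profinite`), applied to the
group `Gal(Qb/M)`, there is `h ∈ Gal(Qb/M)` with `h Q = Q` which acts on `B / Q` in the same way as `s`. Then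
`σ = s h⁻¹` fixes `Q` and acts trivially on `B / Q`. Every element of `w` is `b / c` with `b, c ∈ B`, `c ∉ Q` (`w` is the
localization of `B` at `Q`: for `x ∈ w` clear denominators in the minimal polynomial, or see
`Pool.Agent.H639R3.exists_aut` and the lemmas near it for the way it is used for `conj_of_one`), so
`σ • w = w` and `σ x - x ∈ m_w` for `x ∈ w`. `σ⁻¹ g = h s⁻¹ d s` is in `M.fixingSubgroup`, a normal subgroup.

(Any other proof is fine, e.g. for finite Galois extensions `L ⊇ M` by ramification indices and compactness.) -/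
def S_TRAM : Prop :=
  ∀ p : ℕ, p.Prime → ∀ w : ValuationSubring Qb, (p : Qb) ∈ w.nonunits → ∀ (N : ℕ) (g : Gal(Qb/ℚ)),
    ∃ σ ∈ inertia w, σ⁻¹ * g ∈ (adjoin ℚ {z : Qb | z ^ p ^ N = 1}).fixingSubgroup

end Pool.Agent.V5helper60.GM
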