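import Pool.Agent.W5h33.DF.Main

/-!
# The layers of a totally ramified tower
-/

set_option autoImplicit false

namespace Pool.Agent.V5helper60.GM

open Subgroup Pool.Agent.Q60.MU Pool.Agent.W5h77.MB Pool.Agent.W5h33.DF
open scoped commutatorElement

variable {𝔾 : Type} [Group 𝔾] [TopologicalSpace 𝔾]

/-- `Q` is a subgroup of the group `K ⊓ D'` of the highest layer which contains the inertia groups, `γ` is
an element of the inertia group of `w₀` which generates `K` modulo `D'`. -/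
structure Tower (p : ℕ) {Ω : Type} [MulAction 𝔾 Ω] (I : Ω → Subgroup 𝔾) (K D' Q : Subgroup 𝔾)
    (γ : 𝔾) (w₀ : Ω) : Prop where
  hI : ∀ (g : 𝔾) (w : Ω), ∀ x ∈ I w, g * x * g⁻¹ ∈ I (g • w)
  Kn : K.Normal
  Dn : D'.Normal
  Qn : Q.Normal
  QK : Q ≤ K ⊓ D'
  Qo : IsOpen (Q : Set 𝔾)
  Qf : Q.relIndex (K ⊓ D') ≠ 0
  gQ : gens p I (K ⊓ D') ⊆ Q
  γK : γ ∈ K
  γI : γ ∈ I w₀
  γg : ∀ g : 𝔾, ∃ i : ℤ, g * (γ ^ i)⁻¹ ∈ D'
  tot : ∀ A, I A ≤ D' ∨ ∃ a ∈ K ⊓ D', a * γ ∈ I A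
  K0 : K.index ≠ 0
  Kp : ¬ p ∣ K.index

/-- `D` is a layer of degree `q`. -/
structure Lay (D' : Subgroup 𝔾) (γ : 𝔾) (D : Subgroup 𝔾) (q : ℕ) : Prop where
  Dn : D.Normal
  le : D' ≤ D
  dvd : ∀ n : ℤ, γ ^ n ∈ D → (q : ℤ) ∣ n
  mem : γ ^ q ∈ D

/-- The relations of the layer of degree `q` are contained in `P`. -/
structure Rels {Ω : Type} (I : Ω → Subgroup 𝔾) (𝒦' : Subgroup 𝔾) (γ : 𝔾) (q : ℕ) (P : Subgroup 𝔾) :
    Prop where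
  comm : ∀ x ∈ 𝒦', ⁅γ ^ q, x⁆ ∈ P
  iner : ∀ a ∈ 𝒦', (∃ A, a * γ ∈ I A) → (a * γ) ^ q * (γ ^ q)⁻¹ ∈ P

variable {p : ℕ} [hp : Fact p.Prime] {Ω : Type} [MulAction 𝔾 Ω] {I : Ω → Subgroup 𝔾}
  {K D' Q : Subgroup 𝔾} {γ : 𝔾} {w₀ : Ω}

omit hp in
theorem Tower.comm_mem (h : Tower p I K D' Q γ w₀) (a b : 𝔾) : ⁅a, b⁆ ∈ D' := by
  have hDn := h.Dn
  rw [← QuotientGroup.eq_one_iff]
  show QuotientGroup.mk' D' ⁅a, b⁆ = 1
  rw [map_commutatorElement, commutatorElement_eq_one_iff_commute]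
  have h1 : ∀ g : 𝔾, ∃ i : ℤ, QuotientGroup.mk' D' g = (QuotientGroup.mk' D' γ) ^ i := by
    intro g
    obtain ⟨i, hi⟩ := h.γg g
    refine ⟨i, ?_⟩
    have h2 : QuotientGroup.mk' D' (g * (γ ^ i)⁻¹) = 1 := (QuotientGroup.eq_one_iff _).2 hi
    rw [map_mul, map_inv, map_zpow, mul_inv_eq_one] at h2
    exact h2
  obtain ⟨i, hi⟩ := h1 a
  obtain ⟨j, hj⟩ := h1 b
  rw [hi, hj]
  exact (Commute.refl _).zpow_zpow i j

omit hp in
/-- Decomposition of the elements of a layer. -/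
theorem Tower.dec (h : Tower p I K D' Q γ w₀) {D L : Subgroup 𝔾} {q : ℕ} (hD : Lay D' γ D q)
    (hL : K ≤ L) {x : 𝔾} (hx : x ∈ L ⊓ D) : ∃ l ∈ L ⊓ D', ∃ j : ℤ, x = l * (γ ^ q) ^ j := by
  obtain ⟨i, hi⟩ := h.γg x
  have h1 : γ ^ i ∈ D := by
    have h2 := D.mul_mem (D.inv_mem (hD.le hi)) hx.2
    have h3 : (x * (γ ^ i)⁻¹)⁻¹ * x = γ ^ i := by group
    rwa [h3] at h2
  obtain ⟨j, rfl⟩ := hD.dvd i h1
  refine ⟨x * (γ ^ ((q : ℤ) * j))⁻¹, ⟨L.mul_mem hx.1 (L.inv_mem (L.zpow_mem (hL h.γK) _)), hi⟩, j, ?_⟩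
  rw [zpow_mul, zpow_natCast, inv_mul_cancel_right]

omit hp in
/-- The inertia elements in a layer. -/
theorem Tower.iner (h : Tower p I K D' Q γ w₀) {D P : Subgroup 𝔾} {q : ℕ} (hD : Lay D' γ D q)
    (hQP : Q ≤ P) (hPn : P.Normal) (hP : Rels I (K ⊓ D') γ q P) {x : 𝔾} (hx : x ∈ K ⊓ D) {A : Ω}
    (hA : x ∈ I A) : ∃ j : ℤ, x * ((γ ^ q) ^ j)⁻¹ ∈ P := by
  rcases h.tot A with h1 | ⟨a, ha, haA⟩
  · refine ⟨0, ?_⟩
    rw [zpow_zero, inv_one, mul_one]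
    exact hQP (h.gQ (Or.inr ⟨⟨hx.1, h1 hA⟩, A, hA⟩))
  · have hDn := h.Dn
    obtain ⟨i, hi⟩ := h.γg x
    have h1 : γ ^ i ∈ D := by
      have h2 := D.mul_mem (D.inv_mem (hD.le hi)) hx.2
      have h3 : (x * (γ ^ i)⁻¹)⁻¹ * x = γ ^ i := by group
      rwa [h3] at h2
    obtain ⟨j, rfl⟩ := hD.dvd i h1
    refine ⟨j, ?_⟩
    -- the power of the inertia element
    have h2 : x * ((a * γ) ^ ((q : ℤ) * j))⁻¹ ∈ Q := by
      refine h.gQ (Or.inr ⟨⟨?_, ?_⟩, A, ?_⟩)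
      · exact K.mul_mem hx.1 (K.inv_mem (K.zpow_mem (K.mul_mem ha.1 h.γK) _))
      · show x * ((a * γ) ^ ((q : ℤ) * j))⁻¹ ∈ D'
        rw [← QuotientGroup.eq_one_iff]
        show QuotientGroup.mk' D' _ = 1
        have h3 : QuotientGroup.mk' D' (x * (γ ^ ((q : ℤ) * j))⁻¹) = 1 :=
          (QuotientGroup.eq_one_iff _).2 hi
        have h4 : QuotientGroup.mk' D' a = 1 := (QuotientGroup.eq_one_iff _).2 ha.2
        rw [map_mul, map_inv, map_zpow, map_mul, h4, one_mul, ← map_zpow, ← map_inv, ← map_mul]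
        exact h3
      · exact (I A).mul_mem hA ((I A).inv_mem ((I A).zpow_mem haA _))
    have h3 : QuotientGroup.mk' P ((a * γ) ^ q) = QuotientGroup.mk' P (γ ^ q) := by
      rw [← mul_inv_eq_one, ← map_inv, ← map_mul]
      exact (QuotientGroup.eq_one_iff _).2 (hP.iner a ha ⟨A, haA⟩)
    rw [← QuotientGroup.eq_one_iff]
    show QuotientGroup.mk' P _ = 1
    have h4 : QuotientGroup.mk' P (x * ((a * γ) ^ ((q : ℤ) * j))⁻¹) = 1 :=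
      (QuotientGroup.eq_one_iff _).2 (hQP h2)
    rw [map_mul, map_inv, zpow_mul, zpow_natCast, map_zpow, h3] at h4
    rw [map_mul, map_inv, map_zpow]
    exact h4

/-- Upper bound for the module of a layer. -/
theorem Tower.upper [ContinuousMul 𝔾] (h : Tower p I K D' Q γ w₀) {F D P X : Subgroup 𝔾} {q : ℕ}
    (hD : Lay D' γ D q) (hKF : K ≤ F) (hPn : P.Normal)
    (hXn : X.Normal) (hQP : Q ≤ P) (hPK : P ≤ K ⊓ D') (hXK : X ≤ K ⊓ D')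
    (hP : Rels I (K ⊓ D') γ q P) (hX : ∀ l ∈ F ⊓ D', ∀ x ∈ K ⊓ D', ⁅l, x⁆ ∈ X)
    {C : ℕ} (hC : RankLe p I (F ⊓ D) C) : (X ⊔ P).relIndex (K ⊓ D') ≤ C := by
  have hKn := h.Kn
  have hDn := h.Dn
  have hDDn := hD.Dn
  set S : Subgroup 𝔾 := X ⊔ P with hS
  have hSn : S.Normal := Subgroup.sup_normal X P
  have hPS : P ≤ S := le_sup_right
  have hSK : S ≤ K ⊓ D' := sup_le hXK hPK
  have hKD : K ⊓ D' ≤ K ⊓ D := inf_le_inf_left _ hD.le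
  have hcomm : ∀ a b : 𝔾, ⁅a, b⁆ ∈ S ↔ Commute (QuotientGroup.mk' S a) (QuotientGroup.mk' S b) := by
    intro a b
    rw [← commutatorElement_eq_one_iff_commute, ← map_commutatorElement]
    exact (QuotientGroup.eq_one_iff _).symm
  have h1 : ∀ x ∈ K ⊓ D', ∀ y ∈ K ⊓ D', Commute (QuotientGroup.mk' S x) (QuotientGroup.mk' S y) :=
    fun x hx y hy => (hcomm x y).1 (hPS (hQP (h.gQ (Or.inl (Or.inr ⟨x, hx, y, hy, rfl⟩)))))
  have h2 : ∀ x ∈ K ⊓ D', Commute (QuotientGroup.mk' S (γ ^ q)) (QuotientGroup.mk' S x) :=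
    fun x hx => (hcomm _ x).1 (hPS (hP.comm x hx))
  have h3 : ∀ a ∈ K ⊓ D, ∀ b ∈ K ⊓ D, Commute (QuotientGroup.mk' S a) (QuotientGroup.mk' S b) := by
    intro a ha b hb
    obtain ⟨x, hx, i, rfl⟩ := h.dec hD le_rfl ha
    obtain ⟨y, hy, j, rfl⟩ := h.dec hD le_rfl hb
    rw [map_mul, map_mul, map_zpow, map_zpow]
    exact ((h1 x hx y hy).mul_right ((h2 x hx).symm.zpow_right j)).mul_left
      (((h2 y hy).zpow_left i).mul_right ((Commute.refl _).zpow_zpow i j))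
  set 𝒲 : Subgroup 𝔾 := S ⊔ zpowers (γ ^ q) with h𝒲
  have hS𝒲 : S ≤ 𝒲 := le_sup_left
  have hγ𝒲 : ∀ j : ℤ, (γ ^ q) ^ j ∈ 𝒲 := fun j =>
    𝒲.zpow_mem (mem_sup_right (mem_zpowers _)) j
  have hof : ∀ (x : 𝔾) (j : ℤ), x * ((γ ^ q) ^ j)⁻¹ ∈ S → x ∈ 𝒲 := by
    intro x j hx
    have h5 := 𝒲.mul_mem (hS𝒲 hx) (hγ𝒲 j)
    rwa [inv_mul_cancel_right] at h5
  have hγKD : γ ^ q ∈ K ⊓ D := ⟨K.pow_mem h.γK q, hD.mem⟩
  have h𝒲K : 𝒲 ≤ K ⊓ D := by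
    refine sup_le (hSK.trans hKD) ?_
    rw [zpowers_le]
    exact hγKD
  have hQ𝒲 : Q ≤ 𝒲 := hQP.trans (hPS.trans hS𝒲)
  -- the intersection with the group of the highest layer
  have hint : 𝒲 ⊓ (K ⊓ D') ≤ S := by
    rintro x ⟨hx1, hx2⟩
    have hx3 : x ∈ ((S ⊔ zpowers (γ ^ q) : Subgroup 𝔾) : Set 𝔾) := hx1
    rw [Subgroup.normal_mul] at hx3
    obtain ⟨s, hs, z, hz, rfl⟩ := hx3
    obtain ⟨j, rfl⟩ := mem_zpowers_iff.1 hz
    refine S.mul_mem hs (hPS (hQP (h.gQ (Or.inr ⟨?_, w₀, (I w₀).zpow_mem ((I w₀).pow_mem h.γI q) j⟩))))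
    have h5 := (K ⊓ D').mul_mem ((K ⊓ D').inv_mem (hSK hs)) hx2
    have h6 : s⁻¹ * ((fun x1 x2 => x1 * x2) s ((γ ^ q) ^ j)) = (γ ^ q) ^ j := by
      show s⁻¹ * (s * (γ ^ q) ^ j) = _
      rw [inv_mul_cancel_left]
    rwa [h6] at h5
  have hrelKF : ∀ L : Subgroup 𝔾, ¬ p ∣ K.relIndex L := fun L hdvd =>
    h.Kp (hdvd.trans (relIndex_dvd_index_of_normal K L))
  have hrelKF0 : ∀ L : Subgroup 𝔾, K.relIndex L ≠ 0 := fun L h0 => hrelKF L (h0 ▸ dvd_zero p)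
  -- finiteness
  have h𝒲f : 𝒲.relIndex (K ⊓ D) ≠ 0 := by
    have h5 : 𝒲.relIndex (K ⊓ D') ≠ 0 := fun h0 => h.Qf (by
      exact relIndex_eq_zero_of_le_left hQ𝒲 h0)
    have h6 : 𝒲.relIndex (K ⊓ D) ≤ 𝒲.relIndex (K ⊓ D') := by
      refine relIndex_le_of_mul hKD h5 ?_
      intro f hf
      obtain ⟨x, hx, j, rfl⟩ := h.dec hD le_rfl hf
      exact ⟨x, hx, _, hγ𝒲 j, rfl⟩
    intro h0
    have h7 : 𝒲.relIndex (K ⊓ D') = 0 := by
      by_contra hne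
      have h8 : 𝒲.relIndex (K ⊓ D) = 𝒲.relIndex (K ⊓ D) := rfl
      have hfi : (𝒲.subgroupOf (K ⊓ D')).FiniteIndex := ⟨h5⟩
      have hfin : Finite ((K ⊓ D' : Subgroup 𝔾) ⧸ 𝒲.subgroupOf (K ⊓ D')) := inferInstance
      have hsur : Function.Surjective (fun q' : (K ⊓ D' : Subgroup 𝔾) ⧸ 𝒲.subgroupOf (K ⊓ D') =>
          (QuotientGroup.mk (⟨q'.out, hKD q'.out.2⟩ : (K ⊓ D : Subgroup 𝔾)) :
            (K ⊓ D : Subgroup 𝔾) ⧸ 𝒲.subgroupOf (K ⊓ D))) := by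
        intro q'
        obtain ⟨l, rfl⟩ := QuotientGroup.mk_surjective q'
        obtain ⟨x, hx, j, hl⟩ := h.dec hD le_rfl l.2
        refine ⟨QuotientGroup.mk ⟨x, hx⟩, ?_⟩
        obtain ⟨u, hu⟩ := QuotientGroup.mk_out_eq_mul (𝒲.subgroupOf (K ⊓ D')) (⟨x, hx⟩ : (K ⊓ D' : Subgroup 𝔾))
        show (QuotientGroup.mk _ : (K ⊓ D : Subgroup 𝔾) ⧸ 𝒲.subgroupOf (K ⊓ D)) = QuotientGroup.mk l
        rw [QuotientGroup.eq, mem_subgroupOf]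
        push_cast
        rw [hu, hl]
        push_cast
        have h9 : (x * (u : 𝔾))⁻¹ * (x * (γ ^ q) ^ j) = (u : 𝔾)⁻¹ * (γ ^ q) ^ j := by group
        rw [h9]
        exact 𝒲.mul_mem (𝒲.inv_mem u.2) (hγ𝒲 j)
      have hfin2 : Finite ((K ⊓ D : Subgroup 𝔾) ⧸ 𝒲.subgroupOf (K ⊓ D)) := Finite.of_surjective _ hsur
      exact (𝒲.subgroupOf (K ⊓ D)).index_ne_zero_of_finite h0
    exact h5 h7
  have hmain : 𝒲.relIndex (K ⊓ D) ≤ C := by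
    refine genus_cop (K := K ⊓ D) (L := F ⊓ D) (inf_le_inf_right _ hKF) ?_ h𝒲K
      (Subgroup.isOpen_mono hQ𝒲 h.Qo) h𝒲f ?_ ?_ hC
    · rw [rel_inf inf_le_right]
      exact hrelKF _
    · rintro x ((⟨a, ha, rfl⟩ | ⟨a, ha, b, hb, rfl⟩) | ⟨hx, A, hA⟩)
      · obtain ⟨x, hx, j, rfl⟩ := h.dec hD le_rfl ha
        refine hof _ (j * p) ?_
        rw [← QuotientGroup.eq_one_iff]
        show QuotientGroup.mk' S _ = 1
        have h5 : QuotientGroup.mk' S (x ^ p) = 1 :=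
          (QuotientGroup.eq_one_iff _).2 (hPS (hQP (h.gQ (Or.inl (Or.inl ⟨x, hx, rfl⟩)))))
        have h6 : Commute (QuotientGroup.mk' S x) (QuotientGroup.mk' S ((γ ^ q) ^ j)) := by
          rw [map_zpow]
          exact (h2 x hx).symm.zpow_right j
        rw [map_mul, map_pow, map_mul, h6.mul_pow, ← map_pow, h5, one_mul, ← map_pow, ← map_mul,
          ← zpow_natCast ((γ ^ q) ^ j) p, ← zpow_mul, mul_inv_cancel, map_one]
      · exact hS𝒲 ((hcomm a b).2 (h3 a ha b hb))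
      · obtain ⟨j, hj⟩ := h.iner hD hQP hPn hP hx hA
        exact hof x j (hPS hj)
    · intro l hl k hk
      apply hS𝒲
      rw [hcomm]
      obtain ⟨x, hx, i, rfl⟩ := h.dec hD le_rfl hk
      obtain ⟨l', hl', j, rfl⟩ := h.dec hD hKF hl
      have hl'x : Commute (QuotientGroup.mk' S l') (QuotientGroup.mk' S x) :=
        (hcomm l' x).1 (mem_sup_left (hX l' hl' x hx))
      have hl'γ : Commute (QuotientGroup.mk' S l') (QuotientGroup.mk' S (γ ^ q)) := by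
        rw [← hcomm]
        apply hPS
        have hc : ⁅l', γ⁆ ∈ K ⊓ D' := by
          refine ⟨?_, h.comm_mem l' γ⟩
          rw [commutatorElement_def]
          exact K.mul_mem (hKn.conj_mem γ h.γK l') (K.inv_mem h.γK)
        have h5 := hP.iner ⁅l', γ⁆ hc ⟨l' • w₀, by
          have h6 := h.hI l' w₀ γ h.γI
          have h7 : ⁅l', γ⁆ * γ = l' * γ * l'⁻¹ := by
            rw [commutatorElement_def]
            group
          rw [h7]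
          exact h6⟩
        have h7 : ⁅l', γ⁆ * γ = l' * γ * l'⁻¹ := by
          rw [commutatorElement_def]
          group
        rw [h7, conj_pow] at h5
        rw [commutatorElement_def]
        exact h5
      rw [map_mul, map_mul, map_zpow, map_zpow]
      have h2x := h2 x hx
      exact ((hl'x.mul_right (hl'γ.zpow_right i))).mul_left
        ((h2x.zpow_left j).mul_right ((Commute.refl _).zpow_zpow j i))
  have h5 : S.relIndex (K ⊓ D') ≤ 𝒲.relIndex (K ⊓ D') := by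
    have h6 : 𝒲 ⊓ (K ⊓ D') ≤ S ⊓ (K ⊓ D') := fun x hx => ⟨hint hx, hx.2⟩
    have h7 : S ⊓ (K ⊓ D') = 𝒲 ⊓ (K ⊓ D') := le_antisymm (inf_le_inf_right _ hS𝒲) h6
    rw [← inf_relIndex_right S, h7, inf_relIndex_right]
  exact h5.trans ((relIndex_le_of_le_right hKD h𝒲f).trans hmain)

/-- Lower bound for the module of a layer. -/
theorem Tower.lower (h : Tower p I K D' Q γ w₀) {F D P X W : Subgroup 𝔾} {q : ℕ}
    (hD : Lay D' γ D q) (hKF : K ≤ F)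
    (hP : ∀ W : Subgroup 𝔾, Q ≤ W → Rels I (K ⊓ D') γ q W → P ≤ W)
    (hX : ∀ W : Subgroup 𝔾, Q ≤ W → (∀ l ∈ F ⊓ D', ∀ x ∈ K ⊓ D', ⁅l, x⁆ ∈ W) → X ≤ W)
    (hQXP : Q ≤ X ⊔ P)
    (hQW : Q ≤ W) (hg : gens p I (F ⊓ D) ⊆ W) :
    W.relIndex (F ⊓ D) ≤ (X ⊔ P).relIndex (K ⊓ D') := by
  have hKn := h.Kn
  have hDn := h.Dn
  have hDDn := hD.Dn
  have hKD : K ⊓ D' ≤ F ⊓ D := inf_le_inf hKF hD.le
  have hγFD : γ ^ q ∈ F ⊓ D := ⟨F.pow_mem (hKF h.γK) q, hD.mem⟩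
  have hγW : γ ^ q ∈ W := hg (Or.inr ⟨hγFD, w₀, (I w₀).pow_mem h.γI q⟩)
  have hXP : X ⊔ P ≤ W := by
    refine sup_le (hX W hQW ?_) (hP W hQW ⟨?_, ?_⟩)
    · intro l hl x hx
      exact hg (Or.inl (Or.inr ⟨l, ⟨hl.1, hD.le hl.2⟩, x, hKD hx, rfl⟩))
    · intro x hx
      exact hg (Or.inl (Or.inr ⟨γ ^ q, hγFD, x, hKD hx, rfl⟩))
    · rintro a ha ⟨A, hA⟩
      refine W.mul_mem (hg (Or.inr ⟨?_, A, (I A).pow_mem hA q⟩)) (W.inv_mem hγW)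
      refine ⟨F.pow_mem (F.mul_mem (hKF ha.1) (hKF h.γK)) q, ?_⟩
      show (a * γ) ^ q ∈ D
      rw [← QuotientGroup.eq_one_iff]
      show QuotientGroup.mk' D _ = 1
      have h4 : QuotientGroup.mk' D a = 1 := (QuotientGroup.eq_one_iff _).2 (hD.le ha.2)
      rw [map_pow, map_mul, h4, one_mul, ← map_pow]
      exact (QuotientGroup.eq_one_iff _).2 hD.mem
  have hf : (X ⊔ P).relIndex (K ⊓ D') ≠ 0 := fun h0 => h.Qf (relIndex_eq_zero_of_le_left hQXP h0)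
  have hf2 : W.relIndex (K ⊓ D') ≠ 0 := fun h0 => hf (relIndex_eq_zero_of_le_left hXP h0)
  refine (relIndex_le_of_mul hKD hf2 ?_).trans (relIndex_le_of_le_left hXP hf)
  intro f hf'
  obtain ⟨l, hl, j, rfl⟩ := h.dec hD hKF hf'
  -- a power of `l` is in `K`
  have hpow : l ^ K.index ∈ K ⊓ D' := ⟨K.pow_index_mem l, D'.pow_mem hl.2 _⟩
  have hlp : l ^ p ∈ W := hg (Or.inl (Or.inl ⟨l, ⟨hl.1, hD.le hl.2⟩, rfl⟩))
  have hcop : IsCoprime (K.index : ℤ) (p : ℤ) := by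
    rw [Nat.isCoprime_iff_coprime]
    exact ((Nat.Prime.coprime_iff_not_dvd hp.out).2 h.Kp).symm
  obtain ⟨u, v, huv⟩ := hcop
  have h1 : l = (l ^ K.index) ^ u * (l ^ p) ^ v := by
    rw [← zpow_natCast l K.index, ← zpow_natCast l p, ← zpow_mul, ← zpow_mul, ← zpow_add,
      mul_comm (K.index : ℤ) u, mul_comm (p : ℤ) v, huv, zpow_one]
  refine ⟨(l ^ K.index) ^ u, (K ⊓ D').zpow_mem hpow u, (l ^ p) ^ v * (γ ^ q) ^ j,
    W.mul_mem (W.zpow_mem hlp v) (W.zpow_mem hγW j), ?_⟩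
  rw [← mul_assoc, ← h1]

end Pool.Agent.V5helper60.GM
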